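import Pool.Agent.MP_e1dc65_gt.Spec1
import Pool.Agent.MP_e1dc65_gt.t2.Disc
import Pool.Agent.MP_e1dc65_gt.fm.Hza
import Pool.Agent.MP_e1dc65_gt.b.Adapt
import Mathlib.Analysis.Complex.ExponentialBounds
import Mathlib.LinearAlgebra.Complex.FiniteDimensional
import Pool.Agent.MP_e1dc65_gt.fm.Cw3

-- ======== part 0: formerly Pool.Agent.MP_e1dc65_gt.fm.Cw2
section MrgPart0

-- ======== part 0: formerly Pool.Agent.MP_e1dc65_gt.k.Cf5
section MrgPart0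

/-! PROJECT HC, row COF: the coframes `(θ, dt)` of a cylinder. -/

open scoped ContDiff Manifold Topology Quaternion Matrix
open Set Filter Function Module Pool.Agent.MP_c8d41b_gt.GF

noncomputable section

namespace Pool.Agent.MP_e1dc65_gt

variable {E E' V : Type} [NormedAddCommGroup E] [NormedSpace ℝ E] [NormedAddCommGroup E']
  [NormedSpace ℝ E'] [NormedAddCommGroup V] [NormedSpace ℝ V]

/-- `emb` as a continuous linear equivalence -/
def embE : (ℍ × ℝ) ≃L[ℝ] Rn 5 :=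
  LinearEquiv.toContinuousLinearEquiv
    { embL.toLinearMap with
      invFun := fun w => (⟨w 0, w 1, w 2, w 3⟩, w 4)
      left_inv := fun _ => rfl
      right_inv := fun w => by ext i; fin_cases i <;> rfl }

theorem coe_embE : (embE : ℍ × ℝ →L[ℝ] Rn 5) = embL := rfl
@[simp] theorem embL_apply (v : ℍ) (t : ℝ) : embL (v, t) = emb v t := rfl
@[simp] theorem embE_apply (v : ℍ) (t : ℝ) : embE (v, t) = emb v t := rfl
theorem embL_inv : embL.IsInvertible := ⟨embE, rfl⟩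
theorem emb_surj (w : Rn 5) : ∃ v t, emb v t = w :=
  let ⟨p, h⟩ := embE.surjective w; ⟨p.1, p.2, h⟩
theorem emb_inj {v v' : ℍ} {t t' : ℝ} : emb v t = emb v' t' ↔ v = v' ∧ t = t' :=
  (embE.injective.eq_iff (a := (v, t)) (b := (v', t'))).trans Prod.mk_inj
theorem m5_ext_emb {A B : M5} (h : ∀ v t, A *ᵥ emb v t = B *ᵥ emb v t) : A = B :=
  m5_ext fun w => by obtain ⟨v, t, rfl⟩ := emb_surj w; exact h v t

/-- the coordinates of `ℝ⁴ × ℝ` as a continuous linear equivalence -/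
def stdE : (Rn 4 × ℝ) ≃L[ℝ] Rn 5 :=
  LinearEquiv.toContinuousLinearEquiv
    { std5.toLinearMap with
      invFun := fun w => (![w 0, w 1, w 2, w 3], w 4)
      left_inv := fun p => Prod.ext (by ext i; fin_cases i <;> rfl) rfl
      right_inv := fun w => by ext i; fin_cases i <;> rfl }

theorem std5_inv : std5.IsInvertible := ⟨stdE, rfl⟩

theorem id_inv : (ContinuousLinearMap.id ℝ V).IsInvertible := ⟨ContinuousLinearEquiv.refl ℝ V, rfl⟩

@[simp] theorem cf5_apply (θ : E →L[ℝ] ℍ) (v : E) (t : ℝ) : cf5 θ (v, t) = emb (θ v) t := rfl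

theorem cf5_inv {θ : E →L[ℝ] ℍ} (h : θ.IsInvertible) : (cf5 θ).IsInvertible :=
  embL_inv.comp (inv_prodMap h id_inv).1

theorem cf5_inverse {θ : E →L[ℝ] ℍ} (h : θ.IsInvertible) (v : ℍ) (t : ℝ) :
    (cf5 θ).inverse (emb v t) = (θ.inverse v, t) := by
  rw [(cf5_inv h).inverse_apply_eq, cf5_apply, h.self_apply_inverse]

theorem cf5_comp (θ : E →L[ℝ] ℍ) (L : E' →L[ℝ] E) :
    (cf5 θ).comp (L.prodMap (ContinuousLinearMap.id ℝ ℝ)) = cf5 (θ.comp L) := rfl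

theorem tm_cf5 (θ : E →L[ℝ] ℍ) {θ' : E →L[ℝ] ℍ} (h : θ'.IsInvertible) (v : ℍ) (t : ℝ) :
    tm (cf5 θ) (cf5 θ') *ᵥ emb v t = emb (θ (θ'.inverse v)) t := by
  rw [tm_mulVec', cf5_inverse h, cf5_apply]

theorem mp_oc (L : E' →L[ℝ] E) (o : Lam E) :
    mp (L.prodMap (ContinuousLinearMap.id ℝ ℝ)) (oc o) = oc (mp L o) := by
  rw [oc, oc, map_mul, ← mp_comp, ← mp_comp, mp_ι]; rfl

/-- evaluation of `o ∧ dt` -/
theorem ev_oc (l : List E) (o : Lam E) :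
    ev (l.map (fun v => (v, (0 : ℝ))) ++ [(0, 1)]) (oc o) = ev l o := by
  induction l generalizing o with
  | nil =>
    simp only [List.map_nil, List.nil_append, ev, oc, ctr_mul, ctr_mp, ctr_ι, inv_mp]
    have e : ExteriorAlgebra.algebraMapInv (inv o) = ExteriorAlgebra.algebraMapInv o := by
      induction o using lam_ind with
      | h0 r => simp
      | ha a b h1 h2 => simp only [map_add, h1, h2]
      | hm m a _ => simp [ExteriorAlgebra.algebraMapInv]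
    simp [ctr_zero_left, algebraMapInv_mp, e]
  | cons v l ih =>
    rw [List.map_cons, List.cons_append, ev, ev, ← ih]
    simp [oc, ctr_mul, ctr_mp, ctr_ι]

theorem posB_cf5 {θ : E →L[ℝ] ℍ} {o : Lam E} :
    PosB (Pi.basisFun ℝ (Fin 5)) (oc o) (cf5 θ) ↔ PosB hb o θ := by
  by_cases h : θ.IsInvertible
  · have e : ∀ k : Fin 4, (Pi.basisFun ℝ (Fin 5) k.castSucc : Rn 5) = emb (hb k) 0 := fun k => by
      ext i; fin_cases k <;> fin_cases i <;> simp [emb, hb]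
    have e' : (Pi.basisFun ℝ (Fin 5) (Fin.last 4) : Rn 5) = emb 0 1 := by
      ext i; fin_cases i <;> simp [emb, Fin.last]
    rw [PosB, PosB, ← ev_oc _ o, List.map_ofFn, List.ofFn_succ', List.concat_eq_append]
    simp only [e, e', cf5_inverse h, map_zero, comp_def]
  · refine iff_of_false (fun hp => h ?_) fun hp => h hp.inv
    obtain ⟨L, hL⟩ := hp.inv
    have hi : Injective θ := fun v w e => (Prod.ext_iff.1 (L.injective (a₁ := (v, 0)) (a₂ := (w, 0))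
      (show (L : E × ℝ →L[ℝ] Rn 5) _ = (L : E × ℝ →L[ℝ] Rn 5) _ by
        rw [hL, cf5_apply, cf5_apply, e]))).1
    have hs : ∀ v, θ (L.symm (emb v 0)).1 = v := fun v => by
      have : cf5 θ (L.symm (emb v 0)) = emb v 0 := by rw [← hL]; exact L.apply_symm_apply _
      exact (emb_inj.1 this).1
    refine .of_inverse (g := (ContinuousLinearMap.fst ℝ E ℝ).comp ((L.symm : Rn 5 →L[ℝ] E × ℝ).comp
      (embL.comp (ContinuousLinearMap.inl ℝ ℍ ℝ)))) (ContinuousLinearMap.ext hs)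
      (ContinuousLinearMap.ext fun v => hi (hs _))

variable [FiniteDimensional ℝ E] {X : Mf E} {n : WithTop ℕ∞} {U : Set X}

theorem CfAt.cf5 {θ : X → E →L[ℝ] ℍ} {p : X.cyl} (h : CfAt X n θ p.1) [hn : Fact (n ≤ ∞)] :
    CfAt X.cyl n (fun p => cf5 (θ p.1)) p :=
  (h.prodMap (Y := vs ℝ) (cof_id p.2 trivial).1).ccomp embL

theorem Cof.cf5 {θ : X → E →L[ℝ] ℍ} (h : Cof X n θ U) [hn : Fact (n ≤ ∞)] :
    Cof X.cyl n (fun p => cf5 (θ p.1)) (U ×ˢ univ) := (h.cyl).ccomp embE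

end Pool.Agent.MP_e1dc65_gt

end
end MrgPart0

-- ======== part 1: formerly Pool.Agent.MP_e1dc65_gt.fm.Cw1
section MrgPart1

/-! PROJECT HC: matrices of forms, the Bianchi identity and the gauge law. -/

open scoped ContDiff Manifold Topology
open Set Filter Function Module Pool.Agent.MP_c8d41b_gt.GF

set_option linter.unusedSectionVars false

noncomputable section

namespace Pool.Agent.MP_e1dc65_gt

namespace CW

variable {E E' : Type} [NormedAddCommGroup E] [NormedSpace ℝ E] [FiniteDimensional ℝ E]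
  [NormedAddCommGroup E'] [NormedSpace ℝ E'] [FiniteDimensional ℝ E'] {X : Mf E} {Y : Mf E'}
  {A B : X → MF E} {x : X} {W : Set X} {M N : MF E} {k l : ℕ}

/-- all entries are smooth at `x` -/
def MAt (X : Mf E) (A : X → MF E) (x : X) : Prop := ∀ a b, FmAt X (fun y => A y a b) x

/-- all entries have degree `k` -/
def MD (k : ℕ) (M : MF E) : Prop := ∀ a b, M a b ∈ dg E k

theorem MAt.add (h : MAt X A x) (h' : MAt X B x) : MAt X (fun y => A y + B y) x :=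
  fun a b => (h a b).add (h' a b)

theorem MAt.mul (h : MAt X A x) (h' : MAt X B x) : MAt X (fun y => A y * B y) x :=
  fun a b => by
    simp only [Matrix.mul_apply]
    exact fmAt_sum fun c _ => (h a c).mul (h' c b)

theorem MAt.dMat (h : MAt X A x) : MAt X (dMat X A) x := fun a b => (h a b).dM

theorem MAt.curv (h : MAt X A x) : MAt X (curv X A) x := h.dMat.add (h.mul h)

theorem MAt.trace (h : MAt X A x) : FmAt X (fun y => (A y).trace) x :=
  fmAt_sum (γ := fun c y => A y c c) fun c _ => h c c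

theorem mAt_mF {g : X → M5} (h : ∀ a b, SmAt X (vs ℝ) (fun y => g y a b) x) :
    MAt X (fun y => mF (g y)) x := fun a b => fmAt_scalar (h a b)

theorem MD.add (h : MD k M) (h' : MD k N) : MD k (M + N) := fun a b => add_mem (h a b) (h' a b)

theorem MD.mul (h : MD k M) (h' : MD l N) : MD (k + l) (M * N) :=
  fun a b => by
    rw [Matrix.mul_apply]
    exact sum_mem fun c _ => dg_mul (h a c) (h' c b)

theorem MD.trace (h : MD k M) : M.trace ∈ dg E k := sum_mem fun c _ => h c c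

theorem mD_mF (g : M5) : MD 0 (mF g : MF E) := fun _ _ => dg_algebraMap _

theorem MD.inv_even (h : MD k M) (hk : Even k) : M.map inv = M := by
  ext a b : 1
  rw [Matrix.map_apply, inv_dg (h a b), hk.neg_one_pow, one_smul]

theorem MD.inv_odd (h : MD k M) (hk : Odd k) : M.map inv = -M := by
  ext a b : 1
  rw [Matrix.map_apply, inv_dg (h a b), hk.neg_one_pow, neg_one_smul, Matrix.neg_apply]

/-- graded cyclicity of the trace -/
theorem MD.trace_comm (h : MD k M) (hk : Even k) (N : MF E) : (M * N).trace = (N * M).trace := by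
  simp only [Matrix.trace, Matrix.diag, Matrix.mul_apply]
  rw [Finset.sum_comm]
  exact Finset.sum_congr rfl fun a _ => Finset.sum_congr rfl fun b _ => comm_of_even hk (h b a) _

theorem mF_mul (g h : M5) : (mF (g * h) : MF E) = mF g * mF h := Matrix.map_mul

theorem mF_one : (mF 1 : MF E) = 1 := Matrix.map_one _ (map_zero _) (map_one _)

theorem mD_dMat (h : MAt X A x) (h' : ∀ᶠ y in 𝓝 x, MD k (A y)) : MD (k + 1) (dMat X A x) :=
  fun a b => dg_dM (h a b) (h'.mono fun _ h => h a b)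

theorem dMat_congr (e : A =ᶠ[𝓝 x] B) : dMat X A x = dMat X B x := by
  ext a b : 1
  exact dM_congr (e.mono fun y h => congrFun₂ h a b)

theorem dMat_add (h : MAt X A x) (h' : MAt X B x) :
    dMat X (fun y => A y + B y) x = dMat X A x + dMat X B x := by
  ext a b : 1
  exact dM_add (h a b) (h' a b)

/-- Leibniz rule -/
theorem dMat_mul (h : MAt X A x) (h' : MAt X B x) :
    dMat X (fun y => A y * B y) x = dMat X A x * B x + (A x).map inv * dMat X B x := by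
  ext a b : 1
  simp only [dMat, Matrix.of_apply, Matrix.add_apply, Matrix.mul_apply, Matrix.map_apply]
  rw [dM_sum fun c _ => (h a c).mul (h' c b), ← Finset.sum_add_distrib]
  exact Finset.sum_congr rfl fun c _ => dM_mul (h a c) (h' c b)

theorem dMat_dMat (h : MAt X A x) : dMat X (dMat X A) x = 0 := by
  ext a b : 1
  exact dM_dM (h a b)

theorem dM_trace (h : MAt X A x) : dM X (fun y => (A y).trace) x = (dMat X A x).trace :=
  dM_sum (γ := fun c y => A y c c) fun c _ => h c c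

/-- Bianchi identity -/
theorem bianchi (h : MAt X A x) (h' : MD 1 (A x)) :
    dMat X (curv X A) x = curv X A x * A x - A x * curv X A x := by
  refine (dMat_add h.dMat (h.mul h)).trans ?_
  rw [dMat_dMat h, dMat_mul h h, h'.inv_odd odd_one, curv]
  noncomm_ring

theorem mD_curv (hW : IsOpen W) (h : ∀ a b, Fm X 1 (fun x => A x a b) W) (hx : x ∈ W) :
    MD 2 (curv X A x) :=
  (mD_dMat (fun a b => (h a b x hx).1)
    (mem_of_superset (hW.mem_nhds hx) fun y hy a b => (h a b y hy).2)).add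
    (MD.mul (k := 1) (l := 1) (fun a b => (h a b x hx).2) fun a b => (h a b x hx).2)

theorem cl_trF (hW : IsOpen W) (h : ∀ a b, Fm X 1 (fun x => A x a b) W) : Cl X 4 (trF X A) W := by
  have h1 : ∀ x ∈ W, MAt X A x := fun x hx a b => (h a b x hx).1
  have h2 : ∀ x ∈ W, MD 4 (curv X A x * curv X A x) := fun x hx =>
    (mD_curv hW h hx).mul (mD_curv hW h hx)
  refine ⟨fun x hx => ⟨((h1 x hx).curv.mul (h1 x hx).curv).trace, (h2 x hx).trace⟩, fun x hx => ?_⟩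
  refine (dM_trace ((h1 x hx).curv.mul (h1 x hx).curv)).trans ?_
  rw [dMat_mul (h1 x hx).curv (h1 x hx).curv, (mD_curv hW h hx).inv_even even_two,
    bianchi (h1 x hx) fun a b => (h a b x hx).2, ← sub_eq_zero.2 ((h2 x hx).trace_comm ⟨2, rfl⟩ (A x)),
    ← Matrix.trace_sub]
  congr 1
  noncomm_ring

/-- the curvature under a change of gauge -/
theorem curv_gauge {G : X → MF E} (hA : MAt X A x) (hB : MAt X B x) (hG : MAt X G x)
    (h1 : MD 1 (A x)) (h0 : MD 0 (G x)) (e : ∀ᶠ y in 𝓝 x, dMat X G y + A y * G y = G y * B y) :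
    curv X A x * G x = G x * curv X B x := by
  have e1 : dMat X (fun y => dMat X G y + A y * G y) x = dMat X (fun y => G y * B y) x :=
    dMat_congr e
  rw [dMat_add hG.dMat (hA.mul hG), dMat_dMat hG, dMat_mul hA hG, dMat_mul hG hB,
    h1.inv_odd odd_one, h0.inv_even Even.zero, eq_sub_of_add_eq e.self_of_nhds, zero_add] at e1
  rw [curv, curv, add_mul, mul_add, eq_sub_of_add_eq e1]
  noncomm_ring

theorem trace_conj {g : M5} (hg : g.det ≠ 0) (e : M * mF g = mF g * N) :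
    (M * M).trace = (N * N).trace := by
  have h1 : (mF g * mF g⁻¹ : MF E) = 1 := by
    rw [← mF_mul, Matrix.mul_nonsing_inv _ hg.isUnit, mF_one]
  have h2 : (mF g⁻¹ * mF g : MF E) = 1 := by
    rw [← mF_mul, Matrix.nonsing_inv_mul _ hg.isUnit, mF_one]
  rw [← mul_one (M * M), ← h1, ← mul_assoc, mul_assoc M, e, ← mul_assoc, e, mul_assoc, mul_assoc,
    (mD_mF g).trace_comm Even.zero, mul_assoc, mul_assoc, h2, mul_one]

theorem curv_pb {f : Y → X} {y : Y} (hf : SmAt Y X f y) (h : MAt X A (f y)) :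
    curv Y (fun y => Matrix.of fun a b => pbM Y X f (fun x => A x a b) y) y =
      (curv X A (f y)).map (mp (Df Y X f y)) := by
  rw [curv, curv, Matrix.map_add _ (map_add _), Matrix.map_mul]
  congr 1
  ext a b : 1
  simp only [dMat, Matrix.of_apply, Matrix.map_apply]
  exact dM_pb hf (h a b)

theorem trF_pb {f : Y → X} {y : Y} (hf : SmAt Y X f y) (h : MAt X A (f y)) :
    trF Y (fun y => Matrix.of fun a b => pbM Y X f (fun x => A x a b) y) y =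
      pbM Y X f (trF X A) y := by
  rw [trF, curv_pb hf h, ← Matrix.map_mul, pbM, trF]
  simp only [Matrix.trace, Matrix.diag, Matrix.map_apply, map_sum]

theorem trF_gauge {g : X → M5} (hW : IsOpen W) (h : ∀ a b, Fm X 1 (fun x => A x a b) W)
    (hg : ∀ a b, Sm X (vs ℝ) (fun x => g x a b) W) (hd : ∀ x ∈ W, (g x).det ≠ 0)
    (h' : ∀ a b, Fm X 1 (fun x => B x a b) W)
    (e : ∀ x ∈ W, dMat X (fun y => mF (g y)) x + A x * mF (g x) = mF (g x) * B x) (hx : x ∈ W) :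
    trF X A x = trF X B x := by
  rw [trF, trF]
  exact trace_conj (hd x hx) (curv_gauge (G := fun y => mF (g y)) (fun a b => (h a b x hx).1)
    (fun a b => (h' a b x hx).1) (mAt_mF fun a b => hg a b x hx) (fun a b => (h a b x hx).2)
    (mD_mF _) (mem_of_superset (hW.mem_nhds hx) e))

end CW

theorem cw1 : Cw1Stmt := fun _ _ _ _ _ _ _ hW h =>
  ⟨CW.cl_trF hW h, fun _ _ hg hd h' e _ hx => CW.trF_gauge hW h hg hd h' e hx,
    fun _ _ _ _ _ _ _ hf hy => CW.trF_pb hf fun a b => (h a b _ hy).1⟩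

end Pool.Agent.MP_e1dc65_gt

end
end MrgPart1

-- ======== part 2: formerly Pool.Agent.MP_e1dc65_gt.fm.Cw2
section MrgPart2

/-! PROJECT HC, toolkit fm, row CW2: calculus of connections. -/

open scoped ContDiff Manifold Topology
open Set Filter Function Module Pool.Agent.MP_c8d41b_gt.GF

set_option linter.unusedSectionVars false

noncomputable section

namespace Pool.Agent.MP_e1dc65_gt

namespace Cw2

variable {E E' : Type} [NormedAddCommGroup E] [NormedSpace ℝ E] [FiniteDimensional ℝ E]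
  [NormedAddCommGroup E'] [NormedSpace ℝ E'] [FiniteDimensional ℝ E'] {X : Mf E} {Y : Mf E'}
  {x : X} {W U : Set X}

theorem mF_mul (a b : M5) : (mF (a * b) : MF E) = mF a * mF b := Matrix.map_mul

theorem mF_one : (mF 1 : MF E) = 1 := Matrix.map_one _ (map_zero _) (map_one _)

theorem mF_apply (a : M5) (i j : Fin 5) : (mF a : MF E) i j = algebraMap ℝ (Lam E) (a i j) := rfl

theorem dMat_congr {A B : X → MF E} (e : A =ᶠ[𝓝 x] B) : dMat X A x = dMat X B x := by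
  ext a b
  exact dM_congr (e.mono fun y hy => by simp only [hy])

theorem dMat_one : dMat X (fun _ => (mF 1 : MF E)) x = 0 := by
  ext a b
  change dM X (fun _ => algebraMap ℝ (Lam E) ((1 : M5) a b)) x = 0
  rw [dM_scalar (smAt_const (Y := vs ℝ) _), dF_const]

/-- the product rule -/
theorem dMat_mul {g h : X → M5} (hg : ∀ a b, SmAt X (vs ℝ) (fun y => g y a b) x)
    (hh : ∀ a b, SmAt X (vs ℝ) (fun y => h y a b) x) :
    dMat X (fun y => mF (g y * h y)) x =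
      dMat X (fun y => mF (g y)) x * mF (h x) + mF (g x) * dMat X (fun y => mF (h y)) x := by
  ext a b
  have e : (fun y => (mF (g y * h y) : MF E) a b) = fun y =>
      ∑ c, algebraMap ℝ (Lam E) (g y a c) * algebraMap ℝ (Lam E) (h y c b) :=
    funext fun y => by rw [mF_mul, Matrix.mul_apply]; rfl
  change dM X (fun y => (mF (g y * h y) : MF E) a b) x = _
  rw [e, dM_sum fun c _ => (fmAt_scalar (hg a c)).mul (fmAt_scalar (hh c b)), Matrix.add_apply,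
    Matrix.mul_apply, Matrix.mul_apply, ← Finset.sum_add_distrib]
  refine Finset.sum_congr rfl fun c _ => ?_
  rw [dM_mul (fmAt_scalar (hg a c)) (fmAt_scalar (hh c b)), AlgHom.commutes]
  rfl

/-- a smooth coframe at a point -/
def Gd (X : Mf E) (Θ : X → E →L[ℝ] Rn 5) (x : X) : Prop := CfAt X ∞ Θ x ∧ (Θ x).IsInvertible

section Gau
variable {Θ Θ' Θ'' : X → E →L[ℝ] Rn 5} {A A' A'' B : X → MF E}

theorem Gd.ev (h : Gd X Θ x) : ∀ᶠ y in 𝓝 x, (Θ y).IsInvertible := h.1.ev_inv h.2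

theorem Gd.sm (h : Gd X Θ x) (h' : Gd X Θ' x) (a b : Fin 5) :
    SmAt X (vs ℝ) (fun y => tm (Θ y) (Θ' y) a b) x := h.1.tm_cn h'.1 h'.2 a b

theorem d_tm_self (h : Gd X Θ x) : dMat X (fun y => mF (tm (Θ y) (Θ y))) x = 0 := by
  rw [dMat_congr (B := fun _ => mF 1) (h.ev.mono fun y hy => by simp only [tm_self hy]), dMat_one]

theorem d_tm (h : Gd X Θ x) (h' : Gd X Θ' x) (h'' : Gd X Θ'' x) :
    dMat X (fun y => mF (tm (Θ y) (Θ'' y))) x =
      dMat X (fun y => mF (tm (Θ y) (Θ' y))) x * mF (tm (Θ' x) (Θ'' x)) +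
        mF (tm (Θ x) (Θ' x)) * dMat X (fun y => mF (tm (Θ' y) (Θ'' y))) x := by
  rw [← dMat_mul (h.sm h') (h'.sm h'')]
  exact dMat_congr (h'.ev.mono fun y hy => by simp only [tm_mul hy])

theorem mF_tm (h' : Gd X Θ' x) :
    (mF (tm (Θ x) (Θ' x)) : MF E) * mF (tm (Θ' x) (Θ'' x)) = mF (tm (Θ x) (Θ'' x)) := by
  rw [← mF_mul, tm_mul h'.2]

theorem mF_tm_one (h : Gd X Θ x) (h' : Gd X Θ' x) :
    (mF (tm (Θ x) (Θ' x)) : MF E) * mF (tm (Θ' x) (Θ x)) = 1 := by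
  rw [mF_tm h', tm_self h.2, mF_one]

theorem gau_refl (h : Gd X Θ x) : Gau X Θ A Θ A x := by
  rw [Gau, d_tm_self h, tm_self h.2, mF_one, zero_add, mul_one, one_mul]

theorem gau_trans (h : Gd X Θ x) (h' : Gd X Θ' x) (h'' : Gd X Θ'' x) (a : Gau X Θ A Θ' A' x)
    (b : Gau X Θ' A' Θ'' A'' x) : Gau X Θ A Θ'' A'' x := by
  unfold Gau at *
  rw [d_tm h h' h'', ← mF_tm (Θ := Θ) (Θ'' := Θ'') h', mul_assoc, ← b, mul_add, ← mul_assoc _ (A' x), ← a, add_mul,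
    mul_assoc (A x)]
  abel

theorem gau_symm (h : Gd X Θ x) (h' : Gd X Θ' x) (a : Gau X Θ A Θ' A' x) :
    Gau X Θ' A' Θ A x := by
  unfold Gau at *
  have e := d_tm h' h h'
  rw [d_tm_self h'] at e
  have e1 := mF_tm_one h h'
  have e2 := mF_tm_one h' h
  generalize dMat X (fun y => mF (tm (Θ y) (Θ' y))) x = d at *
  generalize dMat X (fun y => mF (tm (Θ' y) (Θ y))) x = d' at *
  generalize (mF (tm (Θ x) (Θ' x)) : MF E) = g at *
  generalize (mF (tm (Θ' x) (Θ x)) : MF E) = g' at *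
  have f1 : d' = -(g' * d * g') := by
    have : d' * g = -(g' * d) := eq_neg_of_add_eq_zero_left e.symm
    rw [← neg_mul, ← this, mul_assoc, e1, mul_one]
  have f2 : A' x = g' * d + g' * A x * g := by
    rw [mul_assoc, ← mul_add, a, ← mul_assoc, e2, one_mul]
  rw [f1, f2, add_mul, mul_assoc (g' * A x), e1, mul_one]
  abel

theorem gau_uniq (h : Gd X Θ x) (h' : Gd X Θ' x) (a : Gau X Θ A Θ' A' x)
    (b : Gau X Θ B Θ' A' x) : A x = B x := by
  unfold Gau at *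
  have e := add_left_cancel (a.trans b.symm)
  rw [← mul_one (A x), ← mul_one (B x), ← mF_tm_one h h', ← mul_assoc, e, mul_assoc]

theorem gau_congr (e : B x = A x) (a : Gau X Θ A Θ' A' x) : Gau X Θ B Θ' A' x := by
  unfold Gau at *
  rwa [e]

/-- the matrix of the connection in a new coframe -/
def tr (X : Mf E) (Θ Θ' : X → E →L[ℝ] Rn 5) (A' : X → MF E) (x : X) : MF E :=
  (mF (tm (Θ x) (Θ' x)) * A' x - dMat X (fun y => mF (tm (Θ y) (Θ' y))) x) * mF (tm (Θ' x) (Θ x))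

theorem gau_tr (h : Gd X Θ x) (h' : Gd X Θ' x) : Gau X Θ (tr X Θ Θ' A') Θ' A' x := by
  rw [Gau, tr, mul_assoc, mF_tm_one h' h, mul_one, add_sub_cancel]

theorem fm_mul {k l : ℕ} (hA : ∀ a b, Fm X k (fun x => A x a b) W)
    (hB : ∀ a b, Fm X l (fun x => B x a b) W) (a b : Fin 5) :
    Fm X (k + l) (fun x => (A x * B x) a b) W := fun x hx => by
  simp only [Matrix.mul_apply]
  exact ⟨fmAt_sum fun c _ => (hA a c x hx).1.mul (hB c b x hx).1,
    Submodule.sum_mem _ fun c _ => dg_mul (hA a c x hx).2 (hB c b x hx).2⟩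

theorem fm_tm (h : Cof X ∞ Θ W) (h' : Cof X ∞ Θ' W) (a b : Fin 5) :
    Fm X 0 (fun x => (mF (tm (Θ x) (Θ' x)) : MF E) a b) W :=
  fm_scalar (u := fun x => tm (Θ x) (Θ' x) a b) fun x hx => Gd.sm (h x hx) (h' x hx) a b

theorem fm_tr (hW : IsOpen W) (h : Cof X ∞ Θ W) (h' : Cof X ∞ Θ' W)
    (hA : ∀ a b, Fm X 1 (fun x => A' x a b) W) (a b : Fin 5) :
    Fm X 1 (fun x => tr X Θ Θ' A' x a b) W :=
  fm_mul (k := 1) (l := 0) (A := fun x => mF (tm (Θ x) (Θ' x)) * A' x -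
    dMat X (fun y => mF (tm (Θ y) (Θ' y))) x) (fun a b =>
      (fm_mul (k := 0) (l := 1) (fm_tm h h') hA a b).sub ((fm_tm h h' a b).dM hW).1)
    (fm_tm h' h) a b

theorem trF_eq (h1 : Cw1Stmt) (hW : IsOpen W) (h : Cof X ∞ Θ W) (h' : Cof X ∞ Θ' W)
    (hA : ∀ a b, Fm X 1 (fun x => A x a b) W) (hA' : ∀ a b, Fm X 1 (fun x => A' x a b) W)
    (hg : ∀ x ∈ W, Gau X Θ A Θ' A' x) (hx : x ∈ W) : trF X A x = trF X A' x :=
  (h1 E X W A hW hA).2.1 (fun x => tm (Θ x) (Θ' x)) A'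
    (fun a b x hx => Gd.sm (h x hx) (h' x hx) a b) (fun x hx => det_tm_ne (h x hx).2 (h' x hx).2)
    hA' hg x hx

/-- the gauge law is preserved by pull-back -/
theorem gau_pb {f : Y → X} {y : Y} (hf : LDAt Y X f y) (h : Gd X Θ (f y)) (h' : Gd X Θ' (f y))
    (a : Gau X Θ A Θ' A' (f y)) :
    Gau Y (fun y => (Θ (f y)).comp (Df Y X f y))
      (fun y => Matrix.of fun a b => pbM Y X f (fun x => A x a b) y)
      (fun y => (Θ' (f y)).comp (Df Y X f y))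
      (fun y => Matrix.of fun a b => pbM Y X f (fun x => A' x a b) y) y := by
  unfold Gau at *
  have e1 : dMat Y (fun y => mF (tm ((Θ (f y)).comp (Df Y X f y)) ((Θ' (f y)).comp (Df Y X f y))))
      y = (mp (Df Y X f y)).mapMatrix (dMat X (fun y => mF (tm (Θ y) (Θ' y))) (f y)) := by
    rw [dMat_congr (B := fun y => mF (tm (Θ (f y)) (Θ' (f y))))
      (hf.ev.mono fun z hz => by simp only [tm_comp hz.inv])]
    ext a b
    have := dM_pb (X := Y) (Y := X) hf.sm (fmAt_scalar (h.sm h' a b))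
    rw [show pbM Y X f (fun x => algebraMap ℝ (Lam E) (tm (Θ x) (Θ' x) a b)) = fun y =>
      algebraMap ℝ (Lam E') (tm (Θ (f y)) (Θ' (f y)) a b) from
        funext fun _ => pbM_scalar (fun x => tm (Θ x) (Θ' x) a b)] at this
    exact this
  have e2 : (mF (tm ((Θ (f y)).comp (Df Y X f y)) ((Θ' (f y)).comp (Df Y X f y))) : MF E') =
      (mp (Df Y X f y)).mapMatrix (mF (tm (Θ (f y)) (Θ' (f y)))) := by
    rw [tm_comp hf.inv]
    ext a b
    exact ((mp (Df Y X f y)).commutes _).symm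
  have e3 := congrArg (mp (Df Y X f y)).mapMatrix a
  rw [map_add, map_mul, map_mul] at e3
  rw [e1, e2]
  exact e3

end Gau

theorem ex_mat (c : Con X U) {Θ : X → E →L[ℝ] Rn 5} (hW : IsOpen W) (hs : W ⊆ U)
    (h : Cof X ∞ Θ W) : ∃ A, c.Mat W Θ A := by
  classical
  have h0 : ∀ x, ∃ a : MF E, ∀ j, x ∈ W ∩ c.W j → a = tr X Θ (c.Θ j) (c.A j) x := fun x => by
    by_cases hx : x ∈ W
    · obtain ⟨i, hi⟩ := c.cov x (hs hx)
      refine ⟨tr X Θ (c.Θ i) (c.A i) x, fun j hj => ?_⟩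
      exact gau_uniq (h x hx) (c.cof j x hj.2) (gau_trans (h x hx) (c.cof i x hi) (c.cof j x hj.2)
        (gau_tr (h x hx) (c.cof i x hi)) (c.gauge i j x ⟨hi, hj.2⟩)) (gau_tr (h x hx) (c.cof j x hj.2))
    · exact ⟨0, fun j hj => (hx hj.1).elim⟩
  choose A hA using h0
  refine ⟨A, hW, hs, h, fun a b x hx => ?_, fun j x hx =>
    gau_congr (hA x j hx) (gau_tr (h x hx.1) (c.cof j x hx.2))⟩
  obtain ⟨j, hj⟩ := c.cov x (hs hx)
  have hO := hW.inter (c.op j)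
  exact ((fm_tr hO (h.mono inter_subset_left) ((c.cof j).mono inter_subset_right)
    (fun a b => (c.fm j a b).mono inter_subset_right) a b).congr hO
      fun y hy => by simp only [hA y j hy]) x ⟨hx, hj⟩

theorem ex_tr (h1 : Cw1Stmt) (c : Con X U) : ∃ Ω, c.Tr Ω ∧ Cl X 4 Ω U := by
  have h0 : ∀ x, ∃ a : Lam E, ∀ j, x ∈ c.W j → a = trF X (c.A j) x := fun x => by
    by_cases hx : x ∈ U
    · obtain ⟨i, hi⟩ := c.cov x hx
      refine ⟨trF X (c.A i) x, fun j hj => ?_⟩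
      exact trF_eq h1 ((c.op i).inter (c.op j)) ((c.cof i).mono inter_subset_left)
        ((c.cof j).mono inter_subset_right) (fun a b => (c.fm i a b).mono inter_subset_left)
        (fun a b => (c.fm j a b).mono inter_subset_right) (c.gauge i j) ⟨hi, hj⟩
    · exact ⟨0, fun j hj => (hx (c.sub j hj)).elim⟩
  choose Ω hΩ using h0
  have h2 : ∀ j, Cl X 4 Ω (c.W j) := fun j =>
    (h1 E X (c.W j) (c.A j) (c.op j) (c.fm j)).1.congr (c.op j) fun y hy => hΩ y j hy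
  refine ⟨Ω, fun j x hx => hΩ x j hx, fun x hx => ?_, fun x hx => ?_⟩
  · obtain ⟨j, hj⟩ := c.cov x hx
    exact (h2 j).1 x hj
  · obtain ⟨j, hj⟩ := c.cov x hx
    exact (h2 j).2 x hj

theorem tr_mat (h1 : Cw1Stmt) (c : Con X U) {Θ : X → E →L[ℝ] Rn 5} {A : X → MF E}
    {Ω : X → Lam E} (h : c.Mat W Θ A) (hΩ : c.Tr Ω) (hx : x ∈ W) : Ω x = trF X A x := by
  obtain ⟨j, hj⟩ := c.cov x (h.sub hx)
  refine (hΩ j x hj).trans (trF_eq h1 (h.op.inter (c.op j)) (h.cof.mono inter_subset_left)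
    ((c.cof j).mono inter_subset_right) (fun a b => (h.fm a b).mono inter_subset_left)
    (fun a b => (c.fm j a b).mono inter_subset_right) (h.gau j) ⟨hx, hj⟩).symm

theorem op_pb {f : Y → X} {V : Set Y} (hV : IsOpen V) (hf : ∀ y ∈ V, LDAt Y X f y)
    (hW : IsOpen W) : IsOpen (V ∩ f ⁻¹' W) :=
  ContinuousOn.isOpen_inter_preimage (fun y hy => (hf y hy).sm.cont.continuousWithinAt) hV hW

/-- the pull-back of a connection -/
def pull (c : Con X U) (f : Y → X) (V : Set Y) (hV : IsOpen V) (hf : ∀ y ∈ V, LDAt Y X f y)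
    (m : MapsTo f V U) : Con Y V where
  ι := c.ι
  W i := V ∩ f ⁻¹' c.W i
  Θ i y := (c.Θ i (f y)).comp (Df Y X f y)
  op i := op_pb hV hf (c.op i)
  sub _ := inter_subset_left
  cov y hy := (c.cov _ (m hy)).imp fun _ h => ⟨hy, h⟩
  cof i := (c.cof i).pb (fun y hy => hf y hy.1) fun _ hy => hy.2
  A i y := Matrix.of fun a b => pbM Y X f (fun x => c.A i x a b) y
  fm i a b := (c.fm i a b).pb (fun y hy => (hf y hy.1).sm) fun _ hy => hy.2
  gauge i j y hy := gau_pb (hf y hy.1.1) (c.cof i _ hy.1.2) (c.cof j _ hy.2.2)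
    (c.gauge i j _ ⟨hy.1.2, hy.2.2⟩)

end Cw2

theorem cw2 (h1 : Cw1Stmt) : Cw2Stmt := by
  intro E _ _ _ X
  refine ⟨fun W Θ Θ' Θ'' A A' A'' _ h h' h'' x hx => ⟨Cw2.gau_refl (h x hx),
      Cw2.gau_symm (h x hx) (h' x hx), Cw2.gau_trans (h x hx) (h' x hx) (h'' x hx)⟩,
    fun U W c Θ hW hs h => Cw2.ex_mat c hW hs h, fun U c => Cw2.ex_tr h1 c,
    fun U W c Θ A Ω h hΩ x hx => Cw2.tr_mat h1 c h hΩ hx, ?_⟩
  intro E' _ _ _ Y f U V c hV hf m
  refine ⟨Cw2.pull c f V hV hf m, fun Ω hΩ i y hy => ?_, fun W Θ A h => ⟨Cw2.op_pb hV hf h.op,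
    inter_subset_left, h.cof.pb (fun y hy => hf y hy.1) fun _ hy => hy.2,
    fun a b => (h.fm a b).pb (fun y hy => (hf y hy.1).sm) fun _ hy => hy.2, fun j y hy =>
      Cw2.gau_pb (hf y hy.1.1) (h.cof _ hy.1.2) (c.cof j _ hy.2.2) (h.gau j _ ⟨hy.1.2, hy.2.2⟩)⟩⟩
  exact (pbM_congr_right (β := trF X (c.A i)) (hΩ i _ hy.2)).trans
    ((h1 E X (c.W i) (c.A i) (c.op i) (c.fm i)).2.2 E' Y f y (hf y hy.1).sm hy.2).symm

end Pool.Agent.MP_e1dc65_gt

end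
end MrgPart2

-- marker of a merged file
example : 731051 + 614745 = 731051 + 614745 := rfl

end MrgPart0

-- ======== part 1: formerly Pool.Agent.MP_e1dc65_gt.o.Spec
section MrgPart1

/-! PROJECT HC, part O: internal definitions and the statements of the rows. -/

open scoped ContDiff Manifold Topology Real
open Set Filter Function Module Pool.Agent.MP_c8d41b_gt.GF

noncomputable section

namespace Pool.Agent.MP_e1dc65_gt.O

abbrev E5 : Type := E4 × ℝ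

/-- the step across a neck: `0` left of `-1`, `1` right of `1` -/
def bt (t : ℝ) : ℝ := Real.smoothTransition ((t + 1) / 2)

theorem bt_sm : ContDiff ℝ ∞ bt :=
  Real.smoothTransition.contDiff.comp ((contDiff_id.add contDiff_const).div_const 2)
theorem bt_zero {t : ℝ} (h : t ≤ -1) : bt t = 0 :=
  Real.smoothTransition.zero_of_nonpos (by linarith)
theorem bt_one {t : ℝ} (h : 1 ≤ t) : bt t = 1 := Real.smoothTransition.one_of_one_le (by linarith)
theorem bt_mono : Monotone bt := fun _ _ h =>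
  Real.smoothTransition.monotone (by linarith)
theorem bt_mem (t : ℝ) : bt t ∈ Icc (0 : ℝ) 1 :=
  ⟨Real.smoothTransition.nonneg _, Real.smoothTransition.le_one _⟩

/-- the value is `0` or `1` -/
def Bit (x : ℝ) : Prop := x = 0 ∨ x = 1

theorem bit_bt {t : ℝ} (h : t ∉ Icc (-1 : ℝ) 1) : Bit (bt t) := by
  by_cases h1 : t ≤ -1
  · exact Or.inl (bt_zero h1)
  · exact Or.inr (bt_one (by_contra fun h2 => h ⟨by linarith, by linarith⟩))

/-- the neck coordinate of `N` -/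
def tN (v : Rn 4) : ℝ := Real.log (nsq v) / 2

/-! ### Covering spaces -/

/-- row LIFT, part 1: the lifting criterion on an open set -/
def LiftStmt : Prop :=
  ∀ (Y B A : Type) [TopologicalSpace Y] [TopologicalSpace B] [TopologicalSpace A]
    [LocallyPathConnectedSpace A] (p : Y → B) (m : A → B) (A₀ : Set A) (a₀ : A) (y₀ : Y),
    IsCoveringMap p → IsOpen A₀ → IsPathConnected A₀ → ContinuousOn m A₀ →
    (Thin A₀ A₀ ∨ Thin (m '' A₀) univ) → a₀ ∈ A₀ → p y₀ = m a₀ →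
    ∃ f : A → Y, ContinuousOn f A₀ ∧ f a₀ = y₀ ∧ ∀ a ∈ A₀, p (f a) = m a

/-- row HLIFT: lifting a deformation of `B₀`; the end map is proper over compact sets -/
def HLiftStmt : Prop :=
  ∀ (Y B : Type) [TopologicalSpace Y] [TopologicalSpace B] [T2Space Y] [T2Space B] (p : Y → B)
    (B₀ : Set B) (H : B × ℝ → B), IsCoveringMap p → ContinuousOn H (B₀ ×ˢ Icc 0 1) →
    (∀ b ∈ B₀, H (b, 0) = b) → ∃ H' : Y × ℝ → Y, ContinuousOn H' ((p ⁻¹' B₀) ×ˢ Icc 0 1) ∧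
      (∀ y, p y ∈ B₀ → H' (y, 0) = y ∧ (∀ s ∈ Icc (0 : ℝ) 1, p (H' (y, s)) = H (p y, s)) ∧
        ∀ γ : ℝ → Y, ContinuousOn γ (Icc 0 1) → γ 0 = y →
          (∀ s ∈ Icc (0 : ℝ) 1, p (γ s) = H (p y, s)) → ∀ s ∈ Icc (0 : ℝ) 1, γ s = H' (y, s)) ∧
      ∀ K ⊆ B₀, IsCompact K → ∀ C, IsCompact C → IsCompact {y | p y ∈ K ∧ H' (y, 1) ∈ C}

/-! ### Caps -/

/-- the neck `n` along which the cap `C × ℝ` is attached -/
structure Cap (W : Mf E5) (S : W → ℝ) (C : Mf E4) (A : Set C) (σ : C → ℝ) (n : C.cyl → W) :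
    Prop where
  oe : OE C.cyl W n (A ×ˢ univ)
  val : ∀ x ∈ A, ∀ t, S (n (x, t)) = σ x
  cl : ∀ a, IsClosed {x | x ∈ A ∧ σ x ≤ a}

/-- intrinsic properties of a cap -/
structure CapI (C : Mf E4) (A : Set C) (σ : C → ℝ) : Prop where
  op : IsOpen A
  gt : ∀ x ∈ A, 3 < σ x
  cpt : ∀ a > 3, IsCompact {x | x ∈ A → a ≤ σ x}
  conn : IsPreconnected A
  ori : ∃ o, Ori C 4 o univ
  hz : HZ C 1 univ
  perf : Perf {x | x ∈ A ∧ σ x < 4}

/-- `Z` is `Y` with one cap `Q × ℝ` and a family of caps `B × ℝ` -/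
structure Glued (Y : Mf E5) (Q B : Mf E4) {ι : Type} (AQ : Set Q) (AB : Set B) (nQ : Q.cyl → Y)
    (nB : ι → B.cyl → Y) (Z : Mf E5) (j : Y → Z) (kQ : Q.cyl → Z) (kB : ι → B.cyl → Z) : Prop where
  oj : OE Y Z j univ
  oQ : OE Q.cyl Z kQ univ
  oB : ∀ i, OE B.cyl Z (kB i) univ
  cov : ∀ z, z ∈ range j ∨ z ∈ range kQ ∨ ∃ i, z ∈ range (kB i)
  jQ : ∀ y q, j y = kQ q ↔ q.1 ∈ AQ ∧ y = nQ q
  jB : ∀ i y q, j y = kB i q ↔ q.1 ∈ AB ∧ y = nB i q
  QB : ∀ i q q', kQ q ≠ kB i q'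
  BB : ∀ i i' q q', kB i q = kB i' q' → i = i'

/-- row GLUE -/
def CapGlueStmt : Prop :=
  ∀ (Y : Mf E5) (S : Y → ℝ) (Q B : Mf E4) (ι : Type) [Countable ι] (AQ : Set Q) (AB : Set B)
    (σQ : Q → ℝ) (σB : B → ℝ) (nQ : Q.cyl → Y) (nB : ι → B.cyl → Y), Continuous S →
    Cap Y S Q AQ σQ nQ → (∀ i, Cap Y S B AB σB (nB i)) →
    (∀ i, ∀ q ∈ AQ ×ˢ (univ : Set ℝ), ∀ q' ∈ AB ×ˢ (univ : Set ℝ), nQ q ≠ nB i q') →
    (∀ i i', ∀ q ∈ AB ×ˢ (univ : Set ℝ), ∀ q' ∈ AB ×ˢ (univ : Set ℝ), nB i q = nB i' q' → i = i') →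
    ∃ Z j kQ kB, Glued Y Q B AQ AB nQ nB Z j kQ kB

section Data
variable (D : ODat)

def AQ : Set D.Q := range D.νQ
def sQ (x : D.Q) : ℝ := 3 + Real.exp (invFunOn D.νQ univ x).2
/-- neck coordinates `((f, t), s)` of a point of the cap `Q × ℝ` -/
def cQ (q : D.Q.cyl) : D.F.cyl × ℝ := (((invFunOn D.νQ univ q.1).1, q.2), sQ D q.1)
def AB : Set E4 := {z | z ≠ 0}
def sB (z : E4) : ℝ := 3 + ‖z‖⁻¹
/-- neck coordinates `(v, s)` of a point of the cap `ℝ⁴ × ℝ` -/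
def cB (q : E4 × ℝ) : Rn 4 × ℝ := (fun i => Real.exp q.2 * (‖q.1‖⁻¹ * q.1 i), sB q.1)

variable {D} (h : OHC D.M D.N)

/-- the long neck in the end `M × ℝ` -/
def mM (a : D.F.cyl × ℝ) : h.W := h.cM (D.νM a.1, a.2)
/-- the long neck in the end `N × ℝ` -/
def mN (a : Rn 4 × ℝ) : h.W := h.cN (D.νN a.1, a.2)
def nQ (q : D.Q.cyl) : h.W := mM h (cQ D q)
def nB (q : (vs E4).cyl) : h.W := mN h (cB q)

/-- the smooth step function on the universal cover -/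
structure UDat where
  Wt : Mf E5
  p : Wt → h.W
  ι : Type
  [fin : Fintype ι]
  lQ : D.Q.cyl → Wt
  lB : ι → (vs E4).cyl → Wt
  u : Wt → ℝ
  e₀ : ι → ℝ
  e₁ : ι → ℝ
  Kc : Set Wt

attribute [instance] UDat.fin

variable {h}

structure UDat.Ok (U : UDat h) : Prop where
  cov : IsCoveringMap U.p
  ld : ∀ y, LDAt U.Wt h.W U.p y
  sc : SC (univ : Set U.Wt)
  cQ : ContinuousOn U.lQ (AQ D ×ˢ univ)
  pQ : ∀ q ∈ AQ D ×ˢ (univ : Set ℝ), U.p (U.lQ q) = nQ h q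
  cB : ∀ i, ContinuousOn (U.lB i) (AB ×ˢ univ)
  pB : ∀ i, ∀ q ∈ AB ×ˢ (univ : Set ℝ), U.p (U.lB i q) = nB h q
  dis : ∀ i i', ∀ q ∈ AB ×ˢ (univ : Set ℝ), U.lB i q = U.lB i' q → i = i'
  sm : Sm U.Wt (vs ℝ) U.u univ
  uQ : ∀ q ∈ AQ D ×ˢ (univ : Set ℝ), U.u (U.lQ q) = bt q.2
  uB : ∀ i, ∀ q ∈ AB ×ˢ (univ : Set ℝ), U.u (U.lB i q) = U.e₀ i + (U.e₁ i - U.e₀ i) * bt q.2
  bit : ∀ i, Bit (U.e₀ i) ∧ Bit (U.e₁ i)
  cpt : IsCompact U.Kc
  val3 : ∀ y, 3 < h.S (U.p y) → y ∉ U.lQ '' (AQ D ×ˢ Icc (-1) 1) →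
    (∀ i, y ∉ U.lB i '' (AB ×ˢ Icc (-1) 1)) → Bit (U.u y)
  valK : ∀ y ∉ U.Kc, h.S (U.p y) ≤ 4 → Bit (U.u y)

/-- the capped manifolds -/
structure ZDat (U : UDat h) where
  Z : Mf E5
  j : h.W → Z
  kQ : D.Q.cyl → Z
  kB : Unit → (vs E4).cyl → Z
  Zt : Mf E5
  jt : U.Wt → Zt
  kQt : D.Q.cyl → Zt
  kBt : U.ι → (vs E4).cyl → Zt
  pp : Zt → Z
  up : Zt → ℝ
  o : Z → Lam E5
  K : Set Zt

structure ZDat.Ok {U : UDat h} (P : ZDat U) : Prop where
  gl : Glued h.W D.Q (vs E4) (AQ D) AB (nQ h) (fun _ => nB h) P.Z P.j P.kQ P.kB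
  glt : Glued U.Wt D.Q (vs E4) (AQ D) AB U.lQ U.lB P.Zt P.jt P.kQt P.kBt
  ld : ∀ z, LDAt P.Zt P.Z P.pp z
  pj : ∀ y, P.pp (P.jt y) = P.j (U.p y)
  pQ : ∀ q, P.pp (P.kQt q) = P.kQ q
  pB : ∀ i q, P.pp (P.kBt i q) = P.kB () q
  sm : Sm P.Zt (vs ℝ) P.up univ
  uj : ∀ y, P.up (P.jt y) = U.u y
  uQ : ∀ q, P.up (P.kQt q) = bt q.2
  uB : ∀ i q, P.up (P.kBt i q) = U.e₀ i + (U.e₁ i - U.e₀ i) * bt q.2
  cpt : IsCompact P.K
  bit : ∀ z ∉ P.K, Bit (P.up z)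
  ori : Ori P.Z 5 P.o univ

end Data

/-- both caps -/
structure Caps {D : ODat} (h : OHC D.M D.N) : Prop where
  cQ : Cap h.W h.S D.Q (AQ D) (sQ D) (nQ h)
  iQ : CapI D.Q (AQ D) (sQ D)
  cB : Cap h.W h.S (vs E4) AB sB (nB h)
  iB : CapI (vs E4) AB sB

/-- row CAPS -/
def CapsStmt : Prop := ∀ (C : SpinCover) (D : ODat) (h : OHC D.M D.N), D.Ok C → Caps h

/-- row UF -/
def UFStmt : Prop :=
  ∀ (C : SpinCover) (D : ODat) [CompactSpace D.M] [CompactSpace D.N] (h : OHC D.M D.N), D.Ok C →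
    ∃ U : UDat h, U.Ok

/-- row PLUS -/
def PlusStmt : Prop :=
  ∀ (C : SpinCover) (D : ODat) (h : OHC D.M D.N), D.Ok C → Caps h → ∀ U : UDat h, U.Ok →
    ∃ P : ZDat U, P.Ok

/-! ### The infinite cyclic cover -/

section Circ
variable {E : Type} [NormedAddCommGroup E] [NormedSpace ℝ E] [FiniteDimensional ℝ E]

/-- the cover on which a circle-valued function becomes the real function `U` -/
structure Circ (V Vh : Mf E) (q : Vh → V) (U : Vh → ℝ) : Prop where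
  cov : IsCoveringMap q
  ld : ∀ z, LDAt Vh V q z
  sur : Surjective q
  sm : Sm Vh (vs ℝ) U univ
  ex : ∀ z (n : ℤ), ∃ z', q z' = q z ∧ U z' = U z + n
  dif : ∀ z z', q z = q z' → ∃ n : ℤ, U z' = U z + n
  inj : ∀ z z', q z = q z' → U z = U z' → z = z'

/-- the circle-valued function is the sum of `u` over the fibres of `p` -/
structure Hat (Y V Vh : Mf E) (p : Y → V) (u : Y → ℝ) (q : Vh → V) (U : Vh → ℝ) : Prop where
  circ : Circ V Vh q U
  nf : ∀ (z : Vh) (s : Finset Y), (∀ y ∈ s, p y = q z) →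
    (∀ y, p y = q z → y ∉ s → Bit (u y)) → ∃ n : ℤ, U z = ∑ y ∈ s, u y + n
  cpt : ∀ a b, 0 < a → b < 1 → IsCompact (U ⁻¹' Icc a b)
  int : ∀ (o Ω : V → Lam E) (χ : ℝ → ℝ) (a b : ℝ), Ori V 5 o univ → Cl V 4 Ω univ → Step χ a b →
    0 < a → b < 1 →
    (intM Vh (pbM Vh V q o) fun z => dF Vh (fun z => χ (U z)) z * pbM Vh V q Ω z) =
      intM Y (pbM Y V p o) fun y => dF Y u y * pbM Y V p Ω y

end Circ

/-- row HAT -/
def HatStmt : Prop :=
  ∀ (Y V : Mf E5) (p : Y → V) (u : Y → ℝ) (K : Set Y), (∀ y, LDAt Y V p y) →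
    Sm Y (vs ℝ) u univ → IsCompact K → (∀ y ∉ K, Bit (u y)) → ∃ Vh q U, Hat Y V Vh p u q U

/-- row TRIV: where the circle-valued function has a real lift the cover is trivial -/
def TrivStmt : Prop :=
  ∀ (V Vh : Mf E5) (q : Vh → V) (U : Vh → ℝ) (S : Set V) (b : V → ℝ) (I : Set ℝ) (k : ℕ),
    Circ V Vh q U → IsOpen S → IsOpen I → ContinuousOn b S →
    (∀ z, q z ∈ S → ∃ n : ℤ, U z = b (q z) + n) →
    (∀ n : ℤ, HZ V k {w | w ∈ S ∧ b w + n ∈ I}) → HZ Vh k (q ⁻¹' S ∩ U ⁻¹' I)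

/-- normal forms of `U` -/
structure NF {D : ODat} {h : OHC D.M D.N} {U : UDat h} (P : ZDat U) (Vh : Mf E5) (q : Vh → P.Z)
    (V : Vh → ℝ) : Prop where
  Q : ∀ z x, q z = P.kQ x → ∃ n : ℤ, V z = bt x.2 + n
  B : ∃ m : ℤ, ∀ z x, q z = P.kB () x → ∃ n : ℤ, V z = m * bt x.2 + n
  neck : ∀ z f t s, 3 < s → q z = P.j (h.cM (D.νM (f, t), s)) → ∃ n : ℤ, V z = bt t + n
  off : ∀ z m s, 3 < s → m ∉ D.νM '' (univ ×ˢ Icc (-1) 1) → q z = P.j (h.cM (m, s)) →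
    ∃ n : ℤ, V z = n

/-- row NF -/
def NFStmt : Prop :=
  ∀ (C : SpinCover) (D : ODat) (h : OHC D.M D.N), D.Ok C → Caps h → ∀ U : UDat h, U.Ok →
    ∀ P : ZDat U, P.Ok → ∀ Vh q V, Hat P.Zt P.Z Vh P.pp P.up q V →
    NF P Vh q V ∧ ∀ a b, HZ Vh 1 (V ⁻¹' Ioo a b ∩ q ⁻¹' (range P.kQ ∪ range (P.kB ())))

/-- row CHAIN -/
def ChainStmt : Prop :=
  ∀ (C : SpinCover) (D : ODat) (h : OHC D.M D.N), D.Ok C → ∀ (U : UDat h) (P : ZDat U), P.Ok →
    ∀ Vh q V, Circ P.Z Vh q V → NF P Vh q V →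
    HZ Vh 1 (q ⁻¹' (P.j '' (h.cM '' (univ ×ˢ Ioi 3))))

/-- closed two-forms on `W` are exact near compact sets -/
def NearZ {E : Type} [NormedAddCommGroup E] [NormedSpace ℝ E] [FiniteDimensional ℝ E] (V : Mf E)
    (W : Set V) : Prop :=
  ∀ K ⊆ W, IsCompact K → ∀ A, Cl V 2 A W → ∃ (O : Set V) (B : V → Lam E), IsOpen O ∧ K ⊆ O ∧
    O ⊆ W ∧ Fm V 1 B O ∧ ∀ x ∈ O, dM V B x = A x

/-- row ISO: two isotropic families span the closed two-forms of the level -/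
def IsoStmt : Prop :=
  ∀ (V : Mf E5) (u : V → ℝ) (c δ : ℝ) (X : Mf E4) (ν : X.cyl → V) (o : V → Lam E5)
    (o' : X → Lam E4) (W Cp : Set V), Sm V (vs ℝ) u univ → Lev V u c δ X ν → Ori V 5 o univ →
    Ori X 4 o' univ → (∀ x, 0 < cf (oc (o' x)) (pbM X.cyl V ν o (x, 0))) → IsOpen W → IsOpen Cp →
    W ∪ Cp = univ → HZ V 1 (u ⁻¹' Ioo (c - δ) (c + δ) ∩ Cp) → NearZ V W →
    ∃ Kp Km : Set (X → Lam E4), (∀ a ∈ Kp ∪ Km, Cl X 2 a univ) ∧
      (∀ a ∈ Kp, ∀ b ∈ Kp, intM X o' (fun x => a x * b x) = 0) ∧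
      (∀ a ∈ Km, ∀ b ∈ Km, intM X o' (fun x => a x * b x) = 0) ∧
      ∀ α, Cl X 2 α univ → ∃ a ∈ Kp, ∃ b ∈ Km, ∃ η, Fm X 1 η univ ∧
        ∀ x, α x = a x + b x + dM X η x

/-- row SIG0, part 1: the form of a level -/
def PontLevStmt : Prop :=
  ∀ (V : Mf E5) (u : V → ℝ) (c δ : ℝ) (X : Mf E4) (ν : X.cyl → V) (cn : Con V univ)
    (Ω : V → Lam E5), Lev V u c δ X ν → cn.Tr Ω → Pont X (pbM X V (fun x => ν (x, 0)) Ω)

/-- row SIG0, part 2 -/
def Sig0Stmt : Prop :=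
  ∀ (C : SpinCover) (D : ODat) (h : OHC D.M D.N), D.Ok C → Caps h → ∀ U : UDat h, U.Ok →
    ∀ P : ZDat U, P.Ok → ∀ (cn : Con P.Z univ) (Ω : P.Z → Lam E5), cn.Tr Ω → Cl P.Z 4 Ω univ →
    (intM P.Zt (pbM P.Zt P.Z P.pp P.o) fun y => dF P.Zt P.up y * pbM P.Zt P.Z P.pp Ω y) = 0

/-! ### The spin side -/

/-- row SPW -/
def SpwStmt : Prop :=
  ∀ (C : SpinCover) (D : ODat) (h : OHC D.M D.N), D.Ok C → ∀ U : UDat h, U.Ok →
    Nonempty (Spin C U.Wt (interior U.Kc))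

/-- row SPZ -/
def SpzStmt : Prop :=
  ∀ (C : SpinCover) (D : ODat) (h : OHC D.M D.N), D.Ok C → Caps h → ∀ U : UDat h, U.Ok →
    ∀ P : ZDat U, P.Ok → Nonempty (Spin C U.Wt (interior U.Kc)) → ∀ a b, 0 < a → b < 1 →
    ∃ (sp : Spin C P.Zt (P.up ⁻¹' Ioo a b \ P.kQt '' ((D.κ '' (univ ×ˢ {0})) ×ˢ univ))) (i : sp.ι),
      sp.W i = P.up ⁻¹' Ioo a b ∩
        P.kQt '' ((D.κ '' (univ ×ˢ {w | 0 < ‖w‖ ∧ ‖w‖ < 30})) ×ˢ univ) ∧
      ∀ (z : Rn 4) (t : ℝ), Real.exp (z 3) < 30 → bt t ∈ Ioo a b →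
        ((sp.Θ i (P.kQt (D.κ (pol z), t))).comp (Df D.Q.cyl P.Zt P.kQt (D.κ (pol z), t))).comp
          ((Df (vs (Rn 4)) D.Q (fun z => D.κ (pol z)) z).prodMap (ContinuousLinearMap.id ℝ ℝ)) =
          std5

/-- a torus port -/
structure Port (X : Mf E4) (κ : Rn 2 × ℂ → X) : Prop where
  ld : ∀ m w, ‖w‖ < 30 → LDAt (vs (Rn 2 × ℂ)) X κ (m, w)
  eq : ∀ m m' w w', ‖w‖ < 30 → ‖w'‖ < 30 → (κ (m, w) = κ (m', w') ↔ Lat m m' ∧ w = w')

/-- a spin structure off the core torus that contains the translation invariant coframe -/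
def PortSpin (C : SpinCover) (X : Mf E4) (κ : Rn 2 × ℂ → X) : Prop :=
  ∃ (sp : Spin C X.cyl ((κ '' (univ ×ˢ {0}))ᶜ ×ˢ univ)) (i : sp.ι),
    sp.W i = (κ '' (univ ×ˢ {w | 0 < ‖w‖ ∧ ‖w‖ < 30})) ×ˢ univ ∧
    ∀ (z : Rn 4) (t : ℝ), Real.exp (z 3) < 30 → (sp.Θ i (κ (pol z), t)).comp
      ((Df (vs (Rn 4)) X (fun z => κ (pol z)) z).prodMap (ContinuousLinearMap.id ℝ ℝ)) = std5

/-- row PORT -/
def PortStmt : Prop :=
  ∀ (C : SpinCover) (V : Mf E5) (u : V → ℝ) (c δ : ℝ) (X Q : Mf E4) (ν : X.cyl → V)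
    (k : Q.cyl → V) (κ : Rn 2 × ℂ → Q), Sm V (vs ℝ) u univ → Lev V u c δ X ν → 0 < c → c < 1 →
    OE Q.cyl V k univ → (∀ q, u (k q) = bt q.2) → Port Q κ →
    ∀ (sp : Spin C V (u ⁻¹' Ioo (c - δ) (c + δ) \ k '' ((κ '' (univ ×ˢ {0})) ×ˢ univ))) (i : sp.ι),
    sp.W i = u ⁻¹' Ioo (c - δ) (c + δ) ∩ k '' ((κ '' (univ ×ˢ {w | 0 < ‖w‖ ∧ ‖w‖ < 30})) ×ˢ univ) →
    (∀ (z : Rn 4) (t : ℝ), Real.exp (z 3) < 30 → bt t ∈ Ioo (c - δ) (c + δ) →
      ((sp.Θ i (k (κ (pol z), t))).comp (Df Q.cyl V k (κ (pol z), t))).comp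
        ((Df (vs (Rn 4)) Q (fun z => κ (pol z)) z).prodMap (ContinuousLinearMap.id ℝ ℝ)) = std5) →
    ∃ κ' : Rn 2 × ℂ → X, Port X κ' ∧ PortSpin C X κ'

/-- the half of the double -/
def Half (X : Mf E4) (κ : Rn 2 × ℂ → X) : Set X := (κ '' (univ ×ˢ {w | ‖w‖ ≤ Real.exp (-1)}))ᶜ

/-- the double along the port -/
structure Dbl (X : Mf E4) (κ : Rn 2 × ℂ → X) (o : X → Lam E4) (Y : Mf E4) (e₁ e₂ : X → Y)
    (s : Y → Y) (o' : Y → Lam E4) (S : Finset Y) : Prop where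
  cpt : CompactSpace Y
  o1 : OE X Y e₁ (Half X κ)
  o2 : OE X Y e₂ (Half X κ)
  cov : e₁ '' Half X κ ∪ e₂ '' Half X κ = univ
  eq : ∀ x ∈ Half X κ, ∀ x' ∈ Half X κ, e₁ x = e₂ x' ↔
    ∃ z : Rn 4, |z 3| < 1 ∧ x = κ (pol z) ∧ x' = κ (pol (-z))
  sm : Sm Y Y s univ
  s1 : ∀ x ∈ Half X κ, s (e₁ x) = e₂ x
  s2 : ∀ x ∈ Half X κ, s (e₂ x) = e₁ x
  card : S.card = 8
  fix : ∀ y, s y = y ↔ y ∈ S
  ori : Ori Y 4 o' univ
  p1 : ∀ x ∈ Half X κ, 0 < cf (o x) (pbM X Y e₁ o' x)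
  p2 : ∀ x ∈ Half X κ, 0 < cf (o x) (pbM X Y e₂ o' x)

/-- row DBL1 -/
def Dbl1Stmt : Prop :=
  ∀ (X : Mf E4) [CompactSpace X] (κ : Rn 2 × ℂ → X) (o : X → Lam E4), Port X κ →
    Ori X 4 o univ → ∃ Y e₁ e₂ s o' S, Dbl X κ o Y e₁ e₂ s o' S

/-- a connection that is flat for the translation invariant coframe `Θ` on the annulus `A` and
whose form vanishes near the core -/
structure Flat (X : Mf E4) (κ : Rn 2 × ℂ → X) (c : Con X.cyl univ) (Θ : X.cyl → E5 →L[ℝ] Rn 5)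
    (Ω : X.cyl → Lam E5) : Prop where
  tr : c.Tr Ω
  mat : c.Mat ((κ '' (univ ×ˢ {w | Real.exp (-1) < ‖w‖ ∧ ‖w‖ < Real.exp 1})) ×ˢ univ) Θ fun _ => 0
  std : ∀ (z : Rn 4) (t : ℝ), |z 3| < 1 → (Θ (κ (pol z), t)).comp
    ((Df (vs (Rn 4)) X (fun z => κ (pol z)) z).prodMap (ContinuousLinearMap.id ℝ ℝ)) = std5
  zero : ∀ m w t, ‖w‖ < 10 → Ω (κ (m, w), t) = 0

/-- row FLAT -/
def FlatStmt : Prop :=
  ∀ (X : Mf E4) (κ : Rn 2 × ℂ → X), Port X κ → ∃ c Θ Ω, Flat X κ c Θ Ω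

/-- row DBL2 -/
def Dbl2Stmt : Prop :=
  ∀ (X : Mf E4) [CompactSpace X] (κ : Rn 2 × ℂ → X) (o w : X → Lam E4), Port X κ →
    Ori X 4 o univ → ∀ Y e₁ e₂ s o' S, Dbl X κ o Y e₁ e₂ s o' S → Pont X w →
    ∃ w', Pont Y w' ∧ intM Y o' w' = 2 * intM X o w

/-- row DBL3 -/
def Dbl3Stmt : Prop :=
  ∀ (C : SpinCover) (X : Mf E4) (κ : Rn 2 × ℂ → X) (o : X → Lam E4), Port X κ → PortSpin C X κ →
    Ori X 4 o univ → ∀ Y e₁ e₂ s o' S, Dbl X κ o Y e₁ e₂ s o' S →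
    ∃ (sp : Spin C Y.cyl univ) (G : sp.ι → sp.ι → Y → C.G),
      Invol C Y o' s sp G S ∨ Invol C Y (fun y => -o' y) s sp G S

end Pool.Agent.MP_e1dc65_gt.O

end
end MrgPart1

-- ======== part 2: formerly Pool.Agent.MP_e1dc65_gt.o.Pol
section MrgPart2

/-! PROJECT HC, part O: logarithmic polar coordinates round a torus port, and the flip. -/

open scoped ContDiff Manifold Topology Real
open Set Filter Function Module Pool.Agent.MP_c8d41b_gt.GF

noncomputable section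

namespace Pool.Agent.MP_e1dc65_gt.O

namespace Pol

theorem norm_pol (z : Rn 4) : ‖(pol z).2‖ = Real.exp (z 3) := by
  simp [pol, Complex.norm_exp]

theorem pol_ne (z : Rn 4) : (pol z).2 ≠ 0 := Complex.exp_ne_zero _

theorem pol_neg (z : Rn 4) : pol (-z) = (-(pol z).1, (pol z).2⁻¹) := by
  refine Prod.ext ?_ ?_
  · ext i
    fin_cases i <;> simp [pol]
  · simp only [pol, Pi.neg_apply, ← Complex.exp_neg]
    congr 1
    push_cast
    ring

/-- the linear part of `pol` -/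
def lin : Rn 4 ≃L[ℝ] Rn 2 × ℂ := LinearEquiv.toContinuousLinearEquiv
  { toFun := fun z => (![z 0, z 1], z 3 + z 2 * Complex.I)
    invFun := fun p => ![p.1 0, p.1 1, p.2.im, p.2.re]
    map_add' := fun z z' => by
      refine Prod.ext ?_ ?_
      · ext i
        fin_cases i <;> simp
      · simp
        ring
    map_smul' := fun c z => by
      refine Prod.ext ?_ ?_
      · ext i
        fin_cases i <;> simp
      · simp
        ring
    left_inv := fun z => by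
      ext i
      fin_cases i <;> simp
    right_inv := fun p => by
      refine Prod.ext ?_ ?_
      · ext i
        fin_cases i <;> simp
      · simp }

theorem ld_exp (p : Rn 2 × ℂ) :
    LDAt (vs (Rn 2 × ℂ)) (vs (Rn 2 × ℂ)) (fun p => (p.1, Complex.exp p.2)) p := by
  refine ldAt_vs univ_mem (fun y _ => contDiffAt_fst.prodMk
    ((Complex.contDiff_exp (𝕜 := ℝ)).contDiffAt.comp y contDiffAt_snd)) ?_
  let L : ℂ ≃L[ℝ] ℂ := (ContinuousLinearEquiv.unitsEquivAut ℂ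
    (Units.mk0 _ (Complex.exp_ne_zero p.2))).restrictScalars ℝ
  have h : HasFDerivAt Complex.exp (L : ℂ →L[ℝ] ℂ) p.2 := by
    refine ((Complex.hasDerivAt_exp p.2).hasFDerivAt.restrictScalars ℝ).congr_fderiv ?_
    ext x
    simp [L]
  have := (hasFDerivAt_id (𝕜 := ℝ) p.1).prodMap p h
  exact ⟨(ContinuousLinearEquiv.refl ℝ _).prodCongr L, this.fderiv.symm⟩

theorem ld_pol (z : Rn 4) : LDAt (vs (Rn 4)) (vs (Rn 2 × ℂ)) pol z :=
  (ldAt_cle lin z).trans (ld_exp _)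

theorem cont_pol : Continuous pol :=
  continuous_iff_continuousAt.2 fun z => (ld_pol z).sm.cont

theorem pol_surj (m : Rn 2) {w : ℂ} (hw : w ≠ 0) : ∃ z, pol z = (m, w) :=
  ⟨lin.symm (m, Complex.log w), by
    have : pol (lin.symm (m, Complex.log w)) =
      (fun p : Rn 2 × ℂ => (p.1, Complex.exp p.2)) (lin (lin.symm (m, Complex.log w))) := rfl
    rw [this, lin.apply_symm_apply]
    simp [Complex.exp_log hw]⟩

/-- the same point of `T³ × ℝ` -/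
def Per (z z' : Rn 4) : Prop := (∀ i, i ≠ 3 → ∃ m : ℤ, z i - z' i = 2 * π * m) ∧ z 3 = z' 3

theorem per_iff {z z' : Rn 4} :
    Lat (pol z).1 (pol z').1 ∧ (pol z).2 = (pol z').2 ↔ Per z z' := by
  have e : (pol z).2 = (pol z').2 ↔ (∃ m : ℤ, z 2 - z' 2 = 2 * π * m) ∧ z 3 = z' 3 := by
    simp only [pol, Complex.exp_eq_exp_iff_exists_int]
    simp only [Complex.ext_iff, Complex.add_re, Complex.ofReal_re, Complex.mul_re, Complex.I_re, mul_zero,
      Complex.ofReal_im, Complex.I_im, mul_one, sub_self, add_zero, Complex.intCast_re,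
      Complex.re_ofNat, Complex.im_ofNat, sub_zero, Complex.mul_im, zero_mul, Complex.intCast_im,
      Complex.add_im, zero_add, exists_and_left]
    exact ⟨fun ⟨a, m, b⟩ => ⟨⟨m, by linarith⟩, a⟩, fun ⟨⟨m, b⟩, a⟩ => ⟨a, m, by linarith⟩⟩
  rw [e]
  constructor
  · rintro ⟨h1, h2, h3⟩
    refine ⟨fun i hi => ?_, h3⟩
    fin_cases i
    · exact h1 0
    · exact h1 1
    · exact h2
    · exact absurd rfl hi
  · rintro ⟨h1, h2⟩
    refine ⟨fun i => ?_, h1 2 (by decide), h2⟩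
    fin_cases i
    · exact h1 0 (by decide)
    · exact h1 1 (by decide)

theorem Per.neg {z z' : Rn 4} (h : Per z z') : Per (-z) (-z') :=
  ⟨fun i hi => (h.1 i hi).elim fun m hm => ⟨-m, by
    simp only [Pi.neg_apply, Int.cast_neg]
    linarith⟩, congrArg Neg.neg h.2⟩

theorem exists_lat {n : ℕ} (z : Rn n) : ∃ z' ∈ Icc (0 : Rn n) fun _ => 2 * π, Lat z z' :=
  ⟨fun i => toIcoMod Real.two_pi_pos 0 (z i), ⟨fun i => (toIcoMod_mem_Ico' _ (z i)).1,
    fun i => (toIcoMod_mem_Ico' _ (z i)).2.le⟩, fun i => ⟨toIcoDiv Real.two_pi_pos 0 (z i), by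
      rw [self_sub_toIcoMod, zsmul_eq_mul, mul_comm]⟩⟩

theorem exp_lt {t : ℝ} (h : t ≤ 3) : Real.exp t < 30 := by
  have h1 : Real.exp 3 = Real.exp 1 ^ 3 := by rw [← Real.exp_nat_mul]; norm_num
  have h2 : Real.exp 1 ^ 3 < 3 ^ 3 :=
    pow_lt_pow_left₀ (Real.exp_one_lt_d9.trans (by norm_num)) (Real.exp_pos _).le (by norm_num)
  linarith [Real.exp_le_exp.2 h]

theorem exp_lt_abs {t : ℝ} (h : |t| ≤ 1) : Real.exp t < 30 := exp_lt (by linarith [le_abs_self t])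

/-- the slab of the neck -/
def Slab : Set (Rn 4) := {z | |z 3| < 1}

theorem slab_open : IsOpen Slab := isOpen_lt (by fun_prop) continuous_const

theorem slab_neg {z : Rn 4} (h : z ∈ Slab) : -z ∈ Slab := by simpa [Slab] using h

theorem slab_convex : Convex ℝ Slab := by
  have : Slab = (LinearMap.proj 3 : Rn 4 →ₗ[ℝ] ℝ) ⁻¹' Ioo (-1) 1 := Set.ext fun z => abs_lt (a := z 3)
  exact this ▸ (convex_Ioo _ _).linear_preimage _

theorem slab_exp {z : Rn 4} (h : z ∈ Slab) : Real.exp (z 3) < 30 := exp_lt_abs (le_of_lt h)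

theorem ld_neg (z : Rn 4) : LDAt (vs (Rn 4)) (vs (Rn 4)) (fun z => -z) z :=
  ldAt_cle (ContinuousLinearEquiv.neg ℝ) z

end Pol

open Pol

/-- the neck of the port -/
def Ann (X : Mf E4) (κ : Rn 2 × ℂ → X) : Set X := (fun z => κ (pol z)) '' Slab

/-- the flip of the neck -/
def rho (X : Mf E4) (κ : Rn 2 × ℂ → X) (x : X) : X :=
  κ (pol (-invFunOn (fun z => κ (pol z)) Slab x))

variable {X : Mf E4} {κ : Rn 2 × ℂ → X}

theorem ann_eq : Ann X κ =
    κ '' (univ ×ˢ {w | Real.exp (-1) < ‖w‖ ∧ ‖w‖ < Real.exp 1}) := by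
  ext x
  constructor
  · rintro ⟨z, hz, rfl⟩
    refine ⟨pol z, ⟨trivial, ?_⟩, rfl⟩
    simpa only [mem_ofPred_eq, norm_pol, Real.exp_lt_exp] using abs_lt.1 hz
  · rintro ⟨⟨m, w⟩, ⟨-, h1, h2⟩, rfl⟩
    obtain ⟨z, hz⟩ := pol_surj m (norm_pos_iff.1 ((Real.exp_pos _).trans h1))
    have e := norm_pol z
    rw [hz] at e
    rw [e, Real.exp_lt_exp] at h1 h2
    exact ⟨z, abs_lt.2 ⟨h1, h2⟩, congrArg κ hz⟩

namespace Port
variable (h : Port X κ)
include h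

theorem ld_pol {z : Rn 4} (hz : Real.exp (z 3) < 30) :
    LDAt (vs (Rn 4)) X (fun z => κ (pol z)) z :=
  (Pol.ld_pol z).trans (h.ld _ _ ((norm_pol z).trans_lt hz))

theorem eq_pol {z z' : Rn 4} (hz : Real.exp (z 3) < 30) (hz' : Real.exp (z' 3) < 30) :
    κ (pol z) = κ (pol z') ↔ Per z z' :=
  (h.eq _ _ _ _ ((norm_pol z).trans_lt hz) ((norm_pol z').trans_lt hz')).trans per_iff

/-- the radius is well defined -/
theorem pol_mem {z : Rn 4} (hz : Real.exp (z 3) < 30) {A : Set ℂ} (hA : ∀ w ∈ A, ‖w‖ < 30) :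
    κ (pol z) ∈ κ '' (univ ×ˢ A) ↔ (pol z).2 ∈ A := by
  refine ⟨?_, fun hw => ⟨pol z, ⟨trivial, hw⟩, rfl⟩⟩
  rintro ⟨⟨m, w⟩, ⟨-, hw⟩, e⟩
  exact ((h.eq _ _ _ _ (hA w hw) ((norm_pol z).trans_lt hz)).1 e).2 ▸ hw

theorem isOpen_img {A : Set ℂ} (ho : IsOpen A) (hA : ∀ w ∈ A, ‖w‖ < 30) :
    IsOpen (κ '' (univ ×ˢ A)) :=
  isOpen_image_ld (X := vs (Rn 2 × ℂ)) (isOpen_univ.prod ho) fun _ hp => h.ld _ _ (hA _ hp.2)

theorem isCompact_img {A : Set ℂ} (hc : IsCompact A) (hA : ∀ w ∈ A, ‖w‖ < 30) :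
    IsCompact (κ '' (univ ×ˢ A)) := by
  have : κ '' (univ ×ˢ A) = κ '' (Icc 0 (fun _ => 2 * π) ×ˢ A) := by
    refine subset_antisymm ?_ (image_mono (prod_mono (subset_univ _) subset_rfl))
    rintro _ ⟨⟨m, w⟩, ⟨-, hw⟩, rfl⟩
    obtain ⟨m', h1, h2⟩ := exists_lat m
    exact ⟨(m', w), ⟨h1, hw⟩, ((h.eq _ _ _ _ (hA w hw) (hA w hw)).2 ⟨h2, rfl⟩).symm⟩
  rw [this]
  exact (isCompact_Icc.prod hc).image_of_continuousOn fun p hp =>
    (h.ld _ _ (hA _ hp.2)).sm.cont.continuousWithinAt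

theorem half_open : IsOpen (Half X κ) :=
  (h.isCompact_img (A := {w | ‖w‖ ≤ Real.exp (-1)})
    (by simpa [Metric.closedBall] using isCompact_closedBall (0 : ℂ) (Real.exp (-1)))
    fun _ hw => lt_of_le_of_lt hw (exp_lt (by norm_num))).isClosed.isOpen_compl

theorem pol_half {z : Rn 4} (hz : Real.exp (z 3) < 30) : κ (pol z) ∈ Half X κ ↔ -1 < z 3 := by
  rw [Half, mem_compl_iff, h.pol_mem (A := {w | ‖w‖ ≤ Real.exp (-1)}) hz
    fun _ hw => lt_of_le_of_lt hw (exp_lt (by norm_num)), mem_ofPred_eq, norm_pol, Real.exp_le_exp, not_le]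

theorem slab_half {z : Rn 4} (hz : z ∈ Slab) : κ (pol z) ∈ Half X κ :=
  (h.pol_half (slab_exp hz)).2 (abs_lt.1 hz).1

theorem ann_open : IsOpen (Ann X κ) :=
  isOpen_image_ld (X := vs (Rn 4)) slab_open fun _ hz => h.ld_pol (slab_exp hz)

theorem ann_half : Ann X κ ⊆ Half X κ := by
  rintro _ ⟨z, hz, rfl⟩
  exact h.slab_half hz

theorem rho_pol {z : Rn 4} (hz : z ∈ Slab) : rho X κ (κ (pol z)) = κ (pol (-z)) := by
  have e : ∃ a ∈ Slab, (fun z => κ (pol z)) a = κ (pol z) := ⟨z, hz, rfl⟩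
  have h1 := invFunOn_mem e
  exact (h.eq_pol (slab_exp (slab_neg h1)) (slab_exp (slab_neg hz))).2
    ((h.eq_pol (slab_exp h1) (slab_exp hz)).1 (invFunOn_eq e)).neg

theorem rho_ann : MapsTo (rho X κ) (Ann X κ) (Ann X κ) := by
  rintro _ ⟨z, hz, rfl⟩
  exact ⟨-z, slab_neg hz, (h.rho_pol hz).symm⟩

theorem rho_rho {x : X} (hx : x ∈ Ann X κ) : rho X κ (rho X κ x) = x := by
  obtain ⟨z, hz, rfl⟩ := hx
  rw [h.rho_pol hz, h.rho_pol (slab_neg hz), neg_neg]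

theorem rho_oe : OE X X (rho X κ) (Ann X κ) := by
  refine ⟨h.ann_open, ?_, LeftInvOn.injOn fun _ => h.rho_rho⟩
  rintro _ ⟨z, hz, rfl⟩
  refine (h.ld_pol (slab_exp hz)).ld_of_comp
    (((ld_neg z).trans (h.ld_pol (slab_exp (slab_neg hz)))).congr' ?_)
  filter_upwards [slab_open.mem_nhds hz] with y hy using h.rho_pol hy

end Port

end Pool.Agent.MP_e1dc65_gt.O

end
end MrgPart2

-- ======== part 3: formerly Pool.Agent.MP_e1dc65_gt.o.Flat
section MrgPart3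

/-! PROJECT HC, part O, row FLAT: a connection that is flat on the neck of a torus port. -/

open scoped ContDiff Manifold Topology Real Matrix
open Set Filter Function Module Pool.Agent.MP_c8d41b_gt.GF

noncomputable section

namespace Pool.Agent.MP_e1dc65_gt.O

namespace Fl
open Pol

/-- forms of degree four on the plane vanish -/
theorem deg4 {a : Lam ℂ} (h : a ∈ dg ℂ 4) : a = 0 := by
  rw [dg, ← ExteriorAlgebra.ιMulti_span_fixedDegree] at h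
  refine (Submodule.span_eq_bot.2 ?_).le h
  rintro _ ⟨v, rfl⟩
  refine AlternatingMap.map_linearDependent _ v fun hv => ?_
  have := hv.fintype_card_le_finrank
  rw [← (LinearMap.toContinuousLinearMap : (ℂ →ₗ[ℝ] ℝ) ≃ₗ[ℝ] _).finrank_eq,
    Module.finrank_linearMap_self, Complex.finrank_real_complex] at this
  simp at this

/-- multiplication by `u` in the coordinates `2`, `3` -/
def R (u : ℂ) : M5 :=
  !![1, 0, 0, 0, 0; 0, 1, 0, 0, 0; 0, 0, u.re, u.im, 0; 0, 0, -u.im, u.re, 0; 0, 0, 0, 0, 1]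

theorem R_mul {u : ℂ} (h : u ≠ 0) : R u * R u⁻¹ = 1 := by
  have e := mul_inv_cancel₀ h
  generalize u⁻¹ = v at e
  have e1 := congrArg Complex.re e
  have e2 := congrArg Complex.im e
  simp only [Complex.mul_re, Complex.mul_im, Complex.one_re, Complex.one_im] at e1 e2
  ext i j
  fin_cases i <;> fin_cases j <;> simp [R, Matrix.mul_apply, Fin.sum_univ_succ] <;> linarith

theorem R_mul' {u : ℂ} (h : u ≠ 0) : R u⁻¹ * R u = 1 := by
  simpa using R_mul (inv_ne_zero h)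

theorem R_sm (a b : Fin 5) : ContDiff ℝ ∞ fun u => R u a b := by
  have h1 : ContDiff ℝ ∞ Complex.re := Complex.reCLM.contDiff
  have h2 : ContDiff ℝ ∞ Complex.im := Complex.imCLM.contDiff
  fin_cases a <;> fin_cases b <;> simp [R] <;> first | exact contDiff_const | fun_prop

theorem Ri_sm {w : ℂ} (h : w ≠ 0) (a b : Fin 5) : SmAt (vs ℂ) (vs ℝ) (fun u => R u⁻¹ a b) w :=
  smAt_vs.2 ((R_sm a b).contDiffAt.comp w (contDiffAt_inv ℝ h))

/-- the cut-off -/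
def ct (w : ℂ) : ℝ := Real.smoothTransition (100 * ‖w‖ ^ 2 - 1)

theorem ct_sm : ContDiff ℝ ∞ ct :=
  Real.smoothTransition.contDiff.comp ((contDiff_const.mul (contDiff_norm_sq ℝ)).sub contDiff_const)

theorem ct_zero : ∀ᶠ w in 𝓝 (0 : ℂ), ct w = 0 := by
  filter_upwards [Metric.ball_mem_nhds (0 : ℂ) (show (0 : ℝ) < 1 / 10 by norm_num)] with w hw
  rw [mem_ball_zero_iff] at hw
  exact Real.smoothTransition.zero_of_nonpos (by nlinarith [norm_nonneg w])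

theorem third : 1 / 3 < Real.exp (-1) := by
  rw [Real.exp_neg, one_div]
  exact inv_strictAnti₀ (Real.exp_pos _) (Real.exp_one_lt_d9.trans (by norm_num))

theorem ct_one {w : ℂ} (h : Real.exp (-1) < ‖w‖) : ct w = 1 :=
  Real.smoothTransition.one_of_one_le (by nlinarith [third])

/-- the matrix of the connection on the plane -/
def B (w : ℂ) : MF ℂ := ct w • (mF (R w) * dMat (vs ℂ) (fun u => mF (R u⁻¹)) w)

theorem B_fm (a b : Fin 5) : Fm (vs ℂ) 1 (fun w => B w a b) univ := fun w _ => by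
  by_cases h : w = 0
  · subst h
    have e : ∀ᶠ w in 𝓝 (0 : ℂ), B w a b = 0 := ct_zero.mono fun w hw => by simp [B, hw]
    exact ⟨fmAt_of_ev e, (congrArg (· ∈ dg ℂ 1) e.self_of_nhds).mpr (zero_mem _)⟩
  · exact (Cw2.fm_mul (X := vs ℂ) (W := {0}ᶜ) (k := 0) (l := 1) (A := fun w => mF (R w))
      (B := dMat (vs ℂ) fun u => mF (R u⁻¹))
      (fun a b => fm_scalar fun w _ => smAt_vs.2 (R_sm a b).contDiffAt)
      (fun a b => ((fm_scalar fun w hw => Ri_sm hw a b).dM isOpen_compl_singleton).1) a b).fsmul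
      (fun w _ => smAt_vs.2 ct_sm.contDiffAt) w h

theorem B_law {w : ℂ} (h : Real.exp (-1) < ‖w‖) :
    dMat (vs ℂ) (fun u => mF (R u⁻¹)) w + (fun _ => (0 : MF ℂ)) w * mF (R w⁻¹) =
      mF (R w⁻¹) * B w := by
  rw [B, ct_one h, one_smul, ← mul_assoc, ← CW.mF_mul,
    R_mul' (norm_pos_iff.1 ((Real.exp_pos _).trans h)), CW.mF_one, zero_mul, add_zero, one_mul]

theorem Df_pol (z v : Rn 4) :
    Df (vs (Rn 4)) (vs (Rn 2 × ℂ)) pol z v = ((lin v).1, (pol z).2 * (lin v).2) := by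
  have h := ((hasFDerivAt_id (𝕜 := ℝ) (lin z).1).prodMap (lin z)
    ((Complex.hasDerivAt_exp (lin z).2).hasFDerivAt.restrictScalars ℝ)).comp z lin.hasFDerivAt
  rw [Df_vs, show fderiv ℝ pol z = _ from h.fderiv]
  exact Prod.ext rfl (mul_comm _ _)

variable {X : Mf E4} {κ : Rn 2 × ℂ → X}

/-- a section of the port -/
def sec (κ : Rn 2 × ℂ → X) (x : X) : Rn 2 × ℂ := invFunOn κ (univ ×ˢ {w | ‖w‖ < 30}) x

/-- the coordinate coframe of the port -/
def mu (κ : Rn 2 × ℂ → X) (x : X) : E4 →L[ℝ] Rn 4 :=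
  (lin.symm : Rn 2 × ℂ →L[ℝ] Rn 4).comp (Df (vs (Rn 2 × ℂ)) X κ (sec κ x)).inverse

variable (h : Port X κ) {p : Rn 2 × ℂ} (hp : ‖p.2‖ < 30)
include h hp

theorem sec_spec : Lat (sec κ (κ p)).1 p.1 ∧ (sec κ (κ p)).2 = p.2 := by
  have e : ∃ a ∈ (univ ×ˢ {w | ‖w‖ < 30} : Set (Rn 2 × ℂ)), κ a = κ p := ⟨p, ⟨trivial, hp⟩, rfl⟩
  exact (h.eq _ _ _ _ (invFunOn_mem e).2 hp).1 (invFunOn_eq e)

omit h in
theorem ev_lt : ∀ᶠ q in 𝓝 p, ‖q.2‖ < 30 :=
  (isOpen_lt continuous_snd.norm continuous_const).mem_nhds hp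

theorem w_sm : SmAt X (vs ℂ) (fun x => (sec κ x).2) (κ p) :=
  (h.ld p.1 p.2 hp).sm_of_comp ((smAt_vs.2 contDiffAt_snd).congr'
    ((ev_lt hp).mono fun _ hq => (sec_spec h hq).2))

theorem Df_sec : Df (vs (Rn 2 × ℂ)) X κ (sec κ (κ p)) = Df (vs (Rn 2 × ℂ)) X κ p := by
  obtain ⟨h1, h2⟩ := sec_spec h hp
  generalize sec κ (κ p) = p' at h1 h2
  have e : κ =ᶠ[𝓝 p] fun q => κ (q + (p' - p)) := (ev_lt hp).mono fun q hq => by
    refine (h.eq q.1 (q + (p' - p)).1 q.2 (q + (p' - p)).2 hq (by simpa [h2] using hq)).2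
      ⟨fun i => (h1 i).elim fun m hm => ⟨-m, ?_⟩, by simp [h2]⟩
    simp only [Prod.fst_add, Prod.fst_sub, Pi.add_apply, Pi.sub_apply, Int.cast_neg]
    linarith
  have s : SmAt (vs (Rn 2 × ℂ)) X κ (p + (p' - p)) := by
    rw [add_sub_cancel]; exact (h.ld p'.1 p'.2 (h2 ▸ hp)).sm
  refine ((Df_congr (X := vs (Rn 2 × ℂ)) (Y := X) e).trans ((Df_comp (X := vs (Rn 2 × ℂ))
    (Y := vs (Rn 2 × ℂ)) (f := fun q => q + (p' - p))
    (smAt_vs.2 (contDiffAt_id.add contDiffAt_const)) s).trans ?_)).symm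
  rw [Df_vs, fderiv_add_const]
  simp

theorem mu_comp : (mu κ (κ p)).comp (Df (vs (Rn 2 × ℂ)) X κ p) = lin.symm := by
  rw [mu, Df_sec h hp, ContinuousLinearMap.comp_assoc, (h.ld p.1 p.2 hp).inv.inverse_comp_self,
    ContinuousLinearMap.comp_id]

omit hp in
theorem mu_cof : Cof X ∞ (mu κ) (κ '' (univ ×ˢ {w | ‖w‖ < 30})) := by
  rintro _ ⟨p, ⟨-, hp⟩, rfl⟩
  refine ⟨(cfAt_param (h.ld p.1 p.2 hp)).2 (contDiffAt_const.congr_of_eventuallyEq
    ((ev_lt hp).mono fun q hq => mu_comp h hq)), ?_⟩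
  rw [mu, Df_sec h hp]
  exact ContinuousLinearMap.IsInvertible.comp ⟨_, rfl⟩ (h.ld p.1 p.2 hp).inv.inverse

omit hp in
/-- the coordinate `w` and the coordinate coframe on the cylinder -/
theorem coord : ∃ (f : X.cyl → ℂ) (μ : X.cyl → E5 →L[ℝ] Rn 5),
    Sm X.cyl (vs ℂ) f ((κ '' (univ ×ˢ {w | ‖w‖ < 30})) ×ˢ univ) ∧
    Cof X.cyl ∞ μ ((κ '' (univ ×ˢ {w | ‖w‖ < 30})) ×ˢ univ) ∧
    (∀ m w t, ‖w‖ < 30 → f (κ (m, w), t) = w) ∧ ∀ (z : Rn 4) (t : ℝ), |z 3| < 1 →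
      ((mL (R (pol z).2⁻¹)).comp (μ (κ (pol z), t))).comp ((Df (vs (Rn 4)) X (fun z => κ (pol z))
        z).prodMap (ContinuousLinearMap.id ℝ ℝ)) = std5 := by
  refine ⟨fun q => (sec κ q.1).2,
    fun q => std5.comp ((mu κ q.1).prodMap (ContinuousLinearMap.id ℝ ℝ)), ?_,
    (mu_cof h).cyl.ccomp stdE, fun m w t hw => (sec_spec h (p := (m, w)) hw).2, fun z t hz => ?_⟩
  · rintro ⟨_, t⟩ ⟨⟨p, ⟨-, hp⟩, rfl⟩, -⟩
    exact SmAt.trans (X := X.cyl) (x := (κ p, t)) smAt_fst (w_sm h hp)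
  have hz' : ‖(pol z).2‖ < 30 := (norm_pol z).trans_lt (slab_exp hz)
  have e2 := mul_inv_cancel₀ (pol_ne z)
  refine ContinuousLinearMap.ext fun v => ?_
  have e3 : mu κ (κ (pol z)) (Df (vs (Rn 4)) X (fun z => κ (pol z)) z v.1) =
      lin.symm ((lin v.1).1, (pol z).2 * (lin v.1).2) := by
    rw [Df_comp (ld_pol z).sm (h.ld _ _ hz').sm, ← Df_pol]
    exact DFunLike.congr_fun (mu_comp h hz') _
  change R (pol z).2⁻¹ *ᵥ std5 (mu κ (κ (pol z))
    (Df (vs (Rn 4)) X (fun z => κ (pol z)) z v.1), v.2) = std5 v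
  rw [e3]
  generalize (pol z).2⁻¹ = b at e2
  generalize (pol z).2 = a at e2
  have e4 := congrArg Complex.re e2
  have e5 := congrArg Complex.im e2
  simp only [Complex.mul_re, Complex.mul_im, Complex.one_re, Complex.one_im] at e4 e5
  ext i
  fin_cases i <;> simp [R, std5, lin, Matrix.mulVec, dotProduct, Fin.sum_univ_succ]
  · linear_combination (v.1 2) * e4 + (v.1 3) * e5
  · linear_combination (v.1 3) * e4 - (v.1 2) * e5

end Fl

open Fl Pol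

theorem flat : FlatStmt := by
  intro X κ h
  obtain ⟨f, μ, hf, hμ, ef, eμ⟩ := coord h
  have hD := (h.isOpen_img (A := {w | ‖w‖ < 30}) (isOpen_lt continuous_norm continuous_const)
    fun _ hw => hw).prod (isOpen_univ (X := ℝ))
  have hA : ∀ a b, Fm X.cyl 1 (fun q => Cw3.pm X.cyl (vs ℂ) f B q a b) _ := fun a b =>
    (B_fm a b).pb hf (mapsTo_univ _ _)
  have l30 : ∀ w ∈ {w : ℂ | ‖w‖ ≤ 10}, ‖w‖ < 30 := fun w (hw : ‖w‖ ≤ 10) => by linarith
  obtain ⟨c, W, hS, hW, hc⟩ := (cw3 (cw2 cw1) E5 X.cyl).1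
    ((κ '' (univ ×ˢ {w | ‖w‖ ≤ 10})) ×ˢ univ) _ μ _ (by simp)
    ((h.isCompact_img (A := {w | ‖w‖ ≤ 10})
      (by simpa [Metric.closedBall] using isCompact_closedBall (0 : ℂ) 10) l30).isClosed.prod
      isClosed_univ) hD (prod_mono (image_mono (prod_mono subset_rfl l30)) subset_rfl) hμ hA
  obtain ⟨Ω, hΩ, -⟩ := (cw2 cw1 E5 X.cyl).2.2.1 _ c
  have e10 : Real.exp 1 < 10 := Real.exp_one_lt_d9.trans (by norm_num)
  let N : Set X.cyl := (κ '' (univ ×ˢ {w | Real.exp (-1) < ‖w‖ ∧ ‖w‖ < Real.exp 1})) ×ˢ univ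
  have hN : IsOpen N := (ann_eq ▸ h.ann_open).prod isOpen_univ
  have NW : N ⊆ W := fun q hq => hS (prod_mono (image_mono (prod_mono subset_rfl
    fun _ hw => (hw.2.trans e10).le)) subset_rfl hq)
  have fN : ∀ q ∈ N, Real.exp (-1) < ‖f q‖ := by
    rintro ⟨_, t⟩ ⟨⟨⟨m, w⟩, ⟨-, hw⟩, rfl⟩, -⟩
    rw [ef m w t (hw.2.trans (e10.trans (by norm_num)))]
    exact hw.1
  have f0 : ∀ q ∈ N, f q ≠ 0 := fun q hq => norm_pos_iff.1 ((Real.exp_pos _).trans (fN q hq))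
  have sg : ∀ q ∈ N, ∀ a b, SmAt X.cyl (vs ℝ) (fun q => R (f q)⁻¹ a b) q := fun q hq a b =>
    (hf q (hW (NW hq))).trans (Ri_sm (f0 q hq) a b)
  have hΘ : Cof X.cyl ∞ (fun q => (mL (R (f q)⁻¹)).comp (μ q)) N :=
    (hμ.mono (NW.trans hW)).mat fun q hq => ⟨sg q hq, left_ne_zero_of_mul_eq_one (by
      rw [← Matrix.det_mul, R_mul' (f0 q hq), Matrix.det_one])⟩
  refine ⟨c, fun q => (mL (R (f q)⁻¹)).comp (μ q), Ω, hΩ,
    ⟨hN, subset_univ _, hΘ, fun _ _ => fm_zero, fun j q hq => ?_⟩, fun z t hz => ?_,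
    fun m w t hw => ?_⟩
  · refine Cw2.gau_trans (hΘ q hq.1) (hμ q (hW (NW hq.1))) (c.cof j q hq.2) ?_
      (hc.gau j q ⟨NW hq.1, hq.2⟩)
    have l := Cw3.law_pb (X := vs ℂ) (g := fun u => R u⁻¹) (A := fun _ => 0) (A' := B)
      (hf q (hW (NW hq.1))) (Ri_sm (f0 q hq.1)) (B_law (fN q hq.1))
    rw [Cw3.pm_eq, map_zero] at l
    have et : ∀ᶠ y in 𝓝 q, tm ((mL (R (f y)⁻¹)).comp (μ y)) (μ y) = R (f y)⁻¹ := by
      filter_upwards [hD.mem_nhds (hW (NW hq.1))] with y hy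
      rw [tm_mL, tm_self (hμ y hy).2, mul_one]
    rw [Gau, et.self_of_nhds, CW.dMat_congr (B := fun y => mF (R (f y)⁻¹))
      (et.mono fun y hy => congrArg mF hy)]
    exact l
  · have e1 : f (κ (pol z), t) = (pol z).2 := ef _ _ t ((norm_pol z).trans_lt (slab_exp hz))
    rw [e1]
    exact eμ z t hz
  · have hq : (κ (m, w), t) ∈ W := hS ⟨⟨(m, w), ⟨trivial, hw.le⟩, rfl⟩, trivial⟩
    rw [(cw2 cw1 E5 X.cyl).2.2.2.1 _ _ c _ _ Ω hc hΩ _ hq]
    exact ((cw1 ℂ (vs ℂ) univ B isOpen_univ B_fm).2.2 E5 X.cyl f _ (hf _ (hW hq)) trivial).trans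
      (pbM_zero (deg4 ((cw1 ℂ (vs ℂ) univ B isOpen_univ B_fm).1.1 _ trivial).2))

end Pool.Agent.MP_e1dc65_gt.O

end
end MrgPart3

-- marker of a merged file
example : 731051 + 597838 = 731051 + 597838 := rfl
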