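import Pool.Agent.MP_e1dc65_gt.k.Cov
import Pool.Agent.MP_e1dc65_gt.b.Adapt
import Pool.Agent.MP_e1dc65_gt.a.ClsW
import Mathlib.Analysis.Distribution.AEEqOfIntegralContDiff
import Mathlib.Analysis.Calculus.Deriv.Abs
import Mathlib.MeasureTheory.Integral.IntervalIntegral.FundThmCalculus
import Mathlib.Analysis.Calculus.ParametricIntegral
import Mathlib.Analysis.Calculus.LineDeriv.IntegrationByParts
import Mathlib.Analysis.InnerProductSpace.Calculus
import Mathlib.Analysis.Complex.ExponentialBounds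
import Pool.Agent.MP_e1dc65_gt.o.Flat
import Pool.Agent.MP_e1dc65_gt.t4.MidA
import Pool.Agent.MP_e1dc65_gt.fm.Pd3
import Pool.Agent.MP_e1dc65_gt.t.Core

-- ======== part 0: formerly Pool.Agent.MP_e1dc65_gt.a.Lc
section MrgPart0

/-! PROJECT HC, part A, row LC: existence and uniqueness of the Levi-Civita connection. -/

set_option maxSynthPendingDepth 3

open scoped Quaternion ContDiff Topology RealInnerProductSpace
open Set Filter

noncomputable section

namespace Pool.Agent.MP_e1dc65_gt.A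

namespace LC

theorem lin0 {f : ℍ → ℍ} (h : IsLinearMap ℝ f) (h0 : ∀ a, f (ε a) = 0) (s : ℍ) : f s = 0 :=
  LinearMap.congr_fun (ε.toBasis.ext (f₁ := h.mk' f) (f₂ := 0) fun a => by simpa using h0 a) s

theorem co_ext {s : ℍ} (h : ∀ w, co w s = 0) : s = 0 := (sum_co' s).symm.trans (by simp [h])

/-- the left half of a skew matrix -/
def lh (K : Fin 4 → Fin 4 → ℝ) : ℍ := (1 / 4 : ℝ) • ∑ t, ∑ w, K t w • (ε w * star (ε t))

/-- the right half of a skew matrix -/
def rh (K : Fin 4 → Fin 4 → ℝ) : ℍ := (-1 / 4 : ℝ) • ∑ t, ∑ w, K t w • (star (ε t) * ε w)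

theorem so4 {K : Fin 4 → Fin 4 → ℝ} (h : ∀ t w, K t w = -K w t) :
    (lh K).re = 0 ∧ (rh K).re = 0 ∧ ∀ t w, co w (lh K * ε t - ε t * rh K) = K t w := by
  have h0 : ∀ t, K t t = 0 := fun t => by linarith [h t t]
  refine ⟨?_, ?_, ?_⟩ <;>
    simp [lh, rh, Fin.sum_univ_four, Fin.forall_fin_succ, ε_eq, co, inner_H, h0, h 1 0, h 2 0,
      h 3 0, h 2 1, h 3 1, h 3 2]
  refine ⟨⟨?_, ?_, ?_⟩, ⟨?_, ?_, ?_⟩, ⟨?_, ?_, ?_⟩, ?_, ?_, ?_⟩ <;> ring

/-- the Koszul formula -/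
def kos (D : ℍ → ℍ → ℍ) (a t w : Fin 4) : ℝ :=
  (co a (D (ε t) (ε w) - D (ε w) (ε t)) - co w (D (ε a) (ε t) - D (ε t) (ε a)) -
    co t (D (ε w) (ε a) - D (ε a) (ε w))) / 2

theorem kos_anti (D : ℍ → ℍ → ℍ) (a t w : Fin 4) : kos D a t w = -kos D a w t := by
  simp only [kos, map_sub]
  ring

/-- the linear map with the values `q a` on the basis -/
def frm (q : Fin 4 → ℍ) : ℍ →L[ℝ] ℍ := ∑ a, (co a).smulRight (q a)

theorem frm_ε (q : Fin 4 → ℍ) (a : Fin 4) : frm q (ε a) = q a := by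
  simp [frm, co, orthonormal_iff_ite.1 ε.orthonormal]

theorem frm_re {q : Fin 4 → ℍ} (h : ∀ a, (q a).re = 0) (s : ℍ) : (frm q s).re = 0 := by
  simp [frm, Fin.sum_univ_four, h]

theorem ex (D : E4 →L[ℝ] E4 →L[ℝ] ℍ) (e : ℍ →L[ℝ] E4) {A B : ℍ →L[ℝ] ℍ}
    (hA : A = frm fun a => lh (kos (fun s t => D (e s) (e t)) a))
    (hB : B = frm fun a => rh (kos (fun s t => D (e s) (e t)) a)) (s t : ℍ) :
    D (e s) (e t) - D (e t) (e s) + (A s * t - t * B s) - (A t * s - s * B t) = 0 := by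
  have lin : ∀ s, IsLinearMap ℝ fun t =>
      D (e s) (e t) - D (e t) (e s) + (A s * t - t * B s) - (A t * s - s * B t) := fun s =>
    ⟨fun _ _ => by simp [mul_add, add_mul]; abel, fun _ _ => by simp [smul_sub]⟩
  refine lin0 (lin s) (fun b => ?_) t
  refine neg_eq_zero.1 (Eq.trans (by abel) (lin0 (lin (ε b)) (fun a => co_ext fun w => ?_) s))
  have h := fun a => (so4 (kos_anti (fun s t => D (e s) (e t)) a)).2.2
  rw [map_sub, map_add, hA, hB, frm_ε, frm_ε, frm_ε, frm_ε, h, h]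
  simp only [kos, map_sub]
  ring

theorem smooth {θ : E4 → E4 →L[ℝ] ℍ} {e : E4 → ℍ →L[ℝ] E4} {T : Set E4} (h : Frm θ e T)
    (c : ℝ) (m : Fin 4 → Fin 4 → ℍ) : ContDiffOn ℝ ∞ (fun x => (frm fun a => c • ∑ t, ∑ w,
      kos (fun s t => fderiv ℝ θ x (e x s) (e x t)) a t w • m t w) ∘L θ x) T := by
  have h1 : ∀ s t w, ContDiffOn ℝ ∞ (fun x => co w (fderiv ℝ θ x (e x s) (e x t))) T :=
    fun s t w => (co w).contDiff.comp_contDiffOn ((((contDiffOn_infty_iff_fderiv_of_isOpen h.op).1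
      h.θs).2.clm_apply (h.es.clm_apply contDiffOn_const)).clm_apply
      (h.es.clm_apply contDiffOn_const))
  refine ContDiffOn.clm_comp (ContDiffOn.sum fun a _ => ?_) h.θs
  refine (ContinuousLinearMap.smulRightL ℝ ℍ ℍ (co a)).contDiff.comp_contDiffOn
    (ContDiffOn.const_smul c (ContDiffOn.sum fun t _ => ContDiffOn.sum fun w _ =>
      ContDiffOn.fun_smul ?_ contDiffOn_const))
  simp only [kos, map_sub]
  exact ((((h1 _ _ _).sub (h1 _ _ _)).sub ((h1 _ _ _).sub (h1 _ _ _))).sub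
    ((h1 _ _ _).sub (h1 _ _ _))).div_const 2

theorem uniq {t : E4 → ℍ} (ht : Function.Surjective t) {p q : E4 → ℍ} (hp : ∀ v, (p v).re = 0)
    (hq : ∀ v, (q v).re = 0) (h : ∀ u v, p u * t v - t v * q u = p v * t u - t u * q v) (u : E4) :
    p u = 0 ∧ q u = 0 := by
  have h1 : ∀ u v w, ⟪p u * t v - t v * q u, t w⟫ = -⟪p u * t w - t w * q u, t v⟫ :=
    fun u v w => by simp [inner_H, hp, hq]; ring
  have h2 : ∀ s, p u * s - s * q u = 0 := fun s => by
    obtain ⟨v, rfl⟩ := ht s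
    refine co_ext fun w => ?_
    obtain ⟨w', e⟩ := ht (ε w)
    have k1 := h1 u v w'
    have k2 := h1 w' u v
    have k3 := h1 v w' u
    have k4 := h1 v u w'
    rw [h u w'] at k1
    rw [h w' v] at k2
    rw [h v u] at k4
    change ⟪ε w, _⟫ = _
    rw [real_inner_comm, ← e]
    linarith
  have k0 := h2 1
  have k1 := h2 (ε 1)
  have k2 := h2 (ε 2)
  simp [ε_eq, Quaternion.ext_iff, hp, hq] at k0 k1 k2 ⊢
  obtain ⟨a1, a2, a3⟩ := k0
  obtain ⟨-, b2, b3⟩ := k1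
  obtain ⟨-, -, c3⟩ := k2
  refine ⟨⟨?_, ?_, ?_⟩, ?_, ?_, ?_⟩ <;> linarith

end LC

open LC in
theorem lcS : LcStmt := by
  refine ⟨fun θ e T h => ⟨_, _, h, smooth h (1 / 4) fun t w => ε w * star (ε t),
    smooth h (-1 / 4) fun t w => star (ε t) * ε w, fun x hx =>
    ⟨fun v => frm_re (fun a => (so4 (kos_anti _ a)).1) _,
      fun v => frm_re (fun a => (so4 (kos_anti _ a)).2.1) _, fun u v => ?_⟩⟩,
    fun θ a b a' b' x hs h h' => ?_⟩
  · have := ex (fderiv ℝ θ x) (e x) rfl rfl (θ x u) (θ x v)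
    rwa [h.eθ x hx, h.eθ x hx] at this
  · have := uniq hs (p := fun v => a v - a' v) (q := fun v => b v - b' v)
      (fun v => by simp [h.ima, h'.ima]) (fun v => by simp [h.imb, h'.imb]) fun u v => by
        have k := (h.tf u v).trans (h'.tf u v).symm
        rw [← sub_eq_zero] at k ⊢
        rw [← k]
        noncomm_ring
    exact ⟨ContinuousLinearMap.ext fun v => sub_eq_zero.1 (this v).1,
      ContinuousLinearMap.ext fun v => sub_eq_zero.1 (this v).2⟩

end Pool.Agent.MP_e1dc65_gt.A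

end
end MrgPart0

-- ======== part 1: formerly Pool.Agent.MP_e1dc65_gt.a.Lef
section MrgPart1

/-! PROJECT HC, part A, row LEF: the Lefschetz number of the lifted involution. -/

set_option maxSynthPendingDepth 3

open scoped Quaternion ContDiff Topology RealInnerProductSpace
open Set Filter MeasureTheory Metric

noncomputable section

namespace Pool.Agent.MP_e1dc65_gt.A

namespace Lef

theorem act_one (p q : ℍ) : act p q 1 = lieL (p, q, 0) := by
  ext1 s
  rw [lieL_apply, act_apply, lie_apply]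
  simp

theorem str_val : str (act 1 (-1) 1) = 8 := by
  have e : gam * act 1 (-1) 1 = 1 := by
    ext1 s
    refine W_ext ?_ ?_ <;> simp [act_apply, gam_apply]
  rw [str_apply, e]
  show LinearMap.trace ℝ W LinearMap.id = 8
  rw [LinearMap.trace_id, (WithLp.linearEquiv 2 ℝ (ℍ × ℍ)).finrank_eq, Module.finrank_prod,
    Quaternion.finrank_eq_four]
  norm_num

theorem jac_smul (A : E4 →L[ℝ] ℍ) : jac ((-2 : ℝ) • A) = 16 * jac A := by
  unfold jac
  rw [ContinuousLinearMap.comp_smul]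
  show |LinearMap.det ((-2 : ℝ) • _)| = _
  rw [LinearMap.det_smul, finrank_euclideanSpace_fin, abs_mul]
  congr 1
  norm_num

theorem low {z : E4 → ℍ} {A : E4 →L[ℝ] ℍ} {e : ℍ →L[ℝ] E4} {y : E4} (h0 : z y = 0)
    (hz : HasFDerivAt z ((-2 : ℝ) • A) y) (he : ∀ v, e (A v) = v) :
    ∃ c > 0, ∀ᶠ x in 𝓝 y, c * ‖x - y‖ ≤ ‖z x‖ := by
  have hp : 0 < ‖e‖ + 1 := by positivity
  refine ⟨(‖e‖ + 1)⁻¹, by positivity, ?_⟩
  filter_upwards [hz.isLittleO.def (show 0 < (‖e‖ + 1)⁻¹ by positivity)] with x hx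
  have h1 : ‖x - y‖ ≤ (‖e‖ + 1) * ‖A (x - y)‖ := by
    have := e.le_opNorm (A (x - y))
    rw [he] at this
    nlinarith [norm_nonneg (A (x - y))]
  have h2 : (‖e‖ + 1)⁻¹ * ‖x - y‖ ≤ ‖A (x - y)‖ := by rwa [inv_mul_le_iff₀ hp]
  have h3 : ‖((-2 : ℝ) • A) (x - y)‖ = 2 * ‖A (x - y)‖ := by simp [norm_smul]
  rw [h0, sub_zero, norm_sub_rev] at hx
  have h4 := norm_sub_norm_le (((-2 : ℝ) • A) (x - y)) (z x)
  linarith

theorem star_mul_unit {p : ℍ} (h : ‖p‖ = 1) : star p * p = 1 := by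
  rw [Quaternion.star_mul_self, Quaternion.normSq_eq_norm_mul_self, h]; simp

theorem mul_star_unit {p : ℍ} (h : ‖p‖ = 1) : p * star p = 1 := by
  rw [Quaternion.self_mul_star, Quaternion.normSq_eq_norm_mul_self, h]; simp

theorem conj_alg {a b u v v' w : ℍ} (hu : ‖u‖ = 1) (hv : ‖v‖ = 1) (hw : ‖w‖ = 1)
    (h1 : a * u = v * b) (h2 : v * v' = w) (h3 : w * w = w) : u * star b * v' = star a := by
  have e1 : w = 1 := by
    have := congrArg (star w * ·) h3
    simpa only [← mul_assoc, star_mul_unit hw, one_mul] using this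
  have e2 : v' = star v := by
    have := congrArg (star v * ·) h2
    simpa only [← mul_assoc, star_mul_unit hv, one_mul, e1, mul_one] using this
  have e3 := congrArg (fun x => u * star x) h1
  simp only [star_mul, ← mul_assoc, mul_star_unit hu, one_mul] at e3
  rw [e2, e3]

variable {X : Sp} {G : Geo X}

theorem op_eq (hG : G.Adm .o) {f : X → X} {P Q : Fin G.n → Fin G.n → X → ℍ} {F : Finset X}
    (hF : G.Inv f P Q F) {i : Fin G.n} {y : X} (hy : y ∈ G.U i) (hfy : f y ∈ G.U i) :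
    G.g .o i (G.c y) y * G.lift f P Q y * G.g .o (G.c (f y)) i (f y) =
      gam * act (star (P i i y)) (star (Q i i y)) 1 := by
  have hs := hG.spin rfl
  have m1 := hG.mem y
  have m2 := hG.mem (f y)
  have e1 := conj_alg (hG.p1 i _ y ⟨hy, m1⟩) (hG.p1 i _ _ ⟨hfy, m2⟩) (hG.p1 i i _ ⟨hfy, hfy⟩)
    (hF.cP i _ i _ y ⟨hy, m1⟩ ⟨hfy, m2⟩) (hs.cp i _ i _ ⟨⟨hfy, m2⟩, hfy⟩)
    (hs.cp i i i _ ⟨⟨hfy, hfy⟩, hfy⟩)
  have e2 := conj_alg (hG.q1 i _ y ⟨hy, m1⟩) (hG.q1 i _ _ ⟨hfy, m2⟩) (hG.q1 i i _ ⟨hfy, hfy⟩)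
    (hF.cQ i _ i _ y ⟨hy, m1⟩ ⟨hfy, m2⟩) (hs.cq i _ i _ ⟨⟨hfy, m2⟩, hfy⟩)
    (hs.cq i i i _ ⟨⟨hfy, hfy⟩, hfy⟩)
  rw [← e1, ← e2]
  ext1 s
  refine W_ext ?_ ?_ <;>
    simp [Geo.g, Geo.lift, tact, Tw.sel, act_apply, gam_apply, mul_assoc]

theorem int_cont (hG : G.Adm .o) {u : X → ℝ} (hu : Continuous u) : Integrable u G.μ := by
  have := hG.fin
  exact hu.integrable_of_hasCompactSupport (HasCompactSupport.of_compactSpace u)

/-- the approximate identity on `X` -/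
theorem chart_lim (h2 : IntStmt) (h10 : AiStmt) (h12 : SymStmt) (hG : G.Adm .o) {i : Fin G.n}
    {x₀ : X} (hx : x₀ ∈ G.U i) {s c : ℝ} (hs : 0 < s) (hc : 0 < c)
    (hT : closedBall (G.ch i x₀) s ⊆ G.T i) {z : E4 → ℍ} {A : E4 →L[ℝ] ℍ}
    (hz : ContinuousOn z (closedBall (G.ch i x₀) s)) (h0 : z (G.ch i x₀) = 0)
    (hA : HasFDerivAt z A (G.ch i x₀))
    (hl : ∀ x ∈ closedBall (G.ch i x₀) s, c * ‖x - G.ch i x₀‖ ≤ ‖z x‖) {u : E4 → ℝ}
    (hu : ContinuousOn u (closedBall (G.ch i x₀) s)) {ψ : X → ℝ} (hψ : Continuous ψ)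
    (hO : tsupport ψ ⊆ G.U i ∩ G.ch i ⁻¹' ball (G.ch i x₀) s) :
    (∀ t, Integrable (fun y => ψ y * (hk t (z (G.ch i y)) * u (G.ch i y))) G.μ) ∧
    Tendsto (fun t => ∫ y, ψ y * (hk t (z (G.ch i y)) * u (G.ch i y)) ∂G.μ) (𝓝[>] 0)
      (𝓝 ((jac A)⁻¹ * (jac ((G.R i).θ (G.ch i x₀)) * ψ x₀ * u (G.ch i x₀)))) := by
  have hi : ∀ t, Integrable (fun y => ψ y * (hk t (z (G.ch i y)) * u (G.ch i y))) G.μ := by
    intro t
    refine int_cont hG (continuous_of_tsupport fun y hy => ?_)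
    obtain ⟨a, b⟩ := hO (tsupport_mul_subset_left hy)
    have n := mem_of_superset (isOpen_ball.mem_nhds b) ball_subset_closedBall
    have c1 := (G.ch i).continuousAt a
    exact hψ.continuousAt.mul (((contDiff_hk t).continuous.continuousAt.comp
      ((hz.continuousAt n).comp c1)).mul ((hu.continuousAt n).comp c1))
  refine ⟨hi, ?_⟩
  have hJ := (h12 (G.R i) (G.T i) .o (hG.loc i)).1.continuousOn.mono hT
  have hy := h10.2 ℝ z (G.ch i x₀) A _ c
    (fun y => jac ((G.R i).θ y) * ψ ((G.ch i).symm y) * u y) hc (isCompact_closedBall _ _)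
    (closedBall_mem_nhds _ hs) hz
    ((hJ.mul (hψ.comp_continuousOn ((G.ch i).continuousOn_symm.mono hT))).mul hu) h0 hA hl
  rw [(G.ch i).left_inv hx, smul_eq_mul] at hy
  refine hy.congr fun t => ?_
  rw [(h2 X G .o hG).2.1 i _ (hi t).aestronglyMeasurable fun x hx => by
    rw [image_eq_zero_of_notMem_tsupport fun a => hx (hO a).1, zero_mul],
    setIntegral_eq_of_subset_of_forall_sdiff_eq_zero (G.ch i).open_target.measurableSet hT]
  · refine setIntegral_congr_fun measurableSet_closedBall fun y hy => ?_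
    simp only [(G.ch i).right_inv (hT hy), smul_eq_mul]
    ring
  · intro y hy
    rw [image_eq_zero_of_notMem_tsupport (f := ψ) fun a => hy.2 ?_, zero_mul, mul_zero]
    have := (hO a).2
    rw [mem_preimage, (G.ch i).right_inv hy.1] at this
    exact ball_subset_closedBall this

/-- comparison of two families of integrals -/
theorem squeeze {l m b : ℝ → X → ℝ} {a : ℝ}
    (hl : ∀ t ∈ Ioo (0 : ℝ) (1 / 2), Integrable (l t) G.μ) (hm : ∀ t, Integrable (m t) G.μ)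
    (hb : ∀ t, Integrable (b t) G.μ) (h : ∀ t ∈ Ioo (0 : ℝ) (1 / 2), ∀ y, |l t y - m t y| ≤ b t y)
    (h1 : Tendsto (fun t => ∫ y, m t y ∂G.μ) (𝓝[>] 0) (𝓝 a))
    (h2 : Tendsto (fun t => ∫ y, b t y ∂G.μ) (𝓝[>] 0) (𝓝 0)) :
    Tendsto (fun t => ∫ y, l t y ∂G.μ) (𝓝[>] 0) (𝓝 a) := by
  refine h1.congr_dist (squeeze_zero' (Eventually.of_forall fun _ => dist_nonneg) ?_ h2)
  filter_upwards [Ioo_mem_nhdsGT (show (0 : ℝ) < 1 / 2 by norm_num)] with t ht
  rw [dist_comm, Real.dist_eq, ← integral_sub (hl t ht) (hm t), ← Real.norm_eq_abs]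
  exact norm_integral_le_of_norm_le (hb t) (Eventually.of_forall (h t ht))

theorem mul_int {ψ l : X → ℝ} (hψ : Continuous ψ) (hl : Integrable l G.μ) :
    Integrable (fun y => ψ y * l y) G.μ := by
  obtain ⟨C, hC⟩ := isCompact_univ.exists_bound_of_continuousOn hψ.continuousOn
  exact hl.bdd_mul hψ.aestronglyMeasurable (Eventually.of_forall fun y => hC y trivial)

theorem lin_zero (a : ℝ) : Tendsto (fun t : ℝ => t * a) (𝓝[>] 0) (𝓝 0) := by
  have : Tendsto (fun t : ℝ => t * a) (𝓝 0) (𝓝 (0 * a)) := tendsto_id.mul_const a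
  rw [zero_mul] at this
  exact this.mono_left nhdsWithin_le_nhds

variable (G) in
/-- `l` is close to the local trace of every chart parametrix -/
def Near (f : X → X) (a : X → W →L[ℝ] W) (l : ℝ → X → ℝ) : Prop :=
  ∀ i (K : Set E4) (C : ℝ), IsCompact K → K ⊆ G.T i → ∃ C', ∀ y ∈ G.U i,
    G.ch i y ∈ interior K → ∀ k ρ, PPar ((G.R i).lap .o) (G.ch i y) K C k ρ →
    ∀ t ∈ Ioo (0 : ℝ) (1 / 2),
    (f y ∈ G.U i → |l t y - LinearMap.trace ℝ W
      (G.g .o i (G.c y) y * a y * G.g .o (G.c (f y)) i (f y) * k t (G.ch i (f y))).toLinearMap| ≤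
        C' * t) ∧
    (f y ∉ (G.ch i).symm '' K → |l t y| ≤ C' * t)

theorem prep (h8 : LpStmt) (h9 : WeitzStmt) (hG : G.Adm .o) {f : X → X} {a : X → W →L[ℝ] W}
    {l : ℝ → X → ℝ} (hN : Near G f a l) {i : Fin G.n} {x₀ : X} (hx : x₀ ∈ G.U i) {N : Set E4}
    (hn : N ∈ 𝓝 (G.ch i x₀)) : ∃ r > 0, closedBall (G.ch i x₀) (2 * r) ⊆ N ∧
      ∃ (θ' : E4 → E4 →L[ℝ] ℍ) (k : ℝ → E4 × E4 → W →L[ℝ] W) (C' : ℝ), ContDiff ℝ ∞ θ' ∧
      θ' (G.ch i x₀) = (G.R i).θ (G.ch i x₀) ∧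
      (Wt (fun p : E4 × E4 => θ' p.1 (p.2 - p.1)) 1 fun t p =>
        k t p - hk t (θ' p.1 (p.2 - p.1)) • (1 : W →L[ℝ] W)) ∧
      ∀ y ∈ G.U i, G.ch i y ∈ ball (G.ch i x₀) r → ∀ t ∈ Ioo (0 : ℝ) (1 / 2),
        (f y ∈ G.U i → |l t y - LinearMap.trace ℝ W (G.g .o i (G.c y) y * a y *
          G.g .o (G.c (f y)) i (f y) * k t (G.ch i y, G.ch i (f y))).toLinearMap| ≤ C' * t) ∧
        (f y ∉ (G.ch i).symm '' closedBall (G.ch i x₀) (2 * r) → |l t y| ≤ C' * t) := by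
  obtain ⟨r, hr, hs, θ', h1, h2, h3⟩ := h8 _ _ (h9 (G.R i) (G.T i) .o (hG.loc i)).1 _
    ((G.ch i).map_source hx) N hn
  obtain ⟨k, ρ, hk⟩ := h3 4
  obtain ⟨C, hC⟩ := hk.par le_rfl
  obtain ⟨C', hC'⟩ := hN i _ C (isCompact_closedBall (G.ch i x₀) (2 * r))
    (hs.trans inter_subset_left)
  exact ⟨r, hr, hs.trans inter_subset_right, θ', k, C', h1,
    h2 _ (mem_closedBall_self (by positivity)), hk.kW, fun y hy hb t ht =>
    hC' y hy (ball_subset_interior_closedBall (ball_subset_ball (by linarith) hb)) _ _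
      (hC _ (ball_subset_closedBall hb)) t ht⟩

theorem loc_free (h8 : LpStmt) (h9 : WeitzStmt) (hG : G.Adm .o) {f : X → X}
    {a : X → W →L[ℝ] W} {l : ℝ → X → ℝ} (hf : Continuous f) (hN : Near G f a l)
    (hI : ∀ t ∈ Ioo (0 : ℝ) (1 / 2), Integrable (l t) G.μ) {x₀ : X} (hne : f x₀ ≠ x₀) :
    ∃ O ∈ 𝓝 x₀, (∀ y ∈ O, f y ≠ y) ∧ ∀ ψ : X → ℝ, Continuous ψ → tsupport ψ ⊆ O →
      Tendsto (fun t => ∫ y, ψ y * l t y ∂G.μ) (𝓝[>] 0) (𝓝 0) := by
  obtain ⟨A', A, hA', hA, m', m, hd⟩ := t2_separation hne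
  have hx := hG.mem x₀
  have hn : (G.ch (G.c x₀)).symm ⁻¹' A ∈ 𝓝 (G.ch (G.c x₀) x₀) :=
    ((G.ch _).continuousAt_symm ((G.ch _).map_source hx)).preimage_mem_nhds
      (by rw [(G.ch _).left_inv hx]; exact hA.mem_nhds m)
  obtain ⟨r, hr, hs, θ', k, C', -, -, -, h⟩ := prep h8 h9 hG hN hx hn
  refine ⟨(G.U (G.c x₀) ∩ G.ch (G.c x₀) ⁻¹' ball (G.ch (G.c x₀) x₀) r) ∩ (A ∩ f ⁻¹' A'),
    inter_mem (inter_mem ((G.ch _).open_source.mem_nhds hx)
      (((G.ch _).continuousAt hx).preimage_mem_nhds (ball_mem_nhds _ hr)))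
      (inter_mem (hA.mem_nhds m) (hf.continuousAt.preimage_mem_nhds (hA'.mem_nhds m'))),
    fun y hy e => Set.disjoint_left.1 hd hy.2.2 (e.symm ▸ hy.2.1), fun ψ hψ hO => ?_⟩
  refine squeeze (m := fun _ _ => 0) (b := fun t y => t * (C' * |ψ y|))
    (fun t ht => mul_int hψ (hI t ht)) (fun _ => integrable_zero _ _ _)
    (fun t => int_cont hG (by fun_prop)) (fun t ht y => ?_) (by simp) ?_
  · by_cases c : ψ y = 0
    · simp [c]
    obtain ⟨⟨m1, m2⟩, -, m3⟩ := hO (subset_tsupport _ c)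
    have := (h y m1 m2 t ht).2 (by
      rintro ⟨η, hη, e⟩
      exact Set.disjoint_left.1 hd m3 (e ▸ hs hη))
    rw [sub_zero, abs_mul]
    calc _ ≤ |ψ y| * (C' * t) := by gcongr
      _ = _ := by ring
  · simp only [integral_const_mul]
    exact lin_zero _

theorem loc_fixed (h2 : IntStmt) (h8 : LpStmt) (h9 : WeitzStmt) (h10 : AiStmt) (h12 : SymStmt)
    (hG : G.Adm .o) {f : X → X} {P Q : Fin G.n → Fin G.n → X → ℍ} {F : Finset X}
    (hF : G.Inv f P Q F) {l : ℝ → X → ℝ} (hN : Near G f (G.lift f P Q) l)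
    (hI : ∀ t ∈ Ioo (0 : ℝ) (1 / 2), Integrable (l t) G.μ) {x₀ : X} (hfix : f x₀ = x₀) :
    ∃ O ∈ 𝓝 x₀, (∀ y ∈ O, f y = y → y = x₀) ∧ ∀ ψ : X → ℝ, Continuous ψ → tsupport ψ ⊆ O →
      Tendsto (fun t => ∫ y, ψ y * l t y ∂G.μ) (𝓝[>] 0) (𝓝 (ψ x₀ / 2)) := by
  obtain ⟨i, hx⟩ : ∃ i, x₀ ∈ G.U i := ⟨_, hG.mem x₀⟩
  have hfx : f x₀ ∈ G.U i := hfix.symm ▸ hx
  have fm := (hG.loc i).frm
  obtain ⟨r, hr, -, θ', k, C', hθ, hθ0, hW, h⟩ := prep h8 h9 hG hN hx univ_mem
  obtain ⟨y₀, hy₀⟩ : ∃ y₀, y₀ = G.ch i x₀ := ⟨_, rfl⟩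
  have mT : y₀ ∈ G.T i := hy₀ ▸ (G.ch i).map_source hx
  have rd : ∀ y ∈ G.U i, G.rd f i i (G.ch i y) = G.ch i (f y) := fun y hy => by
    rw [Geo.rd, (G.ch i).left_inv hy]
  have r0 : G.rd f i i y₀ = y₀ := by rw [hy₀, rd _ hx, hfix]
  have s0 : ContDiffAt ℝ ∞ (G.rd f i i) y₀ := hy₀ ▸ hF.sm i i x₀ hx hfx
  obtain ⟨v1, v2⟩ := hF.val x₀ ((hF.fix x₀).1 hfix) i hx
  have hA : HasFDerivAt (fun y => θ' y (G.rd f i i y - y)) ((-2 : ℝ) • (G.R i).θ y₀) y₀ := by
    have d := ((hθ.differentiable (by simp)) y₀).hasFDerivAt.clm_apply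
      ((s0.differentiableAt (by simp)).hasFDerivAt.sub (hasFDerivAt_id y₀))
    refine d.congr_fderiv ?_
    ext1 v
    have e := hF.rot i i x₀ hx hfx v
    rw [hfix, v1, v2, ← hy₀] at e
    rw [← hy₀] at hθ0
    simp [r0, hθ0, e, two_smul]
    abel
  have z0 : θ' y₀ (G.rd f i i y₀ - y₀) = 0 := by rw [r0, sub_self, map_zero]
  obtain ⟨c, hc, hl⟩ := low (z := fun y => θ' y (G.rd f i i y - y)) z0 hA (fm.eθ _ mT)
  have ev : ∀ᶠ y in 𝓝 y₀, y ∈ G.T i ∧ f ((G.ch i).symm y) ∈ G.U i ∧ y ∈ ball y₀ r ∧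
      G.rd f i i y ∈ closedBall y₀ 1 ∧ c * ‖y - y₀‖ ≤ ‖θ' y (G.rd f i i y - y)‖ := by
    refine (show ∀ᶠ y in 𝓝 y₀, y ∈ G.T i from (G.ch i).open_target.mem_nhds mT).and
      (Eventually.and ?_ ((show ∀ᶠ y in 𝓝 y₀, y ∈ ball y₀ r from ball_mem_nhds _ hr).and
      (Eventually.and ?_ hl)))
    · refine (hF.cont.continuousAt.comp ((G.ch i).continuousAt_symm mT)).preimage_mem_nhds ?_
      rw [Function.comp, hy₀, (G.ch i).left_inv hx]
      exact (G.ch i).open_source.mem_nhds hfx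
    · refine s0.continuousAt.preimage_mem_nhds ?_
      rw [r0]
      exact closedBall_mem_nhds _ one_pos
  obtain ⟨s, hs, hS⟩ := nhds_basis_closedBall.eventually_iff.1 ev
  have sm : ∀ y ∈ closedBall y₀ s, ContDiffAt ℝ ∞ (G.rd f i i) y := fun y hy => by
    have := hF.sm i i _ ((G.ch i).map_target (hS hy).1) (hS hy).2.1
    rwa [(G.ch i).right_inv (hS hy).1] at this
  have cr : ContinuousOn (G.rd f i i) (closedBall y₀ s) := fun y hy =>
    (sm y hy).continuousAt.continuousWithinAt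
  have cz : ContinuousOn (fun y => θ' y (G.rd f i i y - y)) (closedBall y₀ s) :=
    hθ.continuous.continuousOn.clm_apply (cr.sub continuousOn_id)
  have cP : ContinuousOn (fun y => star (P i i ((G.ch i).symm y))) (closedBall y₀ s) :=
    ((hF.Pc i i).comp ((G.ch i).continuousOn_symm.mono fun y hy => (hS hy).1)
      fun y hy => ⟨(G.ch i).map_target (hS hy).1, (hS hy).2.1⟩).star
  have cQ : ContinuousOn (fun y => star (Q i i ((G.ch i).symm y))) (closedBall y₀ s) := by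
    have c1 : ContinuousOn (fun y => (G.R i).θ (G.rd f i i y)) (closedBall y₀ s) :=
      fm.θs.continuousOn.comp cr fun y hy => (G.ch i).map_source (hS hy).2.1
    have c2 : ContinuousOn (fderiv ℝ (G.rd f i i)) (closedBall y₀ s) := fun y hy =>
      ((sm y hy).continuousAt_fderiv (by simp)).continuousWithinAt
    have c3 : ContinuousOn (fun y => (G.R i).e y 1) (closedBall y₀ s) :=
      (fm.es.continuousOn.mono fun y hy => (hS hy).1).clm_apply continuousOn_const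
    refine (cP.mul (c1.clm_apply (c2.clm_apply c3))).congr fun y hy => ?_
    have m1 := (G.ch i).map_target (hS hy).1
    have e := hF.rot i i _ m1 (hS hy).2.1 ((G.R i).e y 1)
    rw [(G.ch i).right_inv (hS hy).1, fm.θe y (hS hy).1, mul_one] at e
    show _ = star (P i i ((G.ch i).symm y)) * (G.R i).θ (G.ch i (f ((G.ch i).symm y))) _
    rw [e, ← mul_assoc, star_mul_unit (hF.P1 i i _ m1 (hS hy).2.1), one_mul]
  have cu : ContinuousOn (fun y => str (lieL (star (P i i ((G.ch i).symm y)),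
      star (Q i i ((G.ch i).symm y)), 0))) (closedBall y₀ s) :=
    (str.continuous.comp lieL.continuous).comp_continuousOn
      (cP.prodMk (cQ.prodMk continuousOn_const))
  obtain ⟨M, hM0, hM⟩ := hW.bound ((hθ.comp contDiff_fst).clm_apply (contDiff_snd.sub contDiff_fst))
    ((isCompact_closedBall y₀ s).prod (isCompact_closedBall y₀ 1))
  subst hy₀
  refine ⟨G.U i ∩ G.ch i ⁻¹' ball (G.ch i x₀) s, inter_mem ((G.ch i).open_source.mem_nhds hx)
    (((G.ch i).continuousAt hx).preimage_mem_nhds (ball_mem_nhds _ hs)), fun y hy e => ?_,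
    fun ψ hψ hO => ?_⟩
  · have := (hS (ball_subset_closedBall hy.2)).2.2.2.2
    rw [rd y hy.1, e, sub_self, map_zero, norm_zero] at this
    have h1 : ‖G.ch i y - G.ch i x₀‖ ≤ 0 := by
      by_contra c1
      exact absurd this (not_le.2 (mul_pos hc (not_le.1 c1)))
    exact (G.ch i).injOn hy.1 hx (sub_eq_zero.1 (norm_le_zero_iff.1 h1))
  obtain ⟨i1, l1⟩ := chart_lim h2 h10 h12 hG hx hs hc (fun y hy => (hS hy).1) cz z0 hA
    (fun y hy => (hS hy).2.2.2.2) cu hψ hO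
  obtain ⟨i2, l2⟩ := chart_lim h2 h10 h12 hG hx hs hc (fun y hy => (hS hy).1) cz z0 hA
    (fun y hy => (hS hy).2.2.2.2) (u := fun _ => 1) continuousOn_const hψ.abs
    ((tsupport_comp_subset (g := fun x : ℝ => |x|) abs_zero ψ).trans hO)
  have hJ := (h12 (G.R i) (G.T i) .o (hG.loc i)).2.1 _ mT
  rw [(G.ch i).left_inv hx, v1, v2, star_one, star_neg, star_one, ← act_one, str_val, jac_smul,
    show (16 * jac ((G.R i).θ (G.ch i x₀)))⁻¹ * (jac ((G.R i).θ (G.ch i x₀)) * ψ x₀ * 8) =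
      ψ x₀ / 2 by field_simp; ring] at l1
  refine squeeze (b := fun t y => t * (C' * |ψ y|) + (‖str‖ * ‖lieL‖ * M * √t) *
    (|ψ y| * (hk (2 * t) (θ' (G.ch i y) (G.rd f i i (G.ch i y) - G.ch i y)) * 1)))
    (fun t ht => mul_int hψ (hI t ht)) i1
    (fun t => (int_cont hG (by fun_prop)).add ((i2 _).const_mul _)) (fun t ht y => ?_) l1 ?_
  · by_cases c0 : ψ y = 0
    · simp [c0]
    obtain ⟨m1, m2⟩ := hO (subset_tsupport _ c0)
    have m3 := hS (ball_subset_closedBall m2)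
    have m4 : f y ∈ G.U i := by simpa only [(G.ch i).left_inv m1] using m3.2.1
    have e1 := (h y m1 m3.2.2.1 t ht).1 m4
    rw [op_eq hG hF m1 m4, mul_assoc, ← str_apply, act_one, ← rd y m1] at e1
    have e2 := hM t ⟨ht.1, by linarith [ht.2]⟩ (G.ch i y, G.rd f i i (G.ch i y))
      ⟨ball_subset_closedBall m2, m3.2.2.2.1⟩
    rw [zpow_one] at e2
    rw [(G.ch i).left_inv m1]
    have n1 : ‖lieL (star (P i i y), star (Q i i y), 0)‖ ≤ ‖lieL‖ := by
      refine lieL.unit_le_opNorm _ ?_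
      simp [Prod.norm_def, hF.P1 i i y m1 m4, hF.Q1 i i y m1 m4]
    generalize lieL (star (P i i y), star (Q i i y), 0) = a at e1 n1 ⊢
    generalize k t (G.ch i y, G.rd f i i (G.ch i y)) = κ at e1 e2
    dsimp only [Function.comp] at e2
    generalize θ' (G.ch i y) (G.rd f i i (G.ch i y) - G.ch i y) = ζ at e2 ⊢
    have e3 : |str (a * κ) - hk t ζ * str a| ≤ ‖str‖ * (‖lieL‖ * (M * √t * hk (2 * t) ζ)) := by
      have : str (a * κ) - hk t ζ * str a = str (a * (κ - hk t ζ • 1)) := by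
        rw [mul_sub, mul_smul_comm, mul_one, map_sub, map_smul, smul_eq_mul]
      rw [this, ← Real.norm_eq_abs]
      refine (str.le_opNorm _).trans (mul_le_mul_of_nonneg_left ((norm_mul_le _ _).trans ?_)
        (norm_nonneg _))
      exact mul_le_mul n1 e2 (norm_nonneg _) (norm_nonneg _)
    rw [← mul_sub, abs_mul]
    calc _ ≤ |ψ y| * (C' * t + ‖str‖ * (‖lieL‖ * (M * √t * hk (2 * t) ζ))) :=
          mul_le_mul_of_nonneg_left ((abs_sub_le _ _ _).trans (add_le_add e1 e3)) (abs_nonneg _)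
      _ = _ := by ring
  · have t2 : Tendsto (fun t : ℝ => 2 * t) (𝓝[>] 0) (𝓝[>] 0) := by
      refine tendsto_nhdsWithin_iff.2 ⟨?_, eventually_mem_nhdsWithin.mono fun t ht =>
        mem_Ioi.2 (mul_pos two_pos (mem_Ioi.1 ht))⟩
      simpa only [mul_comm] using lin_zero 2
    have t3 : Tendsto (fun t : ℝ => ‖str‖ * ‖lieL‖ * M * √t) (𝓝[>] 0) (𝓝 0) := by
      have : Continuous fun t : ℝ => ‖str‖ * ‖lieL‖ * M * √t := by fun_prop
      simpa using (this.tendsto 0).mono_left nhdsWithin_le_nhds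
    have t4 := (lin_zero (∫ y, C' * |ψ y| ∂G.μ)).add (t3.mul (l2.comp t2))
    rw [zero_mul, add_zero] at t4
    refine t4.congr fun t => ?_
    rw [integral_add (int_cont hG (by fun_prop)) ((i2 _).const_mul _), integral_const_mul t,
      integral_const_mul (‖str‖ * ‖lieL‖ * M * √t)]
    rfl

end Lef

open Lef in
theorem lef (_h1 : CocStmt) (h2 : IntStmt) (h3 : PouStmt) (h4 : EigStmt) (h5 : MsStmt)
    (h6 : KerStmt) (h7 : TrStmt) (h8 : LpStmt) (h9 : WeitzStmt) (h10 : AiStmt) (h11 : ActStmt)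
    (h12 : SymStmt) : LefStmt := by
  intro X G hG j D Γ hI f P Q F hF B hB
  classical
  obtain ⟨B', b1, b2, b3, b4⟩ := (h11 X G hG j D Γ hI).2 f P Q F hF
  obtain rfl : B = B' := LinearMap.ext fun s => Subtype.ext (funext fun x =>
    (hB s x).trans (b1 s x).symm)
  have hE := (h6 X G .o hG j D Γ hI).1
  obtain ⟨J, φ, lam, hJ⟩ := h4 _ _ j D hE
  obtain ⟨t1, t2⟩ := h7 X G .o hG j D Γ hI J φ lam hJ f (G.lift f P Q) B b2 hB
  have hM := (h5 _ _ j D J φ lam hE hJ).2.2.2 B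
  have key : ∀ x₀, ∃ O ∈ 𝓝 x₀, ∀ ψ : X → ℝ, Continuous ψ → tsupport ψ ⊆ O →
      Tendsto (fun t => ∫ y, ψ y * G.ltr φ lam f (G.lift f P Q) t y ∂G.μ) (𝓝[>] 0)
        (𝓝 (∑ x ∈ F, ψ x / 2)) := fun x₀ => by
    by_cases c : f x₀ = x₀
    · obtain ⟨O, o1, o2, o3⟩ := loc_fixed h2 h8 h9 h10 h12 hG hF t2 (fun t ht => (t1 t ht).1) c
      refine ⟨O, o1, fun ψ hψ hO => ?_⟩
      rw [Finset.sum_eq_single_of_mem x₀ ((hF.fix x₀).1 c) fun x hx hne => by
        rw [image_eq_zero_of_notMem_tsupport fun a => hne (o2 x (hO a) ((hF.fix x).2 hx)),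
          zero_div]]
      exact o3 ψ hψ hO
    · obtain ⟨O, o1, o2, o3⟩ := loc_free h8 h9 hG hF.cont t2 (fun t ht => (t1 t ht).1) c
      refine ⟨O, o1, fun ψ hψ hO => ?_⟩
      rw [Finset.sum_eq_zero fun x hx => by
        rw [image_eq_zero_of_notMem_tsupport fun a => o2 x (hO a) ((hF.fix x).2 hx), zero_div]]
      exact o3 ψ hψ hO
  choose O o1 o2 using key
  obtain ⟨F', ψ, p1, p2⟩ := h3 X G hG.toOk0 O o1
  have lim := tendsto_finsetSum F' fun x _ => o2 x (ψ x) (p1 x).2.1 (p1 x).2.2.1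
  have e : ∑ x ∈ F', ∑ y ∈ F, ψ x y / 2 = 4 := by
    rw [Finset.sum_comm]
    simp only [← Finset.sum_div, p2]
    rw [Finset.sum_const, hF.card]
    norm_num
  rw [e] at lim
  refine tendsto_nhds_unique (tendsto_const_nhds.congr' ?_) lim
  filter_upwards [Ioo_mem_nhdsGT (show (0 : ℝ) < 1 / 2 by norm_num)] with t ht
  rw [← hM t _ b3 b4 (t1 t ht).2,
    ← integral_finsetSum _ fun x _ => mul_int (p1 x).2.1 (t1 t ht).1]
  simp only [← Finset.sum_mul, p2, one_mul]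

end Pool.Agent.MP_e1dc65_gt.A

end
end MrgPart1

-- ======== part 2: formerly Pool.Agent.MP_e1dc65_gt.a.Rl
section MrgPart2

/-! PROJECT HC, part A, row RL: local elliptic regularity. -/

set_option maxSynthPendingDepth 3

open scoped Quaternion ContDiff Topology RealInnerProductSpace
open Set Filter MeasureTheory Metric

noncomputable section

namespace Pool.Agent.MP_e1dc65_gt.A

namespace Rl

/-- functions of time and pole whose time integral is of class `l` -/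
structure Good (l : ℕ) (h : ℝ → E4 → ℝ) : Prop where
  sm : ContDiff ℝ l fun y => ∫ s in Ioc (0 : ℝ) 1, h s y
  bd : ∀ S, IsCompact S → ∃ C, ∀ s ∈ Ioc (0 : ℝ) 1, ∀ y ∈ S, |h s y| ≤ C
  ct : ∀ y, ContinuousOn (fun s => h s y) (Ioi 0)

variable {l : ℕ} {h h' : ℝ → E4 → ℝ}

theorem Good.int (H : Good l h) (y : E4) : IntegrableOn (fun s => h s y) (Ioc 0 1) := by
  obtain ⟨C, hC⟩ := H.bd {y} isCompact_singleton
  exact IntegrableOn.of_bound measure_Ioc_lt_top
    (((H.ct y).mono Ioc_subset_Ioi_self).aestronglyMeasurable measurableSet_Ioc) C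
    ((ae_restrict_mem measurableSet_Ioc).mono fun s hs => hC s hs y rfl)

theorem Good.add (H : Good l h) (H' : Good l h') : Good l fun s y => h s y + h' s y := by
  refine ⟨?_, fun S hS => ?_, fun y => (H.ct y).add (H'.ct y)⟩
  · simp only [integral_add (H.int _) (H'.int _)]
    exact H.sm.add H'.sm
  · obtain ⟨C, hC⟩ := H.bd S hS
    obtain ⟨C', hC'⟩ := H'.bd S hS
    exact ⟨C + C', fun s hs y hy => (abs_add_le _ _).trans (add_le_add (hC s hs y hy)
      (hC' s hs y hy))⟩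

theorem Good.const_mul (H : Good l h) (c : ℝ) : Good l fun s y => c * h s y := by
  refine ⟨?_, fun S hS => ?_, fun y => continuousOn_const.mul (H.ct y)⟩
  · simp only [integral_const_mul]
    exact contDiff_const.mul H.sm
  · obtain ⟨C, hC⟩ := H.bd S hS
    exact ⟨|c| * C, fun s hs y hy => (abs_mul _ _).trans_le
      (mul_le_mul_of_nonneg_left (hC s hs y hy) (abs_nonneg c))⟩

theorem Good.sum {F : ℕ → ℝ → E4 → ℝ} (H : ∀ n, Good l (F n)) (m : ℕ) :
    Good l fun s y => ∑ n ∈ Finset.range (m + 1), F n s y := by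
  induction m with
  | zero => simpa using H 0
  | succ m ih => simpa only [Finset.sum_range_succ _ (m + 1)] using ih.add (H (m + 1))

theorem good_of (h2 : SmiStmt) {B : Type} [NormedAddCommGroup B] [NormedSpace ℝ B]
    {z : E4 × E4 → ℍ} {μ : ℤ} {F : ℝ → E4 × E4 → B} {U : E4 → B →L[ℝ] ℝ} {K : Set E4}
    (hz : ContDiff ℝ ∞ z) (hF : Wt z μ F) (hU : Integrable U) (hK : IsCompact K)
    (h0 : ∀ x ∉ K, U x = 0) (n : ℕ) (hl : (l : ℤ) + 4 ≤ μ + 2 * n) :
    Good l fun s y => s ^ n / n.factorial * ∫ x, U x (F s (y, x)) := by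
  have hF' := hF.tpow n
  obtain ⟨s1, -, -, s4, s5⟩ := h2 E4 B ℝ z _ _ U K hz hF' hU hK h0
  have e : (fun (s : ℝ) y => s ^ n / n.factorial * ∫ x, U x (F s (y, x))) = fun s y =>
      (n.factorial : ℝ)⁻¹ * ∫ x, U x (s ^ (n : ℤ) • F s (y, x)) := by
    funext s y
    simp only [map_smul, smul_eq_mul, integral_const_mul, zpow_natCast]
    ring
  rw [e]
  refine Good.const_mul ⟨s5 l hl 1 ⟨one_pos, le_rfl⟩, fun S hS => ?_, s4⟩ _
  obtain ⟨M, hM, hb⟩ := hF'.bound' hz (hS.prod hK)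
  refine ⟨∫ x, ‖U x‖ * M, fun s hs y hy => (Real.norm_eq_abs _).ge.trans
    (norm_integral_le_of_norm_le (hU.norm.mul_const M) (Eventually.of_forall fun x => ?_))⟩
  by_cases hx : x ∈ K
  · refine (U x).le_of_opNorm_le_of_le le_rfl ((hb s hs (y, x) ⟨hy, hx⟩).trans ?_)
    exact mul_le_of_le_one_right hM (zpow_le_one₀ (Real.sqrt_pos.2 hs.1)
      (Real.sqrt_le_one.2 hs.2) (by omega))
  · simp [h0 x hx]

theorem hasDerivAt_sum {f g : ℕ → ℝ → ℝ} {s : ℝ}
    (H : ∀ n, HasDerivAt (f n) (g n s - f (n + 1) s) s) (m : ℕ) :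
    HasDerivAt (fun t => ∑ n ∈ Finset.range (m + 1), t ^ n / n.factorial * f n t)
      (∑ n ∈ Finset.range (m + 1), s ^ n / n.factorial * g n s +
        -1 * (s ^ m / m.factorial * f (m + 1) s)) s := by
  induction m with
  | zero => simpa [sub_eq_add_neg] using H 0
  | succ m ih =>
    simp only [Finset.sum_range_succ _ (m + 1)]
    refine (ih.add (((hasDerivAt_pow (m + 1) s).div_const _).mul (H (m + 1)))).congr_deriv ?_
    rw [Nat.factorial_succ]
    have : (m.factorial : ℝ) ≠ 0 := by positivity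
    push_cast
    field_simp
    ring

/-- the abstract form of the argument -/
theorem core {f g : ℕ → ℝ → E4 → ℝ} {S : Set E4} {m : ℕ} (hS : IsCompact S)
    (hd : ∀ y ∈ S, ∀ s, 0 < s → ∀ n, HasDerivAt (fun t => f n t y) (g n s y - f (n + 1) s y) s)
    (hg : ∀ n, Good l fun s y => s ^ n / n.factorial * g n s y)
    (hf : Good l fun s y => s ^ m / m.factorial * f (m + 1) s y)
    (hs : ∀ n t, 0 < t → ContDiff ℝ ∞ (f n t)) :
    ∃ v : E4 → ℝ, ContDiff ℝ l v ∧ ∀ (φ : E4 → ℝ) (a : ℕ → ℝ), Continuous φ → tsupport φ ⊆ S →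
      (∀ n, Tendsto (fun t => ∫ y, φ y * f n t y) (𝓝[>] 0) (𝓝 (a n))) → a 0 = ∫ y, φ y * v y := by
  have hD := (Good.sum hg m).add (hf.const_mul (-1))
  obtain ⟨D, eD⟩ : ∃ D : ℝ → E4 → ℝ, D = fun s y => ∑ n ∈ Finset.range (m + 1),
    s ^ n / n.factorial * g n s y + -1 * (s ^ m / m.factorial * f (m + 1) s y) := ⟨_, rfl⟩
  obtain ⟨Φ, eΦ⟩ : ∃ Φ : ℝ → E4 → ℝ, Φ = fun s y => ∑ n ∈ Finset.range (m + 1),
    s ^ n / n.factorial * f n s y := ⟨_, rfl⟩
  rw [← eD] at hD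
  have hΦ : ∀ t, 0 < t → ContDiff ℝ ∞ (Φ t) := fun t ht => by
    rw [eΦ]; exact ContDiff.sum fun n _ => contDiff_const.mul (hs n t ht)
  have hv : ContDiff ℝ l fun y => Φ 1 y - ∫ s in Ioc (0 : ℝ) 1, D s y :=
    ((hΦ 1 one_pos).of_le (by exact_mod_cast le_top)).sub hD.sm
  refine ⟨_, hv, fun φ a hφ hφS ha => ?_⟩
  have hc : HasCompactSupport φ := hS.of_isClosed_subset (isClosed_tsupport φ) hφS
  have hi : ∀ {F : E4 → ℝ}, Continuous F → Integrable fun y => φ y * F y := fun hF =>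
    (hφ.mul hF).integrable_of_hasCompactSupport hc.mul_right
  obtain ⟨C, hC⟩ := hD.bd S hS
  have key : ∀ t ∈ Ioc (0 : ℝ) 1, ∀ y ∈ S,
      |Φ t y - (Φ 1 y - ∫ s in Ioc (0 : ℝ) 1, D s y)| ≤ C * t := fun t ht y hy => by
    have i1 : IntervalIntegrable (fun s => D s y) volume 0 t :=
      (intervalIntegrable_iff_integrableOn_Ioc_of_le ht.1.le).2
        ((hD.int y).mono_set (Ioc_subset_Ioc_right ht.2))
    have i2 : IntervalIntegrable (fun s => D s y) volume t 1 :=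
      (intervalIntegrable_iff_integrableOn_Ioc_of_le ht.2).2
        ((hD.int y).mono_set (Ioc_subset_Ioc_left ht.1.le))
    have e1 := intervalIntegral.integral_eq_sub_of_hasDerivAt (f := fun s => Φ s y)
      (f' := fun s => D s y) (a := t) (b := 1) (fun s hs => by
        rw [uIcc_of_le ht.2] at hs
        rw [eΦ, eD]
        exact hasDerivAt_sum (f := fun n t => f n t y) (g := fun n t => g n t y)
          (hd y hy s (ht.1.trans_le hs.1)) m) i2
    have e2 := intervalIntegral.norm_integral_le_of_norm_le_const (f := fun s => D s y) (a := 0)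
      (b := t) (C := C) fun s hs => by
        rw [uIoc_of_le ht.1.le] at hs
        exact hC s ⟨hs.1, hs.2.trans ht.2⟩ y hy
    rw [sub_zero, abs_of_pos ht.1] at e2
    rw [← intervalIntegral.integral_of_le zero_le_one,
      ← intervalIntegral.integral_add_adjacent_intervals i1 i2, e1]
    refine (congrArg abs ?_).trans_le e2
    ring
  have t1 : Tendsto (fun t => ∫ y, φ y * Φ t y) (𝓝[>] 0) (𝓝 (a 0)) := by
    have t0 : Tendsto (fun t : ℝ => ∑ n ∈ Finset.range (m + 1),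
        t ^ n / n.factorial * ∫ y, φ y * f n t y) (𝓝[>] 0)
        (𝓝 (∑ n ∈ Finset.range (m + 1), (0 : ℝ) ^ n / n.factorial * a n)) :=
      tendsto_finsetSum _ fun n _ => ((((continuous_pow n).tendsto 0).mono_left
        nhdsWithin_le_nhds).div_const _).mul (ha n)
    rw [Finset.sum_range_succ'] at t0
    simp only [zero_pow (Nat.succ_ne_zero _), zero_div, zero_mul, Finset.sum_const_zero, pow_zero,
      Nat.factorial_zero, Nat.cast_one, div_one, one_mul, zero_add] at t0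
    refine t0.congr' (eventually_mem_nhdsWithin.mono fun t ht => ?_)
    simp only [eΦ, Finset.mul_sum, mul_left_comm (φ _)]
    rw [integral_finsetSum _ fun n _ => (hi (hs n t ht).continuous).const_mul _]
    simp only [integral_const_mul]
  refine tendsto_nhds_unique t1 (tendsto_iff_norm_sub_tendsto_zero.2 (squeeze_zero'
    (g := fun t => ∫ y, |φ y| * (C * t)) (Eventually.of_forall fun _ => norm_nonneg _) ?_ ?_))
  · filter_upwards [Ioc_mem_nhdsGT one_pos] with t ht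
    rw [← integral_sub (hi (hΦ t ht.1).continuous) (hi hv.continuous)]
    refine norm_integral_le_of_norm_le
      ((hφ.integrable_of_hasCompactSupport hc).abs.mul_const _) (Eventually.of_forall fun y => ?_)
    by_cases hy : y ∈ S
    · rw [← mul_sub, Real.norm_eq_abs, abs_mul]
      exact mul_le_mul_of_nonneg_left (key t ht y hy) (abs_nonneg _)
    · simp [image_eq_zero_of_notMem_tsupport fun e => hy (hφS e)]
  · simp only [integral_mul_const]
    have : Continuous fun t : ℝ => (∫ y, |φ y|) * (C * t) := by fun_prop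
    simpa using (this.tendsto 0).mono_left nhdsWithin_le_nhds

theorem contDiff_det : ContDiff ℝ ∞ fun A : E4 →L[ℝ] E4 => A.det := by
  have e : (fun A : E4 →L[ℝ] E4 => A.det) = fun A => ∑ σ : Equiv.Perm (Fin 4),
      ((Equiv.Perm.sign σ : ℤ) : ℝ) * ∏ i, A (EuclideanSpace.basisFun (Fin 4) ℝ i) (σ i) := by
    funext A
    rw [ContinuousLinearMap.det, ← LinearMap.det_toMatrix
      (EuclideanSpace.basisFun (Fin 4) ℝ).toBasis, Matrix.det_apply']
    simp [LinearMap.toMatrix_apply]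
  rw [e]
  refine ContDiff.sum fun σ _ => contDiff_const.mul (contDiff_prod fun i _ => ?_)
  exact ((EuclideanSpace.proj (σ i)).comp (ContinuousLinearMap.apply ℝ E4
    (EuclideanSpace.basisFun (Fin 4) ℝ i))).contDiff

theorem det_ne {A : E4 →L[ℝ] ℍ} {e : ℍ →L[ℝ] E4} (H : ∀ v, e (A v) = v) :
    ((qv.toContinuousLinearEquiv : ℍ →L[ℝ] E4).comp A).det ≠ 0 := by
  rw [ContinuousLinearMap.det, Ne, LinearMap.det_eq_zero_iff_ker_ne_bot, not_not,
    LinearMap.ker_eq_bot]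
  intro v v' e'
  have e2 : A v = A v' := qv.injective e'
  rw [← H v, ← H v', e2]

/-- pairing with a section and a fixed vector -/
def pr (w a : W) : (W →L[ℝ] W) →L[ℝ] ℝ := (innerSL ℝ a).comp (ContinuousLinearMap.apply ℝ W w)

theorem pr_apply (w a : W) (A : W →L[ℝ] W) : pr w a A = ⟪a, A w⟫ := rfl

theorem integrable_pr (w : W) {u : E4 → W} (hu : Integrable u) : Integrable fun x => pr w (u x) :=
  ((ContinuousLinearMap.compL ℝ (W →L[ℝ] W) W ℝ).flip
    (ContinuousLinearMap.apply ℝ W w)).integrable_comp ((innerSL ℝ).integrable_comp hu)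

theorem int_cut {K T : Set E4} (hK : K ⊆ T) (u : E4 → W) {G : E4 → W} (hG : ∀ x ∉ K, G x = 0) :
    ∫ x in T, ⟪u x, G x⟫ = ∫ x, ⟪K.indicator u x, G x⟫ := by
  rw [setIntegral_eq_integral_of_forall_compl_eq_zero fun x hx => by
    rw [hG x fun e => hx (hK e), inner_zero_right]]
  congr 1
  funext x
  by_cases hx : x ∈ K
  · rw [indicator_of_mem hx]
  · rw [hG x hx, inner_zero_right, inner_zero_right]

end Rl

open Rl in
theorem rl (h1 : LpStmt) (h2 : SmiStmt) (h3 : Ai2Stmt) : RlStmt := by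
  intro L T hL y₀ hy₀ u hu hw
  obtain ⟨r, hr, hT, θ', hθ, eθ, hk⟩ := h1 L T hL y₀ hy₀ univ univ_mem
  rw [inter_univ] at hT
  have hK := isCompact_closedBall y₀ (2 * r)
  have hS := isCompact_closedBall y₀ r
  have hSK : closedBall y₀ r ⊆ closedBall y₀ (2 * r) := closedBall_subset_closedBall (by linarith)
  obtain ⟨û, eu⟩ : ∃ û : ℕ → E4 → W, û = fun n => (closedBall y₀ (2 * r)).indicator (u n) :=
    ⟨_, rfl⟩
  have iu : ∀ n, Integrable (û n) := fun n => by
    rw [eu]; exact (hu n _ hT hK).integrable_indicator measurableSet_closedBall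
  have u0 : ∀ n, ∀ x ∉ closedBall y₀ (2 * r), û n x = 0 := fun n x hx => by
    rw [eu]; exact indicator_of_notMem hx _
  have hz : ContDiff ℝ ∞ fun p : E4 × E4 => θ' p.1 (p.2 - p.1) :=
    (hθ.comp contDiff_fst).clm_apply (contDiff_snd.sub contDiff_fst)
  have he : ∀ y ∈ closedBall y₀ r, ∀ v, L.e y (θ' y v) = v := fun y hy v => by
    rw [eθ y (hSK hy)]; exact hL.frm.eθ y (hT (hSK hy)) v
  obtain ⟨C, hC⟩ := hS.exists_bound_of_continuousOn
    (hL.frm.es.continuousOn.mono (hSK.trans hT))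
  have hC0 : 0 ≤ C := (norm_nonneg _).trans (hC y₀ (mem_closedBall_self hr.le))
  have hlow : ∀ y ∈ closedBall y₀ r, ∀ v, (C + 1)⁻¹ * ‖v‖ ≤ ‖θ' y v‖ := fun y hy v => by
    have := (L.e y).le_of_opNorm_le (hC y hy) (θ' y v)
    rw [he y hy] at this
    rw [inv_mul_le_iff₀ (by positivity)]
    nlinarith [norm_nonneg (θ' y v)]
  have hdet : ContDiff ℝ ∞ fun y => ((qv.toContinuousLinearEquiv : ℍ →L[ℝ] E4).comp (θ' y)).det :=
    contDiff_det.comp (contDiff_const.clm_comp hθ)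
  have hj : Continuous fun y => jac (θ' y) := hdet.continuous.abs
  have hj' : ContDiffOn ℝ ∞ (fun y => jac (θ' y)) (ball y₀ r) :=
    hdet.contDiffOn.abs fun y hy => det_ne (he y (ball_subset_closedBall hy))
  have A : ∀ (w : W) (l : ℕ), ∃ v : E4 → ℝ, ContDiffOn ℝ l v (ball y₀ r) ∧
      ∀ᵐ y, y ∈ ball y₀ r → ⟪û 0 y, w⟫ = v y := fun w l => by
    obtain ⟨k, ρ, hp⟩ := hk (l + 4)
    have kW : Wt (fun p : E4 × E4 => θ' p.1 (p.2 - p.1)) 0 k :=
      ((hp.kW.mono zero_le_one).add (wt_hk_const 1)).congr fun t _ p => (sub_add_cancel _ _).symm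
    have p0 : ∀ n, ∀ x ∉ closedBall y₀ (2 * r), pr w (û n x) = 0 := fun n x hx => by
      ext A; simp [pr_apply, u0 n x hx]
    have sk := fun n => h2 E4 _ ℝ _ _ _ _ _ hz kW (integrable_pr w (iu n)) hK (p0 n)
    obtain ⟨v, hv, hlim⟩ := core (l := l) (m := l + 2)
      (f := fun n t y => ∫ x, pr w (û n x) (k t (y, x)))
      (g := fun n t y => ∫ x, pr w (û n x) (ρ t (y, x))) hS (fun y hy s hs n => by
        refine ((sk n).2.2.1 s hs y).congr_deriv ?_
        have k0 : ∀ t, ∀ x ∉ closedBall y₀ (2 * r), k t (y, x) w = 0 := fun t x hx => by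
          rw [(hp.sup y hy t x hx).1]; rfl
        have sp : tsupport (fun x => k s (y, x) w) ⊆ closedBall y₀ (2 * r) :=
          closure_minimal (fun x hx => by_contra fun e => hx (k0 s x e)) isClosed_closedBall
        have e1 := hw n (fun x => k s (y, x) w)
          (((kW.smooth hz hs).comp (contDiff_const.prodMk contDiff_id)).clm_apply contDiff_const)
          (hK.of_isClosed_subset (isClosed_tsupport _) sp) (sp.trans hT)
        rw [int_cut hT _ (k0 s), int_cut hT _ fun x hx => by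
          have := hp.eq y hy s hs x w
          simpa [fun t => (hp.sup y hy t x hx).1, (hp.sup y hy s x hx).2] using this] at e1
        have i1 := (h2 E4 _ ℝ _ _ _ _ _ hz kW.dt (integrable_pr w (iu n)) hK (p0 n)).1 s hs y
        have i2 := (h2 E4 _ ℝ _ _ _ _ _ hz hp.ρW (integrable_pr w (iu n)) hK (p0 n)).1 s hs y
        rw [eq_sub_iff_add_eq, add_comm, ← eq_sub_iff_add_eq, ← integral_sub i2 i1]
        simp only [pr_apply, eu, ← e1, ← hp.eq y hy s hs, inner_add_right, add_sub_cancel_left])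
      (fun n => good_of h2 hz hp.ρW (integrable_pr w (iu n)) hK (p0 n) n (by omega))
      (good_of h2 hz kW (integrable_pr w (iu _)) hK (p0 _) _ (by push_cast; omega))
      fun n t ht => (sk n).2.1 t ht
    refine ⟨fun y => jac (θ' y) * v y, (hj'.of_le (by exact_mod_cast le_top)).mul hv.contDiffOn, ?_⟩
    have i0 : Integrable fun y => ⟪û 0 y, w⟫ := by
      simpa only [innerSL_apply_apply, real_inner_comm] using (innerSL ℝ w).integrable_comp (iu 0)
    refine (isOpen_ball.ae_eq_zero_of_integral_contDiff_smul_eq_zero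
      (f := fun y => ⟪û 0 y, w⟫ - jac (θ' y) * v y) ((i0.locallyIntegrable.sub
        (hj.mul hv.continuous).locallyIntegrable).locallyIntegrableOn _) fun g g1 g2 g3 => ?_).mono
      fun y hy e => sub_eq_zero.1 (hy e)
    have gc := g1.continuous
    have s1 : tsupport (fun y => g y * jac (θ' y)) ⊆ ball y₀ r := tsupport_mul_subset_left.trans g3
    have e2 := hlim (fun y => g y * jac (θ' y)) _ (gc.mul hj) (s1.trans ball_subset_closedBall)
      fun n => by
        have := h3 θ' _ _ _ k (û n) (fun y => (g y * jac (θ' y)) • w) hθ hS hK (by positivity) hlow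
          hp.kW (iu n) (u0 n) ((gc.mul hj).smul continuous_const)
          ((tsupport_smul_subset_left _ _).trans (s1.trans ball_subset_interior_closedBall))
        simpa only [map_smul, inner_smul_right, integral_const_mul, pr_apply] using this
    obtain ⟨B, hB⟩ := gc.bounded_above_of_compact_support g2
    simp only [smul_eq_mul, mul_sub, ← mul_assoc]
    have i3 : Integrable fun y => g y * jac (θ' y) * v y :=
      ((gc.mul hj).mul hv.continuous).integrable_of_hasCompactSupport g2.mul_right.mul_right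
    rw [integral_sub (i0.bdd_mul gc.aestronglyMeasurable (Eventually.of_forall hB)) i3,
      ← e2, sub_eq_zero]
    congr 1
    funext y
    by_cases hy : y ∈ ball y₀ r
    · have : jac (θ' y) ≠ 0 := abs_ne_zero.2 (det_ne (he y (ball_subset_closedBall hy)))
      field_simp
    · simp [image_eq_zero_of_notMem_tsupport fun e => hy (g3 e)]
  choose v hv ev using A
  have B : ∀ w, ContDiffOn ℝ ∞ (v w 0) (ball y₀ r) := fun w => contDiffOn_infty.2 fun l =>
    (hv w l).congr (Measure.eqOn_open_of_ae_eq (μ := volume)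
      ((ae_restrict_iff' measurableSet_ball).2 (by
        filter_upwards [ev w 0, ev w l] with y e1 e2 hy
        rw [← e1 hy, e2 hy])) isOpen_ball (hv w 0).continuousOn (hv w l).continuousOn)
  obtain ⟨b, -⟩ : ∃ b : OrthonormalBasis (Fin (Module.finrank ℝ W)) ℝ W, True :=
    ⟨stdOrthonormalBasis ℝ W, trivial⟩
  refine ⟨r, hr, fun y => ∑ i, v (b i) 0 y • b i,
    ContDiffOn.sum fun i _ => (B _).smul contDiffOn_const, ?_⟩
  filter_upwards [ae_all_iff.2 fun i => ev (b i) 0] with y e hy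
  rw [← b.sum_repr' (u 0 y)]
  refine Finset.sum_congr rfl fun i _ => ?_
  rw [← e i hy, real_inner_comm, eu]
  simp only [indicator_of_mem (hSK (ball_subset_closedBall hy))]

end Pool.Agent.MP_e1dc65_gt.A

end
end MrgPart2

-- ======== part 3: formerly Pool.Agent.MP_e1dc65_gt.a.Smi
section MrgPart3

/-! PROJECT HC, part A, row SMI: parametric integrals of kernels. -/

set_option maxSynthPendingDepth 3

open scoped Quaternion ContDiff Topology RealInnerProductSpace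
open Set Filter MeasureTheory Metric

noncomputable section

namespace Pool.Agent.MP_e1dc65_gt.A

namespace Smi

variable {Y : Type} [NormedAddCommGroup Y] [NormedSpace ℝ Y]

section One
variable {B C : Type} [NormedAddCommGroup B] [NormedSpace ℝ B] [NormedAddCommGroup C]
  [NormedSpace ℝ C] {u : E4 → B →L[ℝ] C} {K : Set E4}

theorem meas (hu : Integrable u) {h : E4 → B} (hh : Continuous h) :
    AEStronglyMeasurable (fun x => u x (h x)) volume :=
  (isBoundedBilinearMap_apply (𝕜 := ℝ) (E := B) (F := C)).continuous.comp_aestronglyMeasurable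
    (hu.1.prodMk hh.aestronglyMeasurable)

theorem bd (h0 : ∀ x ∉ K, u x = 0) {h : E4 → B} {M : ℝ} (hM : ∀ x ∈ K, ‖h x‖ ≤ M) (x : E4) :
    ‖u x (h x)‖ ≤ ‖u x‖ * M := by
  by_cases hx : x ∈ K
  · exact ((u x).le_opNorm _).trans (mul_le_mul_of_nonneg_left (hM x hx) (norm_nonneg _))
  · simp [h0 x hx]

theorem integ (hu : Integrable u) (hK : IsCompact K) (h0 : ∀ x ∉ K, u x = 0) {h : E4 → B}
    (hh : Continuous h) : Integrable fun x => u x (h x) := by
  obtain ⟨M, hM⟩ := hK.exists_bound_of_continuousOn hh.continuousOn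
  exact Integrable.mono' (hu.norm.mul_const M) (meas hu hh) (ae_of_all _ (bd h0 hM))

theorem nbd (hu : Integrable u) (h0 : ∀ x ∉ K, u x = 0) {h : E4 → B} {M : ℝ}
    (hM : ∀ x ∈ K, ‖h x‖ ≤ M) : ‖∫ x, u x (h x)‖ ≤ ∫ x, ‖u x‖ * M :=
  norm_integral_le_of_norm_le (hu.norm.mul_const M) (ae_of_all _ (bd h0 hM))

/-- restriction of a derivative to the parameter directions -/
def rs (Y B : Type) [NormedAddCommGroup Y] [NormedSpace ℝ Y] [NormedAddCommGroup B]
    [NormedSpace ℝ B] : (Y × E4 →L[ℝ] B) →L[ℝ] Y →L[ℝ] B :=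
  (ContinuousLinearMap.compL ℝ Y (Y × E4) B).flip (ContinuousLinearMap.inl ℝ Y E4)

/-- the coefficient of the differentiated integral -/
def up (Y : Type) [NormedAddCommGroup Y] [NormedSpace ℝ Y] (u : E4 → B →L[ℝ] C) (x : E4) :
    (Y →L[ℝ] B) →L[ℝ] Y →L[ℝ] C := ContinuousLinearMap.compL ℝ Y B C (u x)

theorem up_int (hu : Integrable u) : Integrable (up Y u) :=
  (ContinuousLinearMap.compL ℝ Y B C).integrable_comp hu

theorem up_zero (h0 : ∀ x ∉ K, u x = 0) : ∀ x ∉ K, up Y u x = 0 := fun x hx => by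
  simp [up, h0 x hx]

theorem cont_pt {H : Y × E4 → B} (hH : Continuous H) (y : Y) : Continuous fun x => H (y, x) :=
  hH.comp (continuous_const.prodMk continuous_id)

theorem hasF_pt {H : Y × E4 → B} (hH : ContDiff ℝ ∞ H) (v : B →L[ℝ] C) (x : E4) (y : Y) :
    HasFDerivAt (fun y => v (H (y, x)))
      (ContinuousLinearMap.compL ℝ Y B C v (rs Y B (fderiv ℝ H (y, x)))) y := by
  have h1 : HasFDerivAt H (fderiv ℝ H (y, x)) (y, x) :=
    (hH.differentiable (by simp) (y, x)).hasFDerivAt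
  have h2 : HasFDerivAt (fun y : Y => (y, x)) (ContinuousLinearMap.inl ℝ Y E4) y :=
    hasFDerivAt_prodMk_left y x
  exact v.hasFDerivAt.comp y (h1.comp y h2)

theorem smooth_rs {H : Y × E4 → B} (hH : ContDiff ℝ ∞ H) :
    ContDiff ℝ ∞ fun p => rs Y B (fderiv ℝ H p) :=
  (rs Y B).contDiff.comp (hH.fderiv_right (m := ∞) (by simp))

variable [FiniteDimensional ℝ Y]

theorem cont (hu : Integrable u) (hK : IsCompact K) (h0 : ∀ x ∉ K, u x = 0) {H : Y × E4 → B}
    (hH : Continuous H) : Continuous fun y => ∫ x, u x (H (y, x)) := by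
  haveI : ProperSpace Y := FiniteDimensional.proper_real Y
  refine continuous_iff_continuousAt.2 fun y => ?_
  obtain ⟨M, hM⟩ := ((isCompact_closedBall y 1).prod hK).exists_bound_of_continuousOn
    hH.continuousOn
  refine continuousAt_of_dominated (bound := fun x => ‖u x‖ * M)
    (Eventually.of_forall fun y' => meas hu (cont_pt hH y')) ?_ (hu.norm.mul_const M)
    (ae_of_all _ fun x => ?_)
  · filter_upwards [closedBall_mem_nhds y one_pos] with y' hy'
    exact ae_of_all _ (bd h0 fun x hx => hM (y', x) ⟨hy', hx⟩)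
  · exact ((u x).continuous.comp (hH.comp (continuous_id.prodMk continuous_const))).continuousAt

theorem hasF (hu : Integrable u) (hK : IsCompact K) (h0 : ∀ x ∉ K, u x = 0) {H : Y × E4 → B}
    (hH : ContDiff ℝ ∞ H) (y : Y) : HasFDerivAt (fun y => ∫ x, u x (H (y, x)))
      (∫ x, up Y u x (rs Y B (fderiv ℝ H (y, x)))) y := by
  haveI : ProperSpace Y := FiniteDimensional.proper_real Y
  have hc := (smooth_rs hH).continuous
  obtain ⟨M, hM⟩ := ((isCompact_closedBall y 1).prod hK).exists_bound_of_continuousOn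
    hc.continuousOn
  refine hasFDerivAt_integral_of_dominated_of_fderiv_le (s := closedBall y 1)
    (F := fun y x => u x (H (y, x))) (F' := fun y x => up Y u x (rs Y B (fderiv ℝ H (y, x))))
    (bound := fun x => ‖up Y u x‖ * M) (closedBall_mem_nhds y one_pos)
    (Eventually.of_forall fun y' => meas hu (cont_pt hH.continuous y'))
    (integ hu hK h0 (cont_pt hH.continuous y)) (meas (up_int hu) (cont_pt hc y))
    (ae_of_all _ fun x y' hy' => ?_) ((up_int hu).norm.mul_const M)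
    (ae_of_all _ fun x y' _ => hasF_pt hH (u x) x y')
  exact bd (up_zero h0) (h := fun x => rs Y B (fderiv ℝ H (y', x)))
    (fun x hx => hM (y', x) ⟨hy', hx⟩) x

end One

theorem cd [FiniteDimensional ℝ Y] {K : Set E4} (hK : IsCompact K) (n : ℕ) :
    ∀ (B C : Type) [NormedAddCommGroup B] [NormedSpace ℝ B] [NormedAddCommGroup C]
      [NormedSpace ℝ C] (u : E4 → B →L[ℝ] C) (H : Y × E4 → B), Integrable u →
      (∀ x ∉ K, u x = 0) → ContDiff ℝ ∞ H → ContDiff ℝ n fun y => ∫ x, u x (H (y, x)) := by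
  induction n with
  | zero =>
    intro B C _ _ _ _ u H hu h0 hH
    exact contDiff_zero.2 (cont hu hK h0 hH.continuous)
  | succ n ih =>
    intro B C _ _ _ _ u H hu h0 hH
    have : ((n + 1 : ℕ) : WithTop ℕ∞) = (n : WithTop ℕ∞) + 1 := by push_cast; rfl
    rw [this, contDiff_succ_iff_hasFDerivAt]
    exact ⟨_, ih _ _ (up Y u) (fun p => rs Y B (fderiv ℝ H p)) (up_int hu) (up_zero h0)
      (smooth_rs hH), hasF hu hK h0 hH⟩

section Two
variable {B C : Type} [NormedAddCommGroup B] [NormedSpace ℝ B] [NormedAddCommGroup C]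
  [NormedSpace ℝ C] {u : E4 → B →L[ℝ] C} {K : Set E4} {z : Y × E4 → ℍ} {μ : ℤ}
  {F : ℝ → Y × E4 → B}

theorem hasD (hz : ContDiff ℝ ∞ z) (hF : Wt z μ F) (hu : Integrable u) (hK : IsCompact K)
    (h0 : ∀ x ∉ K, u x = 0) {t : ℝ} (ht : 0 < t) (y : Y) :
    HasDerivAt (fun s => ∫ x, u x (F s (y, x))) (∫ x, u x (deriv (fun s => F s (y, x)) t)) t := by
  have hj := (hF.dt.joint hz).continuousOn
  have hc : IsCompact (Icc (t / 2) (2 * t) ×ˢ (({y} : Set Y) ×ˢ K)) :=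
    isCompact_Icc.prod (isCompact_singleton.prod hK)
  obtain ⟨M, hM⟩ := hc.exists_bound_of_continuousOn (hj.mono fun q hq =>
    ⟨lt_of_lt_of_le (half_pos ht) hq.1.1, mem_univ _⟩)
  have hn : Icc (t / 2) (2 * t) ∈ 𝓝 t := Icc_mem_nhds (by linarith) (by linarith)
  refine (hasDerivAt_integral_of_dominated_loc_of_deriv_le (s := Icc (t / 2) (2 * t))
    (F := fun s x => u x (F s (y, x))) (F' := fun s x => u x (deriv (fun s => F s (y, x)) s))
    (bound := fun x => ‖u x‖ * M) hn ?_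
    (integ hu hK h0 (cont_pt (hF.smooth hz ht).continuous y))
    (meas hu (cont_pt (H := fun p => deriv (fun s => F s p) t)
      (hF.dt.smooth hz ht).continuous y))
    (ae_of_all _ fun x s hs => ?_) (hu.norm.mul_const M) (ae_of_all _ fun x s hs => ?_)).2
  · filter_upwards [Ioi_mem_nhds ht] with s hs
    exact meas hu (cont_pt (hF.smooth hz hs).continuous y)
  · exact bd h0 (h := fun x => deriv (fun s => F s (y, x)) s)
      (fun x hx => hM (s, (y, x)) ⟨hs, rfl, hx⟩) x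
  · exact (u x).hasFDerivAt.comp_hasDerivAt s
      (hF.hasDerivAt (lt_of_lt_of_le (half_pos ht) hs.1) (y, x))

theorem contOn (hz : ContDiff ℝ ∞ z) (hF : Wt z μ F) (hu : Integrable u) (hK : IsCompact K)
    (h0 : ∀ x ∉ K, u x = 0) (y : Y) :
    ContinuousOn (fun s => ∫ x, u x (F s (y, x))) (Ioi 0) := fun _ ht =>
  (hasD hz hF hu hK h0 ht y).continuousAt.continuousWithinAt

theorem measT (hz : ContDiff ℝ ∞ z) (hF : Wt z μ F) (hu : Integrable u) (hK : IsCompact K)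
    (h0 : ∀ x ∉ K, u x = 0) (y : Y) (T : ℝ) :
    AEStronglyMeasurable (fun s => ∫ x, u x (F s (y, x))) (volume.restrict (Ioc 0 T)) :=
  ((contOn hz hF hu hK h0 y).mono Ioc_subset_Ioi_self).aestronglyMeasurable measurableSet_Ioc

theorem bdT [FiniteDimensional ℝ Y] (hz : ContDiff ℝ ∞ z) (hF : Wt z μ F) (hμ : 4 ≤ μ)
    (hu : Integrable u) (hK : IsCompact K) (h0 : ∀ x ∉ K, u x = 0) (y : Y) :
    ∃ N, ∀ y' ∈ closedBall y 1, ∀ s ∈ Ioc (0 : ℝ) 1, ‖∫ x, u x (F s (y', x))‖ ≤ N := by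
  haveI : ProperSpace Y := FiniteDimensional.proper_real Y
  obtain ⟨M, hM0, hM⟩ := hF.bound' hz ((isCompact_closedBall y 1).prod hK)
  refine ⟨∫ x, ‖u x‖ * M, fun y' hy' s hs => nbd hu h0 fun x hx => ?_⟩
  refine (hM s hs (y', x) ⟨hy', hx⟩).trans (mul_le_of_le_one_right hM0 ?_)
  exact zpow_le_one₀ (Real.sqrt_pos.2 hs.1) (Real.sqrt_le_one.2 hs.2) (by omega)

end Two

theorem cdT [FiniteDimensional ℝ Y] {K : Set E4} (hK : IsCompact K) {z : Y × E4 → ℍ}
    (hz : ContDiff ℝ ∞ z) {T : ℝ} (hT : T ∈ Ioc (0 : ℝ) 1) (l : ℕ) :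
    ∀ (B C : Type) [NormedAddCommGroup B] [NormedSpace ℝ B] [NormedAddCommGroup C]
      [NormedSpace ℝ C] (μ : ℤ) (F : ℝ → Y × E4 → B) (u : E4 → B →L[ℝ] C), Wt z μ F →
      Integrable u → (∀ x ∉ K, u x = 0) → (l : ℤ) + 4 ≤ μ →
      ContDiff ℝ l fun y => ∫ s in Ioc 0 T, ∫ x, u x (F s (y, x)) := by
  have hsub : ∀ᵐ s ∂(volume.restrict (Ioc (0 : ℝ) T)), s ∈ Ioc (0 : ℝ) 1 :=
    (ae_restrict_mem measurableSet_Ioc).mono fun s hs => ⟨hs.1, hs.2.trans hT.2⟩
  have hc : ∀ N : ℝ, Integrable (fun _ : ℝ => N) (volume.restrict (Ioc (0 : ℝ) T)) := fun N =>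
    integrable_const N
  induction l with
  | zero =>
    intro B C _ _ _ _ μ F u hF hu h0 hμ
    refine contDiff_zero.2 (continuous_iff_continuousAt.2 fun y => ?_)
    obtain ⟨N, hN⟩ := bdT hz hF (by omega) hu hK h0 y
    refine continuousAt_of_dominated (bound := fun _ => N)
      (Eventually.of_forall fun y' => measT hz hF hu hK h0 y' T) ?_ (hc N) ?_
    · filter_upwards [closedBall_mem_nhds y one_pos] with y' hy'
      exact hsub.mono fun s hs => hN y' hy' s hs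
    · exact hsub.mono fun s hs => (cont hu hK h0 (hF.smooth hz hs.1).continuous).continuousAt
  | succ l ih =>
    intro B C _ _ _ _ μ F u hF hu h0 hμ
    have : ((l + 1 : ℕ) : WithTop ℕ∞) = (l : WithTop ℕ∞) + 1 := by push_cast; rfl
    rw [this, contDiff_succ_iff_hasFDerivAt]
    have hF' : Wt z (μ - 1) fun t p => rs Y B (fderiv ℝ (F t) p) := (hF.fd hz).clm (rs Y B)
    refine ⟨_, ih _ _ (μ - 1) (fun t p => rs Y B (fderiv ℝ (F t) p)) (up Y u) hF' (up_int hu)
      (up_zero h0) (by push_cast at hμ; omega), fun y => ?_⟩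
    obtain ⟨N, hN⟩ := bdT hz hF (by push_cast at hμ; omega) hu hK h0 y
    obtain ⟨N', hN'⟩ := bdT hz hF' (by push_cast at hμ; omega) (up_int hu) hK (up_zero h0) y
    refine hasFDerivAt_integral_of_dominated_of_fderiv_le (s := closedBall y 1)
      (F := fun y s => ∫ x, u x (F s (y, x)))
      (F' := fun y s => ∫ x, up Y u x (rs Y B (fderiv ℝ (F s) (y, x))))
      (bound := fun _ => N') (closedBall_mem_nhds y one_pos)
      (Eventually.of_forall fun y' => measT hz hF hu hK h0 y' T) ?_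
      (measT hz hF' (up_int hu) hK (up_zero h0) y T)
      (hsub.mono fun s hs y' hy' => hN' y' hy' s hs) (hc N')
      (hsub.mono fun s hs y' _ => hasF hu hK h0 (hF.smooth hz hs.1) y')
    exact Integrable.mono' (hc N) (measT hz hF hu hK h0 y T)
      (hsub.mono fun s hs => hN y (mem_closedBall_self zero_le_one) s hs)

end Smi

theorem smi : SmiStmt := by
  intro Y B C _ _ _ _ _ _ _ _ z μ F u K hz hF hu hK h0
  refine ⟨fun t ht y => Smi.integ hu hK h0 (Smi.cont_pt (hF.smooth hz ht).continuous y),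
    fun t ht => contDiff_infty.2 fun n => Smi.cd hK n B C u (F t) hu h0 (hF.smooth hz ht),
    fun t ht y => Smi.hasD hz hF hu hK h0 ht y, fun y => Smi.contOn hz hF hu hK h0 y,
    fun l hl T hT => Smi.cdT hK hz hT l B C μ F u hF hu h0 hl⟩

end Pool.Agent.MP_e1dc65_gt.A

end
end MrgPart3

-- ======== part 4: formerly Pool.Agent.MP_e1dc65_gt.a.Spl
section MrgPart4

/-! PROJECT HC, part A, row SPL: the two twisted bundles split into forms. -/

set_option maxSynthPendingDepth 3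

open scoped Quaternion ContDiff Topology RealInnerProductSpace
open Set Filter MeasureTheory Metric

noncomputable section

namespace Pool.Agent.MP_e1dc65_gt.A

namespace Spl

theorem conj_re {p : ℍ} (h : ‖p‖ = 1) (a : ℍ) : (p * a * star p).re = a.re := by
  have h1 : (p * a * star p).re = (star p * p * a).re := by simp; ring
  rw [h1, star_mul_unit h, one_mul]

theorem conj_coe {p : ℍ} (h : ‖p‖ = 1) (t : ℝ) : p * (t : ℍ) * star p = t := by
  rw [← Quaternion.coe_commutes, mul_assoc, mul_star_unit h, mul_one]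

theorem conj_im {p : ℍ} (h : ‖p‖ = 1) (a : ℍ) : p * a.im * star p = (p * a * star p).im := by
  rw [← Quaternion.sub_re_self, ← Quaternion.sub_re_self, conj_re h, mul_sub, sub_mul, conj_coe h]

/-- the real part as a linear map -/
def reL : ℍ →L[ℝ] ℝ := LinearMap.toContinuousLinearMap
  { toFun := fun a => a.re, map_add' := fun a b => by simp, map_smul' := fun c a => by simp }

/-- the imaginary part as a linear map -/
def imL : ℍ →L[ℝ] ℍ := LinearMap.toContinuousLinearMap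
  { toFun := fun a => a.im, map_add' := fun a b => by simp, map_smul' := fun c a => by simp }

/-- real scalars in the first and in the second half -/
def i1 : ℝ →L[ℝ] W := LinearMap.toContinuousLinearMap
  { toFun := fun t => wk (t : ℍ) 0
    map_add' := fun a b => W_ext (by simp) (by simp)
    map_smul' := fun c a => W_ext (by simp [Quaternion.coe_mul_eq_smul]) (by simp) }

def i2 : ℝ →L[ℝ] W := LinearMap.toContinuousLinearMap
  { toFun := fun t => wk 0 (t : ℍ)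
    map_add' := fun a b => W_ext (by simp) (by simp)
    map_smul' := fun c a => W_ext (by simp) (by simp [Quaternion.coe_mul_eq_smul]) }

/-- `(a, b) ↦ (0, a*)` -/
def sw : W →L[ℝ] W := blk 0 0 starL' 0

theorem sw_apply (s : W) : sw s = wk 0 (star s.fst) := by simp [sw, blk_apply, starL'_apply]

theorem fd_clm {A B : Type} [NormedAddCommGroup A] [NormedSpace ℝ A] [NormedAddCommGroup B]
    [NormedSpace ℝ B] (L : A →L[ℝ] B) {f : E4 → A} {y : E4} (h : DifferentiableAt ℝ f y) (v : E4) :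
    fderiv ℝ (fun y => L (f y)) y v = L (fderiv ℝ f y v) := by
  have := (L.hasFDerivAt.comp y h.hasFDerivAt).fderiv
  exact congrArg (fun T => T v) this

theorem fd_zero {B : Type} [NormedAddCommGroup B] [NormedSpace ℝ B] (L : W →L[ℝ] B) {s : E4 → W}
    (h : ∀ y, L (s y) = 0) (y v : E4) : L (fderiv ℝ s y v) = 0 := by
  by_cases hs : DifferentiableAt ℝ s y
  · rw [← fd_clm L hs]
    simp [h]
  · simp [fderiv_zero_of_not_differentiableAt hs]

theorem dir_fst (R : Loc) (κ : Tw) (s : E4 → W) (y : E4) : (R.dir κ s y).fst =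
    ∑ a, ε a * ((fderiv ℝ s y (fr R.e a y)).snd +
      (R.β y (fr R.e a y) * (s y).snd - (s y).snd * R.γ κ y (fr R.e a y))) := by
  simp [Loc.dir, cov, Loc.om, con_apply, cl_apply, lie_apply, Fin.sum_univ_four]

theorem dir_snd (R : Loc) (κ : Tw) (s : E4 → W) (y : E4) : (R.dir κ s y).snd =
    ∑ a, -(star (ε a) * ((fderiv ℝ s y (fr R.e a y)).fst +
      (R.α y (fr R.e a y) * (s y).fst - (s y).fst * R.γ κ y (fr R.e a y)))) := by
  simp [Loc.dir, cov, Loc.om, con_apply, cl_apply, lie_apply, Fin.sum_univ_four]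
  abel

theorem dir_congr (R : Loc) (κ : Tw) {s s' : E4 → W} {y : E4} (h : s =ᶠ[𝓝 y] s') :
    R.dir κ s y = R.dir κ s' y := by
  simp only [Loc.dir, cov, h.fderiv_eq, h.eq_of_nhds]

theorem fst0 (R : Loc) (κ : Tw) {s : E4 → W} (h : ∀ y, (s y).snd = 0) (y : E4) :
    (R.dir κ s y).fst = 0 := by
  have h1 : ∀ v, (fderiv ℝ s y v).snd = 0 := fd_zero (WithLp.sndL 2 ℝ ℍ ℍ) h y
  simp [dir_fst, h, h1]

theorem snd0 (R : Loc) (κ : Tw) {s : E4 → W} (h : ∀ y, (s y).fst = 0) (y : E4) :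
    (R.dir κ s y).snd = 0 := by
  have h1 : ∀ v, (fderiv ℝ s y v).fst = 0 := fd_zero (WithLp.fstL 2 ℝ ℍ ℍ) h y
  simp [dir_snd, h, h1]

/-- the gradient in a chart -/
theorem grad (R : Loc) {f : E4 → ℝ} {y : E4} (h : DifferentiableAt ℝ f y) :
    R.dir .l (fun y => i1 (f y)) y = wk 0 (-star (R.dir .r (fun y => i2 (f y)) y).fst) := by
  refine W_ext (fst0 R _ (fun _ => rfl) y) ?_
  rw [dir_snd, dir_fst, wk_snd, star_sum, ← Finset.sum_neg_distrib]
  refine Finset.sum_congr rfl fun a _ => ?_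
  rw [fd_clm i1 h, fd_clm i2 h]
  change -(star (ε a) * (((fderiv ℝ f y (fr R.e a y) : ℝ) : ℍ) +
      (R.α y (fr R.e a y) * ((f y : ℝ) : ℍ) - ((f y : ℝ) : ℍ) * R.α y (fr R.e a y)))) =
    -star (ε a * (((fderiv ℝ f y (fr R.e a y) : ℝ) : ℍ) +
      (R.β y (fr R.e a y) * ((f y : ℝ) : ℍ) - ((f y : ℝ) : ℍ) * R.β y (fr R.e a y))))
  rw [Quaternion.coe_commutes, Quaternion.coe_commutes, sub_self, sub_self, add_zero, star_mul,
    Quaternion.star_coe, Quaternion.coe_commutes]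

/-- the divergence in a chart -/
theorem dvg (R : Loc) {s : E4 → W} {y : E4} (h : DifferentiableAt ℝ s y)
    (ha : ∀ v, (R.α y v).re = 0) (hb : ∀ v, (R.β y v).re = 0) :
    (R.dir .r s y).snd.re = -(R.dir .l (fun y => sw (s y)) y).fst.re := by
  rw [dir_snd, dir_fst]
  simp only [fd_clm sw h]
  simp only [sw_apply, wk_snd, Loc.γ, Tw.sel, Fin.sum_univ_four]
  simp [ha, hb]
  ring

section
variable {X : Sp} (G : Geo X)

theorem unit (hG : G.Ok0) {i : Fin G.n} {y : E4} (hy : y ∈ G.T i) :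
    ‖G.p i (G.c ((G.ch i).symm y)) ((G.ch i).symm y)‖ = 1 ∧
      ‖G.q i (G.c ((G.ch i).symm y)) ((G.ch i).symm y)‖ = 1 :=
  ⟨hG.p1 _ _ _ ⟨(G.ch i).map_target hy, hG.mem _⟩, hG.q1 _ _ _ ⟨(G.ch i).map_target hy, hG.mem _⟩⟩

theorem lc_l (i : Fin G.n) (s : X → W) (y : E4) : G.lc .l i s y =
    wk (G.p i (G.c ((G.ch i).symm y)) ((G.ch i).symm y) * (s ((G.ch i).symm y)).fst *
      star (G.p i (G.c ((G.ch i).symm y)) ((G.ch i).symm y)))
    (G.q i (G.c ((G.ch i).symm y)) ((G.ch i).symm y) * (s ((G.ch i).symm y)).snd *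
      star (G.p i (G.c ((G.ch i).symm y)) ((G.ch i).symm y))) := act_apply _ _ _ _

theorem lc_r (i : Fin G.n) (s : X → W) (y : E4) : G.lc .r i s y =
    wk (G.p i (G.c ((G.ch i).symm y)) ((G.ch i).symm y) * (s ((G.ch i).symm y)).fst *
      star (G.q i (G.c ((G.ch i).symm y)) ((G.ch i).symm y)))
    (G.q i (G.c ((G.ch i).symm y)) ((G.ch i).symm y) * (s ((G.ch i).symm y)).snd *
      star (G.q i (G.c ((G.ch i).symm y)) ((G.ch i).symm y))) := act_apply _ _ _ _

/-- smoothness of a section whose local form is a smooth function of a smooth function -/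
theorem mem_of {κ : Tw} {s : X → W} (u : Fin G.n → E4 → W)
    (hu : ∀ i, ∀ y ∈ G.T i, ContDiffAt ℝ ∞ (u i) y) (h : ∀ i, ∀ y ∈ G.T i, G.lc κ i s y = u i y) :
    s ∈ G.Sec κ := fun i =>
  ContDiffOn.congr (fun y hy => (hu i y hy).contDiffWithinAt) (h i)

theorem at_of {κ : Tw} {s : X → W} (hs : s ∈ G.Sec κ) (i : Fin G.n) {y : E4} (hy : y ∈ G.T i) :
    ContDiffAt ℝ ∞ (G.lc κ i s) y :=
  (hs i).contDiffAt ((G.ch i).open_target.mem_nhds hy)

theorem lc_sw (i : Fin G.n) (s : X → W) :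
    G.lc .l i (fun x => wk 0 (star (s x).fst)) = fun y => sw (G.lc .r i s y) := by
  funext y
  rw [sw_apply, lc_l, lc_r]
  simp [mul_assoc]

theorem v1_snd {s : X → W} (hs : s ∈ G.Sec .l) : G.V1 fun x => star (s x).snd :=
  mem_of G (fun i y => wk (star (G.lc .l i s y).snd) 0)
    (fun i y hy => cda_wk (cda_star (cda_snd (at_of G hs i hy))) contDiffAt_const)
    fun i y _ => by rw [lc_l, lc_r]; simp [mul_assoc]

end

end Spl

set_option linter.unusedVariables false in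
open Spl in
theorem spl (h1 : CocStmt) (h2 : SecStmt) : SplStmt := by
  intro X G hG
  have hG0 := hG.toOk0
  have hx : ∀ x, G.ch (G.c x) x ∈ G.T (G.c x) := fun x => (G.ch (G.c x)).map_source (hG0.mem x)
  refine ⟨fun v => ⟨fun hv => ?_, fun hv => ?_⟩, fun f hf => ?_, fun s hs => ⟨?_, ⟨?_, ?_⟩, ?_⟩,
    fun s hs => ⟨?_, ?_, ?_, ?_⟩, fun v hv x => ?_, fun κ a x => ?_, fun κ a x => ?_⟩
  · exact mem_of G (fun i y => sw (G.lc .r i (fun x => wk (v x) 0) y))
      (fun i y hy => cda_clm sw (at_of G hv i hy))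
      fun i y _ => congrFun (lc_sw G i fun x => wk (v x) 0) y
  · simpa using v1_snd G hv
  · have hs : ∀ i, ∀ y ∈ G.T i, ContDiffAt ℝ ∞ (fun y => f ((G.ch i).symm y)) y := fun i y hy =>
      (hf i).contDiffAt ((G.ch i).open_target.mem_nhds hy)
    have e1 : ∀ i, ∀ y ∈ G.T i, G.lc .l i (fun x => wk (f x : ℍ) 0) y = i1 (f ((G.ch i).symm y)) :=
      fun i y hy => by
        rw [lc_l, wk_fst, wk_snd, conj_coe (unit G hG0 hy).1, mul_zero, zero_mul]; rfl
    have e2 : ∀ i, ∀ y ∈ G.T i, G.lc .r i (fun x => wk 0 (f x : ℍ)) y = i2 (f ((G.ch i).symm y)) :=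
      fun i y hy => by
        rw [lc_r, wk_fst, wk_snd, conj_coe (unit G hG0 hy).2, mul_zero, zero_mul]; rfl
    refine ⟨mem_of G _ (fun i y hy => cda_clm i1 (hs i y hy)) e1,
      mem_of G _ (fun i y hy => cda_clm i2 (hs i y hy)) e2, fun x => ?_⟩
    have hn := (G.ch (G.c x)).open_target.mem_nhds (hx x)
    rw [Geo.gr, Geo.dir, Geo.dir, dir_congr _ _ (eventually_of_mem hn (e1 _)),
      dir_congr _ _ (eventually_of_mem hn (e2 _))]
    exact grad _ ((hs _ _ (hx x)).differentiableAt (by simp))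
  · exact fun i => ContDiffOn.congr
      (fun y hy => (cda_clm reL (cda_fst (at_of G hs i hy))).contDiffWithinAt)
      fun y hy => by rw [lc_l, wk_fst]; exact (conj_re (unit G hG0 hy).1 _).symm
  · exact fun x => by simp
  · exact mem_of G (fun i y => wk (imL (G.lc .l i s y).fst) 0)
      (fun i y hy => cda_wk (cda_clm imL (cda_fst (at_of G hs i hy))) contDiffAt_const)
      fun i y hy => by
        rw [lc_l, lc_l, wk_fst, wk_snd, wk_fst, conj_im (unit G hG0 hy).1, mul_zero, zero_mul]; rfl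
  · exact v1_snd G hs
  · exact mem_of G (fun i y => wk (G.lc .r i s y).fst 0)
      (fun i y hy => cda_wk (cda_fst (at_of G hs i hy)) contDiffAt_const)
      fun i y _ => by rw [lc_r, lc_r]; simp
  · exact fun i => ContDiffOn.congr
      (fun y hy => (cda_clm reL (cda_snd (at_of G hs i hy))).contDiffWithinAt)
      fun y hy => by rw [lc_r, wk_snd]; exact (conj_re (unit G hG0 hy).2 _).symm
  · exact fun x => by simp
  · exact mem_of G (fun i y => wk 0 (imL (G.lc .r i s y).snd))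
      (fun i y hy => cda_wk contDiffAt_const (cda_clm imL (cda_snd (at_of G hs i hy))))
      fun i y hy => by
        rw [lc_r, lc_r, wk_fst, wk_snd, wk_snd, conj_im (unit G hG0 hy).2, mul_zero, zero_mul]; rfl
  · have hl := (hG0.loc (G.c x)).lc _ (hx x)
    have e := lc_sw G (G.c x) fun x => wk (v x) 0
    simp only [wk_fst] at e
    rw [Geo.dir, Geo.dir, e]
    exact dvg _ ((at_of G hv _ (hx x)).differentiableAt (by simp)) hl.ima hl.imb
  · exact fst0 _ _ (fun y => by simp [Geo.lc, Geo.g, tact, act_apply]) _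
  · exact snd0 _ _ (fun y => by simp [Geo.lc, Geo.g, tact, act_apply]) _

end Pool.Agent.MP_e1dc65_gt.A

end
end MrgPart4

-- ======== part 5: formerly Pool.Agent.MP_e1dc65_gt.a.Sym
section MrgPart5

/-! PROJECT HC, part A: the Dirac operator is formally symmetric. -/

set_option maxSynthPendingDepth 3

open scoped Quaternion ContDiff Topology RealInnerProductSpace
open Set Filter MeasureTheory Metric

noncomputable section

namespace Pool.Agent.MP_e1dc65_gt.A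

namespace SymR

/-- derivative of the determinant at the identity -/
theorem det_one {E : Type} [NormedAddCommGroup E] [NormedSpace ℝ E]
    {N : E → Matrix (Fin 4) (Fin 4) ℝ} {N' : Fin 4 → Fin 4 → E →L[ℝ] ℝ} {x : E}
    (h : ∀ a b, HasFDerivAt (fun y => N y a b) (N' a b) x) (h1 : N x = 1) :
    HasFDerivAt (fun y => (N y).det) (∑ a, N' a a) x := by
  simp only [Matrix.det_apply']
  have h2 : ∀ σ ∈ (Finset.univ : Finset (Equiv.Perm (Fin 4))), HasFDerivAt
      (fun y => ((Equiv.Perm.sign σ : ℤ) : ℝ) * ∏ i, N y (σ i) i)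
      (if σ = 1 then ∑ a, N' a a else 0) x := fun σ _ => by
    refine ((HasFDerivAt.finsetProd (u := Finset.univ) fun i _ => h (σ i) i).const_mul
      ((Equiv.Perm.sign σ : ℤ) : ℝ)).congr_fderiv ?_
    split_ifs with hσ
    · subst hσ
      simp [h1]
    · rw [Finset.sum_eq_zero, smul_zero]
      intro i _
      have : ∃ j, j ≠ i ∧ σ j ≠ j := by
        by_contra hc
        push Not at hc
        refine hσ (Equiv.ext fun j => ?_)
        by_cases hj : j = i
        · subst hj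
          by_contra h3
          exact h3 (σ.injective (hc _ h3))
        · exact hc j hj
      obtain ⟨j, j1, j2⟩ := this
      rw [Finset.prod_eq_zero (Finset.mem_erase.2 ⟨j1, Finset.mem_univ j⟩), zero_smul]
      rw [h1, Matrix.one_apply_ne j2]
  simpa using HasFDerivAt.fun_sum h2

/-- the signed volume factor -/
def dt (A : E4 →L[ℝ] ℍ) : ℝ := ((qv.toContinuousLinearEquiv : ℍ →L[ℝ] E4).comp A).det

theorem dt_eq (A A0 : E4 →L[ℝ] ℍ) (e0 : ℍ →L[ℝ] E4) (h : ∀ v, e0 (A0 v) = v) :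
    dt A = (Matrix.of fun a b => co a (A (e0 (ε b)))).det * dt A0 := by
  have h1 : (Matrix.of fun a b => co a (A (e0 (ε b)))) =
      LinearMap.toMatrix ε.toBasis ε.toBasis (A.comp e0).toLinearMap := by
    ext a b
    simp [LinearMap.toMatrix_apply, co, OrthonormalBasis.repr_apply_apply]
  rw [h1, LinearMap.det_toMatrix, ← LinearMap.det_conj _ qv.toLinearEquiv]
  unfold dt ContinuousLinearMap.det
  rw [← LinearMap.det_comp]
  congr 1
  ext1 v
  simp [h]

theorem dt_ne {A0 : E4 →L[ℝ] ℍ} {e0 : ℍ →L[ℝ] E4} (h : ∀ v, e0 (A0 v) = v) : dt A0 ≠ 0 := by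
  have h1 := dt_eq (qv.symm.toContinuousLinearEquiv : E4 →L[ℝ] ℍ) A0 e0 h
  have h2 : dt (qv.symm.toContinuousLinearEquiv : E4 →L[ℝ] ℍ) = 1 := by
    unfold dt ContinuousLinearMap.det
    rw [← LinearMap.det_id (M := E4) (A := ℝ)]
    congr 1
    ext1 v
    simp
  intro h0
  rw [h0, h2] at h1
  simp at h1

variable {θ : E4 → E4 →L[ℝ] ℍ} {e : E4 → ℍ →L[ℝ] E4} {T : Set E4} {x : E4}

theorem jac_cd (F : Frm θ e T) (hx : x ∈ T) : ContDiffAt ℝ ∞ (fun y => jac (θ y)) x := by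
  have h0 := F.θs.contDiffAt (F.op.mem_nhds hx)
  have h1 : ContDiffAt ℝ ∞ (fun y => dt (θ y)) x := by
    rw [funext fun y => dt_eq (θ y) (θ x) (e x) (F.eθ x hx)]
    simp only [Matrix.det_apply', Matrix.of_apply]
    refine ContDiffAt.mul (ContDiffAt.sum fun σ _ => contDiffAt_const.mul
      (contDiffAt_prod fun i _ => cda_clm _ (h0.clm_apply contDiffAt_const))) contDiffAt_const
  exact h1.abs (dt_ne (F.eθ x hx))

theorem jac_fd (F : Frm θ e T) (hx : x ∈ T) (u : E4) :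
    fderiv ℝ (fun y => jac (θ y)) x u = jac (θ x) * ∑ a, co a (fderiv ℝ θ x u (e x (ε a))) := by
  have h0 := ((F.θs.contDiffAt (F.op.mem_nhds hx)).differentiableAt (by simp)).hasFDerivAt
  have h1 := (det_one (N := fun y => Matrix.of fun a b => co a (θ y (e x (ε b)))) (x := x)
    (fun a b => (co a).hasFDerivAt.comp x (h0.clm_apply (hasFDerivAt_const (e x (ε b)) x)))
    (by ext a b; simp [F.θe x hx, co, Matrix.one_apply, orthonormal_iff_ite.1 ε.orthonormal])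
    ).mul_const (dt (θ x))
  simp only [← fun y => dt_eq (θ y) (θ x) (e x) (F.eθ x hx)] at h1
  have h2 := (h1.abs (dt_ne (F.eθ x hx))).fderiv
  have h3 : fderiv ℝ (fun y => jac (θ y)) x = _ := h2
  have h4 : jac (θ x) = (SignType.sign (dt (θ x)) : ℝ) * dt (θ x) := (sign_mul_self _).symm
  rw [h3, h4, mul_assoc]
  simp

/-- the divergence -/
def dv (X : E4 → E4) (x : E4) : ℝ := ∑ i, fderiv ℝ X x (EuclideanSpace.basisFun (Fin 4) ℝ i) i

theorem dv_int {X : E4 → E4} (h : ContDiff ℝ 1 X) (hc : HasCompactSupport X) :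
    Integrable (dv X) ∧ ∫ x, dv X x = 0 := by
  have h1 : ∀ i : Fin 4,
      Integrable (fun x => fderiv ℝ X x (EuclideanSpace.basisFun (Fin 4) ℝ i) i) ∧
      ∫ x, fderiv ℝ X x (EuclideanSpace.basisFun (Fin 4) ℝ i) i = 0 := fun i => by
    set v := EuclideanSpace.basisFun (Fin 4) ℝ i
    set g : E4 → ℝ := fun x => EuclideanSpace.proj (𝕜 := ℝ) i (X x) with hg
    have g1 : ContDiff ℝ 1 g := (EuclideanSpace.proj (𝕜 := ℝ) i).contDiff.comp h
    have g2 : HasCompactSupport g := hc.comp_left (g := fun w => EuclideanSpace.proj (𝕜 := ℝ) i w) (by simp)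
    have g3 : ∀ x, fderiv ℝ X x v i = fderiv ℝ g x v := fun x => by
      have : fderiv ℝ g x = _ := ((EuclideanSpace.proj (𝕜 := ℝ) i).hasFDerivAt.comp x
        (h.differentiable one_ne_zero x).hasFDerivAt).fderiv
      rw [this]
      rfl
    have g4 : Integrable fun x => fderiv ℝ g x v :=
      ((g1.continuous_fderiv one_ne_zero).clm_apply continuous_const).integrable_of_hasCompactSupport
        (g2.fderiv_apply ℝ v)
    simp only [g3]
    refine ⟨g4, ?_⟩
    have := integral_mul_fderiv_eq_neg_fderiv_mul_of_integrable (μ := volume) (f := fun _ : E4 => (1 : ℝ))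
      (g := g) (v := v) (by simp) (by simpa using g4)
      (by simpa using g1.continuous.integrable_of_hasCompactSupport g2) (fun _ _ => differentiableAt_const _)
      fun x _ => g1.differentiable one_ne_zero x
    simpa using this
  refine ⟨integrable_finsetSum _ fun i _ => (h1 i).1, ?_⟩
  unfold dv
  rw [integral_finsetSum _ fun i _ => (h1 i).1]
  exact Finset.sum_eq_zero fun i _ => (h1 i).2

theorem tr_eq (L : E4 →L[ℝ] E4) {A : E4 →L[ℝ] ℍ} {B : ℍ →L[ℝ] E4} (h : ∀ v, B (A v) = v) :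
    ∑ i, L (EuclideanSpace.basisFun (Fin 4) ℝ i) i = ∑ a, co a (A (L (B (ε a)))) := by
  have h1 := LinearMap.trace_comp_comm' B.toLinearMap (A.comp L).toLinearMap
  rw [LinearMap.trace_eq_sum_inner _ ε,
    LinearMap.trace_eq_sum_inner _ (EuclideanSpace.basisFun (Fin 4) ℝ)] at h1
  simpa [co, h, EuclideanSpace.inner_single_left] using h1.symm

theorem fr_cd (F : Frm θ e T) (hx : x ∈ T) (b : Fin 4) : ContDiffAt ℝ ∞ (fr e b) x :=
  (F.es.contDiffAt (F.op.mem_nhds hx)).clm_apply contDiffAt_const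

theorem fr_fd (F : Frm θ e T) (hx : x ∈ T) (b : Fin 4) (v : E4) :
    θ x (fderiv ℝ (fr e b) x v) = -fderiv ℝ θ x v (fr e b x) := by
  have h0 := ((F.θs.contDiffAt (F.op.mem_nhds hx)).differentiableAt (by simp)).hasFDerivAt
  have h1 := h0.clm_apply ((fr_cd F hx b).differentiableAt (by simp)).hasFDerivAt
  have h2 : (fun y => θ y (fr e b y)) =ᶠ[𝓝 x] fun _ => ε b := by
    filter_upwards [F.op.mem_nhds hx] with y hy using F.θe y hy _
  have h3 := DFunLike.congr_fun (h1.unique ((hasFDerivAt_const (ε b) x).congr_of_eventuallyEq h2)) v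
  simpa [add_eq_zero_iff_eq_neg] using h3

theorem skew {a b : ℍ} (ha : a.re = 0) (hb : b.re = 0) (u v : ℍ) :
    ⟪u, a * v - v * b⟫ = -⟪v, a * u - u * b⟫ := by
  simp [inner_H, ha, hb]; ring

/-- the vector field whose divergence is the defect of symmetry -/
def vf (R : Loc) (φ ψ : E4 → W) (y : E4) : E4 :=
  ∑ b, (jac (R.θ y) * ⟪φ y, cl (ε b) (ψ y)⟫) • fr R.e b y

theorem vf_cd {R : Loc} {φ ψ : E4 → W} (h : R.Ok T) (hx : x ∈ T) (h1 : ContDiffAt ℝ ∞ φ x)
    (h2 : ContDiffAt ℝ ∞ ψ x) : ContDiffAt ℝ ∞ (vf R φ ψ) x :=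
  ContDiffAt.sum fun b _ => ((jac_cd h.frm hx).mul (h1.inner ℝ (cda_clm _ h2))).smul (fr_cd h.frm hx b)

theorem tor {R : Loc} (h : R.Ok T) (hx : x ∈ T) (b : Fin 4) :
    ∑ a, co a (fderiv ℝ R.θ x (fr R.e b x) (fr R.e a x)) -
      ∑ a, co a (fderiv ℝ R.θ x (fr R.e a x) (fr R.e b x)) =
    -co b (∑ a, (R.α x (fr R.e a x) * ε a - ε a * R.β x (fr R.e a x))) := by
  have L := h.lc x hx
  rw [map_sum, ← Finset.sum_sub_distrib, ← Finset.sum_neg_distrib]
  refine Finset.sum_congr rfl fun a _ => ?_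
  have h1 := congrArg (co a) (L.tf (fr R.e b x) (fr R.e a x))
  have h2 : ∀ c, R.θ x (fr R.e c x) = ε c := fun c => h.frm.θe x hx _
  have h3 := skew (L.ima (fr R.e b x)) (L.imb (fr R.e b x)) (ε a) (ε a)
  have h4 := skew (L.ima (fr R.e a x)) (L.imb (fr R.e a x)) (ε a) (ε b)
  rw [h2, h2, map_sub, map_add, map_sub, map_zero] at h1
  simp only [co, innerSL_apply_apply] at h1 ⊢
  linarith

theorem point {R : Loc} {φ ψ : E4 → W} (κ : Tw) (h : R.Ok T) (hx : x ∈ T)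
    (h1 : DifferentiableAt ℝ φ x) (h2 : DifferentiableAt ℝ ψ x) :
    jac (R.θ x) * ⟪R.dir κ φ x, ψ x⟫ = jac (R.θ x) * ⟪φ x, R.dir κ ψ x⟫ - dv (vf R φ ψ) x := by
  have L := h.lc x hx
  have hj := ((jac_cd h.frm hx).differentiableAt (by simp)).hasFDerivAt
  have hf : ∀ b, HasFDerivAt (fun y => ⟪φ y, cl (ε b) (ψ y)⟫) _ x := fun b =>
    h1.hasFDerivAt.inner ℝ ((cl (ε b)).hasFDerivAt.comp x h2.hasFDerivAt)
  have hX : fderiv ℝ (vf R φ ψ) x = _ := (HasFDerivAt.fun_sum (u := Finset.univ) fun b _ =>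
    (hj.mul (hf b)).smul ((fr_cd h.frm hx b).differentiableAt (by simp)).hasFDerivAt).fderiv
  have hθ : ∀ c, R.θ x (fr R.e c x) = ε c := fun c => h.frm.θe x hx _
  have hγ : ∀ v, (R.γ κ x v).re = 0 := fun v => by
    cases κ
    exacts [rfl, L.ima v, L.imb v]
  have hd : dv (vf R φ ψ) x = jac (R.θ x) * ∑ b, (⟪φ x, cl (ε b) (fderiv ℝ ψ x (fr R.e b x))⟫ +
      ⟪fderiv ℝ φ x (fr R.e b x), cl (ε b) (ψ x)⟫ - co b (∑ a, (R.α x (fr R.e a x) * ε a -
        ε a * R.β x (fr R.e a x))) * ⟪φ x, cl (ε b) (ψ x)⟫) := by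
    rw [dv, tr_eq _ (h.frm.eθ x hx), hX]
    simp only [sum_apply, map_sum (R.θ x), map_sum (co _)]
    rw [Finset.sum_comm, Finset.mul_sum]
    refine Finset.sum_congr rfl fun b _ => ?_
    have t := tor h hx b
    have o : ∀ a, co a (ε b) = if a = b then 1 else 0 := fun a =>
      orthonormal_iff_ite.1 ε.orthonormal a b
    rw [map_sum (co b)] at t
    rw [sub_eq_add_neg, ← neg_mul, ← t]
    simp [fr_fd h.frm hx, hθ, o, jac_fd h.frm hx, Finset.sum_add_distrib, ← Finset.mul_sum,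
      -WithLp.prod_inner_apply]
    simp only [fr]
    ring
  have hc : ∀ v : ℍ, ∑ b, co b v * ⟪φ x, cl (ε b) (ψ x)⟫ = ⟪φ x, cl v (ψ x)⟫ := fun v => by
    conv_rhs => rw [← sum_co' v, ← clL_apply, map_sum, sum_apply, inner_sum]
    simp [clL_apply, inner_smul_right, -WithLp.prod_inner_apply]
  rw [hd, ← mul_sub, Finset.sum_sub_distrib, hc, ← clL_apply, map_sum, sum_apply, inner_sum,
    Loc.dir, Loc.dir, sum_inner, inner_sum, ← Finset.sum_sub_distrib, ← Finset.sum_sub_distrib]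
  refine congrArg _ (Finset.sum_congr rfl fun a _ => ?_)
  rw [clL_apply, ← lie_cl (L.ima _) (L.imb _) (R.γ κ x (fr R.e a x)), cl_inner]
  simp only [cov, Loc.om, con_apply, inner_add_left, inner_add_right, map_add, sub_apply,
    mul_apply_eq_comp, inner_sub_right, lie_inner (L.ima _) (L.imb _) (hγ _)]
  ring

end SymR

open SymR in
theorem symS : SymStmt := by
  intro R T κ h
  refine ⟨fun x hx => (jac_cd h.frm hx).contDiffWithinAt,
    fun x hx => abs_pos.2 (dt_ne (h.frm.eθ x hx)), fun φ ψ h1 h2 h3 h4 => ?_⟩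
  have z : ∀ x ∉ tsupport ψ, vf R φ ψ =ᶠ[𝓝 x] fun _ => 0 := fun x hx => by
    filter_upwards [notMem_tsupport_iff_eventuallyEq.1 hx] with y hy
    simp [vf, show ψ y = 0 from hy]
  have c1 : ContDiff ℝ 1 (vf R φ ψ) := contDiff_iff_contDiffAt.2 fun x => by
    by_cases hx : x ∈ tsupport ψ
    · exact (vf_cd h (h4 hx) (h1.contDiffAt (h.frm.op.mem_nhds (h4 hx))) h2.contDiffAt).of_le
        (by simp)
    · exact contDiffAt_const.congr_of_eventuallyEq (z x hx)
  obtain ⟨i1, i2⟩ := dv_int c1 (HasCompactSupport.intro h3 fun x hx => (z x hx).eq_of_nhds)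
  have i3 : ∫ x in T, dv (vf R φ ψ) x = 0 := by
    rw [setIntegral_eq_integral_of_forall_compl_eq_zero, i2]
    intro x hx
    simp [dv, (z x fun h => hx (h4 h)).fderiv_eq]
  rw [setIntegral_congr_fun h.frm.op.measurableSet fun x hx => point κ h hx
    ((h1.contDiffAt (h.frm.op.mem_nhds hx)).differentiableAt (by simp))
    (h2.differentiable (by simp) x)]
  by_cases hG : IntegrableOn (fun x => jac (R.θ x) * ⟪φ x, R.dir κ ψ x⟫) T
  · rw [integral_sub hG i1.integrableOn, i3, sub_zero]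
  · rw [integral_undef hG, integral_undef]
    exact fun h5 => hG ((h5.add i1.integrableOn).congr (.of_forall fun x => sub_add_cancel _ _))

end Pool.Agent.MP_e1dc65_gt.A

end
end MrgPart5

-- ======== part 6: formerly Pool.Agent.MP_e1dc65_gt.o.Dbl3
section MrgPart6

/-! PROJECT HC, part O, row DBL3: the spin structure of the double and its involution. -/

open scoped ContDiff Manifold Topology Quaternion Matrix
open Set Filter Function Module Pool.Agent.MP_c8d41b_gt.GF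

noncomputable section

namespace Pool.Agent.MP_e1dc65_gt.O

namespace Dbl3P

variable {C : SpinCover} {X Y : Mf E4}

/-- an involution that permutes the charts -/
theorem invol_of {o : Y → Lam E4} {s : Y → Y} {S : Finset Y} (sp : Spin C Y.cyl univ)
    (w : sp.ι → sp.ι) (hs : ∀ y, LDAt Y Y s y) (hss : ∀ y, s (s y) = y) (hw : ∀ a, w (w a) = a)
    (hW : ∀ a y, (y, 0) ∈ sp.W a → (s y, 0) ∈ sp.W (w a))
    (hΘ : ∀ a y, (y, 0) ∈ sp.W a → (sp.Θ (w a) (s y, 0)).comp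
      ((Df Y Y s y).prodMap (ContinuousLinearMap.id ℝ ℝ)) = sp.Θ a (y, 0))
    (hg : ∀ a b y, (y, 0) ∈ sp.W a → (y, 0) ∈ sp.W b → sp.g (w a) (w b) (s y, 0) = sp.g a b (y, 0))
    (pos : ∀ i x, (x, 0) ∈ sp.W i → PosB (Pi.basisFun ℝ (Fin 5)) (oc (o x)) (sp.Θ i (x, 0)))
    (card : S.card = 8) (fix : ∀ x, s x = x ↔ x ∈ S)
    (lift : ∀ x, s x = x → ∃ i θ, (x, 0) ∈ sp.W i ∧ sp.Θ i (x, 0) = cf5 θ ∧
      sp.g i (w i) (x, 0) = C.j (1, -1)) :
    Invol C Y o s sp (fun a b x => sp.g b (w a) (s x, 0)) S where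
  sm y _ := (hs y).sm
  inv := hss
  pos := pos
  cont a b := (sp.cont b (w a)).comp
    (fun y _ => ((hs y).sm.cont.prodMk continuousAt_const).continuousWithinAt)
    fun y hy => ⟨hy.2, hW a y hy.1⟩
  proj a b x ha hb := by
    rw [sp.proj b (w a) _ ⟨hb, hW a x ha⟩, ← hΘ a x ha, tm_comp (inv_prodMap (hs x).inv id_inv).1]
  nat a b a' b' x ha hb ha' hb' := by
    rw [← hg a a' x ha ha', sp.g_mul hb (hW a x ha) (hW a' x ha'), sp.g_mul hb hb' (hW a' x ha')]
  sq a b x ha hb := by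
    have h1 := hW b _ hb
    rw [← hg b (w a) (s x) hb (hW a x ha), hw]
    rw [hss] at h1 ⊢
    rw [sp.g_mul ha h1 ha, sp.g_self ha]
  card := card
  fix := fix
  lift x hx := by
    obtain ⟨i, θ, h1, h2, h3⟩ := lift x ((fix x).2 hx)
    refine ⟨i, θ, 1, h1, (posB_cf5.1 (h2 ▸ pos i x h1)).inv, ?_, ?_⟩
    · rw [map_one, ← h2, tm_self (sp.inv h1)]
    · rw [(fix x).2 hx, h3, one_mul, inv_one, mul_one]

/-- the product of a map with the line -/
def cy (e : X → Y) (p : X.cyl) : Y.cyl := (e p.1, p.2)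

theorem oe_cy {e : X → Y} {H : Set X} (h : OE X Y e H) : OE X.cyl Y.cyl (cy e) (H ×ˢ univ) :=
  ⟨h.op.prod isOpen_univ, fun p hp => (h.ld p.1 hp.1).prodMap (ldAt_id (X := vs ℝ) (x := p.2)),
    fun _ hp _ hq e => Prod.ext (h.inj hp.1 hq.1 (congrArg Prod.fst e)) (Prod.mk.inj e).2⟩

theorem Df_cy {e : X → Y} {p : X.cyl} (h : SmAt X Y e p.1) :
    Df X.cyl Y.cyl (cy e) p = (Df X Y e p.1).prodMap (ContinuousLinearMap.id ℝ ℝ) := by
  have := Df_pair (X := X.cyl) (Y := Y) (Z := vs ℝ) (x := p) (smAt_fst.trans h) smAt_snd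
  rw [Df_comp smAt_fst h, Df_fst, Df_snd] at this
  exact this

variable {H : Set X} (sp : Spin C X.cyl (H ×ˢ univ)) {e e' : X → Y} {s : Y → Y}

theorem mem_W (he : OE X Y e H) {i : sp.ι} {y : Y} (h : (y, 0) ∈ (sp.push (oe_cy he)).W i) :
    ∃ x ∈ H, e x = y ∧ (x, 0) ∈ sp.W i := by
  rw [sp.push_W] at h
  obtain ⟨⟨x, t⟩, h1, h2⟩ := h
  obtain ⟨rfl, rfl⟩ : e x = y ∧ t = 0 := Prod.mk.inj h2
  exact ⟨x, (sp.sub i h1).1, rfl, h1⟩

theorem W_mem (he : OE X Y e H) {i : sp.ι} {x : X} {t : ℝ} (h : (x, t) ∈ sp.W i) :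
    (e x, t) ∈ (sp.push (oe_cy he)).W i := by
  rw [sp.push_W]
  exact ⟨(x, t), h, rfl⟩

theorem g_eq (he : OE X Y e H) (i j : sp.ι) {x : X} (hx : x ∈ H) (t : ℝ) :
    (sp.push (oe_cy he)).g i j (e x, t) = sp.g i j (x, t) := by
  have h := sp.push_g (oe_cy he) i j (x := (x, t)) ⟨hx, trivial⟩
  exact h

theorem Θ_eq (he : OE X Y e H) (i : sp.ι) {x : X} (hx : x ∈ H) (t : ℝ) :
    ((sp.push (oe_cy he)).Θ i (e x, t)).comp
      ((Df X Y e x).prodMap (ContinuousLinearMap.id ℝ ℝ)) = sp.Θ i (x, t) := by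
  rw [← Df_cy (p := (x, t)) (he.sm x hx)]
  exact sp.push_Θ (oe_cy he) i (x := (x, t)) ⟨hx, trivial⟩

theorem ld_s (he : OE X Y e H) (he' : OE X Y e' H) (hs : ∀ x ∈ H, s (e x) = e' x) {x : X}
    (hx : x ∈ H) : LDAt Y Y s (e x) :=
  (he.ld x hx).ld_of_comp ((he'.ld x hx).congr' (by
    filter_upwards [he.op.mem_nhds hx] with y hy using hs y hy))

theorem half_W (he : OE X Y e H) (he' : OE X Y e' H) (hs : ∀ x ∈ H, s (e x) = e' x) (i : sp.ι)
    (y : Y) (h : (y, 0) ∈ (sp.push (oe_cy he)).W i) : (s y, 0) ∈ (sp.push (oe_cy he')).W i := by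
  obtain ⟨x, hx, rfl, h1⟩ := mem_W sp he h
  rw [hs x hx]
  exact W_mem sp he' h1

theorem half_g (he : OE X Y e H) (he' : OE X Y e' H) (hs : ∀ x ∈ H, s (e x) = e' x) (i j : sp.ι)
    {k : sp.ι} {y : Y} (h : (y, 0) ∈ (sp.push (oe_cy he)).W k) :
    (sp.push (oe_cy he')).g i j (s y, 0) = (sp.push (oe_cy he)).g i j (y, 0) := by
  obtain ⟨x, hx, rfl, -⟩ := mem_W sp he h
  rw [hs x hx, g_eq sp he' i j hx, g_eq sp he i j hx]

theorem half_Θ (he : OE X Y e H) (he' : OE X Y e' H) (hs : ∀ x ∈ H, s (e x) = e' x) (i : sp.ι)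
    (y : Y) (h : (y, 0) ∈ (sp.push (oe_cy he)).W i) : ((sp.push (oe_cy he')).Θ i (s y, 0)).comp
      ((Df Y Y s y).prodMap (ContinuousLinearMap.id ℝ ℝ)) = (sp.push (oe_cy he)).Θ i (y, 0) := by
  obtain ⟨x, hx, rfl, -⟩ := mem_W sp he h
  have h1 : (Df Y Y s (e x)).comp (Df X Y e x) = Df X Y e' x := by
    rw [← Df_comp (he.sm x hx) (ld_s he he' hs hx).sm]
    exact Df_congr (by filter_upwards [he.op.mem_nhds hx] with y hy using hs y hy)
  refine ContinuousLinearMap.ext fun ⟨v, r⟩ => ?_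
  obtain ⟨u, rfl⟩ := (he.ld x hx).inv.surjective v
  have h2 := congrArg (fun L : E4 × ℝ →L[ℝ] Rn 5 => L (u, r)) (Θ_eq sp he i hx 0)
  have h3 := congrArg (fun L : E4 × ℝ →L[ℝ] Rn 5 => L (u, r)) (Θ_eq sp he' i hx 0)
  rw [← h1, ← hs x hx] at h3
  exact h3.trans h2.symm

theorem half_pos (he : OE X Y e H) {o : X → Lam E4} {o' : Y → Lam E4} (ho : Ori X 4 o univ)
    (ho' : Ori Y 4 o' univ) (hp : ∀ x ∈ H, 0 < cf (o x) (pbM X Y e o' x))
    (pos : sp.Pos fun p => oc (o p.1)) (i : sp.ι) (y : Y)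
    (h : (y, 0) ∈ (sp.push (oe_cy he)).W i) :
    PosB (Pi.basisFun ℝ (Fin 5)) (oc (o' y)) ((sp.push (oe_cy he)).Θ i (y, 0)) := by
  obtain ⟨x, hx, rfl, h1⟩ := mem_W sp he h
  rw [← posB_pull (inv_prodMap (he.ld x hx).inv id_inv).1, Θ_eq sp he i hx, mp_oc]
  have h2 : mp (Df X Y e x) (o' (e x)) = cf (o x) (pbM X Y e o' x) • o x :=
    eq_cf_smul ho.dim (ho.fm x trivial).2 (ho.ne x trivial) (dg_mp _ (ho'.fm _ trivial).2)
  rw [h2, oc_smul, posB_smul (hp x hx)]
  exact pos i _ h1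

theorem pol_sm : ContDiff ℝ ∞ pol := by
  unfold pol
  refine ContDiff.prodMk (contDiff_pi.2 fun i => ?_) (Complex.contDiff_exp.comp ?_)
  · fin_cases i
    · exact contDiff_apply ℝ ℝ 0
    · exact contDiff_apply ℝ ℝ 1
  · exact (Complex.ofRealCLM.contDiff.comp (contDiff_apply ℝ ℝ 3)).add
      ((Complex.ofRealCLM.contDiff.comp (contDiff_apply ℝ ℝ 2)).mul contDiff_const)

theorem norm_pol (z : Rn 4) : ‖(pol z).2‖ = Real.exp (z 3) := by
  simp [pol, Complex.norm_exp]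

theorem exp_lt {t : ℝ} (h : |t| < 1) : Real.exp t < 30 :=
  (Real.exp_lt_exp.2 (abs_lt.1 h).2).trans (Real.exp_one_lt_d9.trans (by norm_num))

variable {κ : Rn 2 × ℂ → X}

theorem sm_κ (hκ : Port X κ) {z : Rn 4} (hz : |z 3| < 1) :
    SmAt (vs (Rn 4)) X (fun z => κ (pol z)) z :=
  SmAt.trans (Y := vs (Rn 2 × ℂ)) (smAt_vs.2 pol_sm.contDiffAt)
    (hκ.ld _ _ (norm_pol z ▸ exp_lt hz)).sm

theorem mem_half (hκ : Port X κ) {z : Rn 4} (hz : |z 3| < 1) : κ (pol z) ∈ Half X κ := by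
  rintro ⟨⟨m, w⟩, ⟨-, hw⟩, h⟩
  have h1 : ‖w‖ ≤ Real.exp (-1) := hw
  have h2 : Real.exp (-1) < Real.exp (z 3) := Real.exp_lt_exp.2 (abs_lt.1 hz).1
  have h3 := ((hκ.eq m (pol z).1 w (pol z).2 (by linarith [exp_lt hz])
    (norm_pol z ▸ exp_lt hz)).1 h).2
  rw [h3, norm_pol] at h1
  linarith

/-- the quaternion with given coordinates -/
def qt (u : Rn 4) : ℍ := ⟨u 0, u 1, u 2, u 3⟩

theorem std5_eq (u : Rn 4) (t : ℝ) : std5 (u, t) = emb (qt u) t := rfl

theorem J_std (u : Rn 4) (t : ℝ) : C.π (C.j (1, -1)) *ᵥ std5 (u, t) = std5 (-u, t) := by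
  rw [std5_eq, C.j_π 1 (-1) norm_one (by simp), std5_eq]
  congr 1
  ext <;> simp [qt]

theorem J_inv : (C.j (1, -1))⁻¹ = C.j (1, -1) := inv_eq_of_mul_eq_one_right (by
  rw [← C.j_mul 1 (-1) 1 (-1) norm_one (by simp) norm_one (by simp)]
  simpa using C.j_one)

theorem main {o : X → Lam E4} {e₁ e₂ : X → Y} {o' : Y → Lam E4} {S : Finset Y} (hκ : Port X κ)
    (D : Dbl X κ o Y e₁ e₂ s o' S) (ho : Ori X 4 o univ) (sp : Spin C X.cyl (Half X κ ×ˢ univ))
    (i : sp.ι) (pos : sp.Pos fun p => oc (o p.1))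
    (hW : ∀ (z : Rn 4) (t : ℝ), |z 3| < 1 → (κ (pol z), t) ∈ sp.W i)
    (hstd : ∀ (z : Rn 4) (t : ℝ), |z 3| < 1 → (sp.Θ i (κ (pol z), t)).comp
      ((Df (vs (Rn 4)) X (fun z => κ (pol z)) z).prodMap (ContinuousLinearMap.id ℝ ℝ)) = std5) :
    ∃ (sp : Spin C Y.cyl univ) (G : sp.ι → sp.ι → Y → C.G), Invol C Y o' s sp G S := by
  have neg : ∀ {z : Rn 4}, |z 3| < 1 → |(-z) 3| < 1 := fun h => by rwa [Pi.neg_apply, abs_neg]
  have e12 : ∀ {z : Rn 4}, |z 3| < 1 → e₁ (κ (pol z)) = e₂ (κ (pol (-z))) := fun h =>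
    (D.eq _ (mem_half hκ h) _ (mem_half hκ (neg h))).2 ⟨_, h, rfl, rfl⟩
  have ov : ∀ y ∈ cy e₁ '' (Half X κ ×ˢ univ) ∩ cy e₂ '' (Half X κ ×ˢ univ),
      ∃ (z : Rn 4) (t : ℝ), |z 3| < 1 ∧ y = (e₁ (κ (pol z)), t) := by
    rintro _ ⟨⟨p, hp, rfl⟩, q, hq, h⟩
    obtain ⟨z, hz, h1, -⟩ := (D.eq _ hp.1 _ hq.1).1 (congrArg Prod.fst h).symm
    exact ⟨z, p.2, hz, by rw [← h1]; rfl⟩
  have val : ∀ {e : X → Y} (he : OE X Y e (Half X κ)) (z : Rn 4) (t : ℝ), |z 3| < 1 → ∀ u r,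
      (sp.push (oe_cy he)).Θ i (e (κ (pol z)), t)
        (Df (vs (Rn 4)) Y (fun z => e (κ (pol z))) z u, r) = std5 (u, r) :=
    fun he z t hz u r => by
      rw [Df_comp (sm_κ hκ hz) (he.sm _ (mem_half hκ hz)), ← hstd z t hz,
        ← Θ_eq sp he i (mem_half hκ hz) t]
      rfl
  have sur : ∀ (z : Rn 4) (t : ℝ), |z 3| < 1 → ∀ v : E4 × ℝ,
      ∃ u r, v = (Df (vs (Rn 4)) Y (fun z => e₁ (κ (pol z))) z u, r) := fun z t hz v => by
    obtain ⟨⟨u, r⟩, h⟩ := std5_inv.surjective ((sp.push (oe_cy D.o1)).Θ i (e₁ (κ (pol z)), t) v)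
    exact ⟨u, r, ((sp.push (oe_cy D.o1)).inv (W_mem sp D.o1 (hW z t hz))).injective
      (h.symm.trans (val D.o1 z t hz u r).symm)⟩
  have dneg : ∀ z : Rn 4, |z 3| < 1 → ∀ u, Df (vs (Rn 4)) Y (fun z => e₁ (κ (pol z))) z u =
      Df (vs (Rn 4)) Y (fun z => e₂ (κ (pol z))) (-z) (-u) := fun z hz u => by
    have h1 : (fun z => e₁ (κ (pol z))) =ᶠ[𝓝 z] fun z => e₂ (κ (pol (-z))) := by
      filter_upwards [(isOpen_lt (continuous_apply 3).abs continuous_const).mem_nhds hz] with y hy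
      exact e12 hy
    rw [Df_congr (X := vs (Rn 4)) h1, Df_comp (X := vs (Rn 4)) (Y := vs (Rn 4)) (f := fun z => -z)
      (g := fun z => e₂ (κ (pol z))) (smAt_vs.2 contDiff_neg.contDiffAt)
      ((sm_κ hκ (neg hz)).trans (D.o2.sm _ (mem_half hκ (neg hz)))), Df_vs,
      show fderiv ℝ (fun z : Rn 4 => -z) z = _ from (hasFDerivAt_id z).fun_neg.fderiv]
    rfl
  have cmp := cmp_of_chart (sp := sp.push (oe_cy D.o1)) (sp' := sp.push (oe_cy D.o2)) i i
    (fun y hy => by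
      obtain ⟨z, t, hz, rfl⟩ := ov y hy
      exact W_mem sp D.o1 (hW z t hz))
    (fun y hy => by
      obtain ⟨z, t, hz, rfl⟩ := ov y hy
      rw [e12 hz]
      exact W_mem sp D.o2 (hW _ t (neg hz)))
    (d := fun _ => C.j (1, -1)) continuousOn_const
    (fun y hy => by
      obtain ⟨z, t, hz, rfl⟩ := ov y hy
      refine (tm_eq ((sp.push (oe_cy D.o1)).inv (W_mem sp D.o1 (hW z t hz))) fun v => ?_).symm
      obtain ⟨u, r, rfl⟩ := sur z t hz v
      rw [val D.o1 z t hz, J_std, dneg z hz, e12 hz, val D.o2 _ t (neg hz)])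
  have cov : ∀ y, (∃ x ∈ Half X κ, e₁ x = y) ∨ ∃ x ∈ Half X κ, e₂ x = y := fun y =>
    (D.cov ▸ mem_univ y : y ∈ e₁ '' Half X κ ∪ e₂ '' Half X κ)
  have hT : cy e₁ '' (Half X κ ×ˢ univ) ∪ cy e₂ '' (Half X κ ×ˢ univ) = univ :=
    eq_univ_of_forall fun p => (cov p.1).imp
      (fun ⟨x, hx, h⟩ => ⟨(x, p.2), ⟨hx, trivial⟩, Prod.ext h rfl⟩)
      fun ⟨x, hx, h⟩ => ⟨(x, p.2), ⟨hx, trivial⟩, Prod.ext h rfl⟩
  have mix : ∀ a b y, (y, 0) ∈ (sp.push (oe_cy D.o2)).W a → (y, 0) ∈ (sp.push (oe_cy D.o1)).W b →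
      ((sp.push (oe_cy D.o2)).g b i (s y, 0) * C.j (1, -1) *
        (sp.push (oe_cy D.o1)).g i a (s y, 0))⁻¹ =
      (sp.push (oe_cy D.o2)).g a i (y, 0) * C.j (1, -1) * (sp.push (oe_cy D.o1)).g i b (y, 0) :=
    fun a b y ha hb => by
      obtain ⟨z, t, hz, h⟩ := ov _ ⟨(sp.push (oe_cy D.o1)).sub b hb, (sp.push (oe_cy D.o2)).sub a ha⟩
      have h1 : (y, 0) ∈ (sp.push (oe_cy D.o1)).W i := h ▸ W_mem sp D.o1 (hW z t hz)
      have h2 : (y, 0) ∈ (sp.push (oe_cy D.o2)).W i := by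
        rw [h, e12 hz]
        exact W_mem sp D.o2 (hW _ t (neg hz))
      rw [half_g sp D.o1 D.o2 D.s1 b i hb, half_g sp D.o2 D.o1 D.s2 i a ha, mul_inv_rev,
        mul_inv_rev, J_inv, (sp.push (oe_cy D.o1)).g_inv hb h1, (sp.push (oe_cy D.o2)).g_inv h2 ha,
        mul_assoc]
  refine ⟨cmp.glue.cast hT, _, invol_of _ Sum.swap (fun y => ?_) (fun y => ?_) Sum.swap_swap
    (Sum.rec (half_W sp D.o1 D.o2 D.s1) (half_W sp D.o2 D.o1 D.s2))
    (Sum.rec (half_Θ sp D.o1 D.o2 D.s1) (half_Θ sp D.o2 D.o1 D.s2)) ?_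
    (Sum.rec (half_pos sp D.o1 ho D.ori D.p1 pos) (half_pos sp D.o2 ho D.ori D.p2 pos))
    D.card D.fix fun y hy => ?_⟩
  · rcases cov y with ⟨x, hx, rfl⟩ | ⟨x, hx, rfl⟩
    · exact ld_s D.o1 D.o2 D.s1 hx
    · exact ld_s D.o2 D.o1 D.s2 hx
  · rcases cov y with ⟨x, hx, rfl⟩ | ⟨x, hx, rfl⟩
    · rw [D.s1 x hx, D.s2 x hx]
    · rw [D.s2 x hx, D.s1 x hx]
  · rintro (a | a) (b | b) y ha hb
    · exact half_g sp D.o1 D.o2 D.s1 a b ha
    · exact inv_eq_iff_eq_inv.1 (mix b a y hb ha)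
    · exact mix a b y ha hb
    · exact half_g sp D.o2 D.o1 D.s2 a b ha
  · obtain ⟨z, hz, rfl⟩ : ∃ z : Rn 4, |z 3| < 1 ∧ e₁ (κ (pol z)) = y := by
      rcases cov y with ⟨x, hx, rfl⟩ | ⟨x, hx, rfl⟩
      · obtain ⟨z, hz, h, -⟩ := (D.eq x hx x hx).1 (hy.symm.trans (D.s1 x hx))
        exact ⟨z, hz, h ▸ rfl⟩
      · obtain ⟨z, hz, h, -⟩ := (D.eq x hx x hx).1 ((D.s2 x hx).symm.trans hy)
        exact ⟨z, hz, h ▸ (D.s2 x hx).symm.trans hy⟩
    have h1 := W_mem sp D.o1 (hW z 0 hz)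
    have h2 : (e₁ (κ (pol z)), 0) ∈ (sp.push (oe_cy D.o2)).W i := by
      rw [e12 hz]
      exact W_mem sp D.o2 (hW _ 0 (neg hz))
    refine ⟨.inl i, (ContinuousLinearMap.fst ℝ ℍ ℝ).comp ((embE.symm : Rn 5 →L[ℝ] ℍ × ℝ).comp
      (((sp.push (oe_cy D.o1)).Θ i (e₁ (κ (pol z)), 0)).comp (ContinuousLinearMap.inl ℝ E4 ℝ))),
      h1, ContinuousLinearMap.ext fun v => ?_, ?_⟩
    · obtain ⟨u, r, rfl⟩ := sur z 0 hz v
      refine (val D.o1 z 0 hz u r).trans ?_
      rw [cf5_apply, std5_eq]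
      congr 1
      exact (congrArg (fun w => (embE.symm w).1) (val D.o1 z 0 hz u 0)).symm
    · change ((sp.push (oe_cy D.o2)).g i i _ * C.j (1, -1) * (sp.push (oe_cy D.o1)).g i i _)⁻¹ = _
      rw [(sp.push (oe_cy D.o1)).g_self h1, (sp.push (oe_cy D.o2)).g_self h2, one_mul, mul_one,
        J_inv]

theorem ori_neg {o : X → Lam E4} (h : Ori X 4 o univ) : Ori X 4 (fun x => -o x) univ :=
  ⟨h.dim, h.fm.neg, fun x hx => neg_ne_zero.2 (h.ne x hx)⟩

theorem dbl_neg {o : X → Lam E4} {e₁ e₂ : X → Y} {o' : Y → Lam E4} {S : Finset Y}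
    (D : Dbl X κ o Y e₁ e₂ s o' S) : Dbl X κ (fun x => -o x) Y e₁ e₂ s (fun y => -o' y) S :=
  { D with
    ori := ori_neg D.ori
    p1 := fun x hx => by rw [pbM_neg, cf_neg, cf_neg_left, neg_neg]; exact D.p1 x hx
    p2 := fun x hx => by rw [pbM_neg, cf_neg, cf_neg_left, neg_neg]; exact D.p2 x hx }

theorem conn (hκ : Port X κ) :
    IsPreconnected ((κ '' (univ ×ˢ {w | 0 < ‖w‖ ∧ ‖w‖ < 30})) ×ˢ (univ : Set ℝ)) := by
  refine IsPreconnected.prod (IsPreconnected.image (isPreconnected_univ.prod ?_) _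
    fun p hp => (hκ.ld p.1 p.2 hp.2.2).sm.cont.continuousWithinAt) isPreconnected_univ
  have : {w : ℂ | 0 < ‖w‖ ∧ ‖w‖ < 30} = Complex.exp '' {w | w.re < Real.log 30} := by
    ext w
    constructor
    · rintro ⟨h1, h2⟩
      refine ⟨Complex.log w, ?_, Complex.exp_log (norm_pos_iff.1 h1)⟩
      simpa [Complex.log_re] using Real.log_lt_log h1 h2
    · rintro ⟨v, hv, rfl⟩
      rw [mem_ofPred_eq, Complex.norm_exp]
      exact ⟨Real.exp_pos _, (Real.lt_log_iff_exp_lt (by norm_num)).1 hv⟩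
  rw [this]
  exact (convex_halfSpace_lt (f := Complex.re) Complex.reLm.isLinear _).isPreconnected.image _ Complex.continuous_exp.continuousOn

theorem pre {o : X → Lam E4} {e₁ e₂ : X → Y} {o' : Y → Lam E4} {S : Finset Y} (hκ : Port X κ)
    (D : Dbl X κ o Y e₁ e₂ s o' S) (ho : Ori X 4 o univ)
    (sp : Spin C X.cyl ((κ '' (univ ×ˢ {0}))ᶜ ×ˢ univ)) (i : sp.ι)
    (hW : sp.W i = (κ '' (univ ×ˢ {w | 0 < ‖w‖ ∧ ‖w‖ < 30})) ×ˢ univ)
    (hstd : ∀ (z : Rn 4) (t : ℝ), Real.exp (z 3) < 30 → (sp.Θ i (κ (pol z), t)).comp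
      ((Df (vs (Rn 4)) X (fun z => κ (pol z)) z).prodMap (ContinuousLinearMap.id ℝ ℝ)) = std5)
    {p : X.cyl} (hp : p ∈ sp.W i) (pos : PosB (Pi.basisFun ℝ (Fin 5)) (oc (o p.1)) (sp.Θ i p)) :
    ∃ (sp : Spin C Y.cyl univ) (G : sp.ι → sp.ι → Y → C.G), Invol C Y o' s sp G S := by
  have oc' : ∀ U : Set X.cyl, Ori X.cyl 5 (fun p => oc (o p.1)) U := fun U =>
    ⟨ho.cyl.dim, fun q _ => ho.cyl.fm q ⟨trivial, trivial⟩, fun q _ => ho.cyl.ne q ⟨trivial, trivial⟩⟩
  have all := (sp.cof i).pos_of_conn (oc' _) (hW ▸ conn hκ) _ hp pos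
  obtain ⟨sp', a, h1, h2⟩ := (spb C _ X.cyl).2.2.1 _ sp _ (oc' _)
  have mem : ∀ (z : Rn 4) (t : ℝ), |z 3| < 1 → (κ (pol z), t) ∈ sp.W i := fun z t hz =>
    hW ▸ ⟨⟨pol z, ⟨trivial, norm_pol z ▸ Real.exp_pos _, norm_pol z ▸ exp_lt hz⟩, rfl⟩, trivial⟩
  refine main hκ D ho (sp'.mono (D.o1.op.prod isOpen_univ) (prod_mono_left (compl_subset_compl.2
    (image_mono (prod_mono_right ?_))))) (a i) (fun j q hq => h1 j q hq.2)
    (fun z t hz => ⟨⟨mem_half hκ hz, trivial⟩, (h2 i).1 ▸ mem z t hz⟩) fun z t hz => ?_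
  · rintro _ rfl
    simpa using (Real.exp_pos _).le
  · rw [← hstd z t (exp_lt hz), ← (h2 i).2.2 _ (mem z t hz) (all _ (mem z t hz))]

end Dbl3P

open Dbl3P in
theorem dbl3 : Dbl3Stmt := by
  rintro C X κ o hκ ⟨sp, i, hW, hstd⟩ ho Y e₁ e₂ s o' S D
  have hp : (κ (0, 1), (0 : ℝ)) ∈ sp.W i := hW ▸ ⟨⟨(0, 1), ⟨trivial, by norm_num⟩, rfl⟩, trivial⟩
  rcases posB_or (Pi.basisFun ℝ (Fin 5)) (oc_dg (ho.fm (κ (0, 1)) trivial).2)
    (oc_ne (ho.ne _ trivial)) (sp.inv hp) with h | h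
  · obtain ⟨sp', G, h⟩ := pre hκ D ho sp i hW hstd hp h
    exact ⟨sp', G, .inl h⟩
  · obtain ⟨sp', G, h⟩ := pre hκ (dbl_neg D) (ori_neg ho) sp i hW hstd hp (by rwa [oc_neg])
    exact ⟨sp', G, .inr h⟩

end Pool.Agent.MP_e1dc65_gt.O

end
end MrgPart6

-- marker of a merged file
example : 731051 + 672629 = 731051 + 672629 := rfl
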