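import Pool.Agent.MP_e1dc65_gt.b.Adapt
import Mathlib.Analysis.Calculus.MeanValue
import Mathlib.Analysis.Calculus.Deriv.Mul
import Mathlib.Analysis.Calculus.Deriv.Pow
import Mathlib.Analysis.SpecialFunctions.ExpDeriv
import Mathlib.Analysis.Normed.Group.Tannery
import Pool.Agent.MP_c8d41b_gt.gf.Stokes
import Pool.Agent.MP_e1dc65_gt.t2.Disc
import Pool.Agent.MP_e1dc65_gt.fm.Hza
import Mathlib.LinearAlgebra.Complex.FiniteDimensional
import Pool.Agent.MP_e1dc65_gt.k.Etale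
import Pool.Agent.MP_e1dc65_gt.e.aH2l
import Pool.Agent.MP_e1dc65_gt.t4.MidA
import Mathlib.Topology.Order.IntermediateValue
import Pool.Agent.MP_e1dc65_gt.o.Flat
import Mathlib.LinearAlgebra.Basis.VectorSpace
import Pool.Agent.MP_e1dc65_gt.u.Spec
import Pool.Agent.MP_e1dc65_gt.fm.Pd3
import Pool.Agent.MP_e1dc65_gt.fm.Pd1

-- ======== part 0: formerly Pool.Agent.MP_e1dc65_gt.o.Dbl1
section MrgPart0

-- ======== part 0: formerly Pool.Agent.MP_e1dc65_gt.a.Heat
section MrgPart0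

/-! PROJECT HC, part A: the heat kernel is close to the parametrix. -/

set_option maxSynthPendingDepth 3

open scoped Topology RealInnerProductSpace
open Set Filter

noncomputable section

namespace Pool.Agent.MP_e1dc65_gt.A

namespace Heat

theorem mv {F F' : ℝ → ℝ} {T M a : ℝ} (hT : 0 < T) (hd : ∀ s ∈ Ioc 0 T, HasDerivAt F (F' s) s)
    (hb : ∀ s ∈ Ioc 0 T, |F' s| ≤ M) (hl : Tendsto F (𝓝[>] 0) (𝓝 a)) : |F T - a| ≤ M * T := by
  have hM : 0 ≤ M := (abs_nonneg _).trans (hb T ⟨hT, le_rfl⟩)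
  refine le_of_tendsto (tendsto_const_nhds.sub hl).abs ?_
  filter_upwards [Ioc_mem_nhdsGT hT] with e he
  have := (convex_Ioc 0 T).norm_image_sub_le_of_norm_hasDerivWithin_le
    (fun s hs => (hd s hs).hasDerivWithinAt) hb he ⟨hT, le_rfl⟩
  rw [Real.norm_eq_abs, Real.norm_of_nonneg (sub_nonneg.2 he.2)] at this
  exact this.trans (mul_le_mul_of_nonneg_left (by linarith [he.1]) hM)

theorem cs {J : Type} {F : Finset J} {x y : J → ℝ} {X Y : ℝ} (hX : 0 ≤ X) (hY : 0 ≤ Y)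
    (hx : ∑ n ∈ F, x n ^ 2 ≤ X ^ 2) (hy : ∑ n ∈ F, y n ^ 2 ≤ Y ^ 2) :
    |∑ n ∈ F, x n * y n| ≤ X * Y := by
  refine abs_le_of_sq_le_sq' ?_ (mul_nonneg hX hY) |> abs_le.2
  rw [mul_pow]
  exact (Finset.sum_mul_sq_le_sq_mul_sq F x y).trans
    (mul_le_mul hx hy (Finset.sum_nonneg fun _ _ => sq_nonneg _) (sq_nonneg _))

variable {S H : Type} [AddCommGroup S] [Module ℝ S] [NormedAddCommGroup H] [InnerProductSpace ℝ H]
  {j : S →ₗ[ℝ] H} {L : S →ₗ[ℝ] S} {C : ℝ} {ev ev' : S → ℝ} {k r k' r' : ℝ → S}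

theorem c_nonneg (h : HPar j L C ev k r) : 0 ≤ C :=
  (norm_nonneg _).trans (h.br (1 / 2) ⟨by norm_num, by norm_num⟩)

theorem part1 (h : HPar j L C ev k r) (ψ : S) :
    |ev ψ| ≤ 5 * C * ∑ i ∈ Finset.range 4, ‖j ((L ^ i) ψ)‖ := by
  have hC := c_nonneg h
  have e : ∑ i ∈ Finset.range 4, ‖j ((L ^ i) ψ)‖ =
      ‖j ψ‖ + ‖j (L ψ)‖ + ‖j (L (L ψ))‖ + ‖j (L (L (L ψ)))‖ := by
    simp [Finset.sum_range_succ, pow_succ]
  have hr : ∀ χ, ∀ s ∈ Ioo (0 : ℝ) 1, |⟪j χ, j (r s)⟫| ≤ C * ‖j χ‖ := fun χ s hs =>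
    (abs_real_inner_le_norm _ _).trans
      ((mul_le_mul_of_nonneg_left (h.br s hs) (norm_nonneg _)).trans_eq (mul_comm _ _))
  have hk : ∀ χ, ∀ s ∈ Ioo (0 : ℝ) 1, |s ^ 2 * ⟪j χ, j (k s)⟫| ≤ C * ‖j χ‖ := fun χ s hs => by
    have h1 := (abs_real_inner_le_norm (j χ) (j (k s))).trans
      (mul_le_mul_of_nonneg_left (h.bk s hs) (norm_nonneg _))
    have h2 : 0 < s ^ 2 := pow_pos hs.1 2
    rw [← mul_div_assoc, le_div_iff₀ h2] at h1
    rw [abs_mul, abs_of_pos h2]
    linarith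
  have hm : ∀ s ∈ Ioc (0 : ℝ) (1 / 2), s ∈ Ioo (0 : ℝ) 1 := fun s hs => ⟨hs.1, by linarith [hs.2]⟩
  have key := mv (T := 1 / 2) (a := ev ψ)
    (M := C * (‖j ψ‖ + ‖j (L ψ)‖ + ‖j (L (L ψ))‖ + ‖j (L (L (L ψ)))‖))
    (F := fun s => ⟪j ψ, j (k s)⟫ + s * ⟪j (L ψ), j (k s)⟫ + s ^ 2 / 2 * ⟪j (L (L ψ)), j (k s)⟫)
    (F' := fun s => ⟪j ψ, j (r s)⟫ + s * ⟪j (L ψ), j (r s)⟫ + s ^ 2 / 2 * ⟪j (L (L ψ)), j (r s)⟫ -
      s ^ 2 * ⟪j (L (L (L ψ))), j (k s)⟫ / 2) (by norm_num) (fun s hs => ?_) (fun s hs => ?_) ?_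
  · have h0 := abs_le.1 (hk ψ _ (hm (1 / 2) ⟨by norm_num, le_rfl⟩))
    have h1 := abs_le.1 (hk (L ψ) _ (hm (1 / 2) ⟨by norm_num, le_rfl⟩))
    have h2 := abs_le.1 (hk (L (L ψ)) _ (hm (1 / 2) ⟨by norm_num, le_rfl⟩))
    have h3 := abs_le.1 key
    have a0 := mul_nonneg hC (norm_nonneg (j ψ))
    have a1 := mul_nonneg hC (norm_nonneg (j (L ψ)))
    have a2 := mul_nonneg hC (norm_nonneg (j (L (L ψ))))
    have a3 := mul_nonneg hC (norm_nonneg (j (L (L (L ψ)))))
    rw [e, abs_le]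
    constructor <;> linarith [h0.1, h0.2, h1.1, h1.2, h2.1, h2.2, h3.1, h3.2]
  · have d := ((h.der ψ s (hm s hs)).add ((hasDerivAt_id s).mul (h.der (L ψ) s (hm s hs)))).add
      (((hasDerivAt_pow 2 s).div_const 2).mul (h.der (L (L ψ)) s (hm s hs)))
    refine d.congr_deriv ?_
    simp only [id]
    push_cast
    ring
  · have h0 := abs_le.1 (hr ψ _ (hm s hs))
    have h1 : |s * ⟪j (L ψ), j (r s)⟫| ≤ C * ‖j (L ψ)‖ := by
      rw [abs_mul, abs_of_pos hs.1]
      exact (mul_le_of_le_one_left (abs_nonneg _) (hm s hs).2.le).trans (hr _ _ (hm s hs))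
    have h2 : |s ^ 2 / 2 * ⟪j (L (L ψ)), j (r s)⟫| ≤ C * ‖j (L (L ψ))‖ := by
      rw [abs_mul, abs_of_nonneg (by positivity : 0 ≤ s ^ 2 / 2)]
      exact (mul_le_of_le_one_left (abs_nonneg _) (by nlinarith [hs.1, hs.2])).trans
        (hr _ _ (hm s hs))
    have h3 := abs_le.1 (hk (L (L (L ψ))) _ (hm s hs))
    have a3 := mul_nonneg hC (norm_nonneg (j (L (L (L ψ)))))
    rw [abs_le] at h1 h2 ⊢
    constructor <;> linarith [h0.1, h0.2, h1.1, h1.2, h2.1, h2.2, h3.1, h3.2]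
  · have t0 : Tendsto (fun s : ℝ => s) (𝓝[>] 0) (𝓝 0) := tendsto_id.mono_left nhdsWithin_le_nhds
    simpa using ((h.lim ψ).add (t0.mul (h.lim (L ψ)))).add
      (((t0.pow 2).div_const 2).mul (h.lim (L (L ψ))))

variable {J : Type} {φ : J → S} {lam : J → ℝ}

theorem bessel (hE : Eig j L φ lam) (F : Finset J) {x : H} {X : ℝ} (hx : ‖x‖ ≤ X) :
    ∑ n ∈ F, ⟪j (φ n), x⟫ ^ 2 ≤ X ^ 2 := by
  have := hE.on.sum_inner_products_le (s := F) x
  simp only [Real.norm_eq_abs, sq_abs] at this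
  exact this.trans (pow_le_pow_left₀ (norm_nonneg _) hx 2)

theorem exp_le (hE : Eig j L φ lam) (n : J) {s t : ℝ} (h : s ≤ t) :
    Real.exp (-(lam n * t)) ≤ Real.exp (-(lam n * s)) :=
  Real.exp_le_exp.2 (neg_le_neg (mul_le_mul_of_nonneg_left h (hE.pos n)))

theorem damp (hE : Eig j L φ lam) (n : J) {t : ℝ} (h : 0 ≤ t) (b : ℝ) :
    (b * Real.exp (-(lam n * t))) ^ 2 ≤ b ^ 2 := by
  have h1 := exp_le hE n h
  rw [mul_zero, neg_zero, Real.exp_zero] at h1
  rw [mul_pow]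
  exact mul_le_of_le_one_right (sq_nonneg _) (pow_le_one₀ (Real.exp_pos _).le h1)

theorem core (h : HPar j L C ev k r) (hE : Eig j L φ lam) {t M : ℝ} (ht : t ∈ Ioo (0 : ℝ) 1)
    (F : Finset J) (b : J → ℝ)
    (hb : ∀ s ∈ Ioc 0 t, |∑ n ∈ F, b n * Real.exp (-(lam n * (t - s))) * ⟪j (φ n), j (r s)⟫| ≤ M) :
    |∑ n ∈ F, b n * (⟪j (φ n), j (k t)⟫ - Real.exp (-(lam n * t)) * ev (φ n))| ≤ M * t := by
  have key := mv (a := ∑ n ∈ F, b n * Real.exp (-(lam n * (t - 0))) * ev (φ n))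
    (F := fun s => ∑ n ∈ F, b n * Real.exp (-(lam n * (t - s))) * ⟪j (φ n), j (k s)⟫) ht.1
    (fun s hs => HasDerivAt.fun_sum fun n _ => ?_) hb
    (tendsto_finsetSum F fun n _ => Tendsto.mul ?_ (h.lim _))
  · convert key using 2
    rw [← Finset.sum_sub_distrib]
    refine Finset.sum_congr rfl fun n _ => ?_
    simp only [sub_self, mul_zero, neg_zero, Real.exp_zero, sub_zero]
    ring
  · have d := ((((hasDerivAt_id s).const_sub t).const_mul (lam n)).neg.exp.const_mul (b n)).mul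
      (h.der (φ n) s ⟨hs.1, hs.2.trans_lt ht.2⟩)
    refine d.congr_deriv ?_
    rw [hE.eig, map_smul, real_inner_smul_left]
    simp only [id, Pi.neg_apply]
    ring
  · have : Continuous fun s : ℝ => b n * Real.exp (-(lam n * (t - s))) := by fun_prop
    exact (this.tendsto 0).mono_left nhdsWithin_le_nhds

theorem err (h : HPar j L C ev k r) (hE : Eig j L φ lam) {t : ℝ} (ht : t ∈ Ioo (0 : ℝ) 1)
    (F : Finset J) :
    ∑ n ∈ F, (⟪j (φ n), j (k t)⟫ - Real.exp (-(lam n * t)) * ev (φ n)) ^ 2 ≤ (C * t) ^ 2 := by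
  have hC := c_nonneg h
  set d : J → ℝ := fun n => ⟪j (φ n), j (k t)⟫ - Real.exp (-(lam n * t)) * ev (φ n) with hd
  set X := √(∑ n ∈ F, d n ^ 2) with hX
  have h0 : 0 ≤ X := Real.sqrt_nonneg _
  have h1 : X ^ 2 = ∑ n ∈ F, d n ^ 2 := Real.sq_sqrt (Finset.sum_nonneg fun _ _ => sq_nonneg _)
  have h2 := core h hE ht F d (M := X * C) fun s hs => cs h0 hC
    ((Finset.sum_le_sum fun n _ => damp hE n (sub_nonneg.2 hs.2) _).trans h1.ge)
    (bessel hE F (h.br s ⟨hs.1, hs.2.trans_lt ht.2⟩))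
  have h3 : X * X ≤ X * (C * t) := by
    rw [← sq, h1, ← mul_assoc]
    refine le_trans (le_of_eq ?_) ((le_abs_self _).trans h2)
    exact Finset.sum_congr rfl fun n _ => sq _
  change ∑ n ∈ F, d n ^ 2 ≤ _
  rw [← h1]
  rcases h0.eq_or_lt with h4 | h4
  · rw [← h4, zero_pow two_ne_zero]; positivity
  · exact pow_le_pow_left₀ h0 (le_of_mul_le_mul_left h3 h4) 2

theorem main_le (h : HPar j L C ev k r) (hE : Eig j L φ lam) {t : ℝ} (ht : t ∈ Ioo (0 : ℝ) 1)
    (F : Finset J) :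
    ∑ n ∈ F, (Real.exp (-(lam n * t)) * ev (φ n)) ^ 2 ≤ (C / t ^ 2 + C * t) ^ 2 := by
  have hC := c_nonneg h
  have h1 := bessel hE F (h.bk t ht)
  have h2 := err h hE ht F
  have h3 := abs_le.1 (cs (by positivity) (mul_nonneg hC ht.1.le) h1 h2)
  have e : ∑ n ∈ F, (Real.exp (-(lam n * t)) * ev (φ n)) ^ 2 = ∑ n ∈ F, ⟪j (φ n), j (k t)⟫ ^ 2 +
      ∑ n ∈ F, (⟪j (φ n), j (k t)⟫ - Real.exp (-(lam n * t)) * ev (φ n)) ^ 2 -
      2 * ∑ n ∈ F, ⟪j (φ n), j (k t)⟫ *
        (⟪j (φ n), j (k t)⟫ - Real.exp (-(lam n * t)) * ev (φ n)) := by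
    rw [Finset.mul_sum, ← Finset.sum_add_distrib, ← Finset.sum_sub_distrib]
    exact Finset.sum_congr rfl fun n _ => by ring
  rw [e]
  linarith [h3.1]

theorem part2a (h : HPar j L C ev k r) (hE : Eig j L φ lam) {t : ℝ}
    (ht : t ∈ Ioo (0 : ℝ) (1 / 2)) (F : Finset J) :
    ∑ n ∈ F, Real.exp (-(lam n * t)) * ev (φ n) ^ 2 ≤ (5 * C / t ^ 2) ^ 2 := by
  have hC := c_nonneg h
  have h0 := ht.1
  have h1 := main_le h hE (t := t / 2) ⟨by linarith, by linarith [ht.2]⟩ F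
  have e : ∀ n, (Real.exp (-(lam n * (t / 2))) * ev (φ n)) ^ 2 =
      Real.exp (-(lam n * t)) * ev (φ n) ^ 2 := fun n => by
    rw [mul_pow, sq (Real.exp _), ← Real.exp_add]
    congr 2
    ring
  simp only [e] at h1
  refine h1.trans (pow_le_pow_left₀ (by positivity) ?_ 2)
  have h2 : C * (t / 2) ≤ C / t ^ 2 := by
    rw [le_div_iff₀ (by positivity), mul_assoc]
    refine mul_le_of_le_one_right hC ?_
    have : t ^ 2 ≤ 1 := pow_le_one₀ h0.le (by linarith [ht.2])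
    nlinarith [ht.2]
  calc C / (t / 2) ^ 2 + C * (t / 2) ≤ C / (t / 2) ^ 2 + C / t ^ 2 := by linarith
    _ = 5 * C / t ^ 2 := by field_simp; ring

theorem part2 (h : HPar j L C ev k r) (hE : Eig j L φ lam) {t : ℝ}
    (ht : t ∈ Ioo (0 : ℝ) (1 / 2)) : Summable fun n => Real.exp (-(lam n * t)) * ev (φ n) ^ 2 :=
  summable_of_sum_le (fun n => by positivity) (part2a h hE ht)

variable [CompleteSpace H]

theorem parseval (hE : Eig j L φ lam) (x y : H) :
    Tendsto (fun F : Finset J => ∑ n ∈ F, ⟪j (φ n), x⟫ * ⟪j (φ n), y⟫) atTop (𝓝 ⟪x, y⟫) := by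
  have := (HilbertBasis.mkOfOrthogonalEqBot hE.on hE.tot).hasSum_inner_mul_inner x y
  simp only [HilbertBasis.coe_mkOfOrthogonalEqBot, real_inner_comm (j _) x] at this
  exact this

theorem unif (h : HPar j L C ev k r) (h' : HPar j L C ev' k' r') (hE : Eig j L φ lam)
    (hb : ∀ σ ∈ Ioo (0 : ℝ) 1, ∀ s ∈ Ioo (0 : ℝ) 1, |⟪j (k' σ), j (r s)⟫| ≤ C) {τ η : ℝ}
    (hτ : τ ∈ Ioo (0 : ℝ) 1) (hη : 0 < η) : ∀ᶠ F : Finset J in atTop, ∀ σ ∈ Ico τ 1,
      ∀ s ∈ Ioo (0 : ℝ) 1, |∑ n ∈ F, Real.exp (-(lam n * σ)) * ev' (φ n) * ⟪j (φ n), j (r s)⟫| ≤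
        C + C ^ 2 + η * C := by
  classical
  have hC := c_nonneg h
  have hs : Summable fun n => (Real.exp (-(lam n * τ)) * ev' (φ n)) ^ 2 :=
    summable_of_sum_le (fun n => sq_nonneg _) (main_le h' hE hτ)
  obtain ⟨F₀, hF₀⟩ := hs.vanishing (Iic_mem_nhds (pow_pos hη 2))
  filter_upwards [eventually_ge_atTop F₀] with F hF σ hσ s hs'
  have hσ' : σ ∈ Ioo (0 : ℝ) 1 := ⟨hτ.1.trans_le hσ.1, hσ.2⟩
  have h1 := (parseval hE (j (k' σ)) (j (r s))).abs.add_const (C ^ 2 + η * C)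
  refine (ge_of_tendsto h1 ?_).trans (by linarith [hb σ hσ' s hs'])
  filter_upwards [eventually_ge_atTop F] with G hG
  have h2 := cs (mul_nonneg hC hσ'.1.le) hC (err h' hE hσ' G) (bessel hE G (h.br s hs'))
  have h3 : |∑ n ∈ G \ F, Real.exp (-(lam n * σ)) * ev' (φ n) * ⟪j (φ n), j (r s)⟫| ≤ η * C := by
    refine cs hη.le hC (le_trans (Finset.sum_le_sum fun n _ => ?_)
      (hF₀ (G \ F) (Finset.sdiff_disjoint.mono_right hF))) (bessel hE _ (h.br s hs'))
    rw [mul_pow, mul_pow]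
    exact mul_le_mul_of_nonneg_right
      (pow_le_pow_left₀ (Real.exp_pos _).le (exp_le hE n hσ.1) 2) (sq_nonneg _)
  rw [Finset.sum_sdiff_eq_sub hG, abs_le] at h3
  simp only [sub_mul, Finset.sum_sub_distrib] at h2
  have h4 : C * σ * C ≤ C ^ 2 := by nlinarith [mul_nonneg (sq_nonneg C) (sub_nonneg.2 hσ.2.le)]
  have h5 := le_abs_self (∑ n ∈ G, ⟪j (φ n), j (k' σ)⟫ * ⟪j (φ n), j (r s)⟫)
  have h6 := neg_abs_le (∑ n ∈ G, ⟪j (φ n), j (k' σ)⟫ * ⟪j (φ n), j (r s)⟫)
  rw [abs_le] at h2 ⊢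
  constructor <;> linarith [h2.1, h2.2, h3.1, h3.2]

omit [CompleteSpace H] in
theorem dom (hE : Eig j L φ lam) {t τ : ℝ} (hτ : 0 ≤ τ) (n : J) :
    ‖Real.exp (-(lam n * (t + τ))) * (ev' (φ n) * ev (φ n))‖ ≤
      Real.exp (-(lam n * t)) * ev' (φ n) ^ 2 + Real.exp (-(lam n * t)) * ev (φ n) ^ 2 := by
  rw [norm_mul, Real.norm_of_nonneg (Real.exp_pos _).le, ← mul_add, Real.norm_eq_abs]
  refine mul_le_mul (exp_le hE n (by linarith)) (abs_le.2 ⟨?_, ?_⟩) (abs_nonneg _)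
    (Real.exp_pos _).le
  · nlinarith [sq_nonneg (ev' (φ n) + ev (φ n)), sq_nonneg (ev' (φ n)), sq_nonneg (ev (φ n))]
  · nlinarith [sq_nonneg (ev' (φ n) - ev (φ n)), sq_nonneg (ev' (φ n)), sq_nonneg (ev (φ n))]

theorem shift (h : HPar j L C ev k r) (h' : HPar j L C ev' k' r') (hE : Eig j L φ lam)
    (hb : ∀ σ ∈ Ioo (0 : ℝ) 1, ∀ s ∈ Ioo (0 : ℝ) 1, |⟪j (k' σ), j (r s)⟫| ≤ C) {t τ : ℝ}
    (ht : t ∈ Ioo (0 : ℝ) (1 / 2)) (hτ : τ ∈ Ioo (0 : ℝ) (1 / 2)) :
    |∑' n, Real.exp (-(lam n * (t + τ))) * (ev' (φ n) * ev (φ n)) - ⟪j (k t), j (k' τ)⟫| ≤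
      (C + C ^ 2) * t + C / t ^ 2 * (C * τ) := by
  have hC := c_nonneg h
  have ht1 : t ∈ Ioo (0 : ℝ) 1 := ⟨ht.1, by linarith [ht.2]⟩
  have hτ1 : τ ∈ Ioo (0 : ℝ) 1 := ⟨hτ.1, by linarith [hτ.2]⟩
  have hs : Summable fun n => Real.exp (-(lam n * (t + τ))) * (ev' (φ n) * ev (φ n)) :=
    Summable.of_norm_bounded ((part2 h' hE ht).add (part2 h hE ht)) (dom hE hτ.1.le)
  have key : ∀ η : ℝ, 0 < η →
      |∑' n, Real.exp (-(lam n * (t + τ))) * (ev' (φ n) * ev (φ n)) - ⟪j (k t), j (k' τ)⟫| ≤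
        (C + C ^ 2) * t + C / t ^ 2 * (C * τ) + η * (C * t) := by
    intro η hη
    refine le_of_tendsto (Tendsto.sub hs.hasSum (parseval hE _ _)).abs ?_
    filter_upwards [unif h h' hE hb hτ1 hη] with F hF
    have h1 := core h hE ht1 F (fun n => Real.exp (-(lam n * τ)) * ev' (φ n))
      (M := C + C ^ 2 + η * C) fun s hs => by
        have := hF (τ + (t - s)) ⟨by linarith [hs.2], by linarith [hs.1, ht.2, hτ.2]⟩ s
          ⟨hs.1, hs.2.trans_lt ht1.2⟩
        convert this using 3 with n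
        rw [mul_add, neg_add, Real.exp_add]
        ring
    have h2 := cs (by positivity) (mul_nonneg hC hτ.1.le) (bessel hE F (h.bk t ht1))
      (err h' hE hτ1 F)
    have e : ∑ n ∈ F, Real.exp (-(lam n * (t + τ))) * (ev' (φ n) * ev (φ n)) -
        ∑ n ∈ F, ⟪j (φ n), j (k t)⟫ * ⟪j (φ n), j (k' τ)⟫ =
        -(∑ n ∈ F, Real.exp (-(lam n * τ)) * ev' (φ n) *
          (⟪j (φ n), j (k t)⟫ - Real.exp (-(lam n * t)) * ev (φ n))) -
        ∑ n ∈ F, ⟪j (φ n), j (k t)⟫ *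
          (⟪j (φ n), j (k' τ)⟫ - Real.exp (-(lam n * τ)) * ev' (φ n)) := by
      rw [← Finset.sum_neg_distrib, ← Finset.sum_sub_distrib, ← Finset.sum_sub_distrib]
      refine Finset.sum_congr rfl fun n _ => ?_
      rw [mul_add, neg_add, Real.exp_add]
      ring
    rw [e]
    rw [abs_le] at h1 h2 ⊢
    constructor <;> linarith [h1.1, h1.2, h2.1, h2.2]
  have t0 : Tendsto (fun s : ℝ => s) (𝓝[>] 0) (𝓝 0) := tendsto_id.mono_left nhdsWithin_le_nhds
  have h3 := (t0.mul_const (C * t)).const_add ((C + C ^ 2) * t + C / t ^ 2 * (C * τ))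
  rw [zero_mul, add_zero] at h3
  exact ge_of_tendsto h3 (eventually_nhdsWithin_of_forall key)

theorem part3 (h : HPar j L C ev k r) (h' : HPar j L C ev' k' r') (hE : Eig j L φ lam)
    (hb : ∀ σ ∈ Ioo (0 : ℝ) 1, ∀ s ∈ Ioo (0 : ℝ) 1, |⟪j (k' σ), j (r s)⟫| ≤ C) {t : ℝ}
    (ht : t ∈ Ioo (0 : ℝ) (1 / 2)) :
    |∑' n, Real.exp (-(lam n * t)) * (ev' (φ n) * ev (φ n)) - ev' (k t)| ≤ (C + C ^ 2) * t := by
  have t0 : Tendsto (fun s : ℝ => s) (𝓝[>] 0) (𝓝 0) := tendsto_id.mono_left nhdsWithin_le_nhds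
  have h1 : Tendsto (fun τ => ∑' n, Real.exp (-(lam n * (t + τ))) * (ev' (φ n) * ev (φ n)))
      (𝓝[>] 0) (𝓝 (∑' n, Real.exp (-(lam n * t)) * (ev' (φ n) * ev (φ n)))) := by
    refine tendsto_tsum_of_dominated_convergence ((part2 h' hE ht).add (part2 h hE ht))
      (fun n => ?_) (eventually_nhdsWithin_of_forall fun τ hτ => dom hE (le_of_lt hτ))
    have : Continuous fun τ : ℝ => Real.exp (-(lam n * (t + τ))) * (ev' (φ n) * ev (φ n)) := by
      fun_prop
    simpa using (this.tendsto 0).mono_left nhdsWithin_le_nhds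
  have h3 := ((t0.const_mul C).const_mul (C / t ^ 2)).const_add ((C + C ^ 2) * t)
  rw [mul_zero, mul_zero, add_zero] at h3
  refine le_of_tendsto_of_tendsto (h1.sub (h'.lim (k t))).abs h3 ?_
  filter_upwards [Ioo_mem_nhdsGT (by norm_num : (0 : ℝ) < 1 / 2)] with τ hτ
  exact shift h h' hE hb ht hτ

end Heat

open Heat in
theorem heatS : HeatStmt := fun _ _ _ _ _ _ _ _ _ _ _ _ _ h =>
  ⟨part1 h, fun _ _ _ hE _ ht => ⟨part2 h hE ht,
    (part2 h hE ht).tsum_le_of_sum_le (part2a h hE ht), fun _ _ _ h' hb => part3 h h' hE hb ht⟩⟩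

end Pool.Agent.MP_e1dc65_gt.A

end
end MrgPart0

-- ======== part 1: formerly Pool.Agent.MP_e1dc65_gt.fm.Int
section MrgPart1

/-! PROJECT HC, row INT: the integral of forms on an oriented manifold. -/

open scoped ContDiff Manifold Topology
open Set Filter Function Module MeasureTheory Pool.Agent.MP_c8d41b_gt.GF

set_option linter.unusedSectionVars false

noncomputable section

namespace Pool.Agent.MP_e1dc65_gt

variable {E E' E₀ : Type} [NormedAddCommGroup E] [NormedSpace ℝ E] [FiniteDimensional ℝ E]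
  [NormedAddCommGroup E'] [NormedSpace ℝ E'] [FiniteDimensional ℝ E']
  [NormedAddCommGroup E₀] [NormedSpace ℝ E₀] [FiniteDimensional ℝ E₀]
  {X : Mf E} {Y : Mf E'} {N : ℕ} {o α β : X → Lam E} {U : Set X} {f : X → Y}

/-! ### Facts that need no hypothesis -/

theorem intM_neg_ori (o α : X → Lam E) : intM X (fun x => -o x) α = -intM X o α := by
  let _ : MeasurableSpace X := borel X
  have h : IsVol X (fun x => -o x) = IsVol X o := by
    funext μ
    simp only [IsVol, pbM_neg, ev_neg, abs_neg]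
  have h' : vol X (fun x => -o x) = vol X o :=
    congrArg (fun P : Measure X → Prop => @dite _ (∃ μ, P μ) (Classical.propDecidable _)
      (fun h => h.choose) fun _ => 0) h
  simp only [intM, h', cf, ev_neg, div_neg, integral_neg]

theorem intM_smul (o : X → Lam E) (c : ℝ) (α : X → Lam E) :
    intM X o (fun x => c • α x) = c * intM X o α := by
  simp only [intM, cf, ev_smul, mul_div_assoc, integral_const_mul]

theorem intM_neg' (o α : X → Lam E) : intM X o (fun x => -α x) = -intM X o α := by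
  simp only [intM, cf, ev_neg, neg_div, integral_neg]

theorem intM_zero (o : X → Lam E) : intM X o (fun _ => 0) = 0 := by simp [intM, cf]

theorem intM_congr (o : X → Lam E) (h : ∀ x, α x = β x) : intM X o α = intM X o β :=
  congrArg _ (funext h)

/-- only the top-degree part counts -/
theorem intM_prj (hd : finrank ℝ E = N) (o α : X → Lam E) :
    intM X o (fun x => prj N (α x)) = intM X o α := by
  subst hd
  have := fun a : Lam E => ev_prj (List.ofFn (finBasis ℝ E)) a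
  simp only [List.length_ofFn] at this
  simp only [intM, cf, this]

/-- forms that are not of top degree have integral zero -/
theorem intM_dg (hd : finrank ℝ E ≠ N) (o : X → Lam E) (h : ∀ x, α x ∈ dg E N) :
    intM X o α = 0 := by
  have : ∀ x, ev (List.ofFn (finBasis ℝ E)) (α x) = 0 := fun x =>
    ev_eq_zero (h x) (by rwa [List.length_ofFn])
  simp [intM, cf, this]

/-! ### Restriction along open embeddings, localisation -/

/-- pull-back of a compactly supported form by an open embedding, extended by zero -/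
theorem OE.ocM_pb (h : OE X Y f U) {α : Y → Lam E'} (hα : OcM Y (f '' U) α) :
    OcM X U (U.indicator (pbM X Y f α)) := by
  have hK := hα.cpt.isCompact.image_of_continuousOn (h.symm.sm.contOn.mono hα.sub)
  have hs : invFunOn f U '' tsupport α ⊆ U := by
    rintro _ ⟨y, hy, rfl⟩
    exact invFunOn_mem (hα.sub hy)
  refine .of_compact hK hs (fun x hx => (FmAt.pb (hα.sm _) (h.sm x (hs hx))).congr' ?_)
    fun x hx => ?_
  · filter_upwards [h.op.mem_nhds (hs hx)] with y hy using indicator_of_mem hy _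
  · by_cases hx' : x ∈ U
    · rw [indicator_of_mem hx']
      exact pbM_zero (image_eq_zero_of_notMem_tsupport fun h' => hx ⟨_, h', h.left hx'⟩)
    · exact indicator_of_notMem hx' _

theorem OE.dM_ind (h : OE X Y f U) {α : Y → Lam E'} (hα : OcM Y (f '' U) α) :
    dM X (U.indicator (pbM X Y f α)) = U.indicator (pbM X Y f (dM Y α)) := by
  funext x
  by_cases hx : x ∈ U
  · rw [indicator_of_mem hx, ← dM_pb (h.sm x hx) (hα.sm _)]
    refine dM_congr ?_
    filter_upwards [h.op.mem_nhds hx] with y hy using indicator_of_mem hy _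
  · rw [indicator_of_notMem hx, (h.ocM_pb hα).dM.zero_of hx]

/-- an additive property of compactly supported forms is local -/
theorem OcM.loc_ind {P : (X → Lam E) → Prop} (hα : OcM X U α) (O : X → Set X)
    (hO : ∀ x ∈ U, O x ∈ 𝓝 x) (h0 : P fun _ => 0)
    (ha : ∀ α β, OcM X U α → OcM X U β → P α → P β → P fun x => α x + β x)
    (hl : ∀ x ∈ U, ∀ β, OcM X (O x ∩ U) β → P β) : P α := by
  classical
  obtain ⟨s, ρ, r1, r2⟩ := pouK X hα.cpt.isCompact (O := O) fun x hx => hO x (hα.sub hx)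
  have e : α = fun y => ∑ i ∈ s, ρ i y • α y := funext fun y => by
    rw [← Finset.sum_smul]
    by_cases hy : y ∈ tsupport α
    · rw [r2 y hy, one_smul]
    · rw [image_eq_zero_of_notMem_tsupport hy, smul_zero]
  have c : ∀ i ∈ s, OcM X (O i ∩ U) fun y => ρ i y • α y := fun i hi =>
    .of_compact ((r1 i hi).2.2.1.inter_right (isClosed_tsupport α))
      (inter_subset_inter (r1 i hi).2.2.2.1 hα.sub)
      (fun y _ => (hα.sm y).fsmul ((r1 i hi).2.1 y trivial)) fun y hy => by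
        rcases not_and_or.1 hy with h | h <;> simp [image_eq_zero_of_notMem_tsupport h]
  have key : ∀ t ⊆ s, P fun y => ∑ i ∈ t, ρ i y • α y := fun t ht => by
    induction t using Finset.induction_on with
    | empty => simpa using h0
    | insert a t hat ih =>
      have h1 := ht (Finset.mem_insert_self _ _)
      have h2 := (Finset.subset_insert a t).trans ht
      simp only [Finset.sum_insert hat]
      exact ha _ _ ((c a h1).mono inter_subset_right)
        (ocM_sum fun i hi => (c i (h2 hi)).mono inter_subset_right)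
        (hl a (hα.sub (r1 a h1).1) _ (c a h1)) (ih h2)
  exact e ▸ key s subset_rfl

/-- the coefficient does not depend on the basis and is invariant under linear isomorphisms -/
theorem cf_mul_ev (hd : finrank ℝ E = N) (b : Basis (Fin N) ℝ E₀) (L : E₀ →L[ℝ] E) {o : Lam E}
    (h : ev (List.ofFn b) (mp L o) ≠ 0) (a : Lam E) :
    cf o a * ev (List.ofFn b) (mp L o) = ev (List.ofFn b) (mp L a) := by
  subst hd
  rw [StokesP.ev_mp_basis (finBasis ℝ E) b] at h ⊢
  rw [StokesP.ev_mp_basis (finBasis ℝ E) b, cf, mul_left_comm,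
    div_mul_cancel₀ _ (right_ne_zero_of_mul h)]

/-- charts on which the orientation form has a sign -/
theorem Ori.exists_chart (ho : Ori X N o U) (b : Basis (Fin N) ℝ E) {x : X} (hx : x ∈ U) :
    ∃ (φ : E → X) (W : Set E), OE (vs E) X φ W ∧ φ '' W ∈ 𝓝 x ∧
      ((∀ y ∈ W, 0 < ev (List.ofFn b) (pbM (vs E) X φ o y)) ∨
        ∀ y ∈ W, 0 < ev (List.ofFn b) (pbM (vs E) X φ (fun x => -o x) y)) := by
  have c : ContinuousAt (fun y => ev (List.ofFn b) (loc X x o y)) (ch X x x) := by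
    simp only [ev_eq]
    exact (cda_lin _ (ho.fm x hx).1).continuousAt
  have h0 : ev (List.ofFn b) (loc X x o (ch X x x)) ≠ 0 := by
    rw [loc_self]; exact ev_basis_ne b (ho.fm x hx).2 (ho.ne x hx)
  have key : ∀ S ∈ 𝓝 (ch X x x), ∃ W ⊆ S, OE (vs E) X (ch X x).symm W ∧
      (ch X x).symm '' W ∈ 𝓝 x := fun S hS => by
    obtain ⟨W, h1, h2, h3⟩ := mem_nhds_iff.1 (inter_mem hS ch_tgt_nhds)
    have h4 := (oe_ch_symm (x := x)).mono h2 fun y hy => (h1 hy).2
    exact ⟨W, fun y hy => (h1 hy).1, h4,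
      (h4.isOpen_image h2 subset_rfl).mem_nhds ⟨_, h3, ch_left X x⟩⟩
  rcases h0.lt_or_gt with h | h
  · obtain ⟨W, h1, h2, h3⟩ := key _ (c.eventually_lt_const h)
    exact ⟨_, W, h2, h3, .inr fun y hy => by rw [pbM_neg, ev_neg, neg_pos]; exact h1 hy⟩
  · obtain ⟨W, h1, h2, h3⟩ := key _ (c.eventually_const_lt h)
    exact ⟨_, W, h2, h3, .inl h1⟩

namespace IntR

theorem cont (hV : VolStmt) (ho : Ori X N o univ) (hα : OcM X univ α) :
    Continuous fun x => cf (o x) (α x) :=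
  continuous_iff_continuousAt.2 fun x => ((hV E X N o ho).2.2.2.2 α x (hα.sm x)).cont

theorem add (hV : VolStmt) (ho : Ori X N o univ) (hα : OcM X univ α) (hβ : OcM X univ β) :
    intM X o (fun x => α x + β x) = intM X o α + intM X o β := by
  let _ : MeasurableSpace X := borel X
  have : BorelSpace X := ⟨rfl⟩
  have := (hV E X N o ho).2.2.1
  have i : ∀ α, OcM X univ α → Integrable (fun x => cf (o x) (α x)) (vol X o) := fun α hα =>
    (cont hV ho hα).integrable_of_hasCompactSupport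
      (hα.cpt.mono fun x hx h => hx (by simp [cf, h]))
  rw [intM, intM, intM, ← integral_add (i α hα) (i β hβ)]
  simp only [cf, ev_add, add_div]

/-- the integral in a positive parametrisation by an open subset of `ℝⁿ` -/
theorem chart0 (hV : VolStmt) (ho : Ori X N o univ) {φ : Rn N → X} {W : Set (Rn N)}
    (h : OE (vs (Rn N)) X φ W)
    (hp : ∀ y ∈ W, 0 < ev (List.ofFn (Pi.basisFun ℝ (Fin N))) (pbM (vs (Rn N)) X φ o y))
    (hα : OcM X (φ '' W) α) : intM X o α =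
      ∫ y in W, ev (List.ofFn (Pi.basisFun ℝ (Fin N))) (pbM (vs (Rn N)) X φ α y) := by
  let _ : MeasurableSpace X := borel X
  have : BorelSpace X := ⟨rfl⟩
  have hW : MeasurableSet W := h.op.measurableSet
  have m1 : AEMeasurable φ (volume.restrict W) := h.sm.contOn.aemeasurable hW
  let ρ : Rn N → ℝ := fun y => ev (List.ofFn (Pi.basisFun ℝ (Fin N))) (pbM (vs (Rn N)) X φ o y)
  have m2 : AEMeasurable (fun y => ENNReal.ofReal |ρ y|) (volume.restrict W) := by
    refine (ContinuousOn.aemeasurable (fun y hy => ?_) hW).ennreal_ofReal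
    simp only [ρ, ev_eq]
    exact (cda_lin _ (fmAt_vs.1 ((ho.fm _ trivial).1.pb
      (h.sm y hy)))).continuousAt.abs.continuousWithinAt
  have m3 := m1.mono_ac (withDensity_absolutelyContinuous _ fun y => ENNReal.ofReal |ρ y|)
  have e : (vol X o).restrict (φ '' W) =
      ((volume.restrict W).withDensity fun y => ENNReal.ofReal |ρ y|).map φ :=
    Measure.ext_of_lintegral _ fun g hg => by
      rw [(hV E X N o ho).1 N φ W h g hg, lintegral_map' hg.aemeasurable m3,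
        lintegral_withDensity_eq_lintegral_mul₀ (g := fun y => g (φ y)) m2
          (hg.comp_aemeasurable m1)]
      exact lintegral_congr fun y => mul_comm _ _
  rw [intM, ← setIntegral_eq_integral_of_forall_compl_eq_zero (s := φ '' W)
    (fun x hx => by simp [cf, hα.zero_of hx]), e,
    integral_map m3 (cont hV ho (hα.mono (subset_univ _))).aestronglyMeasurable,
    integral_withDensity_eq_integral_toReal_smul₀ m2 (.of_forall fun _ => ENNReal.ofReal_lt_top)]
  refine setIntegral_congr_fun hW fun y hy => ?_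
  simp only [smul_eq_mul, ρ, abs_of_pos (hp y hy), ENNReal.toReal_ofReal (hp y hy).le]
  rw [mul_comm]
  exact cf_mul_ev ho.dim _ _ (hp y hy).ne' _

/-- the integral in a positive parametrisation -/
theorem chart (hV : VolStmt) (ho : Ori X N o univ) (b : Basis (Fin N) ℝ E₀) {φ : E₀ → X}
    {W : Set E₀} (h : OE (vs E₀) X φ W) (hp : ∀ y ∈ W, 0 < ev (List.ofFn b) (pbM (vs E₀) X φ o y))
    (hα : OcM X (φ '' W) α) : intM X o α = itg b (W.indicator (pbM (vs E₀) X φ α)) := by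
  let L := b.equivFunL.symm
  have hW : IsOpen (L ⁻¹' W) := h.op.preimage L.continuous
  have h1 : OE (vs (Rn N)) X (fun y => φ (L y)) (L ⁻¹' W) :=
    OE.trans (Y := vs E₀) ⟨hW, fun y _ => ldAt_cle L y, L.injective.injOn⟩ h fun _ hy => hy
  have e : ∀ γ : X → Lam E, ∀ y ∈ L ⁻¹' W, ev (List.ofFn (Pi.basisFun ℝ (Fin N)))
      (pbM (vs (Rn N)) X (fun y => φ (L y)) γ y) =
        ev (List.ofFn b) (pbM (vs E₀) X φ γ (L y)) := fun γ y hy => by
    rw [pbM_comp (Y := vs E₀) (ldAt_cle L y).sm (h.sm _ hy), pbM, Df_vs, L.fderiv, ev_mp,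
      List.map_ofFn]
    congr 2
    funext i
    exact b.equivFunL.symm_apply_eq.2
      (by ext j; simp [Pi.single_apply, Finsupp.single_apply, eq_comm])
  have e2 : (fun y => φ (L y)) '' (L ⁻¹' W) = φ '' W := by
    rw [← image_image φ L, image_preimage_eq _ L.surjective]
  rw [chart0 hV ho h1 (fun y hy => e o y hy ▸ hp _ hy) (e2 ▸ hα), itg,
    ← integral_indicator hW.measurableSet]
  refine integral_congr_ae (.of_forall fun y => ?_)
  change _ = ev (List.ofFn b) (W.indicator _ (L y))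
  by_cases hy : y ∈ L ⁻¹' W
  · rw [indicator_of_mem hy, indicator_of_mem (show L y ∈ W from hy), e α y hy]
  · rw [indicator_of_notMem hy, indicator_of_notMem (show L y ∉ W from hy), ev_zero]

theorem stokes (hV : VolStmt) (ho : Ori X N o univ) (hα : OcM X univ α) :
    intM X o (dM X α) = 0 := by
  let b := finBasisOfFinrankEq ℝ E ho.dim
  choose φ W h1 h2 h3 using fun x => ho.exists_chart b (mem_univ x)
  refine hα.loc_ind (P := fun α => intM X o (dM X α) = 0) (fun x => φ x '' W x) (fun x _ => h2 x)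
    ((intM_congr o fun _ => dM_zero).trans (intM_zero o)) (fun α β a1 a2 a3 a4 => ?_)
    fun x _ β hβ => ?_
  · rw [intM_congr o fun x => dM_add (a1.sm x) (a2.sm x), add hV ho a1.dM a2.dM, a3, a4, add_zero]
  · have hβ' := hβ.mono inter_subset_left
    have key : ∀ o, Ori X N o univ → (∀ y ∈ W x, 0 < ev (List.ofFn b) (pbM (vs E) X (φ x) o y)) →
        intM X o (dM X β) = 0 := fun o ho hp => by
      rw [chart hV ho b (h1 x) hp hβ'.dM, ← (h1 x).dM_ind hβ', dM_vs]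
      exact StokesP.itg_dd b (ocM_vs.1 (((h1 x).ocM_pb hβ').mono (subset_univ _)))
    rcases h3 x with h | h
    · exact key o ho h
    · exact neg_eq_zero.1 ((intM_neg_ori o _).symm.trans (key _ ho.neg h))

end IntR

theorem intM_api (hV : VolStmt) : IntMStmt := fun _ _ _ _ _ _ o ho =>
  ⟨fun _ _ => IntR.add hV ho, intM_smul o, fun b _ _ _ => IntR.chart hV ho b,
    fun _ => IntR.stokes hV ho⟩

theorem psh_add (α β : X → Lam E) (y : Y) :
    psh X Y f U (fun x => α x + β x) y = psh X Y f U α y + psh X Y f U β y := by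
  by_cases hy : y ∈ f '' U
  · simp only [psh, indicator_of_mem hy, pbM_add]
  · simp only [psh_of_notMem hy, add_zero]

theorem intOE (hV : VolStmt) : IntOEStmt := by
  intro E E' _ _ _ _ _ _ X Y N o o' f U β ho ho' hf hp hβ
  let b := finBasisOfFinrankEq ℝ E ho.dim
  choose φ W h1 h2 h3 using fun x => ho.exists_chart b (mem_univ x)
  refine hβ.loc_ind (P := fun β => intM Y o' (psh X Y f U β) = intM X o β) (fun x => φ x '' W x)
    (fun x _ => h2 x) ?_ (fun α β a1 a2 a3 a4 => ?_) fun x _ β hβ => ?_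
  · rw [intM_zero, ← intM_zero o']
    exact intM_congr o' fun y => by
      by_cases hy : y ∈ f '' U
      · rw [psh, indicator_of_mem hy, pbM_zero rfl]
      · exact psh_of_notMem hy
  · rw [intM_congr o' (psh_add α β), IntR.add hV ho' ((hf.ocM_psh subset_rfl a1).mono
      (subset_univ _)) ((hf.ocM_psh subset_rfl a2).mono (subset_univ _)), a3, a4,
      IntR.add hV ho (a1.mono (subset_univ _)) (a2.mono (subset_univ _))]
  · have o1 : IsOpen (W x ∩ φ x ⁻¹' U) :=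
      (h1 x).sm.contOn.isOpen_inter_preimage (h1 x).op hf.op
    have g1 := (h1 x).mono o1 inter_subset_left
    have g2 := g1.trans hf fun y hy => hy.2
    have e : φ x '' (W x ∩ φ x ⁻¹' U) = φ x '' W x ∩ U := image_inter_preimage _ _ _
    have key : ∀ o o', Ori X N o univ → Ori Y N o' univ → (∀ x ∈ U, 0 < cf (o x) (pbM X Y f o' x)) →
        (∀ y ∈ W x, 0 < ev (List.ofFn b) (pbM (vs E) X (φ x) o y)) →
        intM Y o' (psh X Y f U β) = intM X o β := fun o o' ho ho' hp hq => by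
      rw [IntR.chart hV ho b g1 (fun y hy => hq y hy.1) (e ▸ hβ), IntR.chart hV ho' b g2
        (fun y hy => ?_) (by rw [← image_image f, e]; exact hf.ocM_psh inter_subset_right hβ)]
      · refine congrArg _ (indicator_congr fun y hy => ?_)
        rw [pbM_comp (g1.sm y hy) (hf.sm _ hy.2), pbM_congr_right (hf.pbM_psh hy.2)]
      · rw [pbM_comp (g1.sm y hy) (hf.sm _ hy.2), pbM, ← cf_mul_ev ho.dim b _ (hq y hy.1).ne']
        exact mul_pos (hp _ hy.2) (hq y hy.1)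
    rcases h3 x with h | h
    · exact key o o' ho ho' hp h
    · have := key _ _ ho.neg ho'.neg (fun x hx => by
        simpa only [pbM_neg, cf, ev_neg, neg_div_neg_eq] using hp x hx) h
      rwa [intM_neg_ori, intM_neg_ori, neg_inj] at this

/-! ### Consequences of `IntP` -/

namespace IntP
variable (h : IntP X N o)
include h

theorem neg (α : X → Lam E) : intM X o (fun x => -α x) = -intM X o α := intM_neg' o α

theorem congr (e : ∀ x, α x = β x) : intM X o α = intM X o β := intM_congr o e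

theorem sub (hα : OcM X univ α) (hβ : OcM X univ β) :
    intM X o (fun x => α x - β x) = intM X o α - intM X o β := by
  simp only [sub_eq_add_neg, h.add _ _ hα hβ.neg, intM_neg']

theorem sum {I : Type} {s : Finset I} {γ : I → X → Lam E} (hγ : ∀ i ∈ s, OcM X univ (γ i)) :
    intM X o (fun x => ∑ i ∈ s, γ i x) = ∑ i ∈ s, intM X o (γ i) := by
  classical
  induction s using Finset.induction_on with
  | empty => simpa using intM_zero o
  | insert a s ha ih =>
    have h2 := fun i hi => hγ i (Finset.mem_insert_of_mem hi)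
    simp only [Finset.sum_insert ha]
    rw [h.add _ _ (hγ a (Finset.mem_insert_self _ _)) (ocM_sum h2), ih h2]

/-- integration by parts -/
theorem ibp (hα : OcM X U α) (hβ : ∀ x ∈ U, FmAt X β x) :
    (intM X o fun x => dM X α x * β x) = -intM X o fun x => inv (α x) * dM X β x := by
  have h1 := hα.mul_right hβ
  rw [eq_neg_iff_add_eq_zero, ← h.add _ _ ((hα.dM.mul_right hβ).mono (subset_univ U))
    ((hα.inv.mul_right fun x hx => (hβ x hx).dM).mono (subset_univ U)),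
    ← h.stokes _ (h1.mono (subset_univ U))]
  refine intM_congr o fun x => ?_
  by_cases hx : x ∈ U
  · exact (dM_mul (hα.sm x) (hβ x hx)).symm
  · rw [h1.dM.zero_of hx, hα.dM.zero_of hx, hα.zero_of hx, map_zero, zero_mul, zero_mul, add_zero]

end IntP

end Pool.Agent.MP_e1dc65_gt

end
end MrgPart1

-- ======== part 2: formerly Pool.Agent.MP_e1dc65_gt.e.aOrq
section MrgPart2

/-! PROJECT HC, part E-A, row ORQ: the rational ball is orientable. -/

open scoped ContDiff Manifold Topology Real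
open Set Filter Function Module Pool.Agent.MP_c8d41b_gt.GF

noncomputable section

namespace Pool.Agent.MP_e1dc65_gt.EA

namespace OrqP

section
variable {E V : Type} [NormedAddCommGroup E] [NormedSpace ℝ E] [FiniteDimensional ℝ E]
  [NormedAddCommGroup V] [NormedSpace ℝ V] [FiniteDimensional ℝ V] {N : ℕ} {X : Mf E} {U : Set X}

/-- two forms that are positive on the same coframe have a positive ratio -/
theorem cf_pos (b : Basis (Fin N) ℝ V) {Θ : E →L[ℝ] V} (hi : Θ.IsInvertible) {o o' : Lam E}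
    (h : PosB b o Θ) (h' : PosB b o' Θ) : 0 < cf o o' := by
  rw [← cf_mp hi.inverse, cf_basis b]
  exact div_pos (posB_iff'.1 h') (posB_iff'.1 h)

/-- a spin structure gives an orientation for which all its coframes are positive -/
theorem spin_ori {C : SpinCover} (sp : Spin C X U) (hd : finrank ℝ E = 5) :
    ∃ o, Ori X 5 o U ∧ ∀ i, ∀ x ∈ sp.W i, PosB (Pi.basisFun ℝ (Fin 5)) (o x) (sp.Θ i x) := by
  have tr : ∀ {o : Lam E} {i j}, ∀ x ∈ sp.W i ∩ sp.W j,
      PosB (Pi.basisFun ℝ (Fin 5)) o (sp.Θ i x) → PosB (Pi.basisFun ℝ (Fin 5)) o (sp.Θ j x) :=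
    fun x hx h => (h.iff_tm (sp.cof _ x hx.1).2).2 (sp.proj _ _ x hx ▸ C.pos _)
  have loc : ∀ p : U, ∃ (i : sp.ι) (O : Set X) (o : X → Lam E), IsOpen O ∧ p.1 ∈ O ∧ O ⊆ sp.W i ∧
      Ori X 5 o O ∧ ∀ y ∈ O, PosB (Pi.basisFun ℝ (Fin 5)) (o y) (sp.Θ i y) := by
    rintro ⟨p, hp⟩
    obtain ⟨i, hi⟩ := sp.cov p hp
    have hs := mem_chart_source E p
    obtain ⟨o, ho, hb⟩ : ∃ o, Ori X 5 o (ch X p).source ∧
        PosB (Pi.basisFun ℝ (Fin 5)) (o p) (sp.Θ i p) := by
      obtain ⟨o, ho⟩ := exists_ori_ch (X := X) hd p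
      rcases posB_or (Pi.basisFun ℝ (Fin 5)) (ho.fm p hs).2 (ho.ne p hs) (sp.cof i p hi).2 with
        h | h
      exacts [⟨o, ho, h⟩, ⟨_, ho.neg, h⟩]
    obtain ⟨O, h1, h2, h3⟩ := eventually_nhds_iff.1
      (((sp.cof i p hi).1.ev_pos (sp.cof i p hi).2 (ho.fm p hs).1 hb).and
        (inter_mem ((sp.op i).mem_nhds hi) ((ch X p).open_source.mem_nhds hs)))
    exact ⟨i, O, o, h2, h3, fun y hy => (h1 y hy).2.1, ho.mono fun y hy => (h1 y hy).2.2,
      fun y hy => (h1 y hy).1⟩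
  choose i O o h1 h2 h3 h4 h5 using loc
  obtain ⟨o', k1, k2⟩ := ori_glue hd h1 h4 fun p q x hx =>
    cf_pos _ (sp.cof _ x (h3 p hx.1)).2 (h5 p x hx.1)
      (tr x ⟨h3 q hx.2, h3 p hx.1⟩ (h5 q x hx.2))
  have hU : U ⊆ ⋃ p, O p := fun x hx => mem_iUnion.2 ⟨⟨x, hx⟩, h2 _⟩
  refine ⟨o', k1.mono hU, fun j x hx => ?_⟩
  have xU := sp.sub j hx
  have hx' := h2 ⟨x, xU⟩
  exact tr x ⟨h3 _ hx', hx⟩ ((h5 _ x hx').of_cf hd ((h4 _).fm x hx').2 (k1.fm x (hU xU)).2
    (k2 _ x hx'))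

theorem atl_open {n : WithTop ℕ∞} (a : Atl X n U) : IsOpen U :=
  isOpen_iff_mem_nhds.2 fun x hx =>
    let ⟨i, hi⟩ := a.cov x hx; mem_of_superset ((a.op i).mem_nhds hi) (a.sub i)

/-- orientations glue over a preconnected overlap -/
theorem ori_union {o o' : X → Lam E} {V : Set X} (h : Ori X N o U) (h' : Ori X N o' V)
    (hU : IsOpen U) (hV : IsOpen V) (hp : IsPreconnected (U ∩ V)) : ∃ o, Ori X N o (U ∪ V) := by
  have key : ∀ {o' : X → Lam E}, Ori X N o' V → (∀ x ∈ U ∩ V, 0 < cf (o x) (o' x)) →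
      ∃ o, Ori X N o (U ∪ V) := by
    intro o' h' hc
    obtain ⟨o'', k, -⟩ := ori_glue (U := fun b => cond b U V) (o := fun b => cond b o o') h.dim
      (by rintro (_ | _); exacts [hV, hU]) (by rintro (_ | _); exacts [h', h]) (by
        rintro (_ | _) (_ | _) x hx
        · exact (h'.cf_self hx.1).symm ▸ one_pos
        · exact cf_pos_symm (hc x ⟨hx.2, hx.1⟩)
        · exact hc x hx
        · exact (h.cf_self hx.1).symm ▸ one_pos)
    exact ⟨o'', by rwa [union_eq_iUnion]⟩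
  rcases (h.mono inter_subset_left).sign (h'.mono inter_subset_right) hp with k | k
  exacts [key h' k, key h'.neg k]

end

variable {Q : Mf E4} {κ : Rn 2 × ℂ → Q}

theorem ld (h : Port Q κ) : ∀ p ∈ (univ : Set (Rn 2)) ×ˢ Metric.ball (0 : ℂ) 30,
    LDAt (vs (Rn 2 × ℂ)) Q κ p := fun p hp => h.ld p.1 p.2 (mem_ball_zero_iff.1 hp.2)

/-- the port is oriented by a constant form -/
theorem ori_port (h : Port Q κ) : ∃ o, Ori Q 4 o (κ '' (univ ×ˢ Metric.ball 0 30)) := by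
  obtain ⟨a, ha, h0⟩ := exists_top (E := Rn 2 × ℂ) (N := 4) (by simp)
  obtain ⟨o, h1, h2⟩ := E.descend_fm (X := vs (Rn 2 × ℂ)) (θ := fun _ => a) (k := 4)
    (isOpen_univ.prod Metric.isOpen_ball) (ld h) (fun x hx x' hx' e => by
      obtain ⟨h3, h4⟩ := (h.eq x.1 x'.1 x.2 x'.2 (mem_ball_zero_iff.1 hx.2)
        (mem_ball_zero_iff.1 hx'.2)).1 e
      refine ⟨fun y => y + (x' - x), smAt_vs.2 (by fun_prop), add_sub_cancel _ _, ?_, ?_⟩
      · filter_upwards [(isOpen_univ.prod Metric.isOpen_ball).mem_nhds hx] with y hy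
        have e2 : (y + (x' - x)).2 = y.2 := by simp [h4]
        refine (h.eq (y + (x' - x)).1 y.1 (y + (x' - x)).2 y.2
          (e2 ▸ mem_ball_zero_iff.1 hy.2) (mem_ball_zero_iff.1 hy.2)).2 ⟨fun i => ?_, e2⟩
        obtain ⟨m, hm⟩ := h3 i
        refine ⟨-m, ?_⟩
        simp only [Prod.fst_add, Prod.fst_sub, Pi.add_apply, Pi.sub_apply]
        push_cast
        linarith
      · rw [pbM, Df_vs, fderiv_add_const, fderiv_fun_id, mp_id])
    fun _ _ => ⟨fmAt_vs.2 contDiffAt_const, ha⟩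
  refine ⟨o, by simp, h1, ?_⟩
  rintro _ ⟨x, hx, rfl⟩ e
  exact h0 ((h2 x hx).symm.trans (pbM_zero e))

theorem pc_ann : IsPreconnected {w : ℂ | 0 < ‖w‖ ∧ ‖w‖ < 30} := by
  have e : {w : ℂ | 0 < ‖w‖ ∧ ‖w‖ < 30} =
      (fun p : ℝ × ℝ => (p.1 : ℂ) * Complex.exp (p.2 * Complex.I)) '' (Ioo 0 30 ×ˢ univ) := by
    refine Subset.antisymm (fun w hw => ⟨(‖w‖, w.arg), ⟨hw, trivial⟩,
      Complex.norm_mul_exp_arg_mul_I w⟩) ?_
    rintro _ ⟨p, ⟨hp, -⟩, rfl⟩
    have : ‖(p.1 : ℂ) * Complex.exp (p.2 * Complex.I)‖ = p.1 := by simp [abs_of_pos hp.1]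
    rwa [mem_ofPred_eq, this]
  rw [e]
  exact (isPreconnected_Ioo.prod isPreconnected_univ).image _ (by fun_prop)

end OrqP

open OrqP in
theorem orq : OrqStmt := by
  intro C Q κ h ⟨sp⟩
  obtain ⟨o5, h5, -⟩ := spin_ori sp (by simp)
  have h4 := (h5.slice (N := 4) (U := (κ '' (univ ×ˢ {0}))ᶜ) 0 fun x hx => ⟨hx, trivial⟩).1
  obtain ⟨o, ho⟩ := ori_port h
  have hU : IsOpen (κ '' (univ ×ˢ {0}))ᶜ := by
    have := (atl_open sp.toAtl).preimage (f := fun x : Q => ((x, 0) : Q.cyl)) (by fun_prop)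
    rwa [mk_preimage_prod_left (mem_univ _)] at this
  have e : (κ '' (univ ×ˢ {0}))ᶜ ∩ κ '' (univ ×ˢ Metric.ball 0 30) =
      κ '' (univ ×ˢ {w | 0 < ‖w‖ ∧ ‖w‖ < 30}) := by
    refine Subset.antisymm ?_ ?_
    · rintro _ ⟨h1, ⟨m, w⟩, ⟨-, hw⟩, rfl⟩
      exact ⟨(m, w), ⟨trivial, norm_pos_iff.2 fun e => h1 ⟨(m, w), ⟨trivial, e⟩, rfl⟩,
        mem_ball_zero_iff.1 hw⟩, rfl⟩
    · rintro _ ⟨⟨m, w⟩, ⟨-, h0, hw⟩, rfl⟩
      refine ⟨?_, (m, w), ⟨trivial, mem_ball_zero_iff.2 hw⟩, rfl⟩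
      rintro ⟨⟨m', w'⟩, ⟨-, h1⟩, e⟩
      obtain rfl : w' = 0 := h1
      exact norm_pos_iff.1 h0 ((h.eq m' m 0 w (by simp) hw).1 e).2.symm
  obtain ⟨o', k⟩ := ori_union h4 ho hU
    (isOpen_image_ld (X := vs (Rn 2 × ℂ)) (isOpen_univ.prod Metric.isOpen_ball) (ld h)) (by
      rw [e]
      exact (isPreconnected_univ.prod pc_ann).image _ fun p hp =>
        (h.ld p.1 p.2 hp.2.2).sm.cont.continuousWithinAt)
  refine ⟨o', k.mono fun x _ => ?_⟩
  by_cases hx : x ∈ κ '' (univ ×ˢ {0})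
  · exact Or.inr (image_mono (prod_mono subset_rfl (by rintro _ rfl; simp)) hx)
  · exact Or.inl hx

end Pool.Agent.MP_e1dc65_gt.EA

end
end MrgPart2

-- ======== part 3: formerly Pool.Agent.MP_e1dc65_gt.o.Asm
section MrgPart3

/-! PROJECT HC, part O: assembly of the rows. -/

open scoped ContDiff Manifold Topology Real
open Set Filter Function Module Pool.Agent.MP_c8d41b_gt.GF

noncomputable section

namespace Pool.Agent.MP_e1dc65_gt.O

theorem exists_step {a b : ℝ} (h : a < b) : ∃ χ, Step χ a b :=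
  ⟨fun t => Real.smoothTransition ((t - a) / (b - a)),
    Real.smoothTransition.contDiff.comp ((contDiff_id.sub contDiff_const).div_const _),
    fun _ ht => Real.smoothTransition.zero_of_nonpos
      (div_nonpos_of_nonpos_of_nonneg (by linarith) (by linarith)),
    fun _ ht => Real.smoothTransition.one_of_one_le
      ((one_le_div (by linarith)).2 (by linarith))⟩

theorem exists_bt {c : ℝ} (h : c ∈ Icc (0 : ℝ) 1) : ∃ t, bt t = c :=
  mem_range_of_exists_le_of_exists_ge bt_sm.continuous ⟨-1, (bt_zero le_rfl).le.trans h.1⟩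
    ⟨1, h.2.trans (bt_one le_rfl).ge⟩

theorem bit_ev {X : Type} [TopologicalSpace X] {u : X → ℝ} {x : X} (hu : ContinuousAt u x)
    (h : ∀ᶠ y in 𝓝 x, Bit (u y)) : ∀ᶠ y in 𝓝 x, u y = u x := by
  filter_upwards [h, hu.eventually (Metric.ball_mem_nhds _ one_pos)] with y h1 h2
  rw [Real.dist_eq, abs_lt] at h2
  rcases h.self_of_nhds with h0 | h0 <;> rcases h1 with h1 | h1 <;> linarith [h2.1, h2.2]

/-- replacing `u` by a steeper step does not change the integral -/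
theorem int_step (hI : IntMStmt) {V : Mf E5} {u : V → ℝ} {K : Set V} {o Ω : V → Lam E5} {χ : ℝ → ℝ}
    {a b : ℝ} (hu : Sm V (vs ℝ) u univ) (hK : IsCompact K) (hb : ∀ z ∉ K, Bit (u z))
    (ho : Ori V 5 o univ) (hΩ : Cl V 4 Ω univ) (hχ : Step χ a b) (h0 : 0 ≤ a) (h1 : b ≤ 1) :
    (intM V o fun y => dF V (fun y => χ (u y)) y * Ω y) = intM V o fun y => dF V u y * Ω y := by
  have I := hI _ V 5 o ho
  have hc : ∀ y, SmAt V (vs ℝ) (fun y => χ (u y)) y := fun y =>
    (hu y trivial).vcomp hχ.sm.contDiffAt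
  have o1 : OcM V univ fun y => (χ (u y) - u y) • Ω y :=
    .of_compact hK (subset_univ _)
      (fun y _ => (hΩ.1 y trivial).1.fsmul ((hc y).sub (hu y trivial))) fun y hy => by
        rcases hb y hy with h | h <;> rw [h]
        · rw [hχ.zero 0 h0, sub_self, zero_smul]
        · rw [hχ.one 1 h1, sub_self, zero_smul]
  have o2 : OcM V univ fun y => dF V u y * Ω y :=
    .of_compact hK (subset_univ _) (fun y _ => (fmAt_dF (hu y trivial)).mul (hΩ.1 y trivial).1)
      fun y hy => by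
        rw [dF_of_ev (bit_ev (hu y trivial).cont
          (mem_of_superset (hK.isClosed.isOpen_compl.mem_nhds hy) hb)), zero_mul]
  have h2 := I.add _ _ o1.dM o2
  rw [I.stokes _ o1, zero_add] at h2
  rw [← h2]
  refine intM_congr o fun y => ?_
  rw [dM_fsmul ((hc y).sub (hu y trivial)) (hΩ.1 y trivial).1, hΩ.2 y trivial, smul_zero, add_zero,
    dF_sub (hc y) (hu y trivial), sub_mul, sub_add_cancel]

theorem finrank_E4 : finrank ℝ E4 = 4 := by simp
theorem finrank_E5 : finrank ℝ E5 = 5 := by simp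

theorem asm (hcol : CollarStmt) (hcaps : CapsStmt) (huf : UFStmt) (hplus : PlusStmt)
    (hsig : Sig0Stmt) (hpl : PontLevStmt) (hspw : SpwStmt) (hspz : SpzStmt) (hport : PortStmt)
    (hd1 : Dbl1Stmt) (hd2 : Dbl2Stmt) (hd3 : Dbl3Stmt) (hI : IntMStmt) (hlev : LevStmt)
    (hli : LevIntStmt) (hori : OriCalcStmt) (hc2 : Cw2Stmt) (hc3 : Cw3Stmt) (hD : DiracStmt) :
    OStmt := by
  intro C D _ _ _ _ hDo hsm
  obtain ⟨h⟩ := hcol D.M D.N hsm
  have hcp := hcaps C D h hDo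
  obtain ⟨U, hU⟩ := huf C D h hDo
  obtain ⟨P, hP⟩ := hplus C D h hDo hcp U hU
  obtain ⟨cn, -⟩ := (hc3 _ P.Z).1 ∅ ∅ (fun _ => 0) (fun _ => 0) finrank_E5 isClosed_empty
    isOpen_empty subset_rfl (fun _ h => h.elim) fun _ _ _ h => h.elim
  obtain ⟨Ω, hT, hΩ⟩ := (hc2 _ P.Z).2.2.1 univ cn
  have h0 := hsig C D h hDo hcp U hU P hP cn Ω hT hΩ
  obtain ⟨cn', hT', -⟩ := (hc2 _ P.Z).2.2.2.2 _ P.Zt P.pp univ univ cn isOpen_univ
    (fun y _ => hP.ld y) (mapsTo_univ _ _)
  have hot : Ori P.Zt 5 (pbM P.Zt P.Z P.pp P.o) univ :=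
    hP.ori.pb finrank_E5 (fun y _ => hP.ld y) (mapsTo_univ _ _)
  have hΩt : Cl P.Zt 4 (pbM P.Zt P.Z P.pp Ω) univ :=
    hΩ.pb (fun y _ => (hP.ld y).sm) (mapsTo_univ _ _)
  obtain ⟨c, δ, X, ν, h1, h2, hL⟩ := hlev E5 E4 P.Zt P.up (1 / 4) (3 / 4)
    (by rw [finrank_E4, finrank_E5]) hP.sm (by norm_num)
    (hP.cpt.of_isClosed_subset (isClosed_Icc.preimage hP.sm.cont) fun z hz => by_contra fun hz' => by
      rcases hP.bit z hz' with e | e <;> linarith [hz.1, hz.2])
    fun c hc => by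
      obtain ⟨t, ht⟩ := exists_bt (c := c) ⟨by linarith [hc.1], by linarith [hc.2]⟩
      exact ⟨P.kQt (Classical.arbitrary _, t), (hP.uQ _).trans ht⟩
  have := hL.cpt
  have hδ := hL.pos
  obtain ⟨o, ho, hpos⟩ := (hori _ X 4).2.1 (pbM X.cyl P.Zt ν (pbM P.Zt P.Z P.pp P.o))
    (univ ×ˢ Ioo (-δ) δ) univ (hot.pb finrank_E5 hL.oe.ld (mapsTo_univ _ _))
    fun _ _ => ⟨trivial, by linarith, hδ⟩
  obtain ⟨χ, hχ⟩ := exists_step (a := c - δ / 2) (b := c + δ / 2) (by linarith)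
  have hw := hpl P.Zt P.up c δ X ν cn' _ hL (hT' Ω hT)
  have hz : intM X o (pbM X P.Zt (fun x => ν (x, 0)) (pbM P.Zt P.Z P.pp Ω)) = 0 := by
    rw [← hli E5 E4 P.Zt P.up c δ X ν _ o _ χ _ _ hP.sm hL hot ho (fun x => hpos x trivial)
      (hΩt.mono (subset_univ _)) hχ (by linarith) (by linarith),
      int_step hI hP.sm hP.cpt hP.bit hot hΩt hχ (by linarith) (by linarith), h0]
  obtain ⟨sp, i, s1, s2⟩ := hspz C D h hDo hcp U hU P hP (hspw C D h hDo U hU) (c - δ) (c + δ)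
    (by linarith) (by linarith)
  obtain ⟨κ, hκ, hps⟩ := hport C P.Zt P.up c δ X D.Q ν P.kQt D.κ hP.sm hL (by linarith)
    (by linarith) hP.glt.oQ hP.uQ ⟨hDo.ldκ, hDo.eqκ⟩ sp i s1 s2
  obtain ⟨Y, e₁, e₂, s, o', S, hY⟩ := hd1 X κ o hκ ho
  obtain ⟨w', hw', e⟩ := hd2 X κ o _ hκ ho Y e₁ e₂ s o' S hY hw
  rw [hz, mul_zero] at e
  have := hY.cpt
  obtain ⟨sp', G, hI | hI⟩ := hd3 C X κ o hκ hps ho Y e₁ e₂ s o' S hY
  · exact hD C Y o' w' s sp' G S hY.ori hI hw' e
  · exact hD C Y _ w' s sp' G S hY.ori.neg hI hw' (by rw [intM_neg_ori, e, neg_zero])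

end Pool.Agent.MP_e1dc65_gt.O

end
end MrgPart3

-- ======== part 4: formerly Pool.Agent.MP_e1dc65_gt.o.Dbl1
section MrgPart4

/-! PROJECT HC, part O, row DBL1: the double along a torus port. -/

open scoped ContDiff Manifold Topology Real
open Set Filter Function Module Pool.Agent.MP_c8d41b_gt.GF

noncomputable section

namespace Pool.Agent.MP_e1dc65_gt.O

open Pol

namespace Dbl1

variable {X Y : Mf E4} {κ : Rn 2 × ℂ → X} {e₁ e₂ : X → Y}

theorem graph (h : Port X κ) {x y : X} (hx : x ∈ Half X κ) (hy : y ∈ Half X κ)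
    (hc : (x, y) ∈ closure ((fun c => (c, rho X κ c)) '' Ann X κ)) :
    ∃ c ∈ Ann X κ, c = x ∧ rho X κ c = y := by
  let B : Set (Rn 4) := Icc ![0, 0, 0, -1] ![2 * π, 2 * π, 2 * π, 1]
  have hB : ∀ z ∈ B, |z 3| ≤ 1 := fun z hz => abs_le.2 ⟨hz.1 3, hz.2 3⟩
  have hB' : ∀ z ∈ B, |(-z) 3| ≤ 1 := fun z hz => by simpa using hB z hz
  have hK : IsCompact ((fun z => (κ (pol z), κ (pol (-z)))) '' B) :=
    isCompact_Icc.image_of_continuousOn fun z hz =>
      ((h.ld_pol (exp_lt_abs (hB z hz))).sm.cont.prodMk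
        ((ld_neg z).trans (h.ld_pol (exp_lt_abs (hB' z hz)))).sm.cont).continuousWithinAt
  have hs : (fun c => (c, rho X κ c)) '' Ann X κ ⊆ (fun z => (κ (pol z), κ (pol (-z)))) '' B := by
    rintro _ ⟨_, ⟨z, hz, rfl⟩, rfl⟩
    obtain ⟨z', h1, h2⟩ := exists_lat z
    have p : Per ![z' 0, z' 1, z' 2, z 3] z := ⟨fun i hi => by
      obtain ⟨m, hm⟩ := h2 i
      refine ⟨-m, ?_⟩
      fin_cases i
      · simp at hm ⊢
        linarith
      · simp at hm ⊢
        linarith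
      · simp at hm ⊢
        linarith
      · exact absurd rfl hi, rfl⟩
    have hz' : ![z' 0, z' 1, z' 2, z 3] ∈ Slab := hz
    refine ⟨![z' 0, z' 1, z' 2, z 3], ⟨fun i => ?_, fun i => ?_⟩, Prod.ext ?_ ?_⟩
    · fin_cases i
      exacts [h1.1 0, h1.1 1, h1.1 2, (abs_lt.1 hz).1.le]
    · fin_cases i
      exacts [h1.2 0, h1.2 1, h1.2 2, (abs_lt.1 hz).2.le]
    · exact (h.eq_pol (slab_exp hz') (slab_exp hz)).2 p
    · exact ((h.eq_pol (slab_exp (slab_neg hz')) (slab_exp (slab_neg hz))).2 p.neg).trans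
        (h.rho_pol hz).symm
  obtain ⟨z, hz, e⟩ := closure_minimal hs hK.isClosed hc
  obtain ⟨rfl, rfl⟩ := Prod.mk.inj e
  have h1 := (h.pol_half (exp_lt_abs (hB z hz))).1 hx
  have h2 := (h.pol_half (exp_lt_abs (hB' z hz))).1 hy
  have h3 : z ∈ Slab := abs_lt.2 ⟨h1, by simpa using h2⟩
  exact ⟨_, ⟨z, h3, rfl⟩, rfl, h.rho_pol h3⟩

/-- the gluing relation -/
def Rel (X : Mf E4) (κ : Rn 2 × ℂ → X) (x x' : X) : Prop :=
  ∃ z : Rn 4, |z 3| < 1 ∧ x = κ (pol z) ∧ x' = κ (pol (-z))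

theorem Rel.symm {x x' : X} (h : Rel X κ x x') : Rel X κ x' x :=
  let ⟨z, h1, h2, h3⟩ := h
  ⟨-z, slab_neg h1, h3, by rwa [neg_neg]⟩

/-- the part outside the unit disc -/
def Out (X : Mf E4) (κ : Rn 2 × ℂ → X) : Set X := (κ '' (univ ×ˢ {w | ‖w‖ < 1}))ᶜ

theorem out_half : Out X κ ⊆ Half X κ := compl_subset_compl.2 (image_mono (prod_mono subset_rfl
  fun _ hw => lt_of_le_of_lt hw (Real.exp_lt_one_iff.2 (by norm_num))))

theorem out_cpt [CompactSpace X] (h : Port X κ) : IsCompact (Out X κ) :=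
  (h.isOpen_img (isOpen_lt continuous_norm continuous_const) fun _ hw =>
    lt_trans hw (by norm_num)).isClosed_compl.isCompact

theorem out_rel (h : Port X κ) {x : X} (hx : x ∈ Half X κ) (ho : x ∉ Out X κ) :
    ∃ x' ∈ Out X κ, Rel X κ x x' := by
  obtain ⟨⟨m, w⟩, ⟨-, hw⟩, rfl⟩ := not_not.1 ho
  have h1 : Real.exp (-1) < ‖w‖ := not_le.1 fun c => hx ⟨(m, w), ⟨trivial, c⟩, rfl⟩
  obtain ⟨z, hz⟩ := pol_surj m (norm_pos_iff.1 ((Real.exp_pos _).trans h1))
  have e := norm_pol z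
  rw [hz] at e
  have h2 : z 3 < 0 := Real.exp_lt_one_iff.1 (e ▸ hw)
  rw [e, Real.exp_lt_exp] at h1
  have h3 : z ∈ Slab := abs_lt.2 ⟨h1, by linarith⟩
  refine ⟨κ (pol (-z)), fun c => ?_, z, h3, congrArg κ hz.symm, rfl⟩
  have := (h.pol_mem (A := {w | ‖w‖ < 1}) (slab_exp (slab_neg h3))
    fun _ hw => lt_trans hw (by norm_num)).1 c
  rw [mem_ofPred_eq, norm_pol, Real.exp_lt_one_iff, Pi.neg_apply] at this
  linarith

/-- the eight fixed points -/
def pt (a : Fin 3 → Fin 2) : Rn 4 := ![π * a 0, π * a 1, π * a 2, 0]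

theorem pt_slab (a : Fin 3 → Fin 2) : pt a ∈ Slab := by simp [pt, Slab]

theorem pt_cs (a : Fin 3 → Fin 2) (i : Fin 3) : pt a i.castSucc = π * a i := by
  fin_cases i <;> rfl

theorem per_of {z z' : Rn 4} (h : ∀ i : Fin 3, ∃ m : ℤ, z i.castSucc - z' i.castSucc = 2 * π * m)
    (h3 : z 3 = z' 3) : Per z z' := ⟨fun i hi => by
  fin_cases i
  exacts [h 0, h 1, h 2, absurd rfl hi], h3⟩

theorem pt_inj {a a' : Fin 3 → Fin 2} (h : Per (pt a) (pt a')) : a = a' := by
  funext i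
  obtain ⟨m, hm⟩ := h.1 i.castSucc (Fin.castSucc_lt_last i).ne
  rw [pt_cs, pt_cs] at hm
  have h1 : ((a i : ℕ) : ℝ) - (a' i : ℕ) = 2 * m :=
    mul_left_cancel₀ Real.pi_ne_zero (by linarith)
  have h2 : ((a i : ℕ) : ℤ) - (a' i : ℕ) = 2 * m := by exact_mod_cast h1
  omega

theorem per_neg {z : Rn 4} : Per z (-z) ↔ ∃ a, Per z (pt a) := by
  constructor
  · intro h
    choose m hm using fun i : Fin 3 => h.1 i.castSucc (Fin.castSucc_lt_last i).ne
    refine ⟨fun i => ⟨(m i % 2).toNat, by omega⟩, per_of (fun i => ⟨m i / 2, ?_⟩) ?_⟩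
    · have h1 := hm i
      have h2 : (((m i % 2).toNat : ℕ) : ℤ) + 2 * (m i / 2) = m i := by omega
      have h3 : (((m i % 2).toNat : ℕ) : ℝ) + 2 * ((m i / 2 : ℤ) : ℝ) = m i := by
        exact_mod_cast h2
      rw [pt_cs]
      rw [Pi.neg_apply, ← h3] at h1
      linarith
    · have := h.2
      rw [Pi.neg_apply] at this
      change z 3 = 0
      linarith
  · rintro ⟨a, h⟩
    refine per_of (fun i => ?_) ?_
    · obtain ⟨m, hm⟩ := h.1 i.castSucc (Fin.castSucc_lt_last i).ne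
      refine ⟨2 * m + (a i : ℕ), ?_⟩
      rw [pt_cs] at hm
      rw [Pi.neg_apply]
      push_cast
      linarith
    · have : z 3 = 0 := h.2
      rw [Pi.neg_apply, this, neg_zero]

theorem rel_self (h : Port X κ) {x : X} : Rel X κ x x ↔ ∃ a, κ (pol (pt a)) = x := by
  constructor
  · rintro ⟨z, hz, h1, h2⟩
    obtain ⟨a, ha⟩ := per_neg.1
      ((h.eq_pol (slab_exp hz) (slab_exp (slab_neg hz))).1 (h1.symm.trans h2))
    exact ⟨a, (h1.trans ((h.eq_pol (slab_exp hz) (slab_exp (pt_slab a))).2 ha)).symm⟩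
  · rintro ⟨a, rfl⟩
    exact ⟨pt a, pt_slab a, rfl, (h.eq_pol (slab_exp (pt_slab a))
      (slab_exp (slab_neg (pt_slab a)))).2 (per_neg.2 ⟨a, fun _ _ => ⟨0, by simp⟩, rfl⟩)⟩

/-- the flip preserves the orientation -/
theorem flip_pos (h : Port X κ) {o : X → Lam E4} (ho : Ori X 4 o univ) {z : Rn 4} (hz : z ∈ Slab) :
    0 < cf (pbM (vs (Rn 4)) X (fun z => κ (pol z)) o z)
      (pbM (vs (Rn 4)) X (fun z => κ (pol (-z))) o z) := by
  have hd : finrank ℝ (Rn 4) = 4 := by simp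
  have h1 : Ori (vs (Rn 4)) 4 (pbM (vs (Rn 4)) X (fun z => κ (pol z)) o) Slab :=
    ho.pb hd (fun _ hz => h.ld_pol (slab_exp hz)) (mapsTo_univ _ _)
  have h2 : Ori (vs (Rn 4)) 4 (pbM (vs (Rn 4)) X (fun z => κ (pol (-z))) o) Slab :=
    ho.pb hd (fun z hz => (ld_neg z).trans (h.ld_pol (slab_exp (slab_neg hz)))) (mapsTo_univ _ _)
  refine (h1.sign h2 slab_convex.isPreconnected).resolve_right (fun c => ?_) z hz
  have h0 : (0 : Rn 4) ∈ Slab := by simp [Slab]
  have c0 := c 0 h0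
  have d : (-ContinuousLinearMap.id ℝ (Rn 4)).det = 1 := by
    rw [← neg_one_smul ℝ, ContinuousLinearMap.det, ContinuousLinearMap.toLinearMap_smul,
      LinearMap.det_smul, hd]
    simp
    norm_num
  have e : Df (vs (Rn 4)) (vs (Rn 4)) (fun z => -z) 0 = -ContinuousLinearMap.id ℝ (Rn 4) := by
    rw [Df_vs]
    exact (hasFDerivAt_id 0).neg.fderiv
  have k : ∀ w : Rn 4 → Lam (Rn 4),
      cf (w 0) (pbM (vs (Rn 4)) (vs (Rn 4)) (fun z => -z) w 0) = cf (w 0) (w 0) := fun w => by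
    rw [pbM, e, neg_zero, cf, ev_mp_det, d, one_mul, cf]
  rw [cf_neg, pbM_comp (X := vs (Rn 4)) (Y := vs (Rn 4)) (f := fun z => -z)
    (g := fun z => κ (pol z)) (ld_neg 0).sm (h.ld_pol (slab_exp (slab_neg h0))).sm, k,
    h1.cf_self h0] at c0
  linarith

theorem ori_psh {e : X → Y} {U : Set X} (he : OE X Y e U) {o : X → Lam E4} (ho : Ori X 4 o univ) :
    Ori Y 4 (psh X Y e U o) (e '' U) := by
  refine ⟨ho.dim, he.fm_psh subset_rfl (ho.fm.mono (subset_univ _)), ?_⟩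
  rintro _ ⟨x, hx, rfl⟩ c
  exact ho.ne x trivial ((he.pbM_psh hx).symm.trans (pbM_zero c))

theorem psh_pos (h : Port X κ) {o : X → Lam E4} (ho : Ori X 4 o univ)
    (o1 : OE X Y e₁ (Half X κ)) (o2 : OE X Y e₂ (Half X κ))
    (eq : ∀ x ∈ Half X κ, ∀ x' ∈ Half X κ, e₁ x = e₂ x' ↔ Rel X κ x x') {y : Y}
    (h1 : y ∈ e₁ '' Half X κ) (h2 : y ∈ e₂ '' Half X κ) :
    0 < cf (psh X Y e₁ (Half X κ) o y) (psh X Y e₂ (Half X κ) o y) := by
  obtain ⟨x, hx, rfl⟩ := h1
  obtain ⟨x', hx', e⟩ := h2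
  obtain ⟨z, hz, rfl, rfl⟩ := (eq x hx x' hx').1 e.symm
  have l1 := h.ld_pol (slab_exp hz)
  have l2 := (ld_neg z).trans (h.ld_pol (slab_exp (slab_neg hz)))
  have ev : (fun z => e₁ (κ (pol z))) =ᶠ[𝓝 z] fun z => e₂ (κ (pol (-z))) := by
    filter_upwards [slab_open.mem_nhds hz] with w hw
    exact (eq _ (h.slab_half hw) _ (h.slab_half (slab_neg hw))).2 ⟨w, hw, rfl, rfl⟩
  rw [← cf_pbM (l1.trans (o1.ld _ hx)), pbM_congr ev (psh X Y e₂ _ o),
    pbM_comp l1.sm (o1.sm _ hx), pbM_comp l2.sm (o2.sm _ hx'),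
    pbM_congr_right (β := o) (o1.pbM_psh hx), pbM_congr_right (β := o) (o2.pbM_psh hx')]
  exact flip_pos h ho hz

end Dbl1

open Dbl1 in
theorem dbl1 : Dbl1Stmt := by
  intro X _ κ o h ho
  classical
  obtain ⟨Y, e₁, e₂, o1, o2, cov, eq0⟩ := glue E4 E4 E4 E4 X X X (Half X κ) (Half X κ) (Ann X κ)
    (fun x => x) (rho X κ) rfl rfl h.half_open h.half_open
    (Or.inl ⟨_, h.slab_half (pt_slab 0)⟩) (oe_id h.ann_open) h.rho_oe h.ann_half
    (h.rho_ann.mono_right h.ann_half) fun _ hx _ hy => graph h hx hy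
  have eq : ∀ x ∈ Half X κ, ∀ x' ∈ Half X κ, e₁ x = e₂ x' ↔ Rel X κ x x' := fun x hx x' hx' => by
    rw [eq0 x hx x' hx']
    constructor
    · rintro ⟨_, ⟨z, hz, rfl⟩, rfl, rfl⟩
      exact ⟨z, hz, rfl, h.rho_pol hz⟩
    · rintro ⟨z, hz, rfl, rfl⟩
      exact ⟨_, ⟨z, hz, rfl⟩, rfl, h.rho_pol hz⟩
  have cv : ∀ y, (∃ x ∈ Half X κ, e₁ x = y) ∨ ∃ x ∈ Half X κ, e₂ x = y := fun y =>
    (cov.symm.subset (mem_univ y))
  let s : Y → Y := fun y => if y ∈ e₁ '' Half X κ then e₂ (invFunOn e₁ (Half X κ) y)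
    else e₁ (invFunOn e₂ (Half X κ) y)
  have s1 : ∀ x ∈ Half X κ, s (e₁ x) = e₂ x := fun x hx => by
    simp only [s, if_pos (mem_image_of_mem e₁ hx), o1.left hx]
  have s2 : ∀ x ∈ Half X κ, s (e₂ x) = e₁ x := fun x hx => by
    by_cases c : e₂ x ∈ e₁ '' Half X κ
    · obtain ⟨x', hx', e⟩ := c
      rw [← e, s1 x' hx']
      exact ((eq x hx x' hx').2 ((eq x' hx' x hx).1 e).symm).symm
    · simp only [s, if_neg c, o2.left hx]
  obtain ⟨o', r1, r2⟩ := ori_glue (X := Y) (N := 4) (U := fun b : Bool => cond b e₁ e₂ '' Half X κ)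
    (o := fun b => psh X Y (cond b e₁ e₂) (Half X κ) o) ho.dim
    (fun b => by
      cases b
      exacts [o2.symm.op, o1.symm.op])
    (fun b => by
      cases b
      exacts [ori_psh o2 ho, ori_psh o1 ho])
    (fun b b' y hy => by
      cases b <;> cases b'
      · exact ((ori_psh o2 ho).cf_self hy.1).symm ▸ one_pos
      · exact cf_pos_symm (psh_pos h ho o1 o2 eq hy.2 hy.1)
      · exact psh_pos h ho o1 o2 eq hy.1 hy.2
      · exact ((ori_psh o1 ho).cf_self hy.1).symm ▸ one_pos)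
  have pos : ∀ b, OE X Y (cond b e₁ e₂) (Half X κ) → ∀ x ∈ Half X κ,
      0 < cf (o x) (pbM X Y (cond b e₁ e₂) o' x) := fun b he x hx => by
    rw [← he.pbM_psh (α := o) hx, cf_pbM (he.ld x hx)]
    exact r2 b _ (mem_image_of_mem _ hx)
  have fx : ∀ x ∈ Half X κ, e₁ x = e₂ x ↔
      e₁ x ∈ Finset.univ.image fun a => e₁ (κ (pol (pt a))) := fun x hx => by
    rw [eq x hx x hx, rel_self h, Finset.mem_image]
    exact ⟨fun ⟨a, e⟩ => ⟨a, Finset.mem_univ _, congrArg e₁ e⟩,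
      fun ⟨a, _, e⟩ => ⟨a, o1.inj (h.slab_half (pt_slab a)) hx e⟩⟩
  refine ⟨Y, e₁, e₂, s, o', Finset.univ.image fun a => e₁ (κ (pol (pt a))), ⟨?_⟩, o1, o2, cov, eq,
    fun y _ => ?_, s1, s2, ?_, fun y => ?_, r1.mono fun y _ => ?_, pos true o1, pos false o2⟩
  · refine (((out_cpt h).image_of_continuousOn (o1.sm.contOn.mono out_half)).union
      ((out_cpt h).image_of_continuousOn (o2.sm.contOn.mono out_half))).of_isClosed_subset
      isClosed_univ fun y _ => ?_
    rcases cv y with ⟨x, hx, rfl⟩ | ⟨x, hx, rfl⟩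
    · by_cases c : x ∈ Out X κ
      · exact Or.inl ⟨x, c, rfl⟩
      · obtain ⟨x', h1, h2⟩ := out_rel h hx c
        exact Or.inr ⟨x', h1, ((eq x hx x' (out_half h1)).2 h2).symm⟩
    · by_cases c : x ∈ Out X κ
      · exact Or.inr ⟨x, c, rfl⟩
      · obtain ⟨x', h1, h2⟩ := out_rel h hx c
        exact Or.inl ⟨x', h1, (eq x' (out_half h1) x hx).2 h2.symm⟩
  · rcases cv y with ⟨x, hx, rfl⟩ | ⟨x, hx, rfl⟩
    · exact (o1.ld x hx).sm_of_comp ((o2.sm x hx).congr'
        (mem_of_superset (o1.op.mem_nhds hx) s1))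
    · exact (o2.ld x hx).sm_of_comp ((o1.sm x hx).congr'
        (mem_of_superset (o1.op.mem_nhds hx) s2))
  · rw [Finset.card_image_of_injective _ fun a a' e => pt_inj
      ((h.eq_pol (slab_exp (pt_slab a)) (slab_exp (pt_slab a'))).1
        (o1.inj (h.slab_half (pt_slab a)) (h.slab_half (pt_slab a')) e))]
    simp
  · rcases cv y with ⟨x, hx, rfl⟩ | ⟨x, hx, rfl⟩
    · rw [s1 x hx, eq_comm, fx x hx]
    · rw [s2 x hx]
      refine ⟨fun e => e ▸ (fx x hx).1 e, fun c => ?_⟩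
      obtain ⟨a, -, e⟩ := Finset.mem_image.1 c
      have ha := h.slab_half (pt_slab a)
      have e' := (eq _ ha _ ha).2 ((rel_self h).2 ⟨a, rfl⟩)
      rw [← o2.inj ha hx (e'.symm.trans e)]
      exact e'
  · rcases cv y with c | c
    · exact mem_iUnion.2 ⟨true, c⟩
    · exact mem_iUnion.2 ⟨false, c⟩

end Pool.Agent.MP_e1dc65_gt.O

end
end MrgPart4

-- marker of a merged file
example : 731051 + 888418 = 731051 + 888418 := rfl

end MrgPart0

-- ======== part 1: formerly Pool.Agent.MP_e1dc65_gt.fm.Pd2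
section MrgPart1

/-! PROJECT HC, row PD2: Poincare duality for boxes in charts and for disjoint unions. -/

open scoped ContDiff Manifold Topology
open Set Filter Function Module MeasureTheory Pool.Agent.MP_c8d41b_gt.GF

set_option linter.unusedSectionVars false

noncomputable section

namespace Pool.Agent.MP_e1dc65_gt

namespace Pd2

variable {E E' : Type} [NormedAddCommGroup E] [NormedSpace ℝ E] [FiniteDimensional ℝ E]
  [NormedAddCommGroup E'] [NormedSpace ℝ E'] [FiniteDimensional ℝ E']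
  {X : Mf E} {Y : Mf E'} {f : X → Y} {U : Set X} {N : ℕ} {o : X → Lam E}

/-! ### Change of orientation -/

theorem vol_neg [MeasurableSpace X] (o : X → Lam E) : vol X (fun x => -o x) = vol X o := by
  have h : IsVol X (fun x => -o x) = IsVol X o := funext fun μ => by
    simp only [IsVol, pbM_neg, ev_neg, abs_neg]
  unfold vol
  rw [h]

theorem intM_neg (o α : X → Lam E) : intM X (fun x => -o x) α = -intM X o α := by
  let _ : MeasurableSpace X := borel X
  unfold intM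
  rw [vol_neg, ← integral_neg]
  simp only [cf, ev_neg, div_neg]

theorem cone_neg (h : ConeM X (fun x => -o x) U) : ConeM X o U := by
  intro φ A h1 h2 h3
  obtain ⟨φ', A', k1, k2, k3⟩ := h (-φ) A h1 h2 fun α hα => by
    rw [intM_neg, ← h3 α hα, LinearMap.neg_apply]
  refine ⟨-φ', A', k1, k2, fun α hα => ?_⟩
  have := k3 α hα
  rw [intM_neg, LinearMap.neg_apply] at this
  rw [LinearMap.neg_apply]
  linarith

/-! ### Transfer along an open embedding -/

/-- push-forward as a linear map -/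
def pshL (X : Mf E) (Y : Mf E') (f : X → Y) (U : Set X) : (X → Lam E) →ₗ[ℝ] (Y → Lam E') where
  toFun := psh X Y f U
  map_add' α β := funext fun y => by
    by_cases hy : y ∈ f '' U
    · simp only [psh, Pi.add_apply, indicator_of_mem hy]; exact pbM_add _ _
    · simp only [psh, Pi.add_apply, indicator_of_notMem hy, add_zero]
  map_smul' c α := funext fun y => by
    by_cases hy : y ∈ f '' U
    · simp only [psh, Pi.smul_apply, indicator_of_mem hy, RingHom.id_apply]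
      exact pbM_fsmul α fun _ => c
    · simp only [psh, Pi.smul_apply, indicator_of_notMem hy, smul_zero]

/-- pull-back, extended by zero, as a linear map -/
def resL (X : Mf E) (Y : Mf E') (f : X → Y) (U : Set X) : (Y → Lam E') →ₗ[ℝ] (X → Lam E) where
  toFun α := U.indicator (pbM X Y f α)
  map_add' α β := funext fun y => by
    by_cases hy : y ∈ U
    · simp only [Pi.add_apply, indicator_of_mem hy]; exact pbM_add _ _
    · simp only [Pi.add_apply, indicator_of_notMem hy, add_zero]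
  map_smul' c α := funext fun y => by
    by_cases hy : y ∈ U
    · simp only [Pi.smul_apply, indicator_of_mem hy, RingHom.id_apply]
      exact pbM_fsmul α fun _ => c
    · simp only [Pi.smul_apply, indicator_of_notMem hy, smul_zero]

theorem res_mem {x : X} (hx : x ∈ U) (α : Y → Lam E') : resL X Y f U α x = pbM X Y f α x :=
  indicator_of_mem hx _
theorem res_not {x : X} (hx : x ∉ U) (α : Y → Lam E') : resL X Y f U α x = 0 :=
  indicator_of_notMem hx _
theorem res_ev (hU : IsOpen U) {x : X} (hx : x ∈ U) (α : Y → Lam E') :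
    resL X Y f U α =ᶠ[𝓝 x] pbM X Y f α :=
  mem_of_superset (hU.mem_nhds hx) fun _ hz => res_mem hz α

theorem ocM_res (h : OE X Y f U) {α : Y → Lam E'} (hα : OcM Y (f '' U) α) :
    OcM X U (resL X Y f U α) := by
  have hs : invFunOn f U '' tsupport α ⊆ U := by
    rintro _ ⟨y, hy, rfl⟩
    exact invFunOn_mem (hα.sub hy)
  refine .of_compact (hα.cpt.isCompact.image_of_continuousOn (h.symm.sm.contOn.mono hα.sub)) hs
    (fun x hx => ((hα.sm _).pb (h.sm x (hs hx))).congr' (res_ev h.op (hs hx) α)) fun x hx => ?_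
  by_cases h1 : x ∈ U
  · rw [res_mem h1]
    exact pbM_zero (image_eq_zero_of_notMem_tsupport fun h2 => hx ⟨f x, h2, h.left h1⟩)
  · exact res_not h1 α

theorem psh_congr (h : OE X Y f U) {α β : X → Lam E} {x : X} (hx : x ∈ U) (e : α x = β x) :
    psh X Y f U α (f x) = psh X Y f U β (f x) :=
  mp_injective (h.ld x hx).inv ((h.pbM_psh hx).trans (e.trans (h.pbM_psh hx).symm))

theorem psh_res (h : OE X Y f U) {α : Y → Lam E'} (hα : OcM Y (f '' U) α) :
    psh X Y f U (resL X Y f U α) = α := funext fun y => by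
  by_cases hy : y ∈ f '' U
  · obtain ⟨x, hx, rfl⟩ := hy
    rw [psh_congr h hx (res_mem hx α), h.psh_pbM (mem_image_of_mem f hx)]
  · rw [psh_of_notMem hy, hα.zero_of hy]

theorem res_psh (h : OE X Y f U) {α : X → Lam E} (hα : OcM X U α) :
    resL X Y f U (psh X Y f U α) = α := funext fun x => by
  by_cases hx : x ∈ U
  · rw [res_mem hx, h.pbM_psh hx]
  · rw [res_not hx, hα.zero_of hx]

theorem res_dinv (h : OE X Y f U) {α : Y → Lam E'} (hα : OcM Y (f '' U) α) :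
    resL X Y f U (dM Y fun y => inv (α y)) = dM X fun x => inv (resL X Y f U α x) :=
  funext fun x => by
    by_cases hx : x ∈ U
    · rw [res_mem hx, ← dM_pb (h.sm x hx) (hα.sm _).inv]
      exact dM_congr ((res_ev (f := f) h.op hx α).mono fun z hz => by simp only [hz, pbM_inv'])
    · rw [res_not hx, (ocM_res h hα).inv.dM.zero_of hx]

theorem psh_dinv (h : OE X Y f U) {α : X → Lam E} (hα : OcM X U α) :
    psh X Y f U (dM X fun x => inv (α x)) = dM Y fun y => inv (psh X Y f U α y) := by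
  have h1 := h.ocM_psh subset_rfl hα
  rw [← psh_res h h1.inv.dM, res_dinv h h1, res_psh h hα]

theorem res_mul (α β : Y → Lam E') :
    resL X Y f U (fun y => α y * β y) = fun x => resL X Y f U α x * pbM X Y f β x :=
  funext fun x => by
    by_cases hx : x ∈ U
    · rw [res_mem hx, res_mem hx, pbM_mul]
    · rw [res_not hx, res_not hx, zero_mul]

/-- duality for a general integration functional -/
def ConeJ (X : Mf E) (J : (X → Lam E) → ℝ) (U : Set X) : Prop :=
  ∀ (φ : (X → Lam E) →ₗ[ℝ] ℝ) (A : X → Lam E), (∀ x ∈ U, FmAt X A x) → (∀ x ∈ U, dM X A x = 0) →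
    (∀ α, OcM X U α → -φ (dM X fun x => inv (α x)) = J fun x => α x * A x) →
    ∃ (φ' : (X → Lam E) →ₗ[ℝ] ℝ) (A' : X → Lam E), (∀ x ∈ U, FmAt X A' x) ∧
      (∀ x ∈ U, dM X A' x = A x) ∧
      ∀ α, OcM X U α → φ α = -φ' (dM X fun x => inv (α x)) + J fun x => α x * A' x

theorem transfer {J : (X → Lam E) → ℝ} {J' : (Y → Lam E') → ℝ} (hC : ConeJ X J U) (h : OE X Y f U)
    (hJ : ∀ β, OcM Y (f '' U) β → J' β = J (resL X Y f U β)) : ConeJ Y J' (f '' U) := by
  intro Φ A h1 h2 h3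
  have hi : ∀ α β, OcM Y (f '' U) α → (∀ x ∈ f '' U, FmAt Y β x) →
      (J' fun x => α x * β x) = J fun y => resL X Y f U α y * pbM X Y f β y :=
    fun α β hα hβ => by rw [hJ _ (hα.mul_right hβ), res_mul]
  obtain ⟨Φ', A', k1, k2, k3⟩ := hC (Φ.comp (pshL X Y f U)) (pbM X Y f A)
    (fun y hy => (h1 _ (mem_image_of_mem f hy)).pb (h.sm y hy))
    (fun y hy => by
      rw [dM_pb (h.sm y hy) (h1 _ (mem_image_of_mem f hy))]
      exact pbM_zero (h2 _ (mem_image_of_mem f hy)))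
    fun α hα => by
      have e := h3 _ (h.ocM_psh subset_rfl hα)
      rw [hi _ _ (h.ocM_psh subset_rfl hα) h1, res_psh h hα, ← psh_dinv h hα] at e
      exact e
  have k4 : ∀ x ∈ f '' U, FmAt Y (psh X Y f U A') x := by
    rintro _ ⟨y, hy, rfl⟩
    exact h.fmAt_psh hy (k1 y hy)
  refine ⟨Φ'.comp (resL X Y f U), psh X Y f U A', k4, ?_, fun α hα => ?_⟩
  · rintro _ ⟨y, hy, rfl⟩
    rw [h.dM_psh hy (k1 y hy), psh_congr h hy (k2 y hy), h.psh_pbM (mem_image_of_mem f hy)]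
  · have e := k3 _ (ocM_res h hα)
    rw [LinearMap.comp_apply, show pshL X Y f U (resL X Y f U α) = α from psh_res h hα,
      ← res_dinv h hα] at e
    rw [e, hi _ _ hα k4]
    refine congrArg₂ _ rfl (congrArg J (funext fun y => ?_))
    by_cases hy : y ∈ U
    · rw [h.pbM_psh hy]
    · rw [res_not hy, zero_mul, zero_mul]

theorem coneJ_vs {b : Basis (Fin N) ℝ E} {B : Set E} (hB : IsOpen B) (hC : Cone b B) :
    ConeJ (vs E) (itg b) B := by
  intro Φ A h1 h2 h3
  obtain ⟨Φ', A', k1, k2, k3⟩ := hC Φ A (fun y hy => (fmAt_vs.1 (h1 y hy)).contDiffWithinAt)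
    (fun y hy => (congrFun (dM_vs A) y).symm.trans (h2 y hy)) fun α hα =>
      (congrArg (fun t => -Φ t) (dM_vs _)).symm.trans (h3 α (ocM_vs.2 hα))
  exact ⟨Φ', A', fun y hy => fmAt_vs.2 (k1.contDiffAt (hB.mem_nhds hy)),
    fun y hy => (congrFun (dM_vs A') y).trans (k2 y hy), fun α hα => (k3 α (ocM_vs.1 hα)).trans
      (congrArg (fun t => -Φ' t + itg b fun x => α x * A' x) (dM_vs _)).symm⟩

/-- a positive chart -/
theorem box_pos (hI : IntP X N o) {b : Basis (Fin N) ℝ E} {φ : E → X} {B : Set E}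
    (hC : Cone b B) (h : OE (vs E) X φ B)
    (hp : ∀ y ∈ B, 0 < ev (List.ofFn b) (pbM (vs E) X φ o y)) : ConeM X o (φ '' B) :=
  transfer (coneJ_vs h.op hC) h fun β hβ => hI.chart b φ B β h hp hβ

theorem box_conn {b : Basis (Fin N) ℝ E} {B : Set E}
    (h : Pool.Agent.MP_c8d41b_gt.GF.Box b B) : IsPreconnected B := by
  obtain ⟨lo, hi, rfl⟩ := h
  have : {x | ∀ i, lo i < b.repr x i ∧ b.repr x i < hi i} =
      ⋂ i, (b.coord i) ⁻¹' Ioo (lo i) (hi i) := by ext x; simp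
  rw [this]
  exact (convex_iInter fun i => (convex_Ioo _ _).linear_preimage _).isPreconnected

theorem boxes (hI : IntMStmt) (ho : Ori X N o univ) (b : Basis (Fin N) ℝ E) (φ : E → X)
    (B : Set E) (hB : Pool.Agent.MP_c8d41b_gt.GF.Box b B) (h : OE (vs E) X φ B) :
    ConeM X o (φ '' B) := by
  have hC : Cone b B := (box homot (fib par bump) bump stokes E N b B hB).1
  have h1 : Ori (vs E) N (pbM (vs E) X φ o) B := ho.pb ho.dim h.ld (mapsTo_univ _ _)
  have h2 : ContinuousOn (fun y => ev (List.ofFn b) (pbM (vs E) X φ o y)) B := fun y hy => by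
    simp only [ev_eq]
    exact (cda_lin _ (fmAt_vs.1 (h1.fm y hy).1)).continuousAt.continuousWithinAt
  have h3 : ∀ y ∈ B, ev (List.ofFn b) (pbM (vs E) X φ o y) ≠ 0 := fun y hy =>
    ev_basis_ne b (h1.fm y hy).2 (h1.ne y hy)
  by_cases hp : ∀ y ∈ B, 0 < ev (List.ofFn b) (pbM (vs E) X φ o y)
  · exact box_pos (hI E X N o ho) hC h hp
  · push Not at hp
    obtain ⟨y, hy, hy0⟩ := hp
    refine cone_neg (box_pos (hI E X N _ ho.neg) hC h fun z hz => ?_)
    rw [pbM_neg, ev_neg, neg_pos]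
    by_contra hn
    obtain ⟨w, hw, e⟩ := (box_conn hB).intermediate_value hy hz h2 ⟨hy0, not_lt.1 hn⟩
    exact h3 w hw e

/-! ### Disjoint unions -/

/-- maps that are linear on compactly supported forms extend to linear maps -/
theorem extend (W : Set X) (g : (X → Lam E) → ℝ)
    (ha : ∀ α β, OcM X W α → OcM X W β → g (α + β) = g α + g β)
    (hs : ∀ (c : ℝ) α, OcM X W α → g (c • α) = c • g α) :
    ∃ L : (X → Lam E) →ₗ[ℝ] ℝ, ∀ α, OcM X W α → L α = g α := by
  let S : Submodule ℝ (X → Lam E) :=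
    { carrier := {α | OcM X W α}
      add_mem' := OcM.add
      zero_mem' := OcM.zero
      smul_mem' := fun c _ h => OcM.smul h c }
  let g0 : S →ₗ[ℝ] ℝ :=
    { toFun := fun α => g α
      map_add' := fun α β => ha _ _ α.2 β.2
      map_smul' := fun c α => hs c _ α.2 }
  obtain ⟨L, hL⟩ := g0.exists_extend
  exact ⟨L, fun α h => LinearMap.congr_fun hL ⟨α, h⟩⟩

theorem intM_sum (hI : IntP X N o) {I : Type} (s : Finset I) {γ : I → X → Lam E}
    (h : ∀ i, OcM X univ (γ i)) :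
    (intM X o fun x => ∑ i ∈ s, γ i x) = ∑ i ∈ s, intM X o (γ i) := by
  classical
  induction s using Finset.induction_on with
  | empty => simpa using hI.smul 0 fun _ => 0
  | insert a s ha ih =>
    simp only [Finset.sum_insert ha]
    rw [hI.add _ _ (h a) (ocM_sum fun i _ => h i), ih]

variable {ι : Type} {V : ι → Set X} {α : X → Lam E}

theorem ocM_ind (hV : ∀ i, IsOpen (V i)) (hd : Pairwise fun i j => Disjoint (V i) (V j))
    (hα : OcM X (⋃ i, V i) α) (i : ι) : OcM X (V i) ((V i).indicator α) := by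
  have hs : tsupport α \ (⋃ j ∈ {j | j ≠ i}, V j) ⊆ V i := fun x hx => by
    obtain ⟨j, hj⟩ := mem_iUnion.1 (hα.sub hx.1)
    by_cases e : j = i
    · exact e ▸ hj
    · exact (hx.2 (mem_biUnion (t := V) e hj)).elim
  refine .of_compact (hα.cpt.isCompact.diff (isOpen_biUnion fun j _ => hV j)) hs
    (fun x hx => (hα.sm x).congr' (mem_of_superset ((hV i).mem_nhds (hs hx)) fun z hz =>
      indicator_of_mem hz α)) fun x hx => ?_
  by_cases h1 : x ∈ V i
  · rw [indicator_of_mem h1]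
    refine image_eq_zero_of_notMem_tsupport fun h2 => hx ⟨h2, fun h3 => ?_⟩
    obtain ⟨j, hj, h4⟩ := mem_iUnion₂.1 h3
    exact disjoint_left.1 (hd hj) h4 h1
  · exact indicator_of_notMem h1 α

theorem exists_fin (hV : ∀ i, IsOpen (V i)) (hd : Pairwise fun i j => Disjoint (V i) (V j))
    (hα : OcM X (⋃ i, V i) α) : ∃ s : Finset ι, ∀ i ∉ s, ∀ x ∈ V i, x ∉ tsupport α := by
  obtain ⟨s, hs⟩ := hα.cpt.isCompact.elim_finite_subcover V hV hα.sub
  refine ⟨s, fun i hi x hx h1 => ?_⟩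
  obtain ⟨j, hj, h2⟩ := mem_iUnion₂.1 (hs h1)
  exact disjoint_left.1 (hd (fun e : i = j => hi (e ▸ hj))) hx h2

theorem ind_zero {s : Finset ι} {β : X → Lam E} (hs : ∀ i ∉ s, ∀ x ∈ V i, x ∉ tsupport α)
    (hβ : ∀ x ∉ tsupport α, β x = 0) {i : ι} (hi : i ∉ s) : (V i).indicator β = 0 :=
  funext fun x => by
    by_cases hx : x ∈ V i
    · rw [indicator_of_mem hx]; exact hβ x (hs i hi x hx)
    · exact indicator_of_notMem hx β

theorem sum_ind (hd : Pairwise fun i j => Disjoint (V i) (V j)) (hα : OcM X (⋃ i, V i) α)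
    {s : Finset ι} (hs : ∀ i ∉ s, ∀ x ∈ V i, x ∉ tsupport α) (x : X) :
    ∑ i ∈ s, (V i).indicator α x = α x := by
  by_cases hx : x ∈ tsupport α
  · obtain ⟨j, hj⟩ := mem_iUnion.1 (hα.sub hx)
    rw [Finset.sum_eq_single j (fun i _ e => indicator_of_notMem (disjoint_right.1 (hd e) hj) α)
      fun h => (hs j h x hj hx).elim, indicator_of_mem hj]
  · have h0 := image_eq_zero_of_notMem_tsupport hx
    rw [h0]
    exact Finset.sum_eq_zero fun i _ => indicator_apply_eq_zero.2 fun _ => h0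

theorem ind_dinv (hV : ∀ i, IsOpen (V i)) (hd : Pairwise fun i j => Disjoint (V i) (V j))
    (hα : OcM X (⋃ i, V i) α) (i : ι) :
    (V i).indicator (dM X fun x => inv (α x)) = dM X fun x => inv ((V i).indicator α x) :=
  funext fun x => by
    by_cases hx : x ∈ V i
    · rw [indicator_of_mem hx]
      exact dM_congr (mem_of_superset ((hV i).mem_nhds hx) fun z hz => by
        simp only [mem_ofPred_eq, indicator_of_mem hz])
    · rw [indicator_of_notMem hx, (ocM_ind hV hd hα i).inv.dM.zero_of hx]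

theorem unions (hI : IntP X N o) (hV : ∀ i, IsOpen (V i))
    (hd : Pairwise fun i j => Disjoint (V i) (V j)) (h : ∀ i, ConeM X o (V i)) :
    ConeM X o (⋃ i, V i) := by
  classical
  intro Φ A h1 h2 h3
  choose Φ' A' k1 k2 k3 using fun i => h i Φ A (fun x hx => h1 x (mem_iUnion_of_mem i hx))
    (fun x hx => h2 x (mem_iUnion_of_mem i hx)) fun α hα => h3 α (hα.mono (subset_iUnion V i))
  have hfin : ∀ β, OcM X (⋃ i, V i) β → (support fun i => Φ' i ((V i).indicator β)).Finite :=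
    fun β hβ => by
      obtain ⟨s, hs⟩ := exists_fin hV hd hβ
      refine s.finite_toSet.subset fun i hi => by_contra fun h0 => hi ?_
      simp only [ind_zero hs (fun _ => image_eq_zero_of_notMem_tsupport) h0, map_zero]
  obtain ⟨L, hL⟩ := extend (⋃ i, V i) (fun β => ∑ᶠ i, Φ' i ((V i).indicator β))
    (fun α β hα hβ => by
      rw [← finsum_add_distrib (hfin α hα) (hfin β hβ)]
      exact finsum_congr fun i => by rw [indicator_add', map_add])
    fun c α hα => by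
      rw [smul_finsum' c (hfin α hα)]
      exact finsum_congr fun i => by
        rw [← map_smul]
        exact congrArg _ (funext fun x => indicator_const_smul_apply _ c α x)
  let B : X → Lam E := fun x => if hx : ∃ i, x ∈ V i then A' hx.choose x else 0
  have hB : ∀ i, ∀ x ∈ V i, B x = A' i x := fun i x hx => by
    have hx' : ∃ i, x ∈ V i := ⟨i, hx⟩
    have e : hx'.choose = i := by_contra fun e => disjoint_left.1 (hd e) hx'.choose_spec hx
    simp only [B, dif_pos hx', e]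
  have hB' : ∀ i, ∀ x ∈ V i, B =ᶠ[𝓝 x] A' i := fun i x hx =>
    mem_of_superset ((hV i).mem_nhds hx) (hB i)
  refine ⟨L, B, fun x hx => ?_, fun x hx => ?_, fun α hα => ?_⟩
  · obtain ⟨i, hi⟩ := mem_iUnion.1 hx
    exact (k1 i x hi).congr' (hB' i x hi)
  · obtain ⟨i, hi⟩ := mem_iUnion.1 hx
    rw [dM_congr (hB' i x hi), k2 i x hi]
  · obtain ⟨s, hs⟩ := exists_fin hV hd hα
    have e1 : Φ α = ∑ i ∈ s, Φ ((V i).indicator α) := by
      rw [← map_sum]
      exact congrArg _ (funext fun x => by rw [Finset.sum_apply, sum_ind hd hα hs])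
    have e2 : L (dM X fun x => inv (α x)) =
        ∑ i ∈ s, Φ' i (dM X fun x => inv ((V i).indicator α x)) := by
      rw [hL _ hα.inv.dM, finsum_eq_sum_of_support_subset (s := s)]
      · exact Finset.sum_congr rfl fun i _ => by rw [ind_dinv hV hd hα]
      · refine fun i hi => by_contra fun h0 => hi ?_
        have := ind_zero (β := dM X fun x => inv (α x)) hs (fun x hx => dM_of_ev
          ((OcM.ev_zero hx).mono fun z hz => by rw [hz, map_zero])) h0
        simp only [this, map_zero]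
    have e3 : (intM X o fun x => α x * B x) =
        ∑ i ∈ s, intM X o fun x => (V i).indicator α x * A' i x := by
      rw [← intM_sum hI s fun i =>
        ((ocM_ind hV hd hα i).mul_right (k1 i)).mono (subset_univ _)]
      refine congrArg _ (funext fun x => ?_)
      rw [← sum_ind hd hα hs x, Finset.sum_mul]
      refine Finset.sum_congr rfl fun i _ => ?_
      by_cases hx : x ∈ V i
      · rw [hB i x hx]
      · rw [indicator_of_notMem hx, zero_mul, zero_mul]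
    rw [e1, e2, e3, ← Finset.sum_neg_distrib, ← Finset.sum_add_distrib]
    exact Finset.sum_congr rfl fun i _ => k3 i _ (ocM_ind hV hd hα i)

end Pd2

theorem coneBox (hI : IntMStmt) : ConeBoxStmt := fun E _ _ _ X N o ho =>
  ⟨Pd2.boxes hI ho, fun _ _ hV hd h => Pd2.unions (hI E X N o ho) hV hd h⟩

end Pool.Agent.MP_e1dc65_gt

end
end MrgPart1

-- ======== part 2: formerly Pool.Agent.MP_e1dc65_gt.o.Iso
section MrgPart2

-- ======== part 0: formerly Pool.Agent.MP_e1dc65_gt.o.Chain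
section MrgPart0

/-! PROJECT HC, part O, rows TRIV and CHAIN. -/

open scoped ContDiff Manifold Topology Real
open Set Filter Function Module Pool.Agent.MP_c8d41b_gt.GF

noncomputable section

namespace Pool.Agent.MP_e1dc65_gt.O

theorem Chain.int_ev {X : Type} [TopologicalSpace X] {u : X → ℝ} {x : X} {S : Set X}
    (hS : S ∈ 𝓝 x) (hu : ContinuousAt u x) (h : ∀ y ∈ S, ∃ n : ℤ, u y = n) :
    ∀ᶠ y in 𝓝 x, u y = u x := by
  filter_upwards [hS, hu.eventually (Metric.ball_mem_nhds _ one_pos)] with y h1 h2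
  obtain ⟨n, hn⟩ := h y h1
  obtain ⟨m, hm⟩ := h x (mem_of_mem_nhds hS)
  rw [Real.dist_eq, hn, hm, ← Int.cast_sub, ← Int.cast_abs, ← Int.cast_one, Int.cast_lt,
    Int.abs_lt_one_iff, sub_eq_zero] at h2
  rw [hn, hm, h2]

theorem triv : TrivStmt := by
  intro V Vh q U S b I k hc hS hI hb hn hz
  have qc : Continuous q := hc.cov.continuous
  have Uc : Continuous U := hc.sm.cont
  let T : ℤ → Set Vh := fun n => {z | q z ∈ S ∧ U z = b (q z) + n ∧ U z ∈ I}
  have hT : ∀ n, IsOpen (T n) := fun n => isOpen_iff_mem_nhds.2 fun z hz => by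
    have h1 : q ⁻¹' S ∈ 𝓝 z := (hS.preimage qc).mem_nhds hz.1
    have h2 : ContinuousAt (fun z => U z - b (q z)) z :=
      Uc.continuousAt.sub ((hb.continuousAt (hS.mem_nhds hz.1)).comp qc.continuousAt)
    filter_upwards [h1, Chain.int_ev h1 h2 fun y hy => (hn y hy).imp fun n e => by linarith,
      (hI.preimage Uc).mem_nhds hz.2.2] with y a1 a2 a3
    exact ⟨a1, by linarith [hz.2.1], a3⟩
  have e : q ⁻¹' S ∩ U ⁻¹' I = ⋃ n, T n := subset_antisymm
    (fun z hz => mem_iUnion.2 ((hn z hz.1).imp fun n e => .intro hz.1 ⟨e, hz.2⟩))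
    (iUnion_subset fun n z hz => ⟨hz.1, hz.2.2⟩)
  rw [e]
  refine Hzb.disj hT (fun n m hnm => disjoint_left.2 fun z h1 h2 => hnm
    (Int.cast_injective (α := ℝ) (by linarith [h1.2.1, h2.2.1]))) fun n => ?_
  have o : OE Vh V q (T n) := ⟨hT n, fun z _ => hc.ld z, fun z h1 z' h2 e =>
    hc.inj z z' e (by rw [h1.2.1, h2.2.1, e])⟩
  have e' : q '' T n = {w | w ∈ S ∧ b w + n ∈ I} := by
    refine subset_antisymm ?_ fun w hw => ?_
    · rintro _ ⟨z, hz, rfl⟩
      exact ⟨hz.1, hz.2.1 ▸ hz.2.2⟩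
    · obtain ⟨z, rfl⟩ := hc.sur w
      obtain ⟨m, hm⟩ := hn z hw.1
      obtain ⟨z', h1, h2⟩ := hc.ex z (n - m)
      have h3 : U z' = b (q z) + n := by rw [h2, hm]; push_cast; ring
      exact ⟨z', ⟨h1 ▸ hw.1, h1 ▸ h3, h3 ▸ hw.2⟩, h1⟩
  exact o.hz_of_image (e' ▸ hz n)

namespace Chain

/-- the cover over a product piece of an end -/
theorem piece {V Vh : Mf E5} {q : Vh → V} {U : Vh → ℝ} (hc : Circ V Vh q U) {X : Mf E4}
    {c : X.cyl → V} (o : OE X.cyl V c univ) {G : Set X} (hG : IsOpen G) {β : X → ℝ}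
    (hβ : ContinuousOn β G) (hn : ∀ z, ∀ m ∈ G, ∀ s, 3 < s → q z = c (m, s) →
      ∃ n : ℤ, U z = β m + n) {k : ℕ} (hz : HZ X k G) : HZ Vh k (q ⁻¹' (c '' (G ×ˢ Ioi 3))) := by
  have hO : IsOpen (G ×ˢ Ioi (3 : ℝ)) := hG.prod isOpen_Ioi
  have := triv V Vh q U (c '' (G ×ˢ Ioi 3)) (fun w => β (invFunOn c univ w).1) univ k hc
    (o.isOpen_image hO (subset_univ _)) isOpen_univ ?_ ?_ fun n => ?_
  · simpa using this
  · refine hβ.comp (continuous_fst.comp_continuousOn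
      (o.symm.sm.contOn.mono (image_mono (subset_univ _)))) ?_
    rintro _ ⟨p, hp, rfl⟩
    simpa only [o.left (mem_univ p)] using hp.1
  · rintro z ⟨p, hp, e⟩
    rw [← e, o.left trivial]
    exact hn z _ hp.1 _ hp.2 e.symm
  · simpa only [mem_univ, and_true, ofPred_mem_eq] using (o.mono hO (subset_univ _)).hz_image
      (Hza.cyl homM hG isOpen_Ioi ordConnected_Ioi hz)

/-- the step cut at the middle of the neck -/
def g (t : ℝ) : ℝ := if t < 0 then bt t else bt t - 1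

theorem g_cont {t : ℝ} (ht : t ≠ 0) : ContinuousAt g t := by
  rcases ht.lt_or_gt with h | h
  · refine bt_sm.continuous.continuousAt.congr ?_
    filter_upwards [Iio_mem_nhds h] with s hs using (if_pos hs).symm
  · refine (bt_sm.continuous.sub continuous_const (g := fun _ => 1)).continuousAt.congr ?_
    filter_upwards [Ioi_mem_nhds h] with s hs using (if_neg (lt_asymm hs)).symm

theorem g_zero {t : ℝ} (ht : t ∉ Icc (-1 : ℝ) 1) : g t = 0 := by
  unfold g
  split_ifs with h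
  · exact bt_zero (by_contra fun h' => ht ⟨by linarith, by linarith⟩)
  · rw [bt_one (by_contra fun h' => ht ⟨by linarith, by linarith⟩), sub_self]

theorem g_int (t : ℝ) : ∃ n : ℤ, bt t = g t + n := by
  unfold g
  split_ifs
  exacts [⟨0, by simp⟩, ⟨1, by simp⟩]

end Chain

open Chain in
theorem chain : ChainStmt := by
  intro C D h hD U P hP Vh q V hc hN
  have := hD.cptF
  have o : OE D.M.cyl P.Z (fun p => P.j (h.cM p)) univ := h.oeM.trans hP.gl.oj (mapsTo_univ _ _)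
  have ν := hD.neckM
  have cl : ∀ J : Set ℝ, IsCompact J → IsOpen (D.νM '' (univ ×ˢ J))ᶜ := fun J hJ =>
    ((isCompact_univ.prod hJ).image ν.sm.cont).isClosed.isOpen_compl
  have F0 : HZ D.F 0 univ := Hzb.perf (hza homM) isOpen_univ hD.perf
  have F1 : HZ D.F 1 univ := by
    obtain ⟨w, hw⟩ := hD.oriM
    obtain ⟨w', h', -⟩ := (oriCalc _ D.F 3).2.1 _ univ univ
      (hw.pb (by simp) ν.ld (mapsTo_univ _ _)) fun _ _ => trivial
    have I := intM_api volM
    exact hz_closed3 I (pdM I (coneMV I) (coneBox I)) h' F0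
  have G0 := cl {0} isCompact_singleton
  have G1 := ν.symm.op
  have b1 : ContinuousOn (fun m => (invFunOn D.νM univ m).2) (D.νM '' univ) :=
    continuous_snd.comp_continuousOn ν.symm.sm.contOn
  have n1 : ∀ z, ∀ m ∈ D.νM '' univ, ∀ s, 3 < s → q z = P.j (h.cM (m, s)) →
      ∃ n : ℤ, V z = bt (invFunOn D.νM univ m).2 + n := by
    rintro z _ ⟨p, -, rfl⟩ s hs e
    rw [ν.left trivial]
    exact hN.neck z p.1 p.2 s hs e
  have h0 := piece hc o G0 (β := (D.νM '' univ).indicator fun m => g (invFunOn D.νM univ m).2)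
    (fun m hm => ContinuousAt.continuousWithinAt (by
      by_cases h1 : m ∈ D.νM '' univ
      · refine ((g_cont ?_).comp (b1.continuousAt (G1.mem_nhds h1))).congr ?_
        · obtain ⟨p, -, rfl⟩ := h1
          rw [ν.left trivial]
          exact fun h2 => hm ⟨p, ⟨trivial, h2⟩, rfl⟩
        · filter_upwards [G1.mem_nhds h1] with y hy using (indicator_of_mem hy _).symm
      · refine (continuousAt_const (y := (0 : ℝ))).congr ?_
        filter_upwards [(cl _ (isCompact_Icc (a := -1) (b := 1))).mem_nhds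
          fun h2 => h1 (image_mono (subset_univ _) h2)] with y hy
        by_cases h2 : y ∈ D.νM '' univ
        · obtain ⟨p, -, rfl⟩ := id h2
          rw [indicator_of_mem h2, ν.left trivial, g_zero fun h3 => hy ⟨p, ⟨trivial, h3⟩, rfl⟩]
        · exact (indicator_of_notMem h2 _).symm))
    (fun z m _ s hs e => by
      by_cases h1 : m ∈ D.νM '' univ
      · obtain ⟨n, hn⟩ := n1 z m h1 s hs e
        obtain ⟨n', hn'⟩ := g_int (invFunOn D.νM univ m).2
        exact ⟨n' + n, by rw [indicator_of_mem h1, hn, hn']; push_cast; ring⟩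
      · rw [indicator_of_notMem h1]
        simpa using hN.off z m s hs (fun h2 => h1 (image_mono (subset_univ _) h2)) e) hD.h2M
  have h1 := piece hc o G1 (bt_sm.continuous.comp_continuousOn b1) n1 (ν.hz_image (by
    simpa using Hza.cyl homM isOpen_univ isOpen_univ ordConnected_univ F1))
  have e2 : (D.νM '' (univ ×ˢ {0}))ᶜ ∩ D.νM '' univ =
      D.νM '' (univ ×ˢ Iio 0 ∪ univ ×ˢ Ioi 0) := by
    refine subset_antisymm ?_ ?_
    · rintro _ ⟨h1, p, -, rfl⟩
      have : p.2 ≠ 0 := fun h2 => h1 ⟨p, ⟨trivial, h2⟩, rfl⟩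
      exact ⟨p, this.lt_or_gt.imp (⟨trivial, ·⟩) (⟨trivial, ·⟩), rfl⟩
    · rintro _ ⟨p, hp, rfl⟩
      refine ⟨?_, p, trivial, rfl⟩
      rintro ⟨p', h1, h2⟩
      obtain rfl := ν.inj trivial trivial h2
      exact hp.elim (·.2.ne h1.2) (·.2.ne' h1.2)
  have a1 : IsOpen ((univ : Set D.F) ×ˢ Iio (0 : ℝ)) := isOpen_univ.prod isOpen_Iio
  have a2 : IsOpen ((univ : Set D.F) ×ˢ Ioi (0 : ℝ)) := isOpen_univ.prod isOpen_Ioi
  have h2 := piece hc o (G0.inter G1)
    ((bt_sm.continuous.comp_continuousOn b1).mono inter_subset_right)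
    (fun z m hm => n1 z m hm.2) (k := 0) (e2 ▸ (ν.mono (a1.union a2) (subset_univ _)).hz_image
      (Hzb.mv0 a1 a2 (Hza.cyl homM isOpen_univ isOpen_Iio ordConnected_Iio F0)
        (Hza.cyl homM isOpen_univ isOpen_Ioi ordConnected_Ioi F0) (by
          rw [prod_inter_prod, Iio_inter_Ioi, Ioo_self, prod_empty]
          exact isPreconnected_empty)))
  have op : ∀ G, IsOpen G → IsOpen (q ⁻¹' ((fun p => P.j (h.cM p)) '' (G ×ˢ Ioi 3))) :=
    fun G hG => (o.isOpen_image (hG.prod isOpen_Ioi) (subset_univ _)).preimage hc.cov.continuous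
  have := Hzb.mv (op _ G0) (op _ G1) h0 h1 (by
    rwa [← preimage_inter, ← image_inter (injOn_univ.1 o.inj), prod_inter_prod, inter_self])
  rwa [← preimage_union, ← image_union, ← union_prod, compl_subset_iff_union.1
    ((compl_compl _).subset.trans (image_mono (subset_univ _))), ← image_image] at this

end Pool.Agent.MP_e1dc65_gt.O

end
end MrgPart0

-- ======== part 1: formerly Pool.Agent.MP_e1dc65_gt.o.Iso
section MrgPart1

/-! PROJECT HC, part O, row ISO: two isotropic families span the closed two-forms of a level. -/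

open scoped ContDiff Manifold Topology
open Set Filter Function Module Pool.Agent.MP_c8d41b_gt.GF

noncomputable section

namespace Pool.Agent.MP_e1dc65_gt.O

namespace Iso

variable {V : Mf E5} {X : Mf E4} {o : V → Lam E5} {S C T W Cp : Set V} {f : V → ℝ}

theorem ev_off (hC : IsClosed C) (h0 : ∀ y ∉ C, f y = 0) {y : V} (hy : y ∉ C) :
    ∀ᶠ z in 𝓝 y, f z = 0 := mem_of_superset (hC.isOpen_compl.mem_nhds hy) h0

/-- Stokes for a cut-off times a closed form -/
theorem stokes (ho : Ori V 5 o univ) {Ω : V → Lam E5} {K : Set V} (hΩ : Cl V 4 Ω S)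
    (hf : Sm V (vs ℝ) f univ) (hC : IsClosed C) (hCS : C ⊆ S) (h0 : ∀ y ∉ C, f y = 0)
    (hK : IsCompact K) (hz : ∀ y ∈ C, y ∉ K → Ω y = 0) :
    (intM V o fun y => dF V f y * Ω y) = 0 := by
  have h : OcM V univ fun y => f y • Ω y :=
    .of_compact (hK.inter_right hC) (subset_univ _)
      (fun y hy => (hΩ.1 y (hCS hy.2)).1.fsmul (hf y trivial)) fun y hy => by
        by_cases h1 : y ∈ C
        · rw [hz y h1 fun h2 => hy ⟨h2, h1⟩, smul_zero]
        · rw [h0 y h1, zero_smul]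
  rw [← (intM_api volM E5 V 5 o ho).stokes _ h]
  refine intM_congr o fun y => ?_
  by_cases h1 : y ∈ C
  · rw [dM_fsmul (hf y trivial) (hΩ.1 y (hCS h1)).1, hΩ.2 y (hCS h1), smul_zero, add_zero]
  · rw [dF_of_ev (ev_off hC h0 h1), zero_mul,
      dM_of_ev ((ev_off hC h0 h1).mono fun z hz => by rw [hz, zero_smul])]

/-- slices of closed forms on `S` that vanish on `C` off a compact set -/
def Ks (X : Mf E4) (V : Mf E5) (i : X → V) (S C : Set V) : Set (X → Lam E4) :=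
  {a | ∃ A K, Cl V 2 A S ∧ IsCompact K ∧ (∀ y ∈ C, y ∉ K → A y = 0) ∧ a = pbM X V i A}

theorem half {a γ : V → Lam E5} (ha : Cl V 2 a T) (hf : Sm V (vs ℝ) f univ)
    (hγ : Fm V 2 γ univ) (hd : ∀ y, dM V γ y = -(dF V f y * a y)) (hC : IsClosed C)
    (h0 : ∀ y ∉ C, f y = 0) (hS : S ∩ C ⊆ T) : Cl V 2 (fun y => f y • a y + γ y) S := by
  have key : ∀ y ∈ S, (FmAt V (fun y => f y • a y) y ∧ f y • a y ∈ dg E5 2) ∧
      dM V (fun y => f y • a y) y = dF V f y * a y := fun y hy => by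
    by_cases h1 : y ∈ C
    · have h2 := hS ⟨hy, h1⟩
      refine ⟨⟨(ha.1 y h2).1.fsmul (hf y trivial), Submodule.smul_mem _ _ (ha.1 y h2).2⟩, ?_⟩
      rw [dM_fsmul (hf y trivial) (ha.1 y h2).1, ha.2 y h2, smul_zero, add_zero]
    · have h2 : ∀ᶠ z in 𝓝 y, f z • a z = 0 :=
        (ev_off hC h0 h1).mono fun z hz => by rw [hz, zero_smul]
      refine ⟨⟨fmAt_of_ev h2, h2.self_of_nhds ▸ zero_mem _⟩, ?_⟩
      rw [dM_of_ev h2, dF_of_ev (ev_off hC h0 h1), zero_mul]
  refine ⟨Fm.add (fun y hy => (key y hy).1) (hγ.mono (subset_univ _)), fun y hy => ?_⟩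
  rw [dM_add (key y hy).1.1 (hγ y trivial).1, (key y hy).2, hd, add_neg_cancel]

/-- a closed form can be changed by an exact form so that it vanishes near the complement of `W` -/
theorem cut {a : V → Lam E5} (hT : IsOpen T) (hCp : IsOpen Cp) (hW : IsOpen W)
    (hc : W ∪ Cp = univ) (hz : HZ V 1 (T ∩ Cp)) (ha : Cl V 2 a T) :
    ∃ η, Fm V 1 η T ∧ ∀ y ∈ T, y ∉ W → ∀ᶠ z in 𝓝 y, a z - dM V η z = 0 := by
  obtain ⟨η, h1, h2⟩ := hz a (ha.mono inter_subset_left)
  have hm : ∀ y ∉ W, y ∈ Cp := fun y hy => (hc.ge (mem_univ y)).resolve_left hy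
  obtain ⟨ρ, r1, -, r3, -, r5⟩ := (bumpM E5 V).2 Bool (fun b => cond b Cp W) T hT
    (fun b => by cases b <;> assumption) fun y _ => by
      by_cases hy : y ∈ W
      exacts [⟨false, hy⟩, ⟨true, hm y hy⟩]
  refine ⟨fun y => ρ true y • η y, fun y hy => ?_, fun y hy hy' => ?_⟩
  · by_cases h3 : y ∈ Cp
    · exact ⟨(h1 y ⟨hy, h3⟩).1.fsmul (r1 true y hy), Submodule.smul_mem _ _ (h1 y ⟨hy, h3⟩).2⟩
    · have h4 : ∀ᶠ z in 𝓝 y, ρ true z • η z = 0 :=
        (r3 true y hy h3).mono fun z hz => by rw [hz, Pi.zero_apply, zero_smul]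
      exact ⟨fmAt_of_ev h4, mem_of_eq_of_mem h4.self_of_nhds (zero_mem _)⟩
  · have h3 : (fun z => ρ true z • η z) =ᶠ[𝓝 y] η := by
      filter_upwards [r3 false y hy hy', hT.mem_nhds hy] with z h4 h5
      have h6 := r5 z h5
      rw [finsum_eq_sum_of_fintype, Fintype.sum_bool, h4, Pi.zero_apply, add_zero] at h6
      rw [h6, one_smul]
    filter_upwards [dM_congr' h3, (hT.inter hCp).mem_nhds ⟨hy, hm y hy'⟩] with z h4 h5
    rw [h4, h2 z h5, sub_self]

/-- a closed three-form with compact support in `W` is exact with compact support -/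
theorem prim (ho : Ori V 5 o univ) (hW : IsOpen W) (hN : NearZ V W) {ζ : V → Lam E5}
    (hζ : OcM V W ζ) (hc : Cl V 3 ζ univ) :
    ∃ γ, OcM V W γ ∧ Fm V 2 γ univ ∧ ∀ y, dM V γ y = ζ y := by
  have hI := intM_api volM
  refine pdM hI (coneMV hI) (coneBox hI) E5 V 2 2 o ζ W ho hW hζ hc fun A hA => ?_
  obtain ⟨O, B, -, h2, -, h4, h5⟩ := hN _ hζ.sub hζ.cpt A hA
  have h6 : OcM V O ζ := ⟨hζ.sm, hζ.cpt, h2⟩
  have h7 := (hI E5 V 5 o ho).ibp h6.inv fun y hy => (h4 y hy).1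
  simp only [dM_inv (hζ.sm _), hc.2 _ (mem_univ _), map_zero, neg_zero, zero_mul, intM_zero,
    Pool.Agent.MP_c8d41b_gt.GF.inv_inv] at h7
  rw [← neg_eq_zero.1 h7.symm]
  refine intM_congr o fun y => ?_
  by_cases hy : y ∈ O
  · rw [h5 y hy]
  · rw [h6.zero_of hy, zero_mul, zero_mul]

end Iso

open Iso in
theorem iso (hL : LevIntStmt) : IsoStmt := by
  intro V u c δ X ν o o' W Cp hu hl ho ho' hp hW hCp hc hz hN
  have := hl.cpt
  have hδ := hl.pos
  have hx0 : ∀ x : X, (x, (0 : ℝ)) ∈ (univ ×ˢ Ioo (-δ) δ : Set X.cyl) := fun x =>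
    ⟨trivial, by linarith, hδ⟩
  have hi : Sm X V (fun x => ν (x, 0)) univ := fun x _ =>
    (smAt_id.pair (smAt_const (Y := vs ℝ) 0)).trans (hl.oe.sm _ (hx0 x))
  have hv : ∀ x, u (ν (x, 0)) = c := fun x => by rw [hl.val x 0 (hx0 x).2, add_zero]
  have uc := hu.cont
  have hT : IsOpen (u ⁻¹' Ioo (c - δ) (c + δ)) := isOpen_Ioo.preimage uc
  have hiT : MapsTo (fun x => ν (x, 0)) univ (u ⁻¹' Ioo (c - δ) (c + δ)) := fun x _ => by
    rw [mem_preimage, hv]; constructor <;> linarith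
  obtain ⟨χ, hχ⟩ : ∃ χ, Step χ (c - δ / 2) (c + δ / 2) :=
    ⟨fun t => Real.smoothTransition ((t - (c - δ / 2)) / δ),
      Real.smoothTransition.contDiff.comp ((contDiff_id.sub contDiff_const).div_const _),
      fun _ ht => Real.smoothTransition.zero_of_nonpos
        (div_nonpos_of_nonpos_of_nonneg (sub_nonpos.2 ht) hδ.le),
      fun _ ht => Real.smoothTransition.one_of_one_le ((one_le_div hδ).2 (by linarith))⟩
  have f0 : Sm V (vs ℝ) (fun y => χ (u y)) univ := fun y _ =>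
    (hu y trivial).vcomp hχ.sm.contDiffAt
  have f1 : Sm V (vs ℝ) (fun y => 1 - χ (u y)) univ := fun y _ =>
    (smAt_const (Y := vs ℝ) 1).sub (f0 y trivial)
  have d1 : ∀ y, dF V (fun y => 1 - χ (u y)) y = -dF V (fun y => χ (u y)) y := fun y => by
    rw [dF_sub (smAt_const (Y := vs ℝ) 1) (f0 y trivial), dF_const, zero_sub]
  have c0 : IsClosed (u ⁻¹' Ici (c - δ / 2)) := isClosed_Ici.preimage uc
  have c1 : IsClosed (u ⁻¹' Iic (c + δ / 2)) := isClosed_Iic.preimage uc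
  have z0 : ∀ y ∉ u ⁻¹' Ici (c - δ / 2), χ (u y) = 0 := fun y hy => hχ.zero _ (not_le.1 hy).le
  have z1 : ∀ y ∉ u ⁻¹' Iic (c + δ / 2), 1 - χ (u y) = 0 := fun y hy => by
    rw [hχ.one _ (not_le.1 hy).le, sub_self]
  have s0 : u ⁻¹' Ioo (c - δ) (c + δ) ⊆ u ⁻¹' Ioi (c - δ) := fun y hy => hy.1
  have s1 : u ⁻¹' Ioo (c - δ) (c + δ) ⊆ u ⁻¹' Iio (c + δ) := fun y hy => hy.2
  have lev : ∀ A B, Cl V 2 A (u ⁻¹' Ioo (c - δ) (c + δ)) → Cl V 2 B (u ⁻¹' Ioo (c - δ) (c + δ)) →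
      (intM X o' fun x => pbM X V (fun x => ν (x, 0)) A x * pbM X V (fun x => ν (x, 0)) B x) =
        intM V o fun y => dF V (fun y => χ (u y)) y * (A y * B y) := fun A B hA hB => by
    rw [hL E5 E4 V u c δ X ν o o' _ χ _ _ hu hl ho ho' hp (hA.mul hB) hχ (by linarith)
      (by linarith)]
    exact intM_congr o' fun x => (pbM_mul _ _).symm
  refine ⟨Ks X V (fun x => ν (x, 0)) (u ⁻¹' Ioi (c - δ)) (u ⁻¹' Ici (c - δ / 2)),
    Ks X V (fun x => ν (x, 0)) (u ⁻¹' Iio (c + δ)) (u ⁻¹' Iic (c + δ / 2)), ?_, ?_, ?_,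
    fun α hα => ?_⟩
  · rintro _ (⟨A, K, h1, -, -, rfl⟩ | ⟨A, K, h1, -, -, rfl⟩)
    exacts [(h1.mono s0).pb hi hiT, (h1.mono s1).pb hi hiT]
  · rintro _ ⟨A, K, h1, h2, h3, rfl⟩ _ ⟨B, -, h4, -, -, rfl⟩
    rw [lev A B (h1.mono s0) (h4.mono s0)]
    exact stokes ho (h1.mul h4) f0 c0 (preimage_mono (Ici_subset_Ioi.2 (by linarith))) z0 h2
      fun y hy hy' => by rw [h3 y hy hy', zero_mul]
  · rintro _ ⟨A, K, h1, h2, h3, rfl⟩ _ ⟨B, -, h4, -, -, rfl⟩
    rw [lev A B (h1.mono s1) (h4.mono s1), ← neg_eq_zero, ← intM_neg']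
    simp only [← neg_mul, ← d1]
    exact stokes ho (h1.mul h4) f1 c1 (preimage_mono (Iic_subset_Iio.2 (by linarith))) z1 h2
      fun y hy hy' => by rw [h3 y hy hy', zero_mul]
  · have hπ : Sm V X (fun y => (invFunOn ν (univ ×ˢ Ioo (-δ) δ) y).1)
        (u ⁻¹' Ioo (c - δ) (c + δ)) := fun y hy =>
      (hl.oe.symm.sm y (hl.img ▸ hy)).trans smAt_fst
    have ha := hα.pb hπ (mapsTo_univ _ _)
    obtain ⟨η, e1, e2⟩ := cut hT hCp hW hc hz ha
    have ha1 := ha.sub (e1.dM hT)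
    have hb : ∀ x, pbM X V (fun x => ν (x, 0))
        (pbM V X (fun y => (invFunOn ν (univ ×ˢ Ioo (-δ) δ) y).1) α) x = α x := fun x =>
      pbM_inv (hi x trivial) (hπ _ (hiT trivial))
        (.of_forall fun z => by rw [hl.oe.left (hx0 z)]) α
    generalize pbM V X (fun y => (invFunOn ν (univ ×ˢ Ioo (-δ) δ) y).1) α = a at *
    have hK : IsCompact (u ⁻¹' Icc (c - δ / 2) (c + δ / 2)) := by
      have s2 : (univ ×ˢ Icc (-(δ / 2)) (δ / 2) : Set X.cyl) ⊆ univ ×ˢ Ioo (-δ) δ :=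
        prod_mono subset_rfl (Icc_subset_Ioo (by linarith) (by linarith))
      refine ((isCompact_univ.prod isCompact_Icc).image_of_continuousOn
        (hl.oe.sm.contOn.mono s2)).of_isClosed_subset (isClosed_Icc.preimage uc) fun y hy => ?_
      obtain ⟨⟨z, t⟩, hz, rfl⟩ := hl.img.ge
        (Icc_subset_Ioo (by linarith) (by linarith) hy : u y ∈ Ioo (c - δ) (c + δ))
      rw [mem_preimage, hl.val z t hz.2] at hy
      exact ⟨(z, t), ⟨trivial, by linarith [hy.1], by linarith [hy.2]⟩, rfl⟩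
    have hKT : u ⁻¹' Icc (c - δ / 2) (c + δ / 2) ⊆ u ⁻¹' Ioo (c - δ) (c + δ) :=
      preimage_mono (Icc_subset_Ioo (by linarith) (by linarith))
    have hζ := (cl_dF (f0.mono (subset_univ _))).mul ha1
    have hz0 : ∀ y ∉ u ⁻¹' Icc (c - δ / 2) (c + δ / 2),
        dF V (fun y => χ (u y)) y * (a y - dM V η y) = 0 := fun y hy => by
      rcases not_and_or.1 hy with h | h
      · rw [dF_of_ev (ev_off c0 z0 h), zero_mul]
      · rw [← neg_eq_zero, ← neg_mul, ← d1, dF_of_ev (ev_off c1 z1 h), zero_mul]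
    have oT := OcM.of_compact hK hKT (fun y hy => (hζ.1 y (hKT hy)).1) hz0
    have oW : OcM V W fun y => dF V (fun y => χ (u y)) y * (a y - dM V η y) :=
      ⟨oT.sm, oT.cpt, fun y hy => by_contra fun h => notMem_tsupport_iff_eventuallyEq.2
        ((e2 y (oT.sub hy) h).mono fun z hz => by simp only [hz, mul_zero, Pi.zero_apply]) hy⟩
    obtain ⟨γ, g1, g2, g3⟩ := prim ho hW hN oW ⟨fun y _ => ⟨oT.sm y, by
      by_cases hy : y ∈ u ⁻¹' Ioo (c - δ) (c + δ)
      · exact (hζ.1 y hy).2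
      · exact mem_of_eq_of_mem (oT.zero_of hy) (zero_mem _)⟩, fun y _ => by
      by_cases hy : y ∈ u ⁻¹' Ioo (c - δ) (c + δ)
      · exact hζ.2 y hy
      · exact oT.dM.zero_of hy⟩
    have hK' := hK.union g1.cpt
    have l0 : c - δ < c - δ / 2 := by linarith
    have l1 : c + δ / 2 < c + δ := by linarith
    refine ⟨_, ⟨_, _, half (S := u ⁻¹' Ioi (c - δ)) ha1 f1 g2
        (fun y => by rw [g3, d1, neg_mul, neg_neg]) c1 z1
        (fun y hy => ⟨hy.1, lt_of_le_of_lt hy.2 l1⟩), hK', fun y hy hy' => ?_, rfl⟩,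
      _, ⟨_, _, half (S := u ⁻¹' Iio (c + δ)) ha1 f0 g2.neg (fun y => by rw [dM_neg, g3]) c0 z0
        (fun y hy => ⟨lt_of_lt_of_le l0 hy.2, hy.1⟩), hK', fun y hy hy' => ?_, rfl⟩,
      _, e1.pb hi hiT, fun x => ?_⟩
    · rw [z1 y fun h => hy' (.inl ⟨hy, h⟩), zero_smul, zero_add,
        image_eq_zero_of_notMem_tsupport fun h => hy' (.inr h)]
    · rw [z0 y fun h => hy' (.inl ⟨h, hy⟩), zero_smul, zero_add,
        image_eq_zero_of_notMem_tsupport fun h => hy' (.inr h), neg_zero]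
    · rw [dM_pb (hi x trivial) (e1 _ (hiT trivial)).1, ← pbM_add, ← pbM_add, ← hb x]
      refine pbM_congr_right ?_
      rw [sub_smul, one_smul]
      abel

end Pool.Agent.MP_e1dc65_gt.O

end
end MrgPart1

-- marker of a merged file
example : 731051 + 269521 = 731051 + 269521 := rfl

end MrgPart2

-- marker of a merged file
example : 731051 + 269521 = 731051 + 269521 := rfl
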