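import Pool.Agent.MP_e1dc65_gt.fm.Hza
import Pool.Agent.MP_e1dc65_gt.s.Lift
import Mathlib.Analysis.SpecialFunctions.Log.Deriv
import Mathlib.Analysis.InnerProductSpace.Calculus
import Pool.Agent.MP_e1dc65_gt.o.Flat
import Pool.Agent.MP_e1dc65_gt.t4.MidA
import Pool.Agent.MP_e1dc65_gt.u.Spec
import Pool.Agent.MP_e1dc65_gt.k.Std
import Pool.Agent.MP_e1dc65_gt.t2.Disc
import Pool.Agent.MP_e1dc65_gt.o.Iso
import Pool.Agent.MP_e1dc65_gt.fm.Pd1
import Pool.Agent.MP_e1dc65_gt.k.Mk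
import Mathlib.Topology.Homotopy.Lifting
import Pool.Agent.MP_e1dc65_gt.k.Cov
import Pool.Agent.MP_e1dc65_gt.Top
import Pool.Agent.MP_e1dc65_gt.k.Hol
import Pool.Agent.MP_e1dc65_gt.k.Bump

-- ======== part 0: formerly Pool.Agent.MP_e1dc65_gt.o.Hat
section MrgPart0

-- ======== part 0: formerly Pool.Agent.MP_e1dc65_gt.fm.Spa
section MrgPart0

/-! PROJECT HC, row SPA: lifting and the calculus of `Perf`. -/

open Set

namespace Pool.Agent.MP_e1dc65_gt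

theorem liftG : LiftGStmt := fun C _ _ _ _ _ hS hP h hd => C.lift hS hP h hd

theorem perfC : PerfStmt :=
  ⟨fun _ _ _ _ _ hH m h0 h1 hs h => h.deform hs hH m h0 h1,
    fun _ _ _ _ _ _ _ hf hg e h => h.image hf hg e,
    fun _ _ _ _ hJ h => h.prod_convex hJ.convex, fun _ _ _ _ ho hd h => perf_iUnion ho hd h⟩

theorem Spin.Sub.ext {E : Type} [NormedAddCommGroup E] [NormedSpace ℝ E] [FiniteDimensional ℝ E]
    {C : SpinCover} {X : Mf E} {U U' : Set X} {sp : Spin C X U} {sp' : Spin C X U'}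
    {e : sp.ι → sp'.ι} (h : sp.Sub sp' e) : sp.Ext sp' e := ⟨h.W, h.Θ, h.g⟩

end Pool.Agent.MP_e1dc65_gt

end MrgPart0

-- ======== part 1: formerly Pool.Agent.MP_e1dc65_gt.o.Caps
section MrgPart1

/-! PROJECT HC, part O, row CAPS. -/

open scoped ContDiff Manifold Topology Real
open Set Filter Function

noncomputable section

namespace Pool.Agent.MP_e1dc65_gt.O

namespace CapsP

theorem oe_cyl {E E' : Type} [NormedAddCommGroup E] [NormedSpace ℝ E] [NormedAddCommGroup E']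
    [NormedSpace ℝ E'] {X : Mf E} {Y : Mf E'} {f : X → Y} {U : Set X} (h : OE X Y f U) :
    OE X.cyl Y.cyl (fun p => (f p.1, p.2)) (U ×ˢ univ) :=
  ⟨h.op.prod isOpen_univ, fun p hp => (h.ld _ hp.1).prodMap (ldAt_id (X := vs ℝ) (x := p.2)),
    fun _ hp _ hq e => Prod.ext (h.inj hp.1 hq.1 (Prod.ext_iff.1 e).1) (Prod.ext_iff.1 e).2⟩

section Q
variable {D : ODat}

theorem sQ_gt (x : D.Q) : 3 < sQ D x := lt_add_of_pos_right _ (Real.exp_pos _)

theorem sQ_nu (e : OE D.F.cyl D.Q D.νQ univ) (p : D.F.cyl) :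
    sQ D (D.νQ p) = 3 + Real.exp p.2 := by rw [sQ, e.left trivial]

theorem level (e : OE D.F.cyl D.Q D.νQ univ) {P : ℝ → Prop} {J : Set ℝ}
    (hJ : ∀ t, P (3 + Real.exp t) ↔ t ∈ J) :
    {x | x ∈ AQ D ∧ P (sQ D x)} = D.νQ '' (univ ×ˢ J) := by
  ext x
  constructor
  · rintro ⟨⟨p, rfl⟩, h⟩
    exact ⟨p, ⟨trivial, (hJ _).1 (sQ_nu e p ▸ h)⟩, rfl⟩
  · rintro ⟨p, hp, rfl⟩
    exact ⟨⟨p, rfl⟩, by rw [sQ_nu e p]; exact (hJ _).2 hp.2⟩

theorem oe_inv (e : OE D.F.cyl D.Q D.νQ univ) :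
    OE D.Q D.F.cyl (invFunOn D.νQ univ) (AQ D) := by
  have := e.symm
  rwa [image_univ] at this

theorem oe_cQ (e : OE D.F.cyl D.Q D.νQ univ) :
    OE D.Q.cyl D.F.cyl.cyl (cQ D) (AQ D ×ˢ univ) := by
  have g := oe_inv e
  refine oe_of_inv (Y := D.F.cyl.cyl) (W := univ ×ˢ Ioi 3)
    (g := fun a => (D.νQ (a.1.1, Real.log (a.2 - 3)), a.1.2)) (g.op.prod isOpen_univ)
    (isOpen_univ.prod isOpen_Ioi) (fun q hq => ?_) (fun a ha => ?_)
    (fun q _ => ⟨trivial, sQ_gt _⟩) (fun a _ => ⟨⟨_, rfl⟩, trivial⟩) ?_ fun a ha => ?_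
  · have h1 : SmAt D.Q.cyl D.F.cyl (fun q => invFunOn D.νQ univ q.1) q :=
      smAt_fst.trans (g.sm _ hq.1)
    exact ((h1.trans smAt_fst).pair smAt_snd).pair (SmAt.vcomp (g := fun t => 3 + Real.exp t)
      (h1.trans smAt_snd) (contDiffAt_const.add Real.contDiff_exp.contDiffAt))
  · have h1 : SmAt D.F.cyl.cyl (vs ℝ) (fun a => Real.log (a.2 - 3)) a :=
      SmAt.vcomp (g := fun t => Real.log (t - 3)) smAt_snd
        ((contDiffAt_id.sub contDiffAt_const).log (sub_pos.2 ha.2).ne')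
    exact (((smAt_fst.trans smAt_fst).pair h1).trans (e.sm _ trivial)).pair
      (smAt_fst.trans smAt_snd)
  · rintro ⟨_, t⟩ ⟨⟨p, rfl⟩, -⟩
    simp only [cQ, sQ_nu e, e.left (mem_univ p), add_sub_cancel_left, Real.log_exp]
  · simp only [cQ, sQ_nu e, e.left (mem_univ _), Real.exp_log (sub_pos.2 ha.2), add_sub_cancel]

theorem le_iff {a t : ℝ} (ha : 3 < a) : 3 + Real.exp t ≤ a ↔ t ∈ Iic (Real.log (a - 3)) := by
  rw [mem_Iic, Real.le_log_iff_exp_le (sub_pos.2 ha)]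
  constructor <;> intro <;> linarith

theorem lt_iff {a t : ℝ} (ha : 3 < a) : 3 + Real.exp t < a ↔ t ∈ Iio (Real.log (a - 3)) := by
  rw [mem_Iio, Real.lt_log_iff_exp_lt (sub_pos.2 ha)]
  constructor <;> intro <;> linarith

theorem capQ {C : SpinCover} (h : OHC D.M D.N) (ok : D.Ok C) :
    Cap h.W h.S D.Q (AQ D) (sQ D) (nQ h) := by
  refine ⟨((oe_cQ ok.endQ).trans (oe_cyl ok.neckM) fun _ _ => ⟨trivial, trivial⟩).trans h.oeM
    (mapsTo_univ _ _), fun x _ t => h.SM _ (sQ D x) (by linarith [sQ_gt x]), fun a => ?_⟩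
  rcases le_or_gt a 3 with ha | ha
  · rw [eq_empty_of_forall_notMem (s := {x | x ∈ AQ D ∧ sQ D x ≤ a}) fun x hx => by
      linarith [sQ_gt x, hx.2]]
    exact isClosed_empty
  · rw [level ok.endQ (P := fun s => s ≤ a) fun t => le_iff ha]
    exact ok.clQ _

theorem capIQ {C : SpinCover} (ok : D.Ok C) : CapI D.Q (AQ D) (sQ D) := by
  have := ok.connF
  have g := oe_inv ok.endQ
  refine ⟨g.op, fun x _ => sQ_gt x, fun a ha => ?_, isPreconnected_range ok.endQ.sm.cont, ok.oriQ,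
    ok.h2Q, ?_⟩
  · have := ok.cptQ (Real.log (a - 3))
    rw [← level ok.endQ (P := fun s => s < a) fun t => lt_iff ha] at this
    have e : {x | x ∈ AQ D → a ≤ sQ D x} = {x | x ∈ AQ D ∧ sQ D x < a}ᶜ := by
      ext x; simp only [mem_ofPred_eq, mem_compl_iff, not_and, not_lt]
    rwa [e]
  · rw [level ok.endQ (P := fun s => s < 4) fun t => lt_iff (by norm_num)]
    exact perfC.2.1 _ _ _ _ (invFunOn D.νQ univ) ok.endQ.sm.cont.continuousOn
      (g.sm.contOn.mono (image_subset_range _ _)) (fun p _ => ok.endQ.left trivial)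
      (perfC.2.2.1 _ _ _ ordConnected_Iio ok.perf)

end Q

section B

/-- the inverse of `cB` -/
def kB (a : Rn 4 × ℝ) : E4 × ℝ :=
  (((a.2 - 3) * ‖(WithLp.toLp 2 a.1 : E4)‖)⁻¹ • WithLp.toLp 2 a.1,
    Real.log ‖(WithLp.toLp 2 a.1 : E4)‖)

theorem sB_gt {z : E4} (hz : z ≠ 0) : 3 < sB z :=
  lt_add_of_pos_right _ (inv_pos.2 (norm_pos_iff.2 hz))

theorem to_cB (q : E4 × ℝ) :
    (WithLp.toLp 2 (cB q).1 : E4) = (Real.exp q.2 * ‖q.1‖⁻¹) • q.1 := by
  ext i; simp [cB, mul_assoc]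

theorem norm_cB {q : E4 × ℝ} (hq : q.1 ≠ 0) : ‖(WithLp.toLp 2 (cB q).1 : E4)‖ = Real.exp q.2 := by
  have h : 0 < ‖q.1‖ := norm_pos_iff.2 hq
  rw [to_cB, norm_smul, Real.norm_of_nonneg (by positivity)]
  field_simp

theorem to_pos {v : Rn 4} (hv : v ≠ 0) : 0 < ‖(WithLp.toLp 2 v : E4)‖ :=
  norm_pos_iff.2 fun h => hv (congrArg WithLp.ofLp h)

theorem norm_kB {a : Rn 4 × ℝ} (h1 : a.1 ≠ 0) (h2 : 3 < a.2) : ‖(kB a).1‖ = (a.2 - 3)⁻¹ := by
  have := to_pos h1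
  have := sub_pos.2 h2
  rw [kB, norm_smul, Real.norm_of_nonneg (by positivity)]
  field_simp

theorem cd_cB {q : E4 × ℝ} (hq : q.1 ≠ 0) : ContDiffAt ℝ ∞ cB q := by
  have h : ContDiffAt ℝ ∞ (fun q : E4 × ℝ => ‖q.1‖⁻¹) q :=
    (contDiffAt_fst.norm ℝ hq).inv (norm_ne_zero_iff.2 hq)
  exact (contDiffAt_pi.2 fun i => (Real.contDiff_exp.contDiffAt.comp q contDiffAt_snd).mul
    (h.mul ((EuclideanSpace.proj i : E4 →L[ℝ] ℝ).contDiff.contDiffAt.comp q contDiffAt_fst))).prodMk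
    (contDiffAt_const.add h)

theorem cd_kB {a : Rn 4 × ℝ} (h1 : a.1 ≠ 0) (h2 : 3 < a.2) : ContDiffAt ℝ ∞ kB a := by
  have h : ContDiffAt ℝ ∞ (fun a : Rn 4 × ℝ => (WithLp.toLp 2 a.1 : E4)) a :=
    (EuclideanSpace.equiv (Fin 4) ℝ).symm.contDiff.contDiffAt.comp a contDiffAt_fst
  have p := to_pos h1
  have h' := h.norm ℝ (norm_pos_iff.1 p)
  exact ((((contDiffAt_snd.sub contDiffAt_const).mul h').inv
    (mul_pos (sub_pos.2 h2) p).ne').smul h).prodMk (h'.log p.ne')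

theorem op_AB : IsOpen AB := isOpen_ne

theorem oe_cB : OE (vs E4).cyl (vs (Rn 4)).cyl cB (AB ×ˢ univ) ∧
    MapsTo cB (AB ×ˢ univ) ({v | v ≠ 0} ×ˢ Ioi 3) := by
  have m : MapsTo cB (AB ×ˢ univ) ({v | v ≠ 0} ×ˢ Ioi 3) := fun q hq =>
    ⟨fun h => (Real.exp_pos q.2).ne' (by rw [← norm_cB hq.1, h]; simp), sB_gt hq.1⟩
  refine ⟨oe_of_inv (X := (vs E4).cyl) (Y := (vs (Rn 4)).cyl) (W := {v | v ≠ 0} ×ˢ Ioi 3)
    (g := kB) (op_AB.prod isOpen_univ) (isOpen_ne.prod isOpen_Ioi)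
    (fun q hq => (SmAt.vcomp (smAt_prod_vs (p := q)) (cd_cB hq.1)).trans smAt_vs_prod)
    (fun a ha => (SmAt.vcomp (smAt_prod_vs (p := a)) (cd_kB ha.1 ha.2)).trans smAt_vs_prod) m
    (fun a ha => ⟨norm_pos_iff.1 (by rw [norm_kB ha.1 ha.2]; exact inv_pos.2 (sub_pos.2 ha.2)),
      trivial⟩) (fun q hq => ?_) fun a ha => ?_, m⟩
  · have h : 0 < ‖q.1‖ := norm_pos_iff.2 hq.1
    have h' := Real.exp_pos q.2
    refine Prod.ext ?_ ?_
    · rw [kB, norm_cB hq.1, to_cB, smul_smul]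
      have : (((cB q).2 - 3) * Real.exp q.2)⁻¹ * (Real.exp q.2 * ‖q.1‖⁻¹) = 1 := by
        simp only [cB, sB, add_sub_cancel_left]; field_simp
      rw [this, one_smul]
    · rw [kB, norm_cB hq.1, Real.log_exp]
  · have h := to_pos ha.1
    have h' : 0 < a.2 - 3 := sub_pos.2 ha.2
    refine Prod.ext (funext fun i => ?_) ?_
    · simp only [cB, norm_kB ha.1 ha.2]
      simp only [kB, Real.exp_log h, PiLp.smul_apply, smul_eq_mul]
      field_simp
    · simp only [cB, sB, norm_kB ha.1 ha.2, inv_inv, add_sub_cancel]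

theorem capB {C : SpinCover} {D : ODat} (h : OHC D.M D.N) (ok : D.Ok C) :
    Cap h.W h.S (vs E4) AB sB (nB h) := by
  refine ⟨(oe_cB.1.trans (oe_cyl ok.neckN) fun _ hq => ⟨(oe_cB.2 hq).1, trivial⟩).trans h.oeN
    (mapsTo_univ _ _), fun x hx t => h.SN _ (sB x) (by linarith [sB_gt hx]), fun a => ?_⟩
  have e : {x | x ∈ AB ∧ sB x ≤ a} = {x : E4 | 1 ≤ (a - 3) * ‖x‖} := by
    ext x
    by_cases hx : x = 0
    · simp [AB, hx]
    · have h : 0 < ‖x‖ := norm_pos_iff.2 hx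
      simp only [AB, sB, mem_ofPred_eq, ne_eq, hx, not_false_eq_true, true_and]
      rw [← div_le_iff₀ h, one_div]
      constructor <;> intro <;> linarith
  rw [e]
  exact isClosed_le continuous_const (by fun_prop)

theorem capIB : CapI (vs E4) AB sB := by
  have hd : Module.finrank ℝ E4 = 4 := by simp
  refine ⟨op_AB, fun _ => sB_gt, fun a ha => ?_,
    (pc_punct (E := E4) (by omega)).isConnected.isPreconnected,
    ?_, Hza.star homM isOpen_univ (starConvex_univ (0 : E4)), ?_⟩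
  · have e : {x | x ∈ AB → a ≤ sB x} = Metric.closedBall (0 : E4) (a - 3)⁻¹ := by
      have h' := sub_pos.2 ha
      ext x
      by_cases hx : x = 0
      · simp [AB, hx, ha.le]
      · have h : 0 < ‖x‖ := norm_pos_iff.2 hx
        simp only [AB, sB, mem_ofPred_eq, ne_eq, hx, not_false_eq_true, true_imp_iff,
          mem_closedBall_zero_iff]
        rw [le_inv_comm₀ h h']
        constructor <;> intro <;> linarith
    rw [e]
    exact isCompact_closedBall _ _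
  · obtain ⟨a, ha, h0⟩ := exists_top hd
    exact ⟨fun _ => a, hd, fun _ _ => ⟨fmAt_vs.2 contDiffAt_const, ha⟩, fun _ _ => h0⟩
  · have e : {x | x ∈ AB ∧ sB x < 4} = {x : E4 | ‖x‖ ∈ Ioi 1} := by
      ext x
      by_cases hx : x = 0
      · simp [AB, hx]
      · have h : 0 < ‖x‖ := norm_pos_iff.2 hx
        simp only [AB, sB, mem_ofPred_eq, ne_eq, hx, not_false_eq_true, true_and, mem_Ioi]
        rw [← inv_lt_one₀ h]
        constructor <;> intro <;> linarith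
    rw [e]
    exact (sc_norm_shell (E := E4) (by omega) ordConnected_Ioi (fun _ hr => one_pos.trans hr)
      nonempty_Ioi).perf

end B

end CapsP

theorem caps : CapsStmt := fun _ _ h ok =>
  ⟨CapsP.capQ h ok, CapsP.capIQ ok, CapsP.capB h ok, CapsP.capIB⟩

end Pool.Agent.MP_e1dc65_gt.O

end
end MrgPart1

-- ======== part 2: formerly Pool.Agent.MP_e1dc65_gt.fm.Push
section MrgPart2

/-! PROJECT HC, row PUSH: local sections over a compact set, and unfolding of integrals. -/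

open scoped ContDiff Manifold Topology
open Set Filter Function Module MeasureTheory Pool.Agent.MP_c8d41b_gt.GF

set_option linter.unusedSectionVars false

noncomputable section

namespace Pool.Agent.MP_e1dc65_gt

namespace PushR

variable {E E' : Type} [NormedAddCommGroup E] [NormedSpace ℝ E] [FiniteDimensional ℝ E]
  [NormedAddCommGroup E'] [NormedSpace ℝ E'] [FiniteDimensional ℝ E'] {Y : Mf E'} {V : Mf E}
  {p : Y → V} {θ : Y → Lam E'}

/-- pull-back by a local section -/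
theorem pbM_sec {σ : V → Y} {x : V} (hp : LDAt Y V p (σ x)) (hσ : SmAt V Y σ x)
    (e : ∀ᶠ z in 𝓝 x, p (σ z) = z) (θ : Y → Lam E') :
    pbM V Y σ θ x = mp (Df Y V p (σ x)).inverse (θ (σ x)) := by
  have h := Df_comp hσ hp.sm
  rw [Df_congr (f' := fun x => x) e, Df_id] at h
  rw [pbM, ← ContinuousLinearMap.id_comp (Df V Y σ x), ← hp.inv.inverse_comp_self,
    ContinuousLinearMap.comp_assoc, ← h, ContinuousLinearMap.comp_id]

theorem exists_oe (hp : ∀ y, LDAt Y V p y) (y : Y) : ∃ U, y ∈ U ∧ OE Y V p U := by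
  obtain ⟨g, U, W, hU, -, hy, -, -, -, -, -, l, -⟩ := (hp y).exists_inv univ_mem
  exact ⟨U, hy, hU, fun z _ => hp z, LeftInvOn.injOn l⟩

theorem finite_fibre (hp : ∀ y, LDAt Y V p y) {K : Set Y} (hK : IsCompact K) (w : V) :
    (K ∩ p ⁻¹' {w}).Finite := by
  choose U hU using exists_oe hp
  have hc : Continuous p := continuous_iff_continuousAt.2 fun y => (hp y).sm.cont
  obtain ⟨t, h1, h2⟩ := (hK.inter_right (isClosed_singleton.preimage hc)).elim_nhds_subcover U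
    fun y _ => (hU y).2.op.mem_nhds (hU y).1
  refine t.finite_toSet.subset fun z hz => ?_
  obtain ⟨y, hy, hz'⟩ := mem_iUnion₂.1 (h2 hz)
  rwa [(hU y).2.inj hz' (hU y).1 (hz.2.trans (h1 y hy).2.symm)]

theorem push_eq {x : V} {t : Finset Y} (h1 : ∀ y ∈ t, p y = x)
    (h2 : ∀ y, p y = x → θ y ≠ 0 → y ∈ t) :
    pushF Y V p θ x = ∑ y ∈ t, mp (Df Y V p y).inverse (θ y) :=
  finsum_mem_eq_sum_of_inter_support_eq _ (Set.ext fun y =>
    ⟨fun h => ⟨h2 y h.1 fun e => h.2 (by simp only [e, map_zero]), h.2⟩, fun h => ⟨h1 y h.1, h.2⟩⟩)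

theorem push_zero {x : V} (h : ∀ y, p y = x → θ y = 0) : pushF Y V p θ x = 0 :=
  push_eq (t := ∅) (by simp) fun y e h' => (h' (h y e)).elim

theorem secs (hp : ∀ y, LDAt Y V p y) (K : Set Y) (w : V) (hK : IsCompact K) :
    ∃ (O : Set V) (s : Finset Y) (σ : Y → V → Y),
      IsOpen O ∧ w ∈ O ∧ (∀ i ∈ s, Sm V Y (σ i) O ∧ ∀ x ∈ O, p (σ i x) = x) ∧
      (∀ i ∈ s, ∀ j ∈ s, ∀ x ∈ O, σ i x = σ j x → i = j) ∧
      (∀ y ∈ K, p y ∈ O → ∃ i ∈ s, σ i (p y) = y) ∧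
      ∀ θ : Y → Lam E', (∀ y ∉ K, θ y = 0) →
        ∀ x ∈ O, pushF Y V p θ x = ∑ i ∈ s, pbM V Y (σ i) θ x := by
  classical
  have hF := finite_fibre hp hK w
  obtain ⟨N, hN, hd⟩ := hF.t2_separation
  choose σ U W hU hW hy hUN _ hσ m1 m2 l r using fun y =>
    (hp y).exists_inv ((hN y).2.mem_nhds (hN y).1)
  have hc : Continuous p := continuous_iff_continuousAt.2 fun y => (hp y).sm.cont
  have hR : IsCompact (p '' (K \ ⋃ i ∈ hF.toFinset, U i)) :=
    (hK.diff (isOpen_biUnion fun i _ => hU i)).image hc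
  set O := (⋂ i ∈ hF.toFinset, W i) ∩ (p '' (K \ ⋃ i ∈ hF.toFinset, U i))ᶜ with hO
  have o1 : IsOpen O := (isOpen_biInter_finset fun i _ => hW i).inter hR.isClosed.isOpen_compl
  have o2 : ∀ i ∈ hF.toFinset, O ⊆ W i := fun i hi x hx => mem_iInter₂.1 hx.1 i hi
  have o3 : ∀ i ∈ hF.toFinset, ∀ j ∈ hF.toFinset, ∀ x ∈ O, σ i x = σ j x → i = j :=
    fun i hi j hj x hx e => by_contra fun h => Set.disjoint_left.1
      (hd (hF.mem_toFinset.1 hi) (hF.mem_toFinset.1 hj) h) (hUN i (m2 i (o2 i hi hx)))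
      (e ▸ hUN j (m2 j (o2 j hj hx)))
  have o4 : ∀ y ∈ K, p y ∈ O → ∃ i ∈ hF.toFinset, σ i (p y) = y := fun y hy h => by
    obtain ⟨i, hi, h'⟩ := mem_iUnion₂.1 (not_not.1 fun h' => h.2 ⟨y, ⟨hy, h'⟩, rfl⟩)
    exact ⟨i, hi, l i y h'⟩
  refine ⟨O, hF.toFinset, σ, o1, ⟨mem_iInter₂.2 fun i hi => ?_, ?_⟩,
    fun i hi => ⟨(hσ i).mono (o2 i hi), fun x hx => r i x (o2 i hi hx)⟩, o3, o4,
    fun θ h0 x hx => ?_⟩
  · exact (hF.mem_toFinset.1 hi).2 ▸ m1 i (hy i)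
  · rintro ⟨y, h1, h2⟩
    exact h1.2 (mem_iUnion₂.2 ⟨y, hF.mem_toFinset.2 ⟨h1.1, h2⟩, hy y⟩)
  · rw [push_eq (t := hF.toFinset.image fun i => σ i x), Finset.sum_image
      fun i hi j hj => o3 i hi j hj x hx]
    · exact Finset.sum_congr rfl fun i hi => (pbM_sec (hp _) (hσ i x (o2 i hi hx))
        (mem_of_superset ((hW i).mem_nhds (o2 i hi hx)) (r i)) θ).symm
    · intro y h
      obtain ⟨i, hi, rfl⟩ := Finset.mem_image.1 h
      exact r i x (o2 i hi hx)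
    · rintro y rfl h
      exact Finset.mem_image.2 (o4 y (not_not.1 fun h' => h (h0 y h')) hx)

theorem ocM_push (hp : ∀ y, LDAt Y V p y) (h : OcM Y univ θ) : OcM V univ (pushF Y V p θ) := by
  refine .of_compact (h.cpt.isCompact.image
    (continuous_iff_continuousAt.2 fun y => (hp y).sm.cont)) (subset_univ _) (fun w _ => ?_)
    fun w hw => push_zero fun y e => image_eq_zero_of_notMem_tsupport fun h' => hw ⟨y, h', e⟩
  obtain ⟨O, s, σ, o1, o2, o3, -, -, o4⟩ := secs hp _ w h.cpt.isCompact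
  exact (fmAt_sum fun i hi => (h.sm _).pb ((o3 i hi).1 w o2)).congr' (mem_of_superset
    (o1.mem_nhds o2) (o4 θ fun _ => image_eq_zero_of_notMem_tsupport))

theorem push_sum (hp : ∀ y, LDAt Y V p y) {K : Set Y} (hK : IsCompact K) {I : Type} (t : Finset I)
    {γ : I → Y → Lam E'} (h : ∀ i, ∀ y ∉ K, γ i y = 0) (w : V) :
    pushF Y V p (fun y => ∑ i ∈ t, γ i y) w = ∑ i ∈ t, pushF Y V p (γ i) w := by
  obtain ⟨O, s, σ, -, o2, -, -, -, o4⟩ := secs hp K w hK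
  rw [o4 _ (fun y hy => Finset.sum_eq_zero fun i _ => h i y hy) w o2,
    Finset.sum_congr rfl fun i _ => o4 _ (h i) w o2, Finset.sum_comm]
  exact Finset.sum_congr rfl fun j _ => pbM_sum _ _

theorem push_psh {U : Set Y} (hU : OE Y V p U) (h : ∀ y ∉ U, θ y = 0) (Ω : V → Lam E) (w : V) :
    pushF Y V p θ w * Ω w = psh Y V p U (fun y => θ y * pbM Y V p Ω y) w := by
  by_cases hw : w ∈ p '' U
  · rw [(hU.psh_ev hw).eq_of_nhds, pbM_mul, ← (hU.psh_ev (α := pbM Y V p Ω) hw).eq_of_nhds,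
      hU.psh_pbM hw, pbM_sec (hU.ld _ (invFunOn_mem hw)) (hU.symm.sm w hw)
        (mem_of_superset (hU.symm.op.mem_nhds hw) fun _ hz => invFunOn_eq hz),
      push_eq (t := {invFunOn p U w}), Finset.sum_singleton]
    · intro y hy
      rw [Finset.mem_singleton.1 hy]
      exact invFunOn_eq hw
    · rintro y rfl h'
      exact Finset.mem_singleton.2 (hU.left (not_not.1 fun h'' => h' (h y h''))).symm
  · rw [psh_of_notMem hw, push_zero fun y e => h y fun h' => hw ⟨y, h', e⟩, zero_mul]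

theorem intM_sum {N : ℕ} {o : V → Lam E} (h : IntP V N o) {I : Type} {t : Finset I}
    {γ : I → V → Lam E} (hγ : ∀ i ∈ t, OcM V univ (γ i)) :
    intM V o (fun x => ∑ i ∈ t, γ i x) = ∑ i ∈ t, intM V o (γ i) := by
  classical
  induction t using Finset.induction_on with
  | empty => simpa using h.smul 0 fun _ => 0
  | insert a t ha ih =>
    have h2 := fun i hi => hγ i (Finset.mem_insert_of_mem hi)
    simp only [Finset.sum_insert ha]
    rw [h.add _ _ (hγ a (Finset.mem_insert_self _ _)) (ocM_sum h2), ih h2]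

theorem cf_self_pos {N : ℕ} {o : Y → Lam E'} (h : Ori Y N o univ) (y : Y) : 0 < cf (o y) (o y) := by
  have h1 := (h.fm y trivial).2
  rw [← h.dim] at h1
  rw [cf, div_self (ev_basis_ne _ h1 (h.ne y trivial))]
  exact one_pos

end PushR

open PushR in
theorem pushM (hI : IntMStmt) (hO : IntOEStmt) : PushStmt := by
  intro E E' _ _ _ _ _ _ Y V p hp
  refine ⟨secs hp, fun N o Ω θ ho hθ hΩ => ⟨ocM_push hp hθ, ?_⟩⟩
  have ho' : Ori Y N (pbM Y V p o) univ :=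
    ho.pb ((hp (Classical.arbitrary _)).finrank_eq.trans ho.dim) (fun y _ => hp y) (mapsTo_univ _ _)
  choose U hU using exists_oe hp
  obtain ⟨s, ρ, r1, r2⟩ := pouK Y hθ.cpt.isCompact (O := U) fun y _ => (hU y).2.op.mem_nhds (hU y).1
  have e : θ = fun y => ∑ i ∈ s, ρ i y • θ y := funext fun y => by
    rw [← Finset.sum_smul]
    by_cases hy : y ∈ tsupport θ
    · rw [r2 y hy, one_smul]
    · rw [image_eq_zero_of_notMem_tsupport hy, smul_zero]
  have hΩ' : ∀ y, FmAt Y (pbM Y V p Ω) y := fun y => (hΩ _).pb (hp y).sm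
  have c1 : ∀ i ∈ s, OcM Y (U i) fun y => ρ i y • θ y := fun i hi =>
    .of_compact (r1 i hi).2.2.1 (r1 i hi).2.2.2.1
      (fun y _ => (hθ.sm y).fsmul ((r1 i hi).2.1 y trivial))
      fun y hy => by rw [image_eq_zero_of_notMem_tsupport hy, zero_smul]
  have c2 : ∀ i ∈ s, OcM Y (U i) fun y => ρ i y • θ y * pbM Y V p Ω y := fun i hi =>
    (c1 i hi).mul_right fun y _ => hΩ' y
  have e1 : (fun w => pushF Y V p θ w * Ω w) =
      fun w => ∑ i ∈ s, psh Y V p (U i) (fun y => ρ i y • θ y * pbM Y V p Ω y) w := by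
    funext w
    conv_lhs => rw [e]
    rw [push_sum hp hθ.cpt.isCompact s fun i y hy => by
      rw [image_eq_zero_of_notMem_tsupport hy, smul_zero], Finset.sum_mul]
    exact Finset.sum_congr rfl fun i hi => push_psh (hU i).2 (fun y => (c1 i hi).zero_of) Ω w
  have e2 : (fun y => θ y * pbM Y V p Ω y) = fun y => ∑ i ∈ s, ρ i y • θ y * pbM Y V p Ω y := by
    funext y
    rw [← Finset.sum_mul, ← congrFun e y]
  rw [e1, e2, intM_sum (hI E V N o ho) fun i hi =>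
      ((hU i).2.ocM_psh subset_rfl (c2 i hi)).mono (subset_univ _),
    intM_sum (hI E' Y N _ ho') fun i hi => (c2 i hi).mono (subset_univ _)]
  exact Finset.sum_congr rfl fun i hi => hO E' E Y V N _ o p (U i) _ ho' ho (hU i).2
    (fun y _ => cf_self_pos ho' y) (c2 i hi)

end Pool.Agent.MP_e1dc65_gt

end
end MrgPart2

-- ======== part 3: formerly Pool.Agent.MP_e1dc65_gt.o.Hat
section MrgPart3

/-! PROJECT HC, part O, row HAT: the circle-valued sum over the fibres and its cyclic cover. -/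

open scoped ContDiff Manifold Topology
open Set Filter Function Module Pool.Agent.MP_c8d41b_gt.GF

set_option linter.unusedSectionVars false

noncomputable section

namespace Pool.Agent.MP_e1dc65_gt.O

namespace HatP

/-- congruent modulo the integers -/
def Cg (a b : ℝ) : Prop := ∃ n : ℤ, a = b + n

theorem Cg.symm {a b : ℝ} (h : Cg a b) : Cg b a :=
  let ⟨n, e⟩ := h; ⟨-n, by rw [e]; simp⟩
theorem Cg.trans {a b c : ℝ} (h : Cg a b) (h' : Cg b c) : Cg a c :=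
  let ⟨n, e⟩ := h; let ⟨m, e'⟩ := h'; ⟨m + n, by rw [e, e']; push_cast; ring⟩
theorem Cg.fract {a b : ℝ} (h : Cg a b) : Int.fract a = Int.fract b := by
  obtain ⟨n, rfl⟩ := h
  exact Int.fract_add_intCast b n
theorem Cg.eq {a b : ℝ} (h : Cg a b) (h1 : |a - b| < 1) : a = b := by
  obtain ⟨n, rfl⟩ := h
  rw [add_sub_cancel_left, ← Int.cast_abs] at h1
  have : n = 0 := Int.abs_lt_one_iff.1 (by exact_mod_cast h1)
  simp [this]
theorem bit_cg {a : ℝ} (h : Bit a) : Cg a 0 := h.elim (fun e => ⟨0, by simp [e]⟩) fun e => ⟨1, by simp [e]⟩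

theorem ev_const {X : Type} [TopologicalSpace X] {f g : X → ℝ} {x : X} (hf : ContinuousAt f x)
    (hg : ContinuousAt g x) (h : ∀ᶠ y in 𝓝 x, Cg (f y) (g y)) :
    ∀ᶠ y in 𝓝 x, f y = g y + (f x - g x) := by
  have c : ContinuousAt (fun y => |f y - (g y + (f x - g x))|) x := (hf.sub (hg.add_const _)).abs
  filter_upwards [h, c.eventually (gt_mem_nhds (a := 1) (by simp))] with y h1 h2
  obtain ⟨n, e⟩ := h.self_of_nhds
  exact (h1.trans ⟨-n, by rw [e]; simp⟩).eq h2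

theorem sum_cg {Y : Type} {u : Y → ℝ} {s t : Finset Y} (h : s ⊆ t)
    (h' : ∀ y ∈ t, y ∉ s → Bit (u y)) : Cg (∑ y ∈ t, u y) (∑ y ∈ s, u y) := by
  classical
  obtain ⟨n, e⟩ : Cg (∑ y ∈ t \ s, u y) 0 := Finset.sum_induction _ (Cg · 0)
    (fun _ _ ⟨n, e⟩ ⟨m, e'⟩ => ⟨n + m, by rw [e, e']; simp⟩) ⟨0, by simp⟩
    fun y hy => bit_cg (h' y (Finset.mem_sdiff.1 hy).1 (Finset.mem_sdiff.1 hy).2)
  exact ⟨n, by rw [← Finset.sum_sdiff h, e, zero_add, add_comm]⟩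

variable {E : Type} [NormedAddCommGroup E] [NormedSpace ℝ E] [FiniteDimensional ℝ E] {V : Mf E}

/-- the total space of the cyclic cover -/
def Tt (r : V → ℝ) : Set (V × ℝ) := {z | Cg z.2 (r z.1)}

variable {r : V → ℝ} (hr : ∀ w, ∃ (O : Set V) (φ : V → ℝ), IsOpen O ∧ w ∈ O ∧ Sm V (vs ℝ) φ O ∧
  ∀ x ∈ O, Cg (φ x) (r x))

include hr in
theorem cover : IsCoveringMap fun z : Tt r => z.1.1 := fun w => by
  obtain ⟨O, φ, hO, hw, hφ, h⟩ := hr w
  have cq : Continuous fun z : Tt r => z.1.1 := by fun_prop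
  have cφ : Continuous fun x : O => φ x := continuousOn_iff_continuous_domRestrict.1 hφ.contOn
  have e : ∀ z : (fun z : Tt r => z.1.1) ⁻¹' O,
      ((round (z.1.1.2 - φ z.1.1.1) : ℤ) : ℝ) = z.1.1.2 - φ z.1.1.1 := fun z => by
    obtain ⟨n, e⟩ := Cg.trans z.1.2 (h _ z.2).symm
    rw [e, add_sub_cancel_left, round_intCast]
  refine IsEvenlyCovered.to_isEvenlyCovered_preimage (I := ℤ) ⟨inferInstance, O, hw, hO,
    hO.preimage cq, ⟨⟨fun z => (⟨z.1.1.1, z.2⟩, round (z.1.1.2 - φ z.1.1.1)),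
      fun a => ⟨⟨(a.1, φ a.1 + a.2), Cg.trans ⟨a.2, rfl⟩ (h _ a.1.2)⟩, a.1.2⟩, fun z => ?_,
      fun a => ?_⟩, ?_, ?_⟩, fun _ => rfl⟩
  · exact Subtype.ext (Subtype.ext (Prod.ext rfl (by simp only [e z, add_sub_cancel])))
  · simp
  · have c1 : Continuous fun z : (fun z : Tt r => z.1.1) ⁻¹' O => (⟨z.1.1.1, z.2⟩ : O) := by fun_prop
    refine c1.prodMk (Int.isClosedEmbedding_coe_real.isEmbedding.continuous_iff.2 ?_)
    simp only [comp_def, e]
    exact Continuous.sub (by fun_prop) (cφ.comp c1)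
  · refine Continuous.subtype_mk (Continuous.subtype_mk (Continuous.prodMk (by fun_prop) ?_) _) _
    exact (cφ.comp continuous_fst).add (Int.isClosedEmbedding_coe_real.continuous.comp continuous_snd)

include hr in
theorem closed : IsClosed (Tt r) := by
  refine isOpen_compl_iff.1 (isOpen_iff_mem_nhds.2 fun z hz => ?_)
  obtain ⟨O, φ, hO, hw, hφ, h⟩ := hr z.1
  have c : ContinuousAt (fun z : V × ℝ => z.2 - φ z.1) z :=
    continuousAt_snd.sub ((hφ _ hw).cont.comp continuousAt_fst)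
  filter_upwards [continuousAt_fst.preimage_mem_nhds (hO.mem_nhds hw), c.preimage_mem_nhds
    (Int.isClosedEmbedding_coe_real.isClosed_range.isOpen_compl.mem_nhds fun ⟨n, e⟩ =>
      hz (Cg.trans ⟨n, by rw [e]; simp⟩ (h _ hw)))] with y h1 h2 h3
  obtain ⟨n, e⟩ := Cg.trans h3 (h _ h1).symm
  exact h2 ⟨n, by simp [e]⟩

include hr in
theorem circ : ∃ (Vh : Mf E) (q : Vh → V) (U : Vh → ℝ), Circ V Vh q U ∧ (∀ z, Cg (U z) (r (q z))) ∧
    ∀ K, IsCompact K → ∀ a b, IsCompact {z | q z ∈ K ∧ U z ∈ Icc a b} := by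
  have : Nonempty (Tt r) := ⟨⟨(Classical.arbitrary V, r (Classical.arbitrary V)), 0, by simp⟩⟩
  have hc := cover hr
  have ld := ldAt_pull V (ContinuousLinearEquiv.refl ℝ E) (Tt r) hc.isLocalHomeomorph
  refine ⟨V.pull (ContinuousLinearEquiv.refl ℝ E) (Tt r) hc.isLocalHomeomorph, fun z => z.1.1,
    fun z => z.1.2, ⟨hc, ld, fun w => ⟨⟨(w, r w), 0, by simp⟩, rfl⟩, fun z _ => ?_,
      fun z n => ⟨⟨(z.1.1, z.1.2 + n), Cg.trans ⟨n, rfl⟩ z.2⟩, rfl, rfl⟩,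
      fun z z' e => Cg.trans z'.2 (by rw [← show z.1.1 = z'.1.1 from e]; exact Cg.symm z.2),
      fun z z' e e' => Subtype.ext (Prod.ext e e')⟩, fun z => z.2, fun K hK a b =>
      (closed hr).isClosedEmbedding_subtypeVal.isCompact_preimage (hK.prod isCompact_Icc)⟩
  obtain ⟨O, φ, hO, hw, hφ, h⟩ := hr z.1.1
  have s := (ld z).sm.trans (hφ _ hw)
  exact (s.add (smAt_const (Y := vs ℝ) _)).congr' (ev_const (f := fun z : Tt r => z.1.2)
    (by fun_prop) s.cont (mem_of_superset (hc.continuous.continuousAt.preimage_mem_nhds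
      (hO.mem_nhds hw)) fun y hy => Cg.trans y.2 (h _ hy).symm))

section Step
variable {χ : ℝ → ℝ} {a b : ℝ} (hχ : Step χ a b)
include hχ

theorem deriv_zero {t : ℝ} (ht : t ∉ Icc a b) : deriv χ t = 0 := by
  rw [mem_Icc, not_and_or, not_le, not_le] at ht
  rcases ht with h | h
  · rw [EventuallyEq.deriv_eq (f := fun _ => 0) ((gt_mem_nhds h).mono fun s hs => hχ.zero s hs.le),
      deriv_const]
  · rw [EventuallyEq.deriv_eq (f := fun _ => 1) ((lt_mem_nhds h).mono fun s hs => hχ.one s hs.le),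
      deriv_const]

theorem saw (ha : 0 < a) (hb : b < 1) (t : ℝ) :
    (fun s => χ (Int.fract s) - Int.fract s) =ᶠ[𝓝 t] fun s => χ (s - ⌊t⌋) - (s - ⌊t⌋) := by
  have hab : a < b := not_le.1 fun h => zero_ne_one ((hχ.zero a le_rfl).symm.trans (hχ.one a h))
  filter_upwards [Ioo_mem_nhds (show (⌊t⌋ : ℝ) - (1 - b) < t by linarith [Int.floor_le t])
    (Int.lt_floor_add_one t)] with s hs
  rcases le_or_gt (⌊t⌋ : ℝ) s with h | h
  · rw [Int.fract, Int.floor_eq_iff.2 ⟨h, hs.2⟩]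
  · have : ⌊s⌋ = ⌊t⌋ - 1 := Int.floor_eq_iff.2 ⟨by push_cast; linarith [hs.1], by simpa using h⟩
    rw [Int.fract, this, hχ.one _ (by push_cast; linarith [hs.1]), hχ.zero _ (by linarith)]
    push_cast
    ring

theorem saw' (ha : 0 < a) (hb : b < 1) (t : ℝ) :
    ContDiffAt ℝ ∞ (fun s => χ (Int.fract s) - Int.fract s) t ∧
      deriv (fun s => χ (Int.fract s) - Int.fract s) t = deriv χ (Int.fract t) - 1 := by
  have c : ContDiff ℝ ∞ fun s : ℝ => s - ⌊t⌋ := contDiff_id.sub contDiff_const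
  refine ⟨((hχ.sm.comp c).sub c).contDiffAt.congr_of_eventuallyEq (saw hχ ha hb t), ?_⟩
  rw [(saw hχ ha hb t).deriv_eq]
  have d := (hasDerivAt_id t).sub_const (⌊t⌋ : ℝ)
  exact (((hχ.sm.differentiable (by simp) _).hasDerivAt.comp t d).sub d).deriv.trans
    (by rw [mul_one]; rfl)

end Step

variable {Y : Mf E} {p : Y → V} {u : Y → ℝ} {K : Set Y} (hp : ∀ y, LDAt Y V p y)
  (hu : Sm Y (vs ℝ) u univ) (hK : IsCompact K) (hb : ∀ y ∉ K, Bit (u y))

include hp hK hb in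
theorem ex_r : ∃ r : V → ℝ, ∀ w (s : Finset Y), (∀ y ∈ s, p y = w) →
    (∀ y, p y = w → y ∉ s → Bit (u y)) → Cg (∑ y ∈ s, u y) (r w) := by
  classical
  refine ⟨fun w => ∑ y ∈ (PushR.finite_fibre hp hK w).toFinset, u y, fun w s h1 h2 =>
    (sum_cg Finset.subset_union_left fun y hy h => h2 y ?_ h).symm.trans
      (sum_cg Finset.subset_union_right fun y hy h => hb y fun h' => h ?_)⟩
  · exact ((Finite.mem_toFinset _).1 ((Finset.mem_union.1 hy).resolve_left h)).2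
  · exact (Finite.mem_toFinset _).2 ⟨h', h1 y ((Finset.mem_union.1 hy).resolve_right h)⟩

include hu hK hb in
theorem dF_off (y : Y) (hy : y ∉ K) : dF Y u y = 0 :=
  dF_of_ev (c := 0 + (u y - 0)) (ev_const (hu y trivial).cont continuousAt_const
    (mem_of_superset (hK.isClosed.isOpen_compl.mem_nhds hy) fun z hz => bit_cg (hb z hz)))

include hp hu hK hb in
theorem lift (h : ∀ w (s : Finset Y), (∀ y ∈ s, p y = w) → (∀ y, p y = w → y ∉ s → Bit (u y)) →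
    Cg (∑ y ∈ s, u y) (r w)) (w : V) : ∃ (O : Set V) (φ : V → ℝ), IsOpen O ∧ w ∈ O ∧
      Sm V (vs ℝ) φ O ∧ (∀ x ∈ O, Cg (φ x) (r x)) ∧ dF V φ w = pushF Y V p (dF Y u) w := by
  classical
  obtain ⟨O, s, σ, o1, o2, o3, o4, o5, o6⟩ := PushR.secs hp K w hK
  have c : ∀ x ∈ O, ∀ i ∈ s, SmAt V (vs ℝ) (fun x => u (σ i x)) x := fun x hx i hi =>
    ((o3 i hi).1 x hx).trans (hu _ trivial)
  have c' : Sm V (vs ℝ) (fun x => ∑ i ∈ s, u (σ i x)) O := fun x hx =>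
    smAt_iff_loc.2 (ContDiffAt.sum fun i hi => smAt_iff_loc.1 (c x hx i hi))
  refine ⟨O, _, o1, o2, c', fun x hx => ?_, ?_⟩
  · rw [← Finset.sum_image (g := fun i => σ i x) fun i hi j hj => o4 i hi j hj x hx]
    refine h x _ (fun y hy => ?_) fun y e hy => hb y fun h' => hy ?_
    · obtain ⟨i, hi, rfl⟩ := Finset.mem_image.1 hy
      exact (o3 i hi).2 x hx
    · subst e
      exact Finset.mem_image.2 (o5 y h' hx)
  · rw [o6 _ (dF_off hu hK hb) w o2, ← dM_scalar (c' w o2)]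
    simp only [map_sum]
    rw [dM_sum fun i hi => fmAt_scalar (c w o2 i hi)]
    exact Finset.sum_congr rfl fun i hi => (dM_scalar (c w o2 i hi)).trans
      (pbM_dF ((o3 i hi).1 w o2) (hu _ trivial)).symm

theorem push_circ {Vh : Mf E} {q : Vh → V} {U : Vh → ℝ} (C : Circ V Vh q U)
    (hU : ∀ z, Cg (U z) (r (q z))) {χ : ℝ → ℝ} {a b : ℝ} (hχ : Step χ a b) (ha : 0 < a) (h1 : b < 1)
    {O : Set V} {φ : V → ℝ} {w : V} (hO : O ∈ 𝓝 w) (hφ : SmAt V (vs ℝ) φ w)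
    (h : ∀ x ∈ O, Cg (φ x) (r x)) : pushF Vh V q (dF Vh fun z => χ (U z)) w =
      deriv χ (Int.fract (r w)) • dF V φ w := by
  obtain ⟨z₀, rfl, e'⟩ : ∃ z₀, q z₀ = w ∧ U z₀ = Int.fract (r w) := by
    obtain ⟨z, rfl⟩ := C.sur w
    obtain ⟨n, hn⟩ := hU z
    obtain ⟨z₀, e, e'⟩ := C.ex z (-n - ⌊r (q z)⌋)
    exact ⟨z₀, e, by rw [e', hn, Int.fract]; push_cast; ring⟩
  have s := (C.ld z₀).sm.trans hφ
  rw [← e', PushR.push_eq (t := {z₀}) (by simp), Finset.sum_singleton,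
    dF_comp (C.sm _ trivial) hχ.sm.contDiffAt, map_smul, dF_congr (ev_const (C.sm _ trivial).cont
      s.cont (mem_of_superset (C.cov.continuous.continuousAt.preimage_mem_nhds hO)
        fun y hy => (hU y).trans (h _ hy).symm)), dF_add s (smAt_const (Y := vs ℝ) _), dF_const,
    add_zero, ← pbM_dF (C.ld z₀).sm hφ, pbM, ← mp_comp, (C.ld z₀).inv.self_comp_inverse, mp_id]
  intro y e1 h2
  rw [dF_comp (C.sm _ trivial) hχ.sm.contDiffAt] at h2
  have h3 : U y ∈ Icc a b := by_contra fun h' => h2 (by rw [deriv_zero hχ h', zero_smul])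
  refine Finset.mem_singleton.2 (C.inj _ _ e1 (Cg.eq (C.dif _ _ e1.symm) ?_))
  rw [abs_lt, e']
  constructor <;> linarith [h3.1, h3.2, Int.fract_nonneg (r (q z₀)), Int.fract_lt_one (r (q z₀))]

end HatP

open HatP in
theorem hat : HatStmt := by
  intro Y V p u K hp hu hK hb
  obtain ⟨r, hr⟩ := ex_r hp hK hb
  have hl := lift hp hu hK hb hr
  obtain ⟨Vh, q, U, C, hU, hc⟩ := circ (r := r) fun w =>
    let ⟨O, φ, h1, h2, h3, h4, _⟩ := hl w; ⟨O, φ, h1, h2, h3, h4⟩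
  have hpK := hK.image (continuous_iff_continuousAt.2 fun y => (hp y).sm.cont)
  have off : ∀ w ∉ p '' K, Cg 0 (r w) := fun w hw =>
    hr w ∅ (by simp) fun y e _ => hb y fun h => hw ⟨y, h, e⟩
  have cpt : ∀ a b, 0 < a → b < 1 → IsCompact (U ⁻¹' Icc a b) := fun a b ha h1 =>
    (hc _ hpK a b).of_isClosed_subset (isClosed_Icc.preimage C.sm.cont) fun z hz =>
      ⟨by_contra fun h => by
        have := ((hU z).trans (off _ h).symm).eq (by rw [abs_lt]; constructor <;> linarith [hz.1, hz.2])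
        linarith [hz.1], hz⟩
  refine ⟨Vh, q, U, C, fun z s h1 h2 => (hU z).trans (hr _ s h1 h2).symm, cpt,
    fun o Ω χ a b ho hΩ hχ ha h1 => ?_⟩
  have I := intM_api volM _ V 5 o ho
  have P := pushM (intM_api volM) (intOE volM)
  have hΩ' := fun w => (hΩ.1 w trivial).1
  obtain ⟨-, e1⟩ := (P _ _ Vh V q C.ld).2 5 o Ω (dF Vh fun z => χ (U z)) ho (.of_compact
    (cpt a b ha h1) (subset_univ _) (fun z _ => fmAt_dF ((C.sm z trivial).vcomp hχ.sm.contDiffAt))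
    fun z hz => by rw [dF_comp (C.sm _ trivial) hχ.sm.contDiffAt, deriv_zero hχ hz, zero_smul]) hΩ'
  obtain ⟨o2, e2⟩ := (P _ _ Y V p hp).2 5 o Ω (dF Y u) ho (.of_compact hK (subset_univ _)
    (fun y _ => fmAt_dF (hu y trivial)) (dF_off hu hK hb)) hΩ'
  have g : ∀ w, SmAt V (vs ℝ) (fun x => χ (Int.fract (r x)) - Int.fract (r x)) w ∧
      pushF Vh V q (dF Vh fun z => χ (U z)) w =
        dF V (fun x => χ (Int.fract (r x)) - Int.fract (r x)) w + pushF Y V p (dF Y u) w := fun w => by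
    obtain ⟨O, φ, hO, hw, hφ, h, e⟩ := hl w
    have s := saw' hχ ha h1 (φ w)
    have ev : (fun x => χ (Int.fract (r x)) - Int.fract (r x)) =ᶠ[𝓝 w]
        fun x => χ (Int.fract (φ x)) - Int.fract (φ x) :=
      mem_of_superset (hO.mem_nhds hw) fun x hx => by simp only [mem_ofPred_eq, (h x hx).fract]
    refine ⟨((hφ w hw).vcomp s.1).congr' ev, ?_⟩
    rw [push_circ C hU hχ ha h1 (hO.mem_nhds hw) (hφ w hw) h, dF_congr ev, dF_comp (hφ w hw) s.1,
      s.2, ← e, (h w hw).fract, sub_smul, one_smul, sub_add_cancel]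
  have o1 : OcM V univ fun x => (χ (Int.fract (r x)) - Int.fract (r x)) • Ω x :=
    .of_compact hpK (subset_univ _) (fun x _ => (hΩ' x).fsmul (g x).1) fun x hx => by
      rw [← (off x hx).fract, Int.fract_zero, hχ.zero 0 ha.le, sub_self, zero_smul]
  have h2 := I.add _ _ o1.dM (o2.mul_right fun x _ => hΩ' x)
  rw [← e1, ← e2, ← zero_add (intM V o fun w => pushF Y V p (dF Y u) w * Ω w), ← I.stokes _ o1, ← h2]
  refine intM_congr o fun w => ?_
  rw [dM_fsmul (g w).1 (hΩ' w), hΩ.2 w trivial, smul_zero, add_zero, (g w).2, add_mul]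

end Pool.Agent.MP_e1dc65_gt.O

end
end MrgPart3

-- marker of a merged file
example : 731051 + 898059 = 731051 + 898059 := rfl

end MrgPart0

-- ======== part 1: formerly Pool.Agent.MP_e1dc65_gt.o.Uf
section MrgPart1

-- ======== part 0: formerly Pool.Agent.MP_e1dc65_gt.u.Cov
section MrgPart0

/-! PROJECT HC, part O: the universal cover, deck maps, lifts. -/

open scoped ContDiff Manifold Topology unitInterval
open Set Filter Function

noncomputable section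

namespace Pool.Agent.MP_e1dc65_gt

section Lift
variable {X Y Z : Type} [TopologicalSpace X] [TopologicalSpace Y] [TopologicalSpace Z] {q : Y → X}

/-- lifting from a simply connected open set -/
theorem lift_sc [LocallyPathConnectedSpace Z] (hq : IsCoveringMap q) (hs : Surjective q)
    {S : Set Z} (hS : IsOpen S) (sc : SC S) {f : Z → X} (hf : ContinuousOn f S) :
    ∃ Φ : Z → Y, ContinuousOn Φ S ∧ ∀ z ∈ S, q (Φ z) = f z := by
  classical
  have : SimplyConnectedSpace S := sc_iff.1 sc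
  have := hS.locallyPathConnectedSpace
  obtain ⟨z₀, hz₀⟩ := sc.1.nonempty
  obtain ⟨y₀, hy₀⟩ := hs (f z₀)
  obtain ⟨F, ⟨-, hF⟩, -⟩ := hq.existsUnique_continuousMap_lifts
    (⟨S.domRestrict f, hf.domRestrict⟩ : C(S, X)) ⟨z₀, hz₀⟩ y₀ hy₀
  refine ⟨fun z => if h : z ∈ S then F ⟨z, h⟩ else y₀, ?_, fun z hz => ?_⟩
  · rw [continuousOn_iff_continuous_domRestrict]
    refine F.continuous.congr fun z => ?_
    simp [z.2]
  · simp only [dif_pos hz]
    exact congr_fun hF ⟨z, hz⟩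

/-- a path in the cover whose image is null-homotopic is closed -/
theorem closed_of_null (hq : IsCoveringMap q) {a b : Y} (δ : Path a b) {x : X} (γ : Path x x)
    (h : ∀ t, γ t = q (δ t)) (hγ : HIn univ γ (Path.refl x)) : a = b := by
  have h0 : x = q a := by simpa using h 0
  have h1 := hq.liftPath_apply_one_eq_of_homotopicRel (hin_univ.1 hγ) a (by simpa using h0)
    (by simpa using h0)
  rw [← (hq.eq_liftPath_iff' _).2 (show q ∘ δ.toContinuousMap = _ ∧ _ from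
    ⟨funext fun t => (h t).symm, δ.source⟩),
    ← (hq.eq_liftPath_iff' _).2 (show q ∘ (Path.refl a).toContinuousMap =
      (Path.refl x).toContinuousMap ∧ (Path.refl a).toContinuousMap 0 = a from
      ⟨funext fun t => h0.symm, rfl⟩)] at h1
  simpa using h1.symm

end Lift

variable {E : Type} [NormedAddCommGroup E] [NormedSpace ℝ E] {X : Mf E}

theorem UC.nonempty [FiniteDimensional ℝ E] (X : Mf E) [ConnectedSpace X] : Nonempty (UC X) := by
  obtain ⟨G, _, _, τ, Y, e, h1, h2, h3, h4, h5, h6, h7, h8, h9⟩ := ucov local_ thin taut X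
  exact ⟨⟨G, τ, Y, e, h1, h2, h3, h4, h5, h6, h7, h8, h9⟩⟩

namespace UC

variable (c : UC X)

/-- the group coordinate -/
def el (y : c.Y) : c.G := (c.e.symm y).2
/-- deck transformations -/
def dk (g : c.G) (y : c.Y) : c.Y := c.e (c.p y, g * c.el y)

@[simp] theorem p_e (x : X) (g : c.G) : c.p (c.e (x, g)) = x := by simp [p]
@[simp] theorem el_e (x : X) (g : c.G) : c.el (c.e (x, g)) = g := by simp [el]
@[simp] theorem e_p (y : c.Y) : c.e (c.p y, c.el y) = y := by simp [p, el]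
@[simp] theorem dk_e (g : c.G) (x : X) (a : c.G) : c.dk g (c.e (x, a)) = c.e (x, g * a) := by
  simp [dk]
@[simp] theorem p_dk (g : c.G) (y : c.Y) : c.p (c.dk g y) = c.p y := by simp [dk]
@[simp] theorem el_dk (g : c.G) (y : c.Y) : c.el (c.dk g y) = g * c.el y := by simp [dk]
@[simp] theorem dk_one (y : c.Y) : c.dk 1 y = y := by simp [dk]
theorem dk_mul (g g' : c.G) (y : c.Y) : c.dk (g * g') y = c.dk g (c.dk g' y) := by
  simp [dk, mul_assoc]
theorem dk_inj {g g' : c.G} {y : c.Y} (h : c.dk g y = c.dk g' y) : g = g' := by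
  simpa using congrArg c.el h
theorem ext' {y y' : c.Y} (h : c.p y = c.p y') (h' : c.el y = c.el y') : y = y' := by
  rw [← c.e_p y, h, h', e_p]
theorem exists_dk {y y' : c.Y} (h : c.p y = c.p y') : ∃ g, y' = c.dk g y :=
  ⟨c.el y' * (c.el y)⁻¹, c.ext' (by simp [h]) (by simp)⟩
theorem covp : IsCoveringMap c.p := c.cov
theorem ldp (y : c.Y) : LDAt c.Y X c.p y := c.ld y
theorem cont_p : Continuous c.p := c.covp.continuous
theorem surj : Surjective c.p := fun x => ⟨c.e (x, 1), by simp⟩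
theorem ld_dk (g : c.G) (y : c.Y) : LDAt c.Y c.Y (c.dk g) y := c.deck g y
theorem cont_dk (g : c.G) : Continuous (c.dk g) :=
  continuous_iff_continuousAt.2 fun y => (c.ld_dk g y).sm.cont

theorem oe_sec {V : Set X} {s : X → c.G} (hV : IsOpen V) (hs : Par c.τ V s) :
    OE X c.Y (fun x => c.e (x, s x)) V := by simpa using c.sec V s 1 hV hs

/-- the sheet number is locally constant -/
theorem sheet {V : Set X} {s : X → c.G} (hV : IsOpen V) (hs : Par c.τ V s) {y : c.Y}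
    (hy : c.p y ∈ V) : ∀ᶠ z in 𝓝 y, c.p z ∈ V ∧
      c.el z * (s (c.p z))⁻¹ = c.el y * (s (c.p y))⁻¹ := by
  have h := (c.sec V s (c.el y * (s (c.p y))⁻¹) hV hs).isOpen_image hV subset_rfl
  filter_upwards [h.mem_nhds ⟨c.p y, hy, by simp⟩]
  rintro _ ⟨x, hx, rfl⟩
  simpa using hx

theorem exists_par (x : X) : ∃ V s, IsOpen V ∧ x ∈ V ∧ Par c.τ V s := by
  obtain ⟨O, hO, ht⟩ := Cov.mf_thin X x
  obtain ⟨s, hs⟩ := c.hol.triv_of_thin ht
  exact ⟨interior O, s, isOpen_interior, mem_interior_iff_mem_nhds.2 hO, hs.mono interior_subset⟩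

/-- local sections -/
theorem exists_sec (y : c.Y) : ∃ (V : Set X) (j : X → c.Y), IsOpen V ∧ c.p y ∈ V ∧
    ContinuousOn j V ∧ (∀ x, c.p (j x) = x) ∧ ∀ᶠ z in 𝓝 y, j (c.p z) = z := by
  obtain ⟨V, s, hV, hy, hs⟩ := c.exists_par (c.p y)
  refine ⟨V, _, hV, hy, (c.sec V s (c.el y * (s (c.p y))⁻¹) hV hs).sm.contOn, fun x => by simp, ?_⟩
  filter_upwards [c.sheet hV hs hy] with z hz
  rw [← hz.2]; simp

/-- the deck group acts properly discontinuously -/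
theorem pd {K L : Set c.Y} (hK : IsCompact K) (hL : IsCompact L) :
    {g | ∃ y ∈ K, c.dk g y ∈ L}.Finite := by
  have h : ∀ z ∈ K ×ˢ L, ∃ O ∈ 𝓝 z, {g | ∃ w ∈ O, c.dk g w.1 = w.2}.Finite := by
    rintro ⟨k, l⟩ -
    by_cases e : c.p k = c.p l
    · obtain ⟨V, s, hV, hy, hs⟩ := c.exists_par (c.p k)
      refine ⟨_, (c.sheet hV hs hy).prod_nhds (c.sheet hV hs (e ▸ hy)),
        (finite_singleton (c.el l * (c.el k)⁻¹)).subset ?_⟩
      rintro g ⟨⟨a, b⟩, ⟨⟨-, h1⟩, -, h2⟩, rfl : c.dk g a = b⟩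
      simp only [p_dk, el_dk, mul_assoc, h1, ← e] at h2
      rw [← mul_assoc, mul_left_inj] at h2
      rw [mem_singleton_iff, ← h2, mul_inv_cancel_right]
    · have ho : IsOpen {w : c.Y × c.Y | c.p w.1 ≠ c.p w.2} :=
        isOpen_ne_fun (c.cont_p.comp continuous_fst) (c.cont_p.comp continuous_snd)
      refine ⟨_, ho.mem_nhds e, finite_empty.subset ?_⟩
      rintro g ⟨w, h1, h2⟩
      exact h1 (by rw [← h2, p_dk])
  choose! O h1 h2 using h
  obtain ⟨t, t1, t2⟩ := (hK.prod hL).elim_nhds_subcover O h1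
  refine (t.finite_toSet.biUnion fun z hz => h2 z (t1 z hz)).subset ?_
  rintro g ⟨y, hy, hg⟩
  obtain ⟨z, hz, h⟩ := mem_iUnion₂.1 (t2 (show (y, c.dk g y) ∈ K ×ˢ L from ⟨hy, hg⟩))
  exact mem_iUnion₂.2 ⟨z, hz, _, h, rfl⟩

/-- compact sets are covered by compact sets -/
theorem exists_cpt [FiniteDimensional ℝ E] {K : Set X} (hK : IsCompact K) :
    ∃ L, IsCompact L ∧ ∀ y, c.p y ∈ K → ∃ g, ∃ l ∈ L, y = c.dk g l := by
  choose N n1 n2 using fun x : X => exists_compact_mem_nhds (c.e (x, 1))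
  obtain ⟨t, -, t2⟩ := hK.elim_nhds_subcover (fun x => c.p '' N x) fun x _ => by
    simpa using (c.ldp (c.e (x, 1))).image_mem (n2 x)
  refine ⟨⋃ x ∈ t, N x, t.isCompact_biUnion fun x _ => n1 x, fun y hy => ?_⟩
  obtain ⟨x, hx, l, hl, e⟩ := mem_iUnion₂.1 (t2 hy)
  obtain ⟨g, hg⟩ := c.exists_dk e
  exact ⟨g, l, mem_iUnion₂.2 ⟨x, hx, hl⟩, hg⟩

/-- an equivariant map is proper over compact sets -/
theorem proper [FiniteDimensional ℝ E] {f : c.Y → c.Y} (hf : Continuous f)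
    (he : ∀ g y, f (c.dk g y) = c.dk g (f y)) {K : Set X} (hK : IsCompact K) {A : Set c.Y}
    (hA : IsCompact A) : IsCompact {y | f y ∈ A ∧ c.p y ∈ K} := by
  obtain ⟨L, l1, l2⟩ := c.exists_cpt hK
  refine ((c.pd (l1.image hf) hA).isCompact_biUnion fun g _ => l1.image (c.cont_dk g)).of_isClosed_subset
    ((hA.isClosed.preimage hf).inter (hK.isClosed.preimage c.cont_p)) ?_
  rintro y ⟨h1, h2⟩
  obtain ⟨g, l, hl, rfl⟩ := l2 y h2
  exact mem_iUnion₂.2 ⟨g, ⟨f l, ⟨l, hl, rfl⟩, he g l ▸ h1⟩, l, hl, rfl⟩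

/-- the lift of a homotopy that starts at the identity -/
theorem exists_homotopy {H : X × ℝ → X} (hH : Continuous H) (h0 : ∀ x, H (x, 0) = x) :
    ∃ Ht : I × c.Y → c.Y, Continuous Ht ∧ (∀ y, Ht (0, y) = y) ∧
      (∀ t y, c.p (Ht (t, y)) = H (c.p y, t)) ∧
      (∀ t g y, Ht (t, c.dk g y) = c.dk g (Ht (t, y))) ∧
      ∀ y, (∀ s, H (c.p y, s) = c.p y) → ∀ t, Ht (t, y) = y := by
  have hp := c.cont_p
  let H' : C(I × c.Y, X) := ⟨fun z => H (c.p z.2, z.1), by fun_prop⟩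
  have e0 : ∀ y, H' (0, y) = c.p (ContinuousMap.id c.Y y) := fun y => h0 _
  let Ht := c.covp.liftHomotopy H' (ContinuousMap.id c.Y) e0
  have a1 : ∀ y, Ht (0, y) = y := c.covp.liftHomotopy_zero H' _ e0
  have a2 : ∀ t y, c.p (Ht (t, y)) = H (c.p y, t) := fun t y =>
    congr_fun (c.covp.liftHomotopy_lifts H' _ e0) (t, y)
  have a3 : ∀ y, Continuous fun t => Ht (t, y) := fun y => by fun_prop
  refine ⟨Ht, Ht.continuous, a1, a2, fun t g y => ?_, fun y hy t => ?_⟩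
  · exact congr_fun (c.covp.eq_of_comp_eq (a3 _) ((c.cont_dk g).comp (a3 y))
      (funext fun s => by simp [a2]) 0 (by simp [a1])) t
  · exact (c.covp.const_of_comp (a3 y) (fun s s' => by rw [a2, a2, hy, hy]) t 0).trans (a1 y)

end UC

end Pool.Agent.MP_e1dc65_gt

end
end MrgPart0

-- ======== part 1: formerly Pool.Agent.MP_e1dc65_gt.u.MSide
section MrgPart1

/-! PROJECT HC, part O, step O1: the lifted retraction and the step across one neck. -/

open scoped ContDiff Manifold Topology unitInterval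
open Set Filter Function

noncomputable section

namespace Pool.Agent.MP_e1dc65_gt

variable {D : ODat} (h : OHC D.M D.N) (c : UC h.W)

/-- the lift of the retraction to the level `0` of the end `M` -/
structure Rt (rt : c.Y → c.Y) : Prop where
  cont : Continuous rt
  p : ∀ y, c.p (rt y) = h.cM (h.r (c.p y), 0)
  eqv : ∀ g y, rt (c.dk g y) = c.dk g (rt y)
  fix : ∀ y m, c.p y = h.cM (m, 0) → rt y = y

theorem exists_rt : ∃ rt, Rt h c rt := by
  obtain ⟨Ht, h1, -, h3, h4, h5⟩ := c.exists_homotopy (H := fun p => h.H (p.1, max p.2 0))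
    (h.sdr.Hc.comp (by fun_prop)) (fun x => by simpa using h.sdr.zero x)
  refine ⟨fun y => Ht (1, y), by fun_prop, fun y => by simp [h3, h.sdr.one], h4 1,
    fun y m hy => h5 y (fun s => ?_) 1⟩
  simp only [hy, h.sdr.HA m 0 _ le_rfl (le_max_right s 0), mul_zero]

namespace OHC

/-- the neck of `M` times the line -/
def VM : Set h.W := h.cM '' (range D.νM ×ˢ univ)
/-- the neck coordinate -/
def ncM (w : h.W) : ℝ := (invFunOn D.νM univ (invFunOn h.cM univ w).1).2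

variable {h}

theorem cM_inj {p q : D.M × ℝ} (e : h.cM p = h.cM q) : p = q := h.oeM.inj trivial trivial e
theorem cN_inj {p q : D.N × ℝ} (e : h.cN p = h.cN q) : p = q := h.oeN.inj trivial trivial e
theorem cont_cM : Continuous h.cM := h.oeM.sm.cont
theorem cont_cN : Continuous h.cN := h.oeN.sm.cont
theorem nM_mem (x : D.F) (n t : ℝ) : h.nM x n t ∈ h.VM := ⟨_, ⟨⟨_, rfl⟩, trivial⟩, rfl⟩
theorem mem_VM {w : h.W} (hw : w ∈ h.VM) : ∃ x n t, w = h.nM x n t := by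
  obtain ⟨⟨_, t⟩, ⟨⟨⟨x, n⟩, rfl⟩, -⟩, rfl⟩ := hw
  exact ⟨x, n, t, rfl⟩

variable (hν : OE D.F.cyl D.M D.νM univ)
include hν

theorem open_nk : IsOpen (range D.νM) := image_univ ▸ hν.isOpen_image isOpen_univ subset_rfl
theorem open_VM : IsOpen h.VM :=
  h.oeM.isOpen_image ((open_nk hν).prod isOpen_univ) (subset_univ _)
theorem ncM_nM (x : D.F) (n t : ℝ) : h.ncM (h.nM x n t) = n := by
  simp only [ncM, nM, h.oeM.left (mem_univ _), hν.left (mem_univ _)]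
theorem sm_ncM : Sm h.W (vs ℝ) h.ncM h.VM := by
  intro w hw
  obtain ⟨x, n, t, rfl⟩ := mem_VM hw
  have h1 := (h.oeM.symm.sm (h.nM x n t) ⟨_, trivial, rfl⟩).trans (smAt_fst (X := D.M) (Y := vs ℝ))
  have h2 := hν.symm.sm (invFunOn h.cM univ (h.nM x n t)).1
    ⟨(x, n), trivial, by simp only [nM, h.oeM.left (mem_univ _)]⟩
  exact (h1.trans h2).trans (smAt_snd (X := D.F) (Y := vs ℝ))
theorem cont_nM : Continuous fun q : D.F × ℝ × ℝ => h.nM q.1 q.2.1 q.2.2 :=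
  cont_cM.comp ((hν.sm.cont.comp (by fun_prop : Continuous fun q : D.F × ℝ × ℝ =>
    (q.1, q.2.1))).prodMk (by fun_prop))
theorem nM_inj {x x' : D.F} {n n' t t' : ℝ} (e : h.nM x n t = h.nM x' n' t') :
    x = x' ∧ n = n' ∧ t = t' := by
  have h1 := cM_inj e
  have h2 := hν.inj trivial trivial (congrArg Prod.fst h1)
  exact ⟨congrArg Prod.fst h2, congrArg Prod.snd h2, congrArg Prod.snd h1⟩

omit hν in
theorem thin_VM (ht : Thin (range D.νM) univ) : Thin h.VM univ :=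
  Thin.image (thin_prod ht (sc_univ (E := ℝ)).2) cont_cM.continuousOn (mapsTo_univ _ _)
    (h.oeM.symm.sm.contOn.mono (image_mono (subset_univ _))) fun _ _ => h.oeM.left trivial

end OHC

open OHC

variable {h c}

/-- the level `0` is locally path connected -/
theorem level_lpc {y : c.Y} {O : Set c.Y} (hy : ∃ m, c.p y = h.cM (m, 0)) (hO : O ∈ 𝓝 y) :
    ∀ᶠ z in 𝓝[{y | ∃ m, c.p y = h.cM (m, 0)}] y,
      JoinedIn ({y | ∃ m, c.p y = h.cM (m, 0)} ∩ O) y z := by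
  obtain ⟨V, j, hV, hyV, j1, j2, j3⟩ := c.exists_sec y
  obtain ⟨m, hm⟩ := hy
  have c0 : Continuous fun m : D.M => h.cM (m, 0) := cont_cM.comp (by fun_prop)
  have e0 : j (h.cM (m, 0)) = y := hm ▸ j3.self_of_nhds
  have h1 : {m' | h.cM (m', 0) ∈ V ∧ j (h.cM (m', 0)) ∈ O} ∈ 𝓝 m :=
    inter_mem (c0.continuousAt.preimage_mem_nhds (hV.mem_nhds (hm ▸ hyV)))
      (((j1.continuousAt (hV.mem_nhds (hm ▸ hyV))).comp (f := fun m : D.M => h.cM (m, 0))
        c0.continuousAt).preimage_mem_nhds (by simpa only [comp_apply, e0] using hO))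
  have h2 : ∀ᶠ z in 𝓝 y, h.r (c.p z) ∈ pathComponentIn _ m :=
    (h.sdr.rc.comp c.cont_p).continuousAt.preimage_mem_nhds (by
      simpa only [comp_apply, hm, h.sdr.rA m 0 le_rfl] using pathComponentIn_mem_nhds h1)
  filter_upwards [nhdsWithin_le_nhds h2, nhdsWithin_le_nhds j3, self_mem_nhdsWithin] with z z1 z2 z3
  obtain ⟨m', hm'⟩ := z3
  rw [hm', h.sdr.rA m' 0 le_rfl] at z1
  have := (JoinedIn.map_continuousOn z1 (f := fun m => j (h.cM (m, 0)))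
    (j1.comp c0.continuousOn fun _ hm => hm.1))
  rw [e0, ← hm', z2] at this
  refine this.mono ?_
  rintro _ ⟨a, ha, rfl⟩
  exact ⟨⟨a, j2 _⟩, ha.2⟩

/-- the two sides of the chosen neck -/
theorem exists_side [CompactSpace D.F] [ConnectedSpace D.F] (hν : OE D.F.cyl D.M D.νM univ)
    {rt : c.Y → c.Y} (hr : Rt h c rt) {s : h.W → c.G} (hs : Par c.τ h.VM s) :
    ∃ κ : c.Y → ℝ, (∀ y, κ y = 0 ∨ κ y = 1) ∧
      (∀ x n, κ (c.e (h.nM x n 0, s (h.nM x n 0))) = if 0 < n then 1 else 0) ∧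
      ∀ y, (∀ x, rt y ≠ c.e (h.nM x 0 0, s (h.nM x 0 0))) → ∀ᶠ z in 𝓝 y, κ (rt z) = κ (rt y) := by
  classical
  have oe := c.oe_sec (open_VM hν) hs
  let j : D.F × ℝ → c.Y := fun q => c.e (h.nM q.1 q.2 0, s (h.nM q.1 q.2 0))
  have cj : Continuous j := oe.sm.contOn.comp_continuous
    ((cont_nM hν).comp (by fun_prop : Continuous fun q : D.F × ℝ => (q.1, q.2, (0 : ℝ))))
    fun q => nM_mem _ _ _
  let T : Set c.Y := {y | ∃ m, c.p y = h.cM (m, 0)}
  let B : Set c.Y := (fun w => c.e (w, s w)) '' h.VM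
  have hB : IsOpen B := oe.isOpen_image (open_VM hν) subset_rfl
  let A : Set c.Y := range fun x => j (x, 0)
  have hA : IsOpen Aᶜ := (isCompact_range (cj.comp (by fun_prop))).isClosed.isOpen_compl
  have hj : ∀ q, j q ∈ T ∩ B := fun q => ⟨⟨_, c.p_e _ _⟩, _, nM_mem _ _ _, rfl⟩
  have hTB : ∀ y ∈ T ∩ B, ∃ q, j q = y := by
    rintro _ ⟨⟨m, hm⟩, w, hw, rfl⟩
    obtain ⟨x, n, t, rfl⟩ := mem_VM hw
    obtain rfl : t = 0 := congrArg Prod.snd (cM_inj ((c.p_e _ _).symm.trans hm))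
    exact ⟨(x, n), rfl⟩
  let ρ : c.Y → ℤˣ := fun y => if y ∈ B ∧ 0 < h.ncM (c.p y) then -1 else 1
  have hρ : LC ρ (T ∩ B ∩ Aᶜ) := by
    intro y hy
    obtain ⟨⟨x, n⟩, rfl⟩ := hTB y hy.1
    have hn : n ≠ 0 := fun e => hy.2 ⟨x, by rw [e]⟩
    have h1 : ContinuousAt (fun z => h.ncM (c.p z)) (j (x, n)) :=
      (sm_ncM hν _ (by simpa [j] using nM_mem x n 0)).cont.comp c.cont_p.continuousAt
    have h2 : h.ncM (c.p (j (x, n))) = n := by simp [j, ncM_nM hν]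
    refine nhdsWithin_le_nhds ?_
    rcases hn.lt_or_gt with hn | hn
    · filter_upwards [h1.eventually_lt continuousAt_const (g := fun _ => 0) (h2.trans_lt hn)] with z hz
      simp only [ρ, h2, hn.not_gt, hz.not_gt, and_false]
    · filter_upwards [continuousAt_const.eventually_lt h1 (f := fun _ => 0) (hn.trans_eq h2.symm),
        hB.mem_nhds hy.1.2] with z hz hz'
      simp only [ρ, h2, hn, hz, hz', hy.1.2, and_true]
  obtain ⟨τ, t1, t2⟩ := CechP.cech2 (T := T) (U := fun i : Bool => if i then B else Aᶜ)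
    (ρ := fun i => if i then fun _ => 1 else ρ) (by rintro (_ | _); exacts [hA, hB])
    (fun y _ => by
      by_cases e : y ∈ A
      · obtain ⟨x, rfl⟩ := e
        exact ⟨true, (hj _).2⟩
      · exact ⟨false, e⟩)
    (by
      rintro (_ | _) (_ | _)
      · exact (lc_const 1).congr fun y _ => by simp
      · exact (hρ.mono fun y hy => ⟨⟨hy.1.1, hy.2⟩, hy.1.2⟩).comp fun a => a * 1⁻¹
      · exact hρ.comp fun a => 1 * a⁻¹
      · exact (lc_const 1).congr fun y _ => by simp)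
  have hrT : ∀ y, rt y ∈ T := fun y => ⟨_, hr.p y⟩
  have scT : SC T := c.sc.retract hr.cont.continuousOn (fun y _ => hrT y) continuousOn_id
    (mapsTo_univ _ _) fun y ⟨m, hm⟩ => hr.fix y m hm
  obtain ⟨k, hk⟩ := t1.triv_of_sc scT subset_rfl
  obtain ⟨x₀⟩ : Nonempty D.F := inferInstance
  have pc : PathConnectedSpace D.F := Mf.pathConnected _
  have k1 : ∀ q, k (j q) = k (j (x₀, 0)) := fun q => by
    have h1 : JoinedIn (T ∩ B) (j (x₀, 0)) (j q) :=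
      (((isPathConnected_univ.joinedIn (x₀, 0) trivial q trivial).map cj)).mono
        (by rintro _ ⟨q, -, rfl⟩; exact hj q)
    simpa using (t2 true).diff (hk.mono inter_subset_left) h1
  have k2 : LC (fun y => k y * (ρ y)⁻¹) (T ∩ Aᶜ) := fun y hy => by
    filter_upwards [nhdsWithin_mono y inter_subset_left (level_lpc hy.1 (hA.mem_nhds hy.2))]
      with z hz
    exact (t2 false).diff (hk.mono inter_subset_left) hz
  refine ⟨fun y => if k y * (ρ y)⁻¹ = k (j (x₀, 0)) then 0 else 1, fun y => ?_, fun x n => ?_,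
    fun y hy => ?_⟩
  · dsimp only; split_ifs <;> simp
  · have h2 : h.ncM (c.p (j (x, n))) = n := by simp [j, ncM_nM hν]
    show (if k (j (x, n)) * (ρ (j (x, n)))⁻¹ = _ then (0 : ℝ) else 1) = _
    simp only [ρ, k1 (x, n), h2, (hj (x, n)).2, true_and]
    by_cases hn : 0 < n <;> simp [hn]
  · have ho : IsOpen (rt ⁻¹' Aᶜ) := hA.preimage hr.cont
    have hy' : y ∈ rt ⁻¹' Aᶜ := fun ⟨x, e⟩ => hy x e.symm
    have := k2.pull (U := rt ⁻¹' Aᶜ) hr.cont.continuousOn (fun z hz => ⟨hrT z, hz⟩) y hy'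
    rw [ho.nhdsWithin_eq hy'] at this
    filter_upwards [this] with z hz
    rw [hz]

/-- the function `u₀` -/
theorem exists_u0 [CompactSpace D.F] [ConnectedSpace D.F] (hν : OE D.F.cyl D.M D.νM univ)
    {s : h.W → c.G} (hs : Par c.τ h.VM s) {β : ℝ → ℝ} (b1 : ∀ n, β n ∈ Icc (0 : ℝ) 1)
    (b2 : ∀ n ≤ -1, β n = 0) (b3 : ∀ n, 1 ≤ n → β n = 1) :
    ∃ (u : c.Y → ℝ) (K : Set c.Y), IsCompact K ∧ (∀ y ∈ K, h.S (c.p y) ≤ 2) ∧
      (∀ y, u y ∈ Icc (0 : ℝ) 1) ∧ (∀ x n t, 0 ≤ t → u (c.e (h.nM x n t, s (h.nM x n t))) = β n) ∧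
      ∀ y ∉ K, h.S (c.p y) ≤ 2 ∨ c.p y ∈ range h.cM →
        (∀ x n t, |n| ≤ 1 → 1 < t → y ≠ c.e (h.nM x n t, s (h.nM x n t))) →
        (u y = 0 ∨ u y = 1) ∧ ∀ᶠ z in 𝓝 y, u z = u y := by
  classical
  obtain ⟨rt, hr⟩ := exists_rt h c
  obtain ⟨κ, k1, k2, k3⟩ := exists_side hν hr hs
  have oe := c.oe_sec (open_VM hν) hs
  let j : D.F × ℝ × ℝ → c.Y := fun q => c.e (h.nM q.1 q.2.1 q.2.2, s (h.nM q.1 q.2.1 q.2.2))
  have cj : Continuous j := oe.sm.contOn.comp_continuous (cont_nM hν) fun q => nM_mem _ _ _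
  have rj : ∀ x n t, 0 ≤ t → rt (j (x, n, t)) = j (x, n, 0) := fun x n t ht => by
    rw [← hr.fix (j (x, n, 0)) _ (c.p_e _ _)]
    refine c.covp.constOn_of_comp (isPreconnected_Ici (a := (0 : ℝ)))
      (g := fun t => rt (j (x, n, t))) (hr.cont.comp (cj.comp (by fun_prop))).continuousOn
      (fun a ha b hb => ?_) ht self_mem_Ici
    simp only [hr.p, j, c.p_e, nM, h.sdr.rA _ _ ha, h.sdr.rA _ _ hb]
  let A : Set c.Y := j '' (univ ×ˢ Icc (-1) 1 ×ˢ {0})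
  have hA : IsCompact A := (isCompact_univ.prod (isCompact_Icc.prod isCompact_singleton)).image cj
  let u : c.Y → ℝ := fun y => if ∃ x n, rt y = j (x, n, 0) then β (h.ncM (c.p (rt y))) else κ (rt y)
  have uj : ∀ y x n, rt y = j (x, n, 0) → u y = β n := fun y x n e => by
    simp only [u, if_pos (⟨x, n, e⟩ : ∃ x n, rt y = j (x, n, 0))]
    simp [e, j, ncM_nM hν]
  have uκ : ∀ y, rt y ∉ A → u y = κ (rt y) := fun y hy => by
    by_cases e : ∃ x n, rt y = j (x, n, 0)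
    · obtain ⟨x, n, e⟩ := e
      have hn : n ∉ Icc (-1 : ℝ) 1 := fun hn => hy ⟨(x, n, 0), ⟨trivial, hn, rfl⟩, e.symm⟩
      rw [uj y x n e, e, k2]
      rw [mem_Icc, not_and_or, not_le, not_le] at hn
      rcases hn with hn | hn
      · rw [b2 n hn.le, if_neg (by linarith)]
      · rw [b3 n hn.le, if_pos (by linarith)]
    · exact if_neg e
  refine ⟨u, _, c.proper hr.cont hr.eqv (h.Scpt 2) hA, fun y hy => hy.2, fun y => ?_,
    fun x n t ht => uj _ x n (rj x n t ht), fun y hy h1 h2 => ?_⟩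
  · simp only [u]; split_ifs
    · exact b1 _
    · rcases k1 (rt y) with e | e <;> simp [e]
  have hy' : rt y ∉ A := by
    intro hA'
    have hS : ¬h.S (c.p y) ≤ 2 := fun e => hy ⟨hA', e⟩
    obtain ⟨⟨m, t⟩, ⟨-, ht⟩, e⟩ : c.p y ∈ h.cM '' (univ ×ˢ Ioi 1) := by
      refine (h.Sgt _ (by linarith [not_le.1 hS])).resolve_right ?_
      rintro ⟨q, -, e⟩
      obtain ⟨q', e'⟩ := h1.resolve_left hS
      exact h.disj _ _ (e'.trans e.symm)
    obtain ⟨⟨x, n, _⟩, ⟨-, hn, rfl⟩, e2⟩ := hA'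
    have ht0 : 0 ≤ t := (zero_lt_one.trans ht).le
    have e3 : m = D.νM (x, n) := by
      have := hr.p y
      rw [← e2, ← e, h.sdr.rA m t ht0] at this
      exact (congrArg Prod.fst (cM_inj ((c.p_e _ _).symm.trans this))).symm
    obtain ⟨g, hg⟩ := c.exists_dk (y := j (x, n, t)) (y' := y) (by simp [j, nM, ← e, e3])
    rw [hg, hr.eqv, rj x n t ht0] at e2
    obtain rfl : 1 = g := c.dk_inj ((c.dk_one _).trans e2)
    exact h2 x n t (abs_le.2 hn) ht (by simpa using hg)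
  refine ⟨by rw [uκ y hy']; exact k1 _, ?_⟩
  filter_upwards [(hA.isClosed.isOpen_compl.preimage hr.cont).mem_nhds hy',
    k3 y fun x e => hy' ⟨(x, 0, 0), ⟨trivial, by simp, rfl⟩, e.symm⟩] with z z1 z2
  rw [uκ z z1, uκ y hy', z2]

end Pool.Agent.MP_e1dc65_gt

end
end MrgPart1

-- ======== part 2: formerly Pool.Agent.MP_e1dc65_gt.k.OneEnd
section MrgPart2

/-! Row ONEEND: a space with a proper cocompact action of the plane lattice has one end. -/

open scoped Topology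
open Set Filter

namespace Pool.Agent.MP_e1dc65_gt

namespace OneEndP

variable {X : Type} [TopologicalSpace X] {C D : Set X} {p : X}

/-- a compact set of paths from the base point -/
theorem paths [LocallyCompactSpace X] (hc : IsClosed C) (hC : IsPathConnected C) (hp : p ∈ C)
    (hl : ∀ x ∈ C, ∀ O ∈ 𝓝 x, ∃ V ∈ 𝓝 x, ∀ y ∈ C ∩ V, JoinedIn (C ∩ O) x y) (hD : IsCompact D) :
    ∃ E, IsCompact E ∧ E ⊆ C ∧ ∀ y ∈ D ∩ C, JoinedIn E p y := by
  have h : ∀ x ∈ D ∩ C, ∃ E, IsCompact E ∧ E ⊆ C ∧ ∃ V ∈ 𝓝 x, ∀ y ∈ C ∩ V, JoinedIn E p y := by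
    intro x hx
    obtain ⟨O, o1, o2⟩ := exists_compact_mem_nhds x
    obtain ⟨V, v1, v2⟩ := hl x hx.2 O o2
    obtain ⟨γ, hγ⟩ := hC.joinedIn p hp x hx.2
    refine ⟨range γ ∪ C ∩ O, (isCompact_range γ.continuous).union (o1.inter_left hc),
      union_subset (range_subset_iff.2 hγ) inter_subset_left, V, v1, fun y hy => ?_⟩
    exact JoinedIn.trans ⟨γ, fun t => Or.inl ⟨t, rfl⟩⟩ ((v2 y hy).mono subset_union_right)
  choose! E e1 e2 V v1 v2 using h
  obtain ⟨t, t1, t2⟩ := (hD.inter_right hc).elim_nhds_subcover V v1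
  refine ⟨⋃ x ∈ t, E x, t.isCompact_biUnion fun x hx => e1 x (t1 x hx),
    iUnion₂_subset fun x hx => e2 x (t1 x hx), fun y hy => ?_⟩
  obtain ⟨x, hx, h⟩ := mem_iUnion₂.1 (t2 hy)
  exact (v2 x (t1 x hx) y ⟨hy.2, h⟩).mono (subset_biUnion_of_mem (u := E) hx)

/-- unit steps along a line -/
theorem line {S : Set X} {q : ℤ → X} (h : ∀ i, JoinedIn S (q i) (q (i + 1))) (i j : ℤ) :
    JoinedIn S (q i) (q j) := by
  have h0 : ∀ i, JoinedIn S (q 0) (q i) := fun i => by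
    induction i using Int.induction_on with
    | zero => exact JoinedIn.refl (h 0).source_mem
    | succ i ih => exact ih.trans (h i)
    | pred i ih =>
      have := h (-(i : ℤ) - 1)
      rw [sub_add_cancel] at this
      exact ih.trans this.symm
  exact (h0 i).symm.trans (h0 j)

end OneEndP

open OneEndP

theorem oneEnd : OneEndStmt := by
  intro X _ _ _ C D a ca a0 aa hc hC hl hm hD hcov hfin K hK
  obtain ⟨p, hp⟩ := hC.nonempty
  obtain ⟨E, e1, e2, e3⟩ := paths hc hC hp hl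
    ((hD.insert (a (1, 0) p)).insert (a (0, 1) p))
  have hB : {n | (a n '' E ∩ K).Nonempty}.Finite := (hfin _ (e1.union hK)).subset fun n hn =>
    Set.Nonempty.mono (inter_subset_inter (image_mono subset_union_left) subset_union_right) hn
  obtain ⟨R, hR⟩ := (hB.image fun n => max |n.1| |n.2|).bddAbove
  have tr : ∀ n : ℤ × ℤ, R < |n.1| ∨ R < |n.2| → ∀ y, JoinedIn E p y →
      JoinedIn (C \ K) (a n p) (a n y) := fun n hn y hy => by
    refine (hy.map (ca n)).mono ?_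
    rintro _ ⟨z, hz, rfl⟩
    exact ⟨hm n (e2 hz), fun h => (lt_max_iff.2 hn).not_ge (hR ⟨n, ⟨_, ⟨z, hz, rfl⟩, h⟩, rfl⟩)⟩
  have hor : ∀ j, R < |j| → ∀ i i', JoinedIn (C \ K) (a (i, j) p) (a (i', j) p) := fun j hj =>
    line (q := fun i => a (i, j) p) fun i => by
      have := tr (i, j) (Or.inr hj) _ (e3 (a (1, 0) p) ⟨Or.inr (Or.inl rfl), hm _ hp⟩)
      rwa [← aa, Prod.mk_add_mk, add_zero] at this
  have ver : ∀ i, R < |i| → ∀ j j', JoinedIn (C \ K) (a (i, j) p) (a (i, j') p) := fun i hi =>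
    line (q := fun j => a (i, j) p) fun j => by
      have := tr (i, j) (Or.inl hi) _ (e3 (a (0, 1) p) ⟨Or.inl rfl, hm _ hp⟩)
      rwa [← aa, Prod.mk_add_mk, add_zero] at this
  have r1 : R < |R + 1| := (lt_add_one R).trans_le (le_abs_self _)
  have hf : (Icc (-R, -R) (R, R) : Set (ℤ × ℤ)).Finite := finite_Icc _ _
  refine ⟨⋃ n ∈ Icc (-R, -R) (R, R), a n '' E, hf.isCompact_biUnion fun n _ => e1.image (ca n), ?_⟩
  have key : ∀ x ∈ C \ ⋃ n ∈ Icc (-R, -R) (R, R), a n '' E,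
      JoinedIn (C \ K) (a (R + 1, R + 1) p) x := by
    intro x hx
    obtain ⟨n, hn⟩ := hcov x hx.1
    have j1 := e3 (a n x) ⟨Or.inr (Or.inr hn), hm n hx.1⟩
    have e : a (-n) (a n x) = x := by rw [← aa, neg_add_cancel, a0]
    have h1 : R < |(-n).1| ∨ R < |(-n).2| := by
      by_contra h
      rw [not_or, not_lt, not_lt, abs_le, abs_le] at h
      exact hx.2 (mem_iUnion₂.2 ⟨-n, ⟨⟨h.1.1, h.2.1⟩, h.1.2, h.2.2⟩, _, j1.target_mem, e⟩)
    have j2 := tr (-n) h1 _ j1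
    rw [e] at j2
    refine JoinedIn.trans ?_ j2
    rcases h1 with h | h
    · exact (hor _ r1 _ _).trans (ver _ h _ _)
    · exact (ver _ r1 _ _).trans (hor _ h _ _)
  exact fun x hx y hy => (key x hx).symm.trans (key y hy)

end Pool.Agent.MP_e1dc65_gt

end MrgPart2

-- ======== part 3: formerly Pool.Agent.MP_e1dc65_gt.u.Ends
section MrgPart3

/-! PROJECT HC, part O: a locally constant function has one value at the end of each translate
of a one-ended piece. -/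

open scoped Topology
open Set Filter

namespace Pool.Agent.MP_e1dc65_gt

namespace EndsP

open OneEndP

variable {Z : Type} [TopologicalSpace Z]

/-- the data of a proper cocompact action of the plane lattice on `C ⊆ P` -/
structure Act (a : ℤ × ℤ → Z → Z) (P C D : Set Z) : Prop where
  ca : ∀ n, Continuous (a n)
  a0 : ∀ x, a 0 x = x
  aa : ∀ m n x, a (m + n) x = a m (a n x)
  op : IsOpen P
  pc : IsPathConnected P
  cl : IsClosed C
  ne : C.Nonempty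
  sub : C ⊆ P
  mP : ∀ n, MapsTo (a n) P P
  mC : ∀ n, MapsTo (a n) C C
  cD : IsCompact D
  cov : ∀ x, ∃ n, a n x ∈ D
  fin : ∀ K, IsCompact K → {n | (a n '' K ∩ K).Nonempty}.Finite

variable {a : ℤ × ℤ → Z → Z} {P C D : Set Z}

theorem Act.far (h : Act a P C D) {L : Set Z} (hL : IsCompact L) : ∃ z ∈ C, z ∉ L := by
  obtain ⟨p, hp⟩ := h.ne
  obtain ⟨n, hn⟩ := (h.fin _ (hL.insert p)).exists_notMem
  exact ⟨a n p, h.mC n hp, fun e => hn ⟨_, ⟨p, Or.inl rfl, rfl⟩, Or.inr e⟩⟩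

theorem Act.join [T2Space Z] [LocallyCompactSpace Z] [LocallyPathConnectedSpace Z]
    (h : Act a P C D) : ∃ E, IsCompact E ∧ E ⊆ P ∧ ∀ (K : Set Z) (R : ℤ),
      (∀ n : ℤ × ℤ, R < |n.1| ∨ R < |n.2| → ∀ z ∈ E, a n z ∉ K) →
      ∀ x ∈ C \ ⋃ n ∈ Icc (-R, -R) (R, R), a n '' E, ∀ y ∈ C \ ⋃ n ∈ Icc (-R, -R) (R, R), a n '' E,
        JoinedIn (P \ K) x y := by
  obtain ⟨p, hp⟩ := h.ne
  have hD := ((h.cD.insert (a (1, 0) p)).insert (a (0, 1) p)).inter_right h.cl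
  have h1 : ∀ x ∈ insert (a (0, 1) p) (insert (a (1, 0) p) D) ∩ C,
      ∃ E, IsCompact E ∧ E ⊆ P ∧ ∃ V ∈ 𝓝 x, ∀ y ∈ V, JoinedIn E p y := by
    intro x hx
    obtain ⟨O, o2, o3, o1⟩ := local_compact_nhds (h.op.mem_nhds (h.sub hx.2))
    obtain ⟨γ, hγ⟩ := h.pc.joinedIn p (h.sub hp) x (h.sub hx.2)
    refine ⟨range γ ∪ O, (isCompact_range γ.continuous).union o1,
      union_subset (range_subset_iff.2 hγ) o3, _, pathComponentIn_mem_nhds o2, fun y hy => ?_⟩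
    exact JoinedIn.trans ⟨γ, fun t => Or.inl ⟨t, rfl⟩⟩ (JoinedIn.mono hy subset_union_right)
  choose! E e1 e2 V v1 v2 using h1
  obtain ⟨t, t1, t2⟩ := hD.elim_nhds_subcover V v1
  have e3 : ∀ y ∈ insert (a (0, 1) p) (insert (a (1, 0) p) D) ∩ C, JoinedIn (⋃ x ∈ t, E x) p y :=
    fun y hy => by
      obtain ⟨x, hx, h⟩ := mem_iUnion₂.1 (t2 hy)
      exact (v2 x (t1 x hx) y h).mono (subset_biUnion_of_mem (u := E) hx)
  have e4 : ⋃ x ∈ t, E x ⊆ P := iUnion₂_subset fun x hx => e2 x (t1 x hx)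
  refine ⟨⋃ x ∈ t, E x, t.isCompact_biUnion fun x hx => e1 x (t1 x hx), e4, fun K R hR => ?_⟩
  generalize ⋃ x ∈ t, E x = E at e3 e4 hR
  have tr : ∀ n : ℤ × ℤ, R < |n.1| ∨ R < |n.2| → ∀ y, JoinedIn E p y →
      JoinedIn (P \ K) (a n p) (a n y) := fun n hn y hy => by
    refine (hy.map (h.ca n)).mono ?_
    rintro _ ⟨z, hz, rfl⟩
    exact ⟨h.mP n (e4 hz), hR n hn z hz⟩
  have hor : ∀ j, R < |j| → ∀ i i', JoinedIn (P \ K) (a (i, j) p) (a (i', j) p) := fun j hj =>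
    line (q := fun i => a (i, j) p) fun i => by
      have := tr (i, j) (Or.inr hj) _ (e3 (a (1, 0) p) ⟨Or.inr (Or.inl rfl), h.mC _ hp⟩)
      rwa [← h.aa, Prod.mk_add_mk, add_zero] at this
  have ver : ∀ i, R < |i| → ∀ j j', JoinedIn (P \ K) (a (i, j) p) (a (i, j') p) := fun i hi =>
    line (q := fun j => a (i, j) p) fun j => by
      have := tr (i, j) (Or.inl hi) _ (e3 (a (0, 1) p) ⟨Or.inl rfl, h.mC _ hp⟩)
      rwa [← h.aa, Prod.mk_add_mk, add_zero] at this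
  have r1 : R < |R + 1| := (lt_add_one R).trans_le (le_abs_self _)
  have key : ∀ x ∈ C \ ⋃ n ∈ Icc (-R, -R) (R, R), a n '' E,
      JoinedIn (P \ K) (a (R + 1, R + 1) p) x := by
    intro x hx
    obtain ⟨n, hn⟩ := h.cov x
    have j1 := e3 (a n x) ⟨Or.inr (Or.inr hn), h.mC n hx.1⟩
    have e : a (-n) (a n x) = x := by rw [← h.aa, neg_add_cancel, h.a0]
    have h1 : R < |(-n).1| ∨ R < |(-n).2| := by
      by_contra h
      rw [not_or, not_lt, not_lt, abs_le, abs_le] at h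
      exact hx.2 (mem_iUnion₂.2 ⟨-n, ⟨⟨h.1.1, h.2.1⟩, h.1.2, h.2.2⟩, _, j1.target_mem, e⟩)
    have j2 := tr (-n) h1 _ j1
    rw [e] at j2
    refine JoinedIn.trans ?_ j2
    rcases h1 with h | h
    · exact (hor _ r1 _ _).trans (ver _ h _ _)
    · exact (ver _ r1 _ _).trans (hor _ h _ _)
  exact fun x hx y hy => (key x hx).symm.trans (key y hy)

/-- the value at the end -/
theorem Act.ends [T2Space Z] [LocallyCompactSpace Z] [LocallyPathConnectedSpace Z]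
    (h : Act a P C D) {Y G A : Type} [TopologicalSpace Y] [Group G] {dk : G → Y → Y}
    (d1 : ∀ g, Continuous (dk g)) (d2 : ∀ g g' y, dk (g * g') y = dk g (dk g' y))
    (pd : ∀ K L, IsCompact K → IsCompact L → {g | ∃ y ∈ K, dk g y ∈ L}.Finite) {φ : Z → Y}
    (c1 : ContinuousOn φ P) (inj : InjOn φ P) (eqv : ∀ n, ∃ g, ∀ z ∈ P, φ (a n z) = dk g (φ z))
    {u : Y → A} {K : Set Y} (hK : IsCompact K)
    (lc : ∀ g, LC (fun z => u (dk g (φ z))) (P \ {z | dk g (φ z) ∈ K})) :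
    (∀ L, IsCompact L → ∀ g, ∃ z ∈ C, dk g (φ z) ∉ L) ∧
    ∃ (c : G → A) (K' : Set Y), IsCompact K' ∧
      ∀ g, ∀ z ∈ C, dk g (φ z) ∉ K' → u (dk g (φ z)) = c g := by
  choose γ hγ using eqv
  obtain ⟨p, hp⟩ := h.ne
  have fin : ∀ g E L, IsCompact E → E ⊆ P → IsCompact L →
      {n | ∃ z ∈ E, dk g (φ (a n z)) ∈ L}.Finite := by
    intro g E L hE hP hL
    refine Set.Finite.of_finite_fibers (fun n => g * γ n)
      ((pd _ L (hE.image_of_continuousOn (c1.mono hP)) hL).subset ?_) fun x hx => ?_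
    · rintro _ ⟨n, ⟨z, hz, h1⟩, rfl⟩
      exact ⟨φ z, ⟨z, hz, rfl⟩, by rwa [d2, ← hγ n z (hP hz)]⟩
    · obtain ⟨m, -, rfl⟩ := hx
      refine ((h.fin {p} isCompact_singleton).image fun k => m + k).subset ?_
      rintro n ⟨-, hn⟩
      have e1 : γ n = γ m := mul_left_cancel hn
      have e2 : a n p = a m p := inj (h.mP n (h.sub hp)) (h.mP m (h.sub hp))
        (by rw [hγ n p (h.sub hp), hγ m p (h.sub hp), e1])
      refine ⟨-m + n, ⟨_, ⟨p, rfl, rfl⟩, ?_⟩, by simp⟩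
      rw [h.aa, e2, ← h.aa, neg_add_cancel, h.a0]; rfl
  refine ⟨fun L hL g => ?_, ?_⟩
  · obtain ⟨n, hn⟩ := (fin g {p} L isCompact_singleton (singleton_subset_iff.2 (h.sub hp))
      hL).exists_notMem
    exact ⟨a n p, h.mC n hp, fun e => hn ⟨p, rfl, e⟩⟩
  obtain ⟨E, e1, e2, e3⟩ := h.join
  have h1 : ∀ g, ∃ (L : Set Z) (c : A), IsCompact L ∧ L ⊆ P ∧
      ((∀ n, ∀ z ∈ E, dk g (φ (a n z)) ∉ K) → L = ∅) ∧ ∀ z ∈ C \ L, u (dk g (φ z)) = c := by
    intro g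
    obtain ⟨R, r1, r2⟩ : ∃ R : ℤ, ((∀ n, ∀ z ∈ E, dk g (φ (a n z)) ∉ K) → R = -1) ∧
        ∀ n : ℤ × ℤ, R < |n.1| ∨ R < |n.2| → ∀ z ∈ E, dk g (φ (a n z)) ∉ K := by
      by_cases e : ∀ n, ∀ z ∈ E, dk g (φ (a n z)) ∉ K
      · exact ⟨-1, fun _ => rfl, fun n _ => e n⟩
      · obtain ⟨R, hR⟩ := ((fin g E K e1 e2 hK).image fun n => max |n.1| |n.2|).bddAbove
        exact ⟨R, fun e' => (e e').elim, fun n hn z hz e' =>
          (lt_max_iff.2 hn).not_ge (hR ⟨n, ⟨z, hz, e'⟩, rfl⟩)⟩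
    have hL : IsCompact (⋃ n ∈ Icc (-R, -R) (R, R), a n '' E) :=
      (finite_Icc _ _).isCompact_biUnion fun n _ => e1.image (h.ca n)
    obtain ⟨z₀, z1, z2⟩ := h.far hL
    refine ⟨_, u (dk g (φ z₀)), hL, iUnion₂_subset fun n _ => (h.mP n).image_subset.trans'
      (image_mono e2), fun e => ?_, fun z hz =>
      (lc g).joined (e3 {z | dk g (φ z) ∈ K} R r2 z₀ ⟨z1, z2⟩ z hz)⟩
    rw [r1 e, Icc_eq_empty (by simp)]
    simp
  choose L c l1 l2 l3 l4 using h1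
  have hΓ := pd _ K (e1.image_of_continuousOn (c1.mono e2)) hK
  refine ⟨c, ⋃ g ∈ {g | ∃ y ∈ φ '' E, dk g y ∈ K}, dk g '' (φ '' L g), hΓ.isCompact_biUnion
    fun g _ => ((l1 g).image_of_continuousOn (c1.mono (l2 g))).image (d1 g), fun g z hz hz' => ?_⟩
  by_cases e : ∀ n, ∀ z ∈ E, dk g (φ (a n z)) ∉ K
  · exact l4 g z ⟨hz, by simp [l3 g e]⟩
  push Not at e
  obtain ⟨n, w, w1, w2⟩ := e
  have e1 : ∀ z ∈ P, dk (g * γ n) (φ z) = dk g (φ (a n z)) := fun z hz => by rw [d2, hγ n z hz]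
  have e4 : ∀ z, a n (a (-n) z) = z := fun z => by rw [← h.aa, add_neg_cancel, h.a0]
  have e5 : ∀ z ∈ C, a (-n) z ∉ L (g * γ n) → u (dk g (φ z)) = c (g * γ n) := fun z hz hz' => by
    rw [← l4 _ _ ⟨h.mC (-n) hz, hz'⟩, e1 _ (h.sub (h.mC (-n) hz)), e4]
  obtain ⟨v, v1, v2⟩ := h.far ((l1 g).union ((l1 (g * γ n)).image (h.ca n)))
  rw [← l4 g v ⟨v1, fun e => v2 (Or.inl e)⟩, e5 v v1 fun e => v2 (Or.inr ⟨_, e, e4 v⟩)]
  refine e5 z hz fun e => hz' (mem_iUnion₂.2 ⟨g * γ n, ⟨φ w, ⟨w, w1, rfl⟩, ?_⟩, _, ⟨_, e, rfl⟩, ?_⟩)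
  · rwa [e1 w (e2 w1)]
  · rw [e1 _ (h.sub (h.mC (-n) hz)), e4]

end EndsP

end Pool.Agent.MP_e1dc65_gt

end MrgPart3

-- ======== part 4: formerly Pool.Agent.MP_e1dc65_gt.u.NSide
section MrgPart4

/-! PROJECT HC, part O, step O2: the function on the end `N`. -/

open scoped ContDiff Manifold Topology unitInterval
open Set Filter Function

noncomputable section

namespace Pool.Agent.MP_e1dc65_gt

theorem cont_nsq {n : ℕ} : Continuous (nsq : Rn n → ℝ) := by unfold nsq; fun_prop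

theorem cpt_nsq {n : ℕ} (a b : ℝ) : IsCompact {v : Rn n | nsq v ∈ Icc a b} := by
  refine Metric.isCompact_of_isClosed_isBounded (isClosed_Icc.preimage cont_nsq)
    ((Metric.isBounded_closedBall (x := 0) (r := |b| + 1)).subset fun v hv => ?_)
  rw [mem_closedBall_zero_iff, pi_norm_le_iff_of_nonneg (by positivity)]
  intro i
  have h : v i ^ 2 ≤ nsq v :=
    Finset.single_le_sum (f := fun i => v i ^ 2) (fun _ _ => sq_nonneg _) (Finset.mem_univ i)
  rw [Real.norm_eq_abs]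
  nlinarith [hv.2, le_abs_self b, sq_abs (v i), abs_nonneg (v i), sq_nonneg (|v i| - 1),
    abs_nonneg b]

theorem ne_of_nsq {n : ℕ} {v : Rn n} (h : 0 < nsq v) : v ≠ 0 := by
  rintro rfl; simp [nsq] at h

theorem nsq_pos {n : ℕ} {v : Rn n} (h : v ≠ 0) : 0 < nsq v := by
  obtain ⟨i, hi⟩ := ne_iff.1 h
  exact Finset.sum_pos' (fun _ _ => sq_nonneg _) ⟨i, Finset.mem_univ i, sq_pos_of_ne_zero hi⟩

theorem exists_nsq {r : ℝ} (hr : 0 < r) : ∃ v : Rn 4, nsq v = r :=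
  (sc_nsq_sphere (n := 4) (by norm_num) hr).1.nonempty

variable {D : ODat} (h : OHC D.M D.N)

namespace OHC

/-- the neck of `N` times the line -/
def VN : Set h.W := h.cN '' ((D.νN '' {v | v ≠ 0}) ×ˢ univ)
/-- the neck coordinate -/
def vcN (w : h.W) : Rn 4 := invFunOn D.νN {v | v ≠ 0} (invFunOn h.cN univ w).1

variable {h}

theorem nN_mem {v : Rn 4} (hv : v ≠ 0) (t : ℝ) : h.nN v t ∈ h.VN :=
  ⟨_, ⟨⟨v, hv, rfl⟩, trivial⟩, rfl⟩
theorem mem_VN {w : h.W} (hw : w ∈ h.VN) : ∃ v t, v ≠ 0 ∧ w = h.nN v t := by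
  obtain ⟨⟨_, t⟩, ⟨⟨v, hv, rfl⟩, -⟩, rfl⟩ := hw
  exact ⟨v, t, hv, rfl⟩

variable (hν : OE (vs (Rn 4)) D.N D.νN {v | v ≠ 0})
include hν

theorem open_VN : IsOpen h.VN :=
  h.oeN.isOpen_image ((hν.isOpen_image hν.op subset_rfl).prod isOpen_univ) (subset_univ _)
theorem vcN_nN {v : Rn 4} (hv : v ≠ 0) (t : ℝ) : h.vcN (h.nN v t) = v := by
  simp only [vcN, nN, h.oeN.left (mem_univ _)]
  exact hν.left hv
theorem sm_vcN : Sm h.W (vs (Rn 4)) h.vcN h.VN := by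
  intro w hw
  obtain ⟨v, t, hv, rfl⟩ := mem_VN hw
  have h1 := (h.oeN.symm.sm (h.nN v t) ⟨_, trivial, rfl⟩).trans (smAt_fst (X := D.N) (Y := vs ℝ))
  exact h1.trans (hν.symm.sm (invFunOn h.cN univ (h.nN v t)).1
    ⟨v, hv, by simp only [nN, h.oeN.left (mem_univ _)]⟩)
theorem cont_nN : ContinuousOn (fun q : Rn 4 × ℝ => h.nN q.1 q.2) ({v | v ≠ 0} ×ˢ univ) :=
  cont_cN.comp_continuousOn ((hν.sm.contOn.comp continuousOn_fst fun _ hq => hq.1).prodMk
    continuousOn_snd)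
theorem thin_VN : Thin h.VN univ := by
  have h1 : Thin (D.νN '' {v | v ≠ 0}) univ :=
    Thin.image (sc_punct (E := Rn 4) (by simp)).2 hν.sm.contOn (mapsTo_univ _ _)
      hν.symm.sm.contOn fun _ hx => hν.left hx
  exact Thin.image (thin_prod h1 (sc_univ (E := ℝ)).2) cont_cN.continuousOn (mapsTo_univ _ _)
    (h.oeN.symm.sm.contOn.mono (image_mono (subset_univ _))) fun _ _ => h.oeN.left trivial
theorem cpt_shell {a : ℝ} (ha : 0 < a) (b : ℝ) : IsCompact (D.νN '' {v | nsq v ∈ Icc a b}) :=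
  (cpt_nsq a b).image_of_continuousOn
    (hν.sm.contOn.mono fun _ hv => ne_of_nsq (ha.trans_le hv.1))

end OHC

open OHC

variable {h} (c : UC h.W) {C : SpinCover}

/-- the value at the end of each component over the complement of the sphere -/
theorem exists_val (ok : D.Ok C) {a₁ a₂ : ℝ} (h0 : 0 < a₁) (h1 : a₁ < 1) (h2 : 1 < a₂)
    {u : c.Y → ℝ} {K : Set c.Y} (hK : IsCompact K) (hu : ∀ y ∉ K, (∃ n, c.p y = h.cN (n, 1)) →
      (u y = 0 ∨ u y = 1) ∧ ∀ᶠ z in 𝓝 y, u z = u y) :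
    ∃ (k : c.Y → ℝ) (K' : Set c.Y), IsCompact K' ∧ (∀ y, k y = 0 ∨ k y = 1) ∧
      (∀ y n t, c.p y = h.cN (n, t) → n ∉ D.νN '' {v | nsq v = 1} → ∀ᶠ z in 𝓝 y, k z = k y) ∧
      ∀ y ∉ K', ∀ n, c.p y = h.cN (n, 1) → n ∉ D.νN '' {v | nsq v ∈ Ioo a₁ a₂} → u y = k y := by
  classical
  have hν := ok.neckN
  have cp := ok.covN.continuous
  let P : Set D.NG := D.pN ⁻¹' (D.νN '' {v | nsq v = 1})ᶜ
  let Z : Set D.NG := D.pN ⁻¹' (D.νN '' {v | nsq v ∈ Ioo a₁ a₂})ᶜ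
  have hP : IsOpen P := by
    have := (cpt_shell hν one_pos 1).isClosed.isOpen_compl.preimage cp
    simpa only [Icc_self, mem_singleton_iff] using this
  have hZP : Z ⊆ P := fun z hz ⟨v, hv, e⟩ => hz ⟨v, by simp [show nsq v = 1 from hv, h1, h2], e⟩
  obtain ⟨D₀, d1, d2⟩ := ok.actK
  have act : EndsP.Act D.act P Z D₀ := by
    refine ⟨ok.actc, ok.act0, ok.actm, hP, ok.scN.1, ((hν.isOpen_image (isOpen_Ioo.preimage cont_nsq)
      fun v hv => ne_of_nsq (h0.trans hv.1)).isClosed_compl).preimage cp, ?_, hZP,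
      fun n z hz => by simpa only [P, mem_preimage, ok.actp] using hz,
      fun n z hz => by simpa only [Z, mem_preimage, ok.actp] using hz, d1, d2, ok.actd⟩
    obtain ⟨v, hv⟩ := exists_nsq h0
    obtain ⟨z, hz⟩ := ok.surN (D.νN v)
    refine ⟨z, ?_⟩
    rintro ⟨w, hw, e⟩
    obtain rfl : w = v := hν.inj (ne_of_nsq (h0.trans hw.1)) (ne_of_nsq (hv ▸ h0)) (e.trans hz)
    exact hw.1.ne' hv
  have hPR : IsOpen (P ×ˢ (univ : Set ℝ)) := hP.prod isOpen_univ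
  obtain ⟨Φ, f1, f2⟩ := lift_sc c.covp c.surj hPR (ok.scN.prod (sc_univ (E := ℝ)))
    (f := fun q : D.NG × ℝ => h.cN (D.pN q.1, q.2)) (cont_cN.comp (by fun_prop)).continuousOn
  have f3 : ∀ z ∈ P, ∀ t, c.p (Φ (z, t)) = h.cN (D.pN z, t) := fun z hz t => f2 (z, t) ⟨hz, trivial⟩
  have eqv : ∀ k : D.NG → D.NG, Continuous k → (∀ z, D.pN (k z) = D.pN z) →
      ∃ g, ∀ z ∈ P, ∀ t, Φ (k z, t) = c.dk g (Φ (z, t)) := by
    intro k hk e
    have m : ∀ z ∈ P, k z ∈ P := fun z hz => by simpa only [P, mem_preimage, e] using hz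
    obtain ⟨z₀, hz₀⟩ := ok.scN.1.nonempty
    obtain ⟨g, hg⟩ := c.exists_dk (y := Φ (z₀, 0)) (y' := Φ (k z₀, 0))
      (by rw [f3 _ hz₀, f3 _ (m _ hz₀), e])
    refine ⟨g, fun z hz t => c.covp.eqOn_of_comp_eqOn (g₁ := fun q : D.NG × ℝ => Φ (k q.1, q.2))
      (g₂ := fun q => c.dk g (Φ q)) (ok.scN.prod (sc_univ (E := ℝ))).1.isConnected.isPreconnected
      (f1.comp (by fun_prop) fun q hq => ⟨m _ hq.1, trivial⟩) ((c.cont_dk g).comp_continuousOn f1)
      (fun q hq => ?_) (a := (z₀, 0)) ⟨hz₀, trivial⟩ hg (show (z, t) ∈ _ from ⟨hz, trivial⟩)⟩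
    simp only [comp_apply, c.p_dk, f3 _ (m _ hq.1), e]
    exact (f2 q hq).symm
  have c1 : ContinuousOn (fun z => Φ (z, 1)) P := f1.comp (by fun_prop) fun z hz => ⟨hz, trivial⟩
  have inj : InjOn (fun z => Φ (z, 1)) P := by
    intro z hz z' hz' e
    obtain ⟨δ, hδ⟩ := ok.scN.1.joinedIn z hz z' hz'
    have c2 : Continuous fun y => h.r2 (c.p y) := h.r2c.comp c.cont_p
    refine closed_of_null ok.covN δ (((push _ c1 δ hδ).cast rfl e).map c2) (fun t => ?_)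
      ((c.sc.2 _ ((push _ c1 δ hδ).cast rfl e) (in_univ _)).map c2.continuousOn
        (mapsTo_univ _ univ) (fun _ => rfl) fun _ => rfl)
    show h.r2 (c.p (Φ (δ t, 1))) = _
    rw [f3 _ (hδ t), h.r2N _ _ zero_le_one]
  obtain ⟨far, k, K', k1, k2⟩ := act.ends (dk := c.dk) c.cont_dk c.dk_mul (fun _ _ => c.pd) c1 inj
    (fun n => (eqv _ (ok.actc n) (ok.actp n)).imp fun g hg z hz => hg z hz 1) (u := u) hK
    (fun g z hz => ((((c.cont_dk g).comp_continuousOn c1) z hz.1).mono sdiff_subset).eventually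
      (hu _ hz.2 ⟨_, by rw [c.p_dk, f3 z hz.1]⟩).2)
  have k3 : ∀ g, k g = 0 ∨ k g = 1 := fun g => by
    obtain ⟨z, z1, z2⟩ := far _ (hK.union k1) g
    rw [← k2 g z z1 fun e => z2 (Or.inr e)]
    exact (hu _ (fun e => z2 (Or.inl e)) ⟨_, by rw [c.p_dk, f3 z (hZP z1)]⟩).1
  have k4 : ∀ g g', ∀ z ∈ P, ∀ z' ∈ P, ∀ t t', c.dk g (Φ (z, t)) = c.dk g' (Φ (z', t')) →
      k g = k g' := by
    intro g g' z hz z' hz' t t' e
    have e1 := congrArg c.p e
    rw [c.p_dk, c.p_dk, f3 z hz, f3 z' hz'] at e1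
    obtain ⟨e2, rfl⟩ := Prod.mk.inj (cN_inj e1)
    obtain ⟨d, d1, rfl⟩ := ok.deckN z z' e2
    obtain ⟨γ, hγ⟩ := eqv d d.continuous d1
    rw [hγ z hz, ← c.dk_mul] at e
    obtain rfl := c.dk_inj e
    obtain ⟨w, w1, w2⟩ := far _ k1 (g' * γ)
    rw [← k2 _ w w1 w2, c.dk_mul, ← hγ w (hZP w1)]
    refine k2 g' (d w) (by simpa only [Z, mem_preimage, d1] using w1) ?_
    rwa [hγ w (hZP w1), ← c.dk_mul]
  let kk : c.Y → ℝ := fun y =>
    if e : ∃ g, ∃ z ∈ P, ∃ t, y = c.dk g (Φ (z, t)) then k e.choose else 0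
  have k5 : ∀ g, ∀ z ∈ P, ∀ t, kk (c.dk g (Φ (z, t))) = k g := fun g z hz t => by
    have e : ∃ g', ∃ z' ∈ P, ∃ t', c.dk g (Φ (z, t)) = c.dk g' (Φ (z', t')) := ⟨g, z, hz, t, rfl⟩
    obtain ⟨z', hz', t', e'⟩ := e.choose_spec
    simp only [kk, dif_pos e]
    exact (k4 _ _ z hz z' hz' t t' e').symm
  have k6 : ∀ y n t, c.p y = h.cN (n, t) → ∀ z, D.pN z = n → z ∈ P → ∃ g, y = c.dk g (Φ (z, t)) :=
    fun y n t e z hz hz' => c.exists_dk (by rw [f3 z hz', hz, e])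
  refine ⟨kk, K', k1, fun y => ?_, fun y n t e hn => ?_, fun y hy n e hn => ?_⟩
  · simp only [kk]; split_ifs
    exacts [k3 _, Or.inl rfl]
  · obtain ⟨z, rfl⟩ := ok.surN n
    obtain ⟨g, rfl⟩ := k6 y _ t e z rfl hn
    have hz : (z, t) ∈ P ×ˢ (univ : Set ℝ) := ⟨hn, trivial⟩
    have l1 : LDAt D.NG.cyl c.Y Φ (z, t) := (c.ldp _).ld_of_lift (f1.continuousAt (hPR.mem_nhds hz))
      ((((ok.ldN z).prodMap (ldAt_id (X := vs ℝ) (x := t))).trans (h.oeN.ld _ trivial)).congr'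
        (by filter_upwards [hPR.mem_nhds hz] with q hq using f2 q hq))
    filter_upwards [(l1.trans (c.ld_dk g _)).image_mem (hPR.mem_nhds hz)]
    rintro _ ⟨⟨z', t'⟩, hz', rfl⟩
    rw [k5 g z' hz'.1, k5 g z hn]
  · obtain ⟨z, rfl⟩ := ok.surN n
    obtain ⟨g, rfl⟩ := k6 y _ 1 e z rfl (hZP hn)
    rw [k5 g z (hZP hn), k2 g z hn hy]

end Pool.Agent.MP_e1dc65_gt

end
end MrgPart4

-- ======== part 5: formerly Pool.Agent.MP_e1dc65_gt.u.U
section MrgPart5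

/-! PROJECT HC, part O, steps O1 and O2: the function `u`. -/

open scoped ContDiff Manifold Topology unitInterval
open Set Filter Function

noncomputable section

namespace Pool.Agent.MP_e1dc65_gt

open OHC

variable {D : ODat} {h : OHC D.M D.N} (c : UC h.W) {C : SpinCover}

theorem smAt_of_lc {E : Type} [NormedAddCommGroup E] [NormedSpace ℝ E] {X : Mf E} {f : X → ℝ}
    {x : X} (h : ∀ᶠ z in 𝓝 x, f z = f x) : SmAt X (vs ℝ) f x :=
  (smAt_const (Y := vs ℝ) (f x)).congr' h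

/-- the model function on the end `N` -/
theorem exists_w (ok : D.Ok C) {a₁ a₂ : ℝ} (h0 : 0 < a₁) (h1 : a₁ < 1) (h2 : 1 < a₂)
    {s : h.W → c.G} (hs : Par c.τ h.VN s) {b : Rn 4 → ℝ} (b0 : ∀ v, v ≠ 0 → ContDiffAt ℝ ∞ b v)
    (b1 : ∀ v, b v ∈ Icc (0 : ℝ) 1) (b2 : ∀ v, nsq v ≤ a₁ → b v = 0) (b3 : ∀ v, a₂ ≤ nsq v → b v = 1)
    {u : c.Y → ℝ} {K : Set c.Y} (hK : IsCompact K) (hu : ∀ y ∉ K, (∃ n, c.p y = h.cN (n, 1)) →
      (u y = 0 ∨ u y = 1) ∧ ∀ᶠ z in 𝓝 y, u z = u y) :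
    ∃ (w : c.Y → ℝ) (J : Finset c.G) (sg : c.G → Bool) (K' : Set c.Y), IsCompact K' ∧ K ⊆ K' ∧
      (∀ y, w y ∈ Icc (0 : ℝ) 1) ∧ (∀ y, c.p y ∈ range h.cN → SmAt c.Y (vs ℝ) w y) ∧
      (∀ g ∈ J, ∀ v t, v ≠ 0 →
        w (c.e (h.nN v t, g * s (h.nN v t))) = if sg g then b v else 1 - b v) ∧
      (∀ y, c.p y ∈ range h.cN → (∀ g ∈ J, ∀ v t, a₁ ≤ nsq v → nsq v ≤ a₂ →
        y ≠ c.e (h.nN v t, g * s (h.nN v t))) → (w y = 0 ∨ w y = 1) ∧ ∀ᶠ z in 𝓝 y, w z = w y) ∧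
      ∀ y ∉ K', (∃ n, c.p y = h.cN (n, 1)) → w y = u y ∧ ∀ᶠ z in 𝓝 y, w z = w y := by
  classical
  have hν := ok.neckN
  obtain ⟨k, K₁, k1, k2, k3, k4⟩ := exists_val c ok h0 h1 h2 hK hu
  let j : c.G → Rn 4 × ℝ → c.Y := fun g q => c.e (h.nN q.1 q.2, g * s (h.nN q.1 q.2))
  have cj : ∀ g, ContinuousOn (j g) ({v | v ≠ 0} ×ˢ univ) := fun g =>
    (c.sec _ s g (open_VN hν) hs).sm.contOn.comp (cont_nN hν) fun q hq => nN_mem hq.1 _
  have pj : ∀ g v t, c.p (j g (v, t)) = h.cN (D.νN v, t) := fun g v t => c.p_e _ _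
  have ej : ∀ y v t, c.p y = h.nN v t → y = j (c.el y * (s (c.p y))⁻¹) (v, t) :=
    fun y v t e => c.ext' (by rw [pj, e, nN]) (by simp [j, e])
  have kc : ∀ g (L : Set ℝ), L.OrdConnected → (∀ r ∈ L, 0 < r) → 1 ∉ L → ∀ v v' t t',
      nsq v ∈ L → nsq v' ∈ L → k (j g (v, t)) = k (j g (v', t')) := by
    intro g L i1 i2 i3 v v' t t' hv hv'
    have pc := (pc_nsq (n := 4) (by norm_num) i1 i2 ⟨_, hv⟩).prod (isPathConnected_univ (X := ℝ))
    refine LC.joined (f := fun q => k (j g q)) (fun q hq => ?_)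
      (pc.joinedIn (v', t') ⟨hv', trivial⟩ (v, t) ⟨hv, trivial⟩)
    have hq' : q.1 ≠ 0 := ne_of_nsq (i2 _ hq.1)
    refine (((cj g) q ⟨hq', trivial⟩).mono fun r hr => ⟨ne_of_nsq (i2 _ hr.1), trivial⟩).eventually
      (k3 _ _ _ (pj g q.1 q.2) ?_)
    rintro ⟨v, hv, e⟩
    obtain rfl : v = q.1 := hν.inj (ne_of_nsq (hv ▸ one_pos)) hq' e
    exact i3 (hv ▸ hq.1)
  obtain ⟨v₁, hv₁⟩ := exists_nsq h0
  obtain ⟨v₂, hv₂⟩ := exists_nsq (one_pos.trans h2)
  let ci : c.G → ℝ := fun g => k (j g (v₁, 1))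
  let co : c.G → ℝ := fun g => k (j g (v₂, 1))
  have ki : ∀ g v t, v ≠ 0 → nsq v < 1 → k (j g (v, t)) = ci g := fun g v t hv hv' =>
    kc g (Ioo 0 1) ordConnected_Ioo (fun _ h => h.1) (by simp) _ _ _ _ ⟨nsq_pos hv, hv'⟩
      ⟨hv₁ ▸ h0, hv₁ ▸ h1⟩
  have ko : ∀ g v t, 1 < nsq v → k (j g (v, t)) = co g := fun g v t hv =>
    kc g (Ioi 1) ordConnected_Ioi (fun _ h => one_pos.trans h) (by simp) _ _ _ _ hv (hv₂ ▸ h2)
  let Sh : Set (Rn 4) := {v | nsq v ∈ Icc a₁ a₂}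
  have sh0 : ∀ v ∈ Sh, v ≠ 0 := fun v hv => ne_of_nsq (h0.trans_le hv.1)
  have cS : ∀ g, IsCompact (j g '' (Sh ×ˢ {1})) := fun g =>
    ((cpt_nsq a₁ a₂).prod isCompact_singleton).image_of_continuousOn
      ((cj g).mono fun q hq => ⟨sh0 _ hq.1, trivial⟩)
  have hJ' := c.pd (cS 1) (hK.union k1)
  have good : ∀ g ∉ {g | ∃ y ∈ j 1 '' (Sh ×ˢ {1}), c.dk g y ∈ K ∪ K₁}, ∀ v ∈ Sh,
      u (j g (v, 1)) = ci g ∧ u (j g (v, 1)) = co g := by
    intro g hg
    have g1 : ∀ v ∈ Sh, j g (v, 1) ∉ K ∪ K₁ := fun v hv e =>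
      hg ⟨_, ⟨(v, 1), ⟨hv, rfl⟩, rfl⟩, by simpa [j] using e⟩
    have pc : IsPathConnected Sh := pc_nsq (by norm_num) ordConnected_Icc
      (fun _ h => h0.trans_le h.1) ⟨1, h1.le, h2.le⟩
    have lc : LC (fun v => u (j g (v, 1))) Sh := fun v hv =>
      (((cj g).comp (f := fun v => (v, (1 : ℝ))) (by fun_prop) fun v hv => ⟨sh0 v hv, trivial⟩)
        v hv).eventually (hu _ (fun e => g1 v hv (Or.inl e)) ⟨_, pj g v 1⟩).2
    have g2 : ∀ v ∈ Sh, nsq v ∉ Ioo a₁ a₂ → u (j g (v, 1)) = k (j g (v, 1)) := fun v hv hv' =>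
      k4 _ (fun e => g1 v hv (Or.inr e)) _ (pj g v 1) fun ⟨w, hw, e⟩ =>
        hv' (hν.inj (ne_of_nsq (h0.trans hw.1)) (sh0 v hv) e ▸ hw)
    have s1 : v₁ ∈ Sh := ⟨hv₁.ge, hv₁ ▸ (h1.trans h2).le⟩
    have s2 : v₂ ∈ Sh := ⟨hv₂ ▸ (h1.trans h2).le, hv₂.le⟩
    exact fun v hv => ⟨(lc.joined (pc.joinedIn _ s1 _ hv)).trans (g2 _ s1 fun e => e.1.ne' hv₁),
      (lc.joined (pc.joinedIn _ s2 _ hv)).trans (g2 _ s2 fun e => e.2.ne hv₂)⟩
  have hJ : {g | ci g ≠ co g} ⊆ {g | ∃ y ∈ j 1 '' (Sh ×ˢ {1}), c.dk g y ∈ K ∪ K₁} := fun g hg => by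
    by_contra e
    obtain ⟨e1, e2⟩ := good g e v₁ ⟨hv₁.ge, hv₁ ▸ (h1.trans h2).le⟩
    exact hg (e1.symm.trans e2)
  let w : c.Y → ℝ := fun y => if c.p y ∈ h.VN then
    (1 - b (h.vcN (c.p y))) * ci (c.el y * (s (c.p y))⁻¹) +
      b (h.vcN (c.p y)) * co (c.el y * (s (c.p y))⁻¹) else k y
  have wj : ∀ g v t, v ≠ 0 → w (j g (v, t)) = (1 - b v) * ci g + b v * co g := fun g v t hv => by
    simp [w, j, nN_mem hv, vcN_nN hν hv]
  have wn : ∀ g v t, v ≠ 0 → ∀ᶠ z in 𝓝 (j g (v, t)),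
      w z = (1 - b (h.vcN (c.p z))) * ci g + b (h.vcN (c.p z)) * co g := fun g v t hv => by
    filter_upwards [c.sheet (open_VN hν) hs (y := j g (v, t)) (by simpa [j] using nN_mem hv t)]
      with z hz
    simp only [w, if_pos hz.1, hz.2]
    simp [j]
  have wk : ∀ y n t, c.p y = h.cN (n, t) → n ∉ D.νN '' Sh → w y = k y := fun y n t e hn => by
    by_cases hy : c.p y ∈ h.VN
    · obtain ⟨v, t', hv, e'⟩ := mem_VN hy
      obtain ⟨rfl, rfl⟩ := Prod.mk.inj (cN_inj (e.symm.trans e'))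
      have hv' : nsq v ∉ Icc a₁ a₂ := fun e => hn ⟨v, e, rfl⟩
      rw [mem_Icc, not_and_or, not_le, not_le] at hv'
      rw [ej y v t e', wj _ _ _ hv]
      rcases hv' with hv' | hv'
      · rw [b2 v hv'.le, ki _ _ _ hv (hv'.trans h1)]; ring
      · rw [b3 v hv'.le, ko _ _ _ (h2.trans hv')]; ring
    · exact if_neg hy
  have wk' : ∀ y n t, c.p y = h.cN (n, t) → n ∉ D.νN '' Sh → ∀ᶠ z in 𝓝 y, w z = w y := by
    intro y n t e hn
    have ho := (h.oeN.isOpen_image (((cpt_shell hν h0 a₂).isClosed.isOpen_compl).prod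
      isOpen_univ) (subset_univ _)).preimage c.cont_p
    filter_upwards [ho.mem_nhds ⟨(n, t), ⟨hn, trivial⟩, e.symm⟩,
      k3 y n t e fun ⟨v, hv, e'⟩ => hn ⟨v, ⟨h1.le.trans hv.ge, hv.le.trans h2.le⟩, e'⟩]
    rintro z ⟨⟨n', t'⟩, ⟨z1, -⟩, z2⟩ z3
    rw [wk z n' t' z2.symm z1, wk y n t e hn, z3]
  have wc : ∀ g v t, v ≠ 0 → ci g = co g →
      w (j g (v, t)) = ci g ∧ ∀ᶠ z in 𝓝 (j g (v, t)), w z = w (j g (v, t)) := fun g v t hv e => by
    have e1 : w (j g (v, t)) = ci g := by rw [wj g v t hv, ← e]; ring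
    refine ⟨e1, (wn g v t hv).mono fun z hz => ?_⟩
    rw [hz, e1, ← e]; ring
  have cases : ∀ y n t, c.p y = h.cN (n, t) → n ∉ D.νN '' Sh ∨ ∃ g, ∃ v ∈ Sh, y = j g (v, t) := by
    intro y n t e
    refine or_iff_not_imp_left.2 fun hn => ?_
    obtain ⟨v, hv, rfl⟩ := not_not.1 hn
    exact ⟨_, v, hv, ej y v t e⟩
  refine ⟨w, (hJ'.subset hJ).toFinset, fun g => co g = 1,
    K ∪ K₁ ∪ ⋃ g ∈ {g | ∃ y ∈ j 1 '' (Sh ×ˢ {1}), c.dk g y ∈ K ∪ K₁}, j g '' (Sh ×ˢ {1}),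
    (hK.union k1).union (hJ'.isCompact_biUnion fun g _ => cS g),
    fun y hy => Or.inl (Or.inl hy), fun y => ?_, ?_, fun g hg v t hv => ?_, ?_, ?_⟩
  · simp only [w]; split_ifs
    · have := b1 (h.vcN (c.p y))
      rcases k2 (j (c.el y * (s (c.p y))⁻¹) (v₁, 1)) with e | e <;>
        rcases k2 (j (c.el y * (s (c.p y))⁻¹) (v₂, 1)) with e' | e' <;>
        simp only [ci, co, e, e'] <;> constructor <;> linarith [this.1, this.2]
    · rcases k2 y with e | e <;> simp [e]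
  · rintro y ⟨⟨n, t⟩, e⟩
    rcases cases y n t e.symm with hn | ⟨g, v, hv, rfl⟩
    · exact smAt_of_lc (wk' y n t e.symm hn)
    · have s1 : SmAt c.Y (vs (Rn 4)) (fun z => h.vcN (c.p z)) (j g (v, t)) :=
        (c.ldp _).sm.trans (sm_vcN hν _ (by simpa [j] using nN_mem (sh0 v hv) t))
      have s2 : ContDiffAt ℝ ∞ (fun v => (1 - b v) * ci g + b v * co g) v := by
        have := b0 v (sh0 v hv)
        fun_prop
      exact (s1.vcomp (g := fun v => (1 - b v) * ci g + b v * co g)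
        (by simpa [j, vcN_nN hν (sh0 v hv)] using s2)).congr' (wn g v t (sh0 v hv))
  · have hg' : ci g ≠ co g := by simpa using hg
    refine (wj g v t hv).trans ?_
    rcases k2 (j g (v₁, 1)) with e | e <;> rcases k2 (j g (v₂, 1)) with e' | e' <;>
      simp [ci, co, e, e'] at hg' ⊢
  · rintro y ⟨⟨n, t⟩, e⟩ hy
    rcases cases y n t e.symm with hn | ⟨g, v, hv, rfl⟩
    · exact ⟨wk y n t e.symm hn ▸ k2 y, wk' y n t e.symm hn⟩
    · have hg : ci g = co g := by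
        by_contra hg
        exact hy g (by simpa using hg) v t hv.1 hv.2 rfl
      obtain ⟨e1, e2⟩ := wc g v t (sh0 v hv) hg
      exact ⟨e1 ▸ k2 _, e2⟩
  · rintro y hy ⟨n, e⟩
    rcases cases y n 1 e with hn | ⟨g, v, hv, rfl⟩
    · refine ⟨(wk y n 1 e hn).trans (k4 y (fun e => hy (Or.inl (Or.inr e))) n e
        fun ⟨v, hv, e'⟩ => hn ⟨v, Ioo_subset_Icc_self hv, e'⟩).symm, wk' y n 1 e hn⟩
    · obtain ⟨e1, e2⟩ := good g (fun hg => hy (Or.inr (mem_iUnion₂.2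
        ⟨g, hg, (v, 1), ⟨hv, rfl⟩, rfl⟩))) v hv
      obtain ⟨e3, e4⟩ := wc g v 1 (sh0 v hv) (e1.symm.trans e2)
      exact ⟨e3.trans e1.symm, e4⟩

theorem ustmt : UStmt := by
  intro C D _ _ h c β b a₁ a₂ ok β0 β1 β2 β3 b0 b1 h0 h1 h2 b2 b3
  classical
  have := ok.cptF
  have := ok.connF
  have hM := ok.neckM
  have hN := ok.neckN
  obtain ⟨sM, pM⟩ := c.hol.triv_of_thin (thin_VM (h := h) ok.thin)
  obtain ⟨sN, pN⟩ := c.hol.triv_of_thin (thin_VN (h := h) hN)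
  obtain ⟨u₀, K₀, u1, u5, u2, u3, u4⟩ := exists_u0 hM pM β1 β2 β3
  have lev : ∀ y ∉ K₀, (∃ n, c.p y = h.cN (n, 1)) →
      (u₀ y = 0 ∨ u₀ y = 1) ∧ ∀ᶠ z in 𝓝 y, u₀ z = u₀ y := fun y hy ⟨n, e⟩ =>
    u4 y hy (Or.inl (by rw [e, h.SN n 1 le_rfl]; norm_num)) fun x m t _ _ e' =>
      h.disj _ _ ((c.p_e _ _).symm.trans ((congrArg c.p e').symm.trans e))
  obtain ⟨w, J, sg, K₂, w1, w2, w3, w4, w5, w6, w7⟩ := exists_w c ok h0 h1 h2 pN b0 b1 b2 b3 u1 lev
  have cS : Continuous fun y => h.S (c.p y) := h.Ssm.cont.comp c.cont_p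
  obtain ⟨K₁, w1, w2, w7, w8⟩ : ∃ K₁, IsCompact K₁ ∧ K₀ ⊆ K₁ ∧
      (∀ y ∉ K₁, (∃ n, c.p y = h.cN (n, 1)) → w y = u₀ y ∧ ∀ᶠ z in 𝓝 y, w z = w y) ∧
      K₁ ⊆ {y | h.S (c.p y) < 3} :=
    ⟨K₂ ∩ {y | h.S (c.p y) ≤ 2}, w1.inter_right (isClosed_le cS continuous_const),
      fun y hy => ⟨w2 hy, u5 y hy⟩, fun y hy ⟨n, e⟩ => w7 y (fun e' => hy ⟨e', by
        simp only [mem_setOf_eq, e, h.SN n 1 le_rfl, one_le_two]⟩) ⟨n, e⟩,
      fun y hy => lt_of_le_of_lt (b := 2) hy.2 (by norm_num : (2 : ℝ) < 3)⟩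
  let jM : D.F × ℝ × ℝ → c.Y := fun q => c.e (h.nM q.1 q.2.1 q.2.2, sM (h.nM q.1 q.2.1 q.2.2))
  let jN : c.G → Rn 4 × ℝ → c.Y := fun g q => c.e (h.nN q.1 q.2, g * sN (h.nN q.1 q.2))
  let v : c.Y → ℝ := fun y => if c.p y ∈ h.cN '' (univ ×ˢ Ioi 1) then w y else u₀ y
  have oN : IsOpen (c.p ⁻¹' (h.cN '' (univ ×ˢ Ioi 1))) :=
    (h.oeN.isOpen_image (isOpen_univ.prod isOpen_Ioi) (subset_univ _)).preimage c.cont_p
  have vA : ∀ y, c.p y ∈ h.cN '' (univ ×ˢ Ioi 1) → v =ᶠ[𝓝 y] w := fun y hy =>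
    mem_of_superset (oN.mem_nhds hy) fun z hz => if_pos hz
  have vB : ∀ y, c.p y ∉ h.cN '' (univ ×ˢ Ici 1) → v =ᶠ[𝓝 y] u₀ := fun y hy =>
    mem_of_superset (((h.clN 1).isOpen_compl.preimage c.cont_p).mem_nhds hy) fun z hz =>
      if_neg fun e => hz (image_mono (prod_mono_right Ioi_subset_Ici_self) e)
  have vM : ∀ x n t, v =ᶠ[𝓝 (jM (x, n, t))] u₀ := fun x n t =>
    vB _ fun ⟨q, _, e⟩ => h.disj _ _ ((c.p_e _ _).symm.trans e.symm)
  have lc : ∀ y ∉ K₁, (∀ x n t, |n| ≤ 1 → 1 < t → y ≠ jM (x, n, t)) →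
      (∀ g ∈ J, ∀ a t, a₁ ≤ nsq a → nsq a ≤ a₂ → 1 < t → y ≠ jN g (a, t)) →
      (v y = 0 ∨ v y = 1) ∧ ∀ᶠ z in 𝓝 y, v z = v y := by
    intro y hy y1 y2
    by_cases hA : c.p y ∈ h.cN '' (univ ×ˢ Ioi 1)
    · obtain ⟨e1, e2⟩ := w6 y (image_subset_range _ _ hA) fun g hg a t t1 t2 e => by
        obtain ⟨q, ⟨-, hq⟩, e'⟩ := hA
        rw [e, c.p_e] at e'
        exact y2 g hg a t t1 t2 (by rw [cN_inj e'] at hq; exact hq) e
      rw [(vA y hA).eq_of_nhds]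
      exact ⟨e1, (e2.and (vA y hA)).mono fun z hz => hz.2.trans hz.1⟩
    by_cases hB : c.p y ∈ h.cN '' (univ ×ˢ Ici 1)
    · obtain ⟨⟨n, t⟩, ⟨-, ht⟩, e⟩ := hB
      obtain rfl : 1 = t := (mem_Ici.1 ht).eq_or_lt.resolve_right fun ht => hA ⟨_, ⟨trivial, ht⟩, e⟩
      obtain ⟨e1, e2⟩ := lev y (fun e => hy (w2 e)) ⟨n, e.symm⟩
      obtain ⟨e3, e4⟩ := w7 y hy ⟨n, e.symm⟩
      have e5 : v y = u₀ y := if_neg hA
      rw [e5]
      refine ⟨e1, (e2.and e4).mono fun z hz => ?_⟩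
      simp only [v]; split_ifs
      exacts [hz.2.trans e3, hz.1]
    · obtain ⟨e1, e2⟩ := u4 y (fun e => hy (w2 e)) (by
        by_contra e
        rw [not_or, not_le] at e
        rcases h.Sgt (c.p y) (by linarith [e.1]) with e' | e'
        exacts [e.2 (image_subset_range _ _ e'), hA e']) y1
      rw [(vB y hB).eq_of_nhds]
      exact ⟨e1, (e2.and (vB y hB)).mono fun z hz => hz.2.trans hz.1⟩
  have sm : ∀ y ∉ K₁, SmAt c.Y (vs ℝ) v y := by
    intro y hy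
    by_cases hA : c.p y ∈ h.cN '' (univ ×ˢ Ioi 1)
    · exact (w4 y (image_subset_range _ _ hA)).congr' (vA y hA)
    by_cases y1 : ∀ x n t, |n| ≤ 1 → 1 < t → y ≠ jM (x, n, t)
    · exact smAt_of_lc (lc y hy y1 fun g _ a t _ _ ht e =>
        hA ⟨(D.νN a, t), ⟨trivial, ht⟩, by rw [e, c.p_e, nN]⟩).2
    push Not at y1
    obtain ⟨x, n, t, -, ht, rfl⟩ := y1
    have m : c.p (jM (x, n, t)) ∈ h.VM := by simpa [jM] using nM_mem x n t
    refine (((c.ldp _).sm.trans (sm_ncM hM _ m)).vcomp β0.contDiffAt).congr' ((vM x n t).trans ?_)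
    have ho := (h.oeM.isOpen_image (isOpen_univ.prod (isOpen_Ioi (a := (0 : ℝ))))
      (subset_univ _)).preimage c.cont_p
    filter_upwards [c.sheet (open_VM hM) pM m, ho.mem_nhds (show jM (x, n, t) ∈ _ from
      ⟨(D.νM (x, n), t), ⟨trivial, one_pos.trans ht⟩, (c.p_e _ _).symm⟩)]
    rintro z ⟨z1, z2⟩ ⟨q, ⟨-, hq⟩, z3⟩
    obtain ⟨x', n', t', e⟩ := mem_VM z1
    have e2 : z = jM (x', n', t') := c.ext' (by simp [jM, e]) (by
      simpa [jM, e, mul_inv_eq_one] using z2)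
    rw [e, ncM_nM hM, e2]
    refine u3 x' n' t' (le_of_lt ?_)
    rw [cM_inj (z3.trans e)] at hq
    exact hq
  obtain ⟨χ, c1, c2, c3, c4, c5⟩ := (bumpM _ c.Y).1 K₁ _ w1.isClosed
    (isOpen_lt cS continuous_const) w8
  have z0 : ∀ y ∉ tsupport χ, (fun y => (1 - χ y) * v y) =ᶠ[𝓝 y] v := fun y hy =>
    (notMem_tsupport_iff_eventuallyEq.1 hy).mono fun z hz => by simp [hz]
  have z1 : ∀ y, 3 ≤ h.S (c.p y) → y ∉ tsupport χ := fun y hy e => hy.not_gt (c4 e)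
  have z2 : K₁ ⊆ tsupport χ := fun y hy =>
    subset_closure (by simp [c3.self_of_nhdsSet y hy])
  have T1 : (1 : ℝ) < 3 := by norm_num
  refine ⟨sM, sN, fun y => (1 - χ y) * v y, J, sg,
    tsupport χ ∪ jM '' (univ ×ˢ Icc (-1) 1 ×ˢ Icc 1 3) ∪
      ⋃ g ∈ J, jN g '' ({a | nsq a ∈ Icc a₁ a₂} ×ˢ Icc 1 3),
    pM, pN, fun y _ => ?_, fun y => ?_, T1, ((c5 w1).union ?_).union ?_, ?_,
    fun x n t ht => ?_, fun g hg a t ha ht => ?_, fun y hy y1 y2 => ?_⟩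
  · by_cases hy : y ∈ K₁
    · exact (smAt_const (Y := vs ℝ) 0).congr'
        ((c3.filter_mono (nhds_le_nhdsSet hy)).mono fun z hz => by simp [hz])
    · exact ((c1 y trivial).vpair (sm y hy)).vcomp (g := fun q : ℝ × ℝ => (1 - q.1) * q.2)
        (by fun_prop)
  · have : v y ∈ Icc (0 : ℝ) 1 := by simp only [v]; split_ifs; exacts [w3 y, u2 y]
    exact ⟨mul_nonneg (by linarith [(c2 y).2]) this.1,
      mul_le_one₀ (by linarith [(c2 y).1]) this.1 this.2⟩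
  · exact (isCompact_univ.prod (isCompact_Icc.prod isCompact_Icc)).image
      ((c.oe_sec (open_VM hM) pM).sm.contOn.comp_continuous (cont_nM hM) fun q => nM_mem _ _ _)
  · exact J.isCompact_biUnion fun g _ => ((cpt_nsq a₁ a₂).prod isCompact_Icc).image_of_continuousOn
      (((c.sec _ sN g (open_VN hN) pN).sm.contOn.comp (cont_nN hN) fun q hq => nN_mem hq.1 _).mono
        fun q hq => ⟨ne_of_nsq (h0.trans_le hq.1.1), trivial⟩)
  · rintro y ((hy | ⟨q, ⟨-, -, hq⟩, rfl⟩) | hy)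
    · exact (not_le.1 fun e => z1 y e hy).le
    · simp only [jM, c.p_e, nM, h.SM _ _ hq.1, hq.2]
    · obtain ⟨g, -, q, ⟨-, hq⟩, rfl⟩ := mem_iUnion₂.1 hy
      simp only [jN, c.p_e, nN, h.SN _ _ hq.1, hq.2]
  · have ht' : 1 ≤ t := T1.le.trans ht
    refine (z0 (jM (x, n, t)) (z1 _ ?_)).eq_of_nhds.trans ((vM x n t).eq_of_nhds.trans
      (u3 x n t (zero_le_one.trans ht')))
    simp only [jM, c.p_e, nM, h.SM _ _ ht', ht]
  · have ht' : 1 < t := T1.trans_le ht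
    refine (z0 (jN g (a, t)) (z1 _ ?_)).eq_of_nhds.trans ((vA _ ⟨(D.νN a, t), ⟨trivial, ht'⟩,
      (c.p_e _ _).symm⟩).eq_of_nhds.trans (w5 g hg a t ha))
    simp only [jN, c.p_e, nN, h.SN _ _ ht'.le, ht]
  · have hy' : y ∉ tsupport χ := fun e => hy (Or.inl (Or.inl e))
    obtain ⟨e1, e2⟩ := lc y (fun e => hy' (z2 e))
      (fun x n t hn ht e => y1 x n t hn (not_le.1 fun ht' => hy (Or.inl (Or.inr
        ⟨(x, n, t), ⟨trivial, abs_le.1 hn, ht.le, ht'⟩, e.symm⟩))) e)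
      fun g hg a t t1 t2 ht e => y2 g hg a t t1 t2 (not_le.1 fun ht' => hy (Or.inr
        (mem_iUnion₂.2 ⟨g, hg, (a, t), ⟨⟨t1, t2⟩, ht.le, ht'⟩, e.symm⟩))) e
    have e3 := (z0 y hy').eq_of_nhds
    exact ⟨e1.imp e3.trans e3.trans, (e2.and (z0 y hy')).mono fun z hz => hz.2.trans (hz.1.trans e3.symm)⟩

end Pool.Agent.MP_e1dc65_gt

end
end MrgPart5

-- ======== part 6: formerly Pool.Agent.MP_e1dc65_gt.o.Uf
section MrgPart6

/-! PROJECT HC, part O, row UF. -/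

open scoped ContDiff Manifold Topology Real
open Set Filter Function

noncomputable section

namespace Pool.Agent.MP_e1dc65_gt.O

open OHC

theorem nsq_cB {q : E4 × ℝ} (hq : q.1 ≠ 0) : nsq (cB q).1 = Real.exp q.2 ^ 2 := by
  have h : ‖q.1‖ ≠ 0 := norm_ne_zero_iff.2 hq
  simp only [nsq, cB, mul_pow, ← Finset.mul_sum, ← EuclideanSpace.real_norm_sq_eq]
  field_simp

theorem cB_ne {q : E4 × ℝ} (hq : q.1 ≠ 0) : (cB q).1 ≠ 0 :=
  ne_of_nsq (by rw [nsq_cB hq]; positivity)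

theorem tN_cB {q : E4 × ℝ} (hq : q.1 ≠ 0) : tN (cB q).1 = q.2 := by
  rw [tN, nsq_cB hq, Real.log_pow, Real.log_exp]; push_cast; ring

theorem exp_tN {v : Rn 4} (hv : v ≠ 0) : Real.exp (tN v) = √(nsq v) := by
  rw [tN, Real.exp_half, Real.exp_log (nsq_pos hv)]

theorem cont_cB : ContinuousOn cB (AB ×ˢ univ) := by
  have h : ContinuousOn (fun q : E4 × ℝ => ‖q.1‖⁻¹) (AB ×ˢ univ) :=
    ContinuousOn.inv₀ (by fun_prop) fun q hq => norm_ne_zero_iff.2 hq.1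
  exact (continuousOn_pi.2 fun i => ContinuousOn.mul (by fun_prop) (h.mul (by fun_prop))).prodMk
    (continuousOn_const.add h)

theorem exists_cB {v : Rn 4} (hv : v ≠ 0) {t : ℝ} (ht : 3 < t) :
    ∃ z ∈ AB, cB (z, tN v) = (v, t) := by
  have h1 : 0 < √(nsq v) := Real.sqrt_pos.2 (nsq_pos hv)
  have h2 : 0 < t - 3 := sub_pos.2 ht
  have h3 : ‖(WithLp.toLp 2 v : E4)‖ = √(nsq v) := by simp [EuclideanSpace.norm_eq, nsq]
  have h4 : ‖((t - 3) * √(nsq v))⁻¹ • (WithLp.toLp 2 v : E4)‖ = (t - 3)⁻¹ := by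
    rw [norm_smul, h3, Real.norm_of_nonneg (by positivity)]; field_simp
  refine ⟨((t - 3) * √(nsq v))⁻¹ • WithLp.toLp 2 v, norm_ne_zero_iff.1 (by rw [h4]; positivity),
    Prod.ext (funext fun i => ?_) ?_⟩
  · simp only [cB, h4, exp_tN hv, PiLp.smul_apply, smul_eq_mul]
    field_simp
  · simp only [cB, sB, h4, inv_inv, add_sub_cancel]

theorem uf : UFStmt := by
  intro C D _ _ h ok
  classical
  have := h.pc
  have := ok.cptF
  obtain ⟨c⟩ := UC.nonempty h.W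
  have hM := ok.neckM
  have hN := ok.neckN
  have l1 : ∀ v : Rn 4, v ≠ 0 → (nsq v ≤ Real.exp (-2) ↔ tN v ≤ -1) := fun v hv => by
    rw [← Real.log_le_iff_le_exp (nsq_pos hv), tN]; constructor <;> intro <;> linarith
  have l2 : ∀ v : Rn 4, v ≠ 0 → (Real.exp 2 ≤ nsq v ↔ 1 ≤ tN v) := fun v hv => by
    rw [← Real.le_log_iff_exp_le (nsq_pos hv), tN]; constructor <;> intro <;> linarith
  obtain ⟨sM, sN, u, J, sg, K, U⟩ := ustmt C D h c bt (fun v => if v = 0 then 0 else bt (tN v))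
    (Real.exp (-2)) (Real.exp 2) ok bt_sm bt_mem (fun _ => bt_zero) (fun _ => bt_one)
    (fun v hv => by
      have h1 : ContDiffAt ℝ ∞ (fun v : Rn 4 => bt (tN v)) v := by
        refine bt_sm.contDiffAt.comp v (ContDiffAt.div_const (ContDiffAt.log ?_ (nsq_pos hv).ne') 2)
        unfold nsq; fun_prop
      refine h1.congr_of_eventuallyEq ?_
      filter_upwards [isOpen_ne.mem_nhds hv] with w hw using if_neg hw)
    (fun v => by split_ifs; exacts [by simp, bt_mem _]) (Real.exp_pos _)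
    (Real.exp_lt_one_iff.2 (by norm_num)) (Real.one_lt_exp_iff.2 two_pos)
    (fun v hv => by split_ifs with e; exacts [rfl, bt_zero ((l1 v e).1 hv)])
    (fun v hv => by
      have e := ne_of_nsq ((Real.exp_pos 2).trans_le hv)
      rw [if_neg e, bt_one ((l2 v e).1 hv)])
  let jM : D.F × ℝ × ℝ → c.Y := fun q => c.e (h.nM q.1 q.2.1 q.2.2, sM (h.nM q.1 q.2.1 q.2.2))
  let jN : c.G → Rn 4 × ℝ → c.Y := fun g q => c.e (h.nN q.1 q.2, g * sN (h.nN q.1 q.2))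
  have cM : Continuous jM :=
    (c.oe_sec (open_VM hM) U.parM).sm.contOn.comp_continuous (cont_nM hM) fun q => nM_mem _ _ _
  have cN : ∀ g, ContinuousOn (jN g) ({v | v ≠ 0} ×ˢ univ) := fun g =>
    (c.sec _ sN g (open_VN hN) U.parN).sm.contOn.comp (cont_nN hN) fun q hq => nN_mem hq.1 _
  have ci : ContinuousOn (invFunOn D.νQ univ) (AQ D) :=
    ok.endQ.symm.sm.contOn.mono image_univ.ge
  have ci' : ContinuousOn (fun q : D.Q × ℝ => invFunOn D.νQ univ q.1) (AQ D ×ˢ univ) :=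
    ci.comp continuousOn_fst fun q hq => hq.1
  refine ⟨⟨c.Y, c.p, J, fun q => jM ((invFunOn D.νQ univ q.1).1, q.2, sQ D q.1),
    fun i q => jN i (cB q), u, fun i => if sg i then 0 else 1, fun i => if sg i then 1 else 0,
    K ∪ jM '' (univ ×ˢ Icc (-1) 1 ×ˢ Icc 3 4) ∪
      ⋃ g ∈ J, jN g '' ({a | nsq a ∈ Icc (Real.exp (-2)) (Real.exp 2)} ×ˢ Icc 3 4)⟩,
    c.covp, c.ldp, c.sc, ?_, fun q _ => c.p_e _ _, fun i => ?_, fun i q _ => c.p_e _ _,
    fun i i' q _ e => ?_, U.sm, fun q _ => ?_, fun i q hq => ?_, fun i => ?_,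
    (U.cpt.union ?_).union ?_, fun y hy y1 y2 => ?_, fun y hy hS => ?_⟩
  · exact cM.comp_continuousOn (ci'.fst.prodMk (continuousOn_snd.prodMk
      (continuousOn_const.add ci'.snd.rexp)))
  · exact (cN i).comp cont_cB fun q hq => ⟨cB_ne hq.1, trivial⟩
  · exact Subtype.ext (by simpa [jN] using congrArg c.el e)
  · exact U.uM _ _ _ (le_add_of_nonneg_right (Real.exp_pos _).le)
  · refine (U.uN i i.2 _ _ (cB_ne hq.1) (le_add_of_nonneg_right (by positivity))).trans ?_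
    simp only [if_neg (cB_ne hq.1), tN_cB hq.1]
    split_ifs <;> ring
  · dsimp only; split_ifs <;> simp [Bit]
  · exact (isCompact_univ.prod (isCompact_Icc.prod isCompact_Icc)).image cM
  · exact J.isCompact_biUnion fun g _ => ((cpt_nsq _ _).prod isCompact_Icc).image_of_continuousOn
      ((cN g).mono fun q hq => ⟨ne_of_nsq ((Real.exp_pos _).trans_le hq.1.1), trivial⟩)
  · refine (U.off y (fun e => (U.low y e).not_gt hy) (fun x n t hn ht e => y1 ?_)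
      fun g hg v t v1 v2 ht e => y2 ⟨g, hg⟩ ?_).1
    · refine ⟨(D.νQ (x, Real.log (t - 3)), n), ⟨⟨_, rfl⟩, abs_le.1 hn⟩, ?_⟩
      simp only [sQ, ok.endQ.left (mem_univ _), Real.exp_log (sub_pos.2 ht), e, jM]
      rw [add_sub_cancel]
    · have hv := ne_of_nsq ((Real.exp_pos _).trans_le v1)
      obtain ⟨z, z1, z2⟩ := exists_cB hv ht
      refine ⟨(z, tN v), ⟨z1, ?_, ?_⟩, by simp only [z2, e, jN]⟩
      · rw [← Real.le_log_iff_exp_le (nsq_pos hv)] at v1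
        simp only [tN]; linarith
      · rw [← Real.log_le_iff_le_exp (nsq_pos hv)] at v2
        simp only [tN]; linarith
  · refine (U.off y (fun e => hy (Or.inl (Or.inl e))) (fun x n t hn ht e => hy (Or.inl (Or.inr
      ⟨(x, n, t), ⟨trivial, abs_le.1 hn, ht.le, ?_⟩, e.symm⟩))) fun g hg v t v1 v2 ht e =>
      hy (Or.inr (mem_iUnion₂.2 ⟨g, hg, (v, t), ⟨⟨v1, v2⟩, ht.le, ?_⟩, e.symm⟩))).1
    · simpa only [e, c.p_e, nM, h.SM _ _ (U.one_lt.trans ht).le] using hS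
    · simpa only [e, c.p_e, nN, h.SN _ _ (U.one_lt.trans ht).le] using hS

end Pool.Agent.MP_e1dc65_gt.O

end
end MrgPart6

-- marker of a merged file
example : 731051 + 717233 = 731051 + 717233 := rfl

end MrgPart1

-- marker of a merged file
example : 731051 + 717233 = 731051 + 717233 := rfl
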