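import Pool.Agent.MP_e1dc65_gt.fm.Pd1
import Pool.Agent.MP_e1dc65_gt.o.Flat
import Pool.Agent.MP_e1dc65_gt.fm.Cw3
import Pool.Agent.MP_e1dc65_gt.fm.Pd3
import Pool.Agent.MP_e1dc65_gt.fm.Sard
import Pool.Agent.MP_e1dc65_gt.o.Iso
import Pool.Agent.MP_e1dc65_gt.o.Uf
import Pool.Agent.MP_e1dc65_gt.e.B
import Pool.Agent.MP_e1dc65_gt.o.Dbl3
import Pool.Agent.MP_e1dc65_gt.t2.Kill
import Pool.Agent.MP_e1dc65_gt.t4.MidA
import Pool.Agent.MP_e1dc65_gt.t.Core

/-! PROJECT HC, part O: the rows put together. -/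

namespace Pool.Agent.MP_e1dc65_gt

open O in
theorem partO (hS : SigStmt) (hD : DiracStmt) : OStmt :=
  have hI := intM_api volM
  have hT := levInt hI (intOE volM) homM oriCalc
  have h2 := cw2 cw1
  asm B.collar caps uf plus' (sig0 hS hat (nf triv) chain (iso hT) hlift levM hT oriCalc h2)
    (pontLev h2) (spw lift hlift) spz port dbl1 (dbl2 flat) dbl3 hI levM hT oriCalc h2 (cw3 h2) hD

end Pool.Agent.MP_e1dc65_gt
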